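import Mathlib

set_option autoImplicit false

/-!
Embeddings of a number field generated by a Weil number in a Galois extension, and eigenvectors of
algebra endomorphisms.
-/

namespace Pool.Agent.H78.TB

open Polynomial IntermediateField

section
variable {E L : Type*} [Field E] [NumberField E] [Field L] [NumberField L] [IsGalois ℚ L]

theorem hom_ext_gen {R : Type*} [Field R] [Algebra ℚ R] {π : E} (hgen : ℚ⟮π⟯ = ⊤)
    {φ ψ : E →ₐ[ℚ] R} (h : φ π = ψ π) : φ = ψ := by
  have hA : Algebra.adjoin ℚ {π} = ⊤ := by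
    rw [← adjoin_simple_toSubalgebra_of_isAlgebraic (Algebra.IsAlgebraic.isAlgebraic π), hgen]
    rfl
  apply AlgHom.ext_of_adjoin_eq_top hA
  intro x hx
  rw [Set.mem_singleton_iff] at hx
  rw [hx, h]

/-- Galois conjugation acts on embeddings. -/
@[reducible] def act : MulAction (L ≃ₐ[ℚ] L) (E →ₐ[ℚ] L) where
  smul σ φ := (σ : L →ₐ[ℚ] L).comp φ
  one_smul φ := by ext; rfl
  mul_smul σ τ φ := by ext; rfl

theorem minpoly_hom {R : Type*} [Field R] [Algebra ℚ R] (φ : E →ₐ[ℚ] R) (x : E) :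
    minpoly ℚ (φ x) = minpoly ℚ x :=
  minpoly.algHom_eq φ φ.injective x

theorem exists_conj {π : E} (hgen : ℚ⟮π⟯ = ⊤) (φ ψ : E →ₐ[ℚ] L) :
    ∃ σ : L ≃ₐ[ℚ] L, (σ : L →ₐ[ℚ] L).comp φ = ψ := by
  have h : IsConjRoot ℚ (ψ π) (φ π) := by
    rw [isConjRoot_def, minpoly_hom, minpoly_hom]
  obtain ⟨σ, hσ⟩ := isConjRoot_iff_exists_algEquiv.mp h
  refine ⟨σ, hom_ext_gen hgen ?_⟩
  exact hσ

theorem exists_lift (i0 : E →ₐ[ℚ] L) {π : E} (hgen : ℚ⟮π⟯ = ⊤) {Ω : Type*} [Field Ω] [CharZero Ω]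
    (j : L →+* Ω) (φ : E →+* Ω) : ∃ ψ : E →ₐ[ℚ] L, ∀ z, φ z = j (ψ z) := by
  have hsplit : ((minpoly ℚ π).map (algebraMap ℚ L)).Splits := by
    rw [← minpoly_hom i0 π]
    exact Normal.splits inferInstance _
  let φ' : E →ₐ[ℚ] Ω := φ.toRatAlgHom
  let j' : L →ₐ[ℚ] Ω := j.toRatAlgHom
  have hroot : φ π ∈ (minpoly ℚ π).aroots Ω := by
    rw [mem_aroots]
    refine ⟨minpoly.ne_zero (Algebra.IsIntegral.isIntegral π), ?_⟩
    have : aeval (φ' π) (minpoly ℚ π) = 0 := by
      rw [aeval_algHom_apply, minpoly.aeval, map_zero]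
    exact this
  have hmap : (minpoly ℚ π).aroots Ω = ((minpoly ℚ π).aroots L).map j' := by
    rw [aroots_def, aroots_def]
    have : (minpoly ℚ π).map (algebraMap ℚ Ω) = ((minpoly ℚ π).map (algebraMap ℚ L)).map j := by
      rw [Polynomial.map_map]; congr 1; exact Subsingleton.elim _ _
    rw [this]
    exact hsplit.roots_map j
  rw [hmap, Multiset.mem_map] at hroot
  obtain ⟨β, hβ, hβ2⟩ := hroot
  have hex : ∃ ψ : E →ₐ[ℚ] L, ψ π = β := by
    apply exists_algHom_of_splits_of_aeval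
    · intro s
      refine ⟨Algebra.IsIntegral.isIntegral s, ?_⟩
      rw [← minpoly_hom i0 s]
      exact Normal.splits inferInstance _
    · exact (mem_aroots.mp hβ).2
  obtain ⟨ψ, hψ⟩ := hex
  refine ⟨ψ, ?_⟩
  have : φ' = j'.comp ψ := by
    apply hom_ext_gen hgen
    change φ π = j' (ψ π)
    rw [hψ]; exact hβ2.symm
  intro z
  exact congrArg (fun f : E →ₐ[ℚ] Ω => f z) this

theorem exists_bar {π : E} {c : ℕ} (hc : c ≠ 0)
    (habs : ∀ φ : E →+* ℂ, ‖φ π‖ ^ 2 = (c : ℝ)) (φ : E →ₐ[ℚ] L) :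
    ∃ ψ : E →ₐ[ℚ] L, ψ π * φ π = (c : L) := by
  let jc : L →ₐ[ℚ] ℂ := (IsAlgClosed.lift (R := ℚ) (M := ℂ) (S := L))
  have hc' : (c:L) ≠ 0 := by exact_mod_cast hc
  have habs' : ‖jc (φ π)‖^2 = (c : ℝ) := habs (jc.comp φ).toRingHom
  have hφ0 : φ π ≠ 0 := by
    intro h
    rw [h, map_zero, norm_zero] at habs'
    have : (c:ℝ) ≠ 0 := by exact_mod_cast hc
    norm_num at habs'
    exact this habs'.symm
  have hjc0 : jc (φ π) ≠ 0 := by
    intro h; exact hφ0 ((map_eq_zero jc).mp h)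
  have hbar : jc ((c:L) / φ π) = (starRingEnd ℂ) (jc (φ π)) := by
    rw [map_div₀, map_natCast, div_eq_iff hjc0, mul_comm, Complex.mul_conj, Complex.normSq_eq_norm_sq, habs']
    simp
  have hroot : aeval ((c:L) / φ π) (minpoly ℚ (φ π)) = 0 := by
    have hinj : Function.Injective jc := jc.injective
    apply hinj
    rw [map_zero, ← aeval_algHom_apply, hbar]
    let s : ℂ →ₐ[ℚ] ℂ := (starRingEnd ℂ).toRatAlgHom
    have h1 : (starRingEnd ℂ) (jc (φ π)) = s (jc (φ π)) := rfl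
    rw [h1, aeval_algHom_apply, aeval_algHom_apply, minpoly.aeval, map_zero, map_zero]
  have hcr : IsConjRoot ℚ (φ π) ((c:L)/φ π) :=
    isConjRoot_of_aeval_eq_zero (Algebra.IsIntegral.isIntegral _) hroot
  obtain ⟨σ, hσ⟩ := isConjRoot_iff_exists_algEquiv.mp hcr.symm
  refine ⟨(σ : L →ₐ[ℚ] L).comp φ, ?_⟩
  change σ (φ π) * φ π = c
  rw [hσ, div_mul_cancel₀ _ hφ0]

end

theorem list_sum_count {X : Type*} [Fintype X] [DecidableEq X] (l : List X) (f : X → ℚ) :
    (l.map f).sum = ∑ x, (l.count x : ℚ) * f x := by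
  induction l with
  | nil => simp
  | cons a t ih =>
    rw [List.map_cons, List.sum_cons, ih]
    have : ∀ x, ((List.count x (a :: t) : ℕ) : ℚ) = (List.count x t : ℚ) + if x = a then 1 else 0 := by
      intro x
      rw [List.count_cons]
      by_cases h : x = a
      · subst h; simp
      · have h' : ¬ (a = x) := fun e => h e.symm
        simp [h, h']
    simp_rw [this, add_mul, Finset.sum_add_distrib, ite_mul, one_mul, zero_mul, Finset.sum_ite_eq', Finset.mem_univ,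
      if_true]
    ring

section linalg

variable {C W A : Type*} [Field C] [AddCommGroup W] [Module C W] [Ring A] [Algebra C A]

theorem perm_prod (ι : W →ₗ[C] A) (s : C) (hcomm : ∀ x y, ι x * ι y = s • (ι y * ι x))
    {l1 l2 : List W} (h : l1.Perm l2) : ∃ c : C, (l1.map ι).prod = c • (l2.map ι).prod := by
  induction h with
  | nil => exact ⟨1, by simp⟩
  | cons x _ ih =>
    obtain ⟨c, hc⟩ := ih
    exact ⟨c, by rw [List.map_cons, List.prod_cons, hc, List.map_cons, List.prod_cons, mul_smul_comm]⟩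
  | swap x y l =>
    refine ⟨s, ?_⟩
    rw [List.map_cons, List.map_cons, List.map_cons, List.map_cons, List.prod_cons, List.prod_cons,
      List.prod_cons, List.prod_cons, ← mul_assoc, ← mul_assoc, hcomm, smul_mul_assoc]
  | trans _ _ ih1 ih2 =>
    obtain ⟨c1, h1⟩ := ih1
    obtain ⟨c2, h2⟩ := ih2
    exact ⟨c1 * c2, by rw [h1, h2, smul_smul]⟩

theorem eigen_span {V : Type*} [AddCommGroup V] [Module C V] (T : Module.End C V) (B : Set V)
    (hB : ∀ b ∈ B, ∃ lam : C, T b = lam • b) (hspan : Submodule.span C B = ⊤) (mu : C) (x : V)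
    (hx : T x = mu • x) : x ∈ Submodule.span C {b | b ∈ B ∧ T b = mu • b} := by
  set S1 := Submodule.span C {b | b ∈ B ∧ T b = mu • b} with hS1
  set S2 := Submodule.span C {b | b ∈ B ∧ ∃ lam : C, lam ≠ mu ∧ T b = lam • b} with hS2
  have htop : S1 ⊔ S2 = ⊤ := by
    rw [eq_top_iff, ← hspan, Submodule.span_le]
    intro b hb
    obtain ⟨lam, hl⟩ := hB b hb
    by_cases h : lam = mu
    · subst h
      exact Submodule.mem_sup_left (Submodule.subset_span ⟨hb, hl⟩)
    · exact Submodule.mem_sup_right (Submodule.subset_span ⟨hb, lam, h, hl⟩)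
  have hxtop : x ∈ S1 ⊔ S2 := by rw [htop]; trivial
  obtain ⟨u, hu, u', hu', rfl⟩ := Submodule.mem_sup.mp hxtop
  have h1 : S1 ≤ T.eigenspace mu := by
    rw [hS1, Submodule.span_le]
    rintro b ⟨-, hb⟩
    exact Module.End.mem_eigenspace_iff.mpr hb
  have h2 : S2 ≤ ⨆ (lam : C) (_ : lam ≠ mu), T.eigenspace lam := by
    rw [hS2, Submodule.span_le]
    rintro b ⟨-, lam, hlam, hb⟩
    have : T.eigenspace lam ≤ ⨆ (lam : C) (_ : lam ≠ mu), T.eigenspace lam :=
      le_iSup₂_of_le lam hlam le_rfl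
    exact this (Module.End.mem_eigenspace_iff.mpr hb)
  have hdisj := (T.eigenspaces_iSupIndep) mu
  have hu'' : u' ∈ T.eigenspace mu := by
    have : u' = (u + u') - u := by abel
    rw [this]
    exact Submodule.sub_mem _ (Module.End.mem_eigenspace_iff.mpr hx) (h1 hu)
  have : u' = 0 := by
    have := Submodule.disjoint_def.mp hdisj u' hu'' (h2 hu')
    exact this
  rw [this, add_zero]; exact hu

end linalg

end Pool.Agent.H78.TB
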