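import Mathlib

set_option autoImplicit false

/-!
Odd integral relations among weights on a transitive set with an involution: they vanish when one
weight is isolated for some prime, and they are completely described when one weight dominates the
sum of all the others.
-/

namespace Pool.Agent.H78.TateComb

section fold

variable {G X : Type*} [Group G] [Fintype X] [MulAction G X]

open scoped Classical in
/-- folding an odd relation -/
theorem fold (bar : X → X) (hbb : ∀ x, bar (bar x) = x)
    (hbG : ∀ (g : G) x, bar (g • x) = g • bar x) (nu : X → ℚ) (hnu : ∀ x, nu (bar x) = - nu x)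
    (m : X → ℤ) (hm : ∀ x, m (bar x) = - m x)
    (hrel : ∀ g : G, ∑ x, (m (g • x) : ℚ) * nu x = 0) (g : G) :
    ∑ x ∈ Finset.univ.filter (fun x => 0 < nu x), (m (g • x) : ℚ) * nu x = 0 := by
  set S := Finset.univ.filter (fun x => nu x ≠ 0) with hS
  set P := Finset.univ.filter (fun x => 0 < nu x) with hP
  set Q := Finset.univ.filter (fun x => nu x < 0) with hQ
  have hbinj : Function.Injective bar := fun a b h => by
    have := congrArg bar h; rwa [hbb, hbb] at this
  have hSPQ : S = P ∪ Q := by
    ext x; simp only [hS, hP, hQ, Finset.mem_filter, Finset.mem_univ, true_and, Finset.mem_union]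
    constructor
    · intro h; exact (lt_or_gt_of_ne h).symm
    · rintro (h | h)
      · exact ne_of_gt h
      · exact ne_of_lt h
  have hdisj : Disjoint P Q := by
    rw [Finset.disjoint_left]
    intro x hx hx'
    simp only [hP, hQ, Finset.mem_filter, Finset.mem_univ, true_and] at hx hx'
    linarith
  have hQP : Q = P.image bar := by
    ext x
    simp only [hP, hQ, Finset.mem_filter, Finset.mem_univ, true_and, Finset.mem_image]
    constructor
    · intro h; exact ⟨bar x, by rw [hnu]; linarith, hbb x⟩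
    · rintro ⟨z, hz, rfl⟩; rw [hnu]; linarith
  have h1 : ∑ x, (m (g • x) : ℚ) * nu x = ∑ x ∈ S, (m (g • x) : ℚ) * nu x := by
    symm
    apply Finset.sum_subset (Finset.subset_univ _)
    intro x _ hx
    have : nu x = 0 := by
      by_contra h
      exact hx (by simp [hS, h])
    rw [this, mul_zero]
  have h2 : ∑ x ∈ Q, (m (g • x) : ℚ) * nu x = ∑ x ∈ P, (m (g • x) : ℚ) * nu x := by
    rw [hQP, Finset.sum_image (fun a _ b _ h => hbinj h)]
    apply Finset.sum_congr rfl
    intro x _
    rw [← hbG, hm, hnu]; push_cast; ring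
  have h3 := hrel g
  rw [h1, hSPQ, Finset.sum_union hdisj, h2] at h3
  linarith

end fold

section isolated

variable {G X : Type*} [Group G] [Fintype X] [MulAction G X] [MulAction.IsPretransitive G X]

/-- If the weight of one point (and of its conjugate) has strictly larger `l`-adic absolute value
than all other weights, then every odd integral relation vanishes. -/
theorem isolated (bar : X → X) (hbb : ∀ x, bar (bar x) = x)
    (hbG : ∀ (g : G) x, bar (g • x) = g • bar x) (nu : X → ℚ) (hnu : ∀ x, nu (bar x) = - nu x)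
    (l : ℕ) [Fact l.Prime] (y0 : X) (hy0 : nu y0 ≠ 0)
    (hiso : ∀ x, x ≠ y0 → x ≠ bar y0 → padicNorm l (nu x) < padicNorm l (nu y0))
    (m : X → ℤ) (hm : ∀ x, m (bar x) = - m x)
    (hrel : ∀ g : G, ∑ x, (m (g • x) : ℚ) * nu x = 0) (x : X) : m x = 0 := by
  classical
  -- we may assume that the isolated weight is positive
  obtain ⟨y, hy, hyiso⟩ : ∃ y, 0 < nu y ∧
      ∀ x, x ≠ y → x ≠ bar y → padicNorm l (nu x) < padicNorm l (nu y) := by
    rcases lt_or_gt_of_ne hy0 with h | h
    · refine ⟨bar y0, by rw [hnu]; linarith, fun x h1 h2 => ?_⟩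
      rw [hbb] at h2
      rw [hnu, padicNorm.neg]
      exact hiso x h2 h1
    · exact ⟨y0, h, hiso⟩
  by_contra hx
  obtain ⟨z, -, hz⟩ := Finset.exists_max_image Finset.univ (fun t => padicNorm l (m t : ℚ))
    ⟨x, Finset.mem_univ _⟩
  have hxpos : 0 < padicNorm l (m x : ℚ) :=
    lt_of_le_of_ne (padicNorm.nonneg _) (Ne.symm (padicNorm.nonzero (by exact_mod_cast hx)))
  have hzpos : 0 < padicNorm l (m z : ℚ) := lt_of_lt_of_le hxpos (hz x (Finset.mem_univ _))
  obtain ⟨g, hg⟩ := MulAction.exists_smul_eq G y z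
  have h := fold bar hbb hbG nu hnu m hm hrel g
  have hyP : y ∈ Finset.univ.filter (fun x => 0 < nu x) := by simp [hy]
  rw [← Finset.add_sum_erase _ _ hyP, hg] at h
  have hypos : 0 < padicNorm l (nu y) :=
    lt_of_le_of_ne (padicNorm.nonneg _) (Ne.symm (padicNorm.nonzero hy.ne'))
  have h1 : padicNorm l (∑ x ∈ (Finset.univ.filter (fun x => 0 < nu x)).erase y,
      (m (g • x) : ℚ) * nu x) < padicNorm l ((m z : ℚ) * nu y) := by
    apply padicNorm.sum_lt'
    · intro x' hx'
      rw [Finset.mem_erase] at hx'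
      obtain ⟨hx1, hx2⟩ := hx'
      simp only [Finset.mem_filter, Finset.mem_univ, true_and] at hx2
      rw [padicNorm.mul, padicNorm.mul]
      have hx3 : x' ≠ bar y := by
        intro e
        have := hnu y
        rw [← e] at this
        linarith
      have h2 := hyiso x' hx1 hx3
      have h3 := hz (g • x') (Finset.mem_univ _)
      calc padicNorm l (m (g • x') : ℚ) * padicNorm l (nu x')
          ≤ padicNorm l (m z : ℚ) * padicNorm l (nu x') :=
            mul_le_mul_of_nonneg_right h3 (padicNorm.nonneg _)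
        _ < padicNorm l (m z : ℚ) * padicNorm l (nu y) := mul_lt_mul_of_pos_left h2 hzpos
    · rw [padicNorm.mul]; exact mul_pos hzpos hypos
  have h2 : (m z : ℚ) * nu y = - ∑ x ∈ (Finset.univ.filter (fun x => 0 < nu x)).erase y,
      (m (g • x) : ℚ) * nu x := by linarith
  rw [h2, padicNorm.neg] at h1
  exact lt_irrefl _ h1

end isolated

section dominated

variable {G X : Type*} [Group G] [Finite G] [MulAction G X] [MulAction.IsPretransitive G X]

open scoped Classical in
/-- The pattern of a relation when one weight dominates the sum of all the others. -/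
theorem pattern (P : Finset X) (nu : X → ℚ) (hP : ∀ x ∈ P, 0 < nu x) (y : X) (hy : y ∈ P)
    (hdom : ∑ x ∈ P.erase y, nu x ≤ nu y) (n : ℕ) : ∀ m : X → ℤ, (∀ x, |m x| ≤ n) →
      (∀ g : G, ∑ x ∈ P, (m (g • x) : ℚ) * nu x = 0) →
      ∀ (g : G) (x : X), x ∈ P → x ≠ y → m (g • x) = - m (g • y) := by
  classical
  induction n with
  | zero =>
    intro m hm _ g x _ _
    have h0 : ∀ x, m x = 0 := fun x => by
      have := hm x
      have h2 := abs_nonneg (m x)
      exact abs_eq_zero.mp (le_antisymm (by exact_mod_cast this) h2)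
    rw [h0, h0]; rfl
  | succ n ih =>
    intro m hm hrel
    -- the maximal case
    have key : ∀ g : G, |m (g • y)| = (n + 1 : ℕ) → ∀ x ∈ P, x ≠ y → m (g • x) = - m (g • y) := by
      intro g hg x hx hxy
      obtain ⟨e, he, hge⟩ : ∃ e : ℤ, (e = 1 ∨ e = -1) ∧ m (g • y) = e * (n + 1 : ℕ) := by
        rcases abs_choice (m (g • y)) with h | h
        · exact ⟨1, Or.inl rfl, by rw [← hg, h, one_mul]⟩
        · exact ⟨-1, Or.inr rfl, by rw [← hg, h]; ring⟩
      have h := hrel g
      rw [← Finset.add_sum_erase _ _ hy, hge] at h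
      have hee : (e : ℚ) * e = 1 := by
        rcases he with rfl | rfl <;> norm_num
      have h1 : ∑ x ∈ P.erase y, (((n + 1 : ℕ) : ℚ) + e * m (g • x)) * nu x ≤ 0 := by
        have h2 : ∑ x ∈ P.erase y, (((n + 1 : ℕ) : ℚ) + e * m (g • x)) * nu x
            = ((n + 1 : ℕ) : ℚ) * ∑ x ∈ P.erase y, nu x
              + e * ∑ x ∈ P.erase y, (m (g • x) : ℚ) * nu x := by
          rw [Finset.mul_sum, Finset.mul_sum, ← Finset.sum_add_distrib]
          apply Finset.sum_congr rfl
          intro x _; ring
        have h3 : ∑ x ∈ P.erase y, (m (g • x) : ℚ) * nu x = - (e * (n + 1 : ℕ)) * nu y := by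
          push_cast at h ⊢
          linarith
        rw [h2, h3]
        have h4 : (e : ℚ) * (- (e * ((n + 1 : ℕ) : ℚ)) * nu y) = - (((n + 1 : ℕ) : ℚ) * nu y) := by
          calc (e : ℚ) * (- (e * ((n + 1 : ℕ) : ℚ)) * nu y)
              = - ((e * e) * (((n + 1 : ℕ) : ℚ) * nu y)) := by ring
            _ = _ := by rw [hee, one_mul]
        rw [h4]
        have h5 : ((n + 1 : ℕ) : ℚ) * ∑ x ∈ P.erase y, nu x ≤ ((n + 1 : ℕ) : ℚ) * nu y :=
          mul_le_mul_of_nonneg_left hdom (by positivity)
        linarith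
      have h2 : ∀ x ∈ P.erase y, 0 ≤ (((n + 1 : ℕ) : ℚ) + e * m (g • x)) * nu x := by
        intro x hx
        apply mul_nonneg _ (hP x (Finset.mem_of_mem_erase hx)).le
        have h3 : |(m (g • x) : ℚ)| ≤ ((n + 1 : ℕ) : ℚ) := by exact_mod_cast hm (g • x)
        have h4 := abs_le.mp h3
        rcases he with rfl | rfl
        · push_cast; push_cast at h4; linarith [h4.1]
        · push_cast; push_cast at h4; linarith [h4.2]
      have h3 := (Finset.sum_eq_zero_iff_of_nonneg h2).mp (le_antisymm h1 (Finset.sum_nonneg h2)) x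
        (Finset.mem_erase.mpr ⟨hxy, hx⟩)
      have h4 : (((n + 1 : ℕ) : ℚ) + e * m (g • x)) = 0 :=
        (mul_eq_zero.mp h3).resolve_right (hP x hx).ne'
      have h5 : ((n + 1 : ℕ) : ℤ) + e * m (g • x) = 0 := by exact_mod_cast h4
      rw [hge]
      rcases he with rfl | rfl <;> linarith
    have hAx : ∀ (h : G), h • y ∈ P → ∀ g : G, |m (g • y)| = (n + 1 : ℕ) →
        |m ((g * h) • y)| = (n + 1 : ℕ) := by
      intro h hh g hg
      by_cases e : h • y = y
      · rw [mul_smul, e, hg]
      · rw [mul_smul, key g hg _ hh e, abs_neg, hg]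
    have hAx' : ∀ (h : G), h • y ∈ P → ∀ g : G, |m ((g * h) • y)| = (n + 1 : ℕ) →
        |m (g • y)| = (n + 1 : ℕ) := by
      intro h hh g hg
      let A := {g : G // |m (g • y)| = (n + 1 : ℕ)}
      let f : A → A := fun a => ⟨a.1 * h, hAx h hh a.1 a.2⟩
      have hinj : Function.Injective f := fun a b hab => by
        have := congrArg Subtype.val hab
        exact Subtype.ext (mul_right_cancel this)
      have : Finite A := inferInstance
      obtain ⟨a, ha⟩ := (Finite.injective_iff_surjective.mp hinj) ⟨g * h, hg⟩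
      have h1 : a.1 * h = g * h := congrArg Subtype.val ha
      have h2 : a.1 = g := mul_right_cancel h1
      rw [← h2]; exact a.2
    have hiff : ∀ (x : X), x ∈ P → ∀ g : G,
        (|m (g • x)| = (n + 1 : ℕ) ↔ |m (g • y)| = (n + 1 : ℕ)) := by
      intro x hx g
      obtain ⟨h, rfl⟩ := MulAction.exists_smul_eq G y x
      rw [← mul_smul]
      exact ⟨hAx' h hx g, hAx h hx g⟩
    -- subtract the maximal part
    let m' : X → ℤ := fun x => if |m x| = (n + 1 : ℕ) then 0 else m x
    have hm' : ∀ x, |m' x| ≤ n := by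
      intro x
      by_cases h : |m x| = (n + 1 : ℕ)
      · simp only [m', if_pos h, abs_zero]; positivity
      · simp only [m', if_neg h]
        have := hm x
        push_cast at this h ⊢
        omega
    have hrel' : ∀ g : G, ∑ x ∈ P, (m' (g • x) : ℚ) * nu x = 0 := by
      intro g
      by_cases h : |m (g • y)| = (n + 1 : ℕ)
      · apply Finset.sum_eq_zero
        intro x hx
        have : m' (g • x) = 0 := if_pos ((hiff x hx g).mpr h)
        rw [this]; simp
      · rw [← hrel g]
        apply Finset.sum_congr rfl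
        intro x hx
        have : m' (g • x) = m (g • x) := if_neg (fun h' => h ((hiff x hx g).mp h'))
        rw [this]
    intro g x hx hxy
    by_cases h : |m (g • y)| = (n + 1 : ℕ)
    · exact key g h x hx hxy
    · have h1 := ih m' hm' hrel' g x hx hxy
      have e1 : m' (g • x) = m (g • x) := if_neg (fun h' => h ((hiff x hx g).mp h'))
      have e2 : m' (g • y) = m (g • y) := if_neg h
      rw [e1, e2] at h1
      exact h1

open scoped Classical in
/-- Structure of odd relations when one weight dominates the sum of all the others. -/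
theorem dom_core [Fintype X] (bar : X → X) (hbb : ∀ x, bar (bar x) = x)
    (hbG : ∀ (g : G) x, bar (g • x) = g • bar x) (nu : X → ℚ) (hnu : ∀ x, nu (bar x) = - nu x)
    (y0 : X) (hy0 : nu y0 ≠ 0) (hdom : ∑ x, |nu x| ≤ 4 * |nu y0|)
    (m : X → ℤ) (hm : ∀ x, m (bar x) = - m x) (hm0 : ∃ x, m x ≠ 0)
    (hrel : ∀ g : G, ∑ x, (m (g • x) : ℚ) * nu x = 0) :
    ∃ (T : Subgroup G) (y : X), MulAction.stabilizer G y ≤ T ∧
      (∀ g : G, ∀ t ∈ T, m (g • t • y) = m (g • y)) ∧
      (∀ g : G, ∑ x ∈ Finset.univ.filter (fun x => ∃ t ∈ T, x = g • t • y), nu x = 0) := by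
  set P := Finset.univ.filter (fun x => 0 < nu x) with hPdef
  set Q := Finset.univ.filter (fun x => nu x < 0) with hQdef
  have hbinj : Function.Injective bar := fun a b h => by
    have := congrArg bar h; rwa [hbb, hbb] at this
  have hQP : Q = P.image bar := by
    ext x
    simp only [hPdef, hQdef, Finset.mem_filter, Finset.mem_univ, true_and, Finset.mem_image]
    constructor
    · intro h; exact ⟨bar x, by rw [hnu]; linarith, hbb x⟩
    · rintro ⟨z, hz, rfl⟩; rw [hnu]; linarith
  have hsplit : ∀ f : X → ℚ, (∀ x, nu x = 0 → f x = 0) → ∑ x, f x = ∑ x ∈ P, (f x + f (bar x)) := by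
    intro f hf
    have h1 : ∑ x, f x = ∑ x ∈ P ∪ Q, f x := by
      symm
      apply Finset.sum_subset (Finset.subset_univ _)
      intro x _ hx
      apply hf
      by_contra h
      apply hx
      rw [Finset.mem_union]
      rcases lt_or_gt_of_ne h with h | h
      · right; simp [hQdef, h]
      · left; simp [hPdef, h]
    have hdisj : Disjoint P Q := by
      rw [Finset.disjoint_left]
      intro x hx hx'
      simp only [hPdef, hQdef, Finset.mem_filter, Finset.mem_univ, true_and] at hx hx'
      linarith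
    rw [h1, Finset.sum_union hdisj, hQP, Finset.sum_image (fun a _ b _ h => hbinj h),
      ← Finset.sum_add_distrib]
  -- normalise the dominating point
  obtain ⟨y, hy, hyabs⟩ : ∃ y, 0 < nu y ∧ nu y = |nu y0| := by
    rcases lt_or_gt_of_ne hy0 with h | h
    · exact ⟨bar y0, by rw [hnu]; linarith, by rw [hnu, abs_of_neg h]⟩
    · exact ⟨y0, h, (abs_of_pos h).symm⟩
  have hyP : y ∈ P := by simp [hPdef, hy]
  have hPpos : ∀ x ∈ P, 0 < nu x := by
    intro x hx; simpa [hPdef] using hx
  have hdomP : ∑ x ∈ P.erase y, nu x ≤ nu y := by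
    have h1 := hsplit (fun x => |nu x|) (fun x hx => by simp [hx])
    have h2 : ∑ x ∈ P, (|nu x| + |nu (bar x)|) = 2 * ∑ x ∈ P, nu x := by
      rw [Finset.mul_sum]
      apply Finset.sum_congr rfl
      intro x hx
      rw [hnu, abs_neg, abs_of_pos (hPpos x hx)]; ring
    have h3 := Finset.add_sum_erase P nu hyP
    rw [h1, h2, ← hyabs] at hdom
    linarith
  have hfold := fold bar hbb hbG nu hnu m hm hrel
  -- bound
  obtain ⟨n, hn⟩ : ∃ n : ℕ, ∀ x, |m x| ≤ n := by
    refine ⟨∑ x, (m x).natAbs, fun x => ?_⟩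
    rw [← Int.natCast_natAbs]
    exact_mod_cast Finset.single_le_sum (f := fun x => (m x).natAbs) (fun _ _ => Nat.zero_le _)
      (Finset.mem_univ x)
  have hpat := pattern (G := G) P nu hPpos y hyP hdomP n m hn hfold
  -- the dominance is an equality
  have heq : ∑ x ∈ P.erase y, nu x = nu y := by
    obtain ⟨x0, hx0⟩ := hm0
    obtain ⟨g, hg⟩ := MulAction.exists_smul_eq G y x0
    have h := hfold g
    rw [← hPdef, ← Finset.add_sum_erase _ _ hyP] at h
    have h1 : ∑ x ∈ P.erase y, (m (g • x) : ℚ) * nu x = - (m (g • y) : ℚ) * ∑ x ∈ P.erase y, nu x := by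
      rw [Finset.mul_sum]
      apply Finset.sum_congr rfl
      intro x hx
      rw [hpat g x (Finset.mem_of_mem_erase hx) (Finset.ne_of_mem_erase hx)]
      push_cast; ring
    rw [h1, hg] at h
    have h2 : (m x0 : ℚ) * (nu y - ∑ x ∈ P.erase y, nu x) = 0 := by linarith
    rcases mul_eq_zero.mp h2 with h3 | h3
    · exact absurd (by exact_mod_cast h3) hx0
    · linarith
  let T : Subgroup G :=
    { carrier := {t | ∀ g : G, m (g • t • y) = m (g • y)}
      mul_mem' := by
        intro a b ha hb g
        have h1 := hb (g * a)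
        have h2 := ha g
        simp only [mul_smul] at h1 ⊢
        rw [h1, h2]
      one_mem' := by intro g; simp
      inv_mem' := by
        intro a ha g
        have h1 := ha (g * a⁻¹)
        simp only [mul_smul, inv_smul_smul] at h1
        exact h1.symm }
  have hTmem : ∀ t, t ∈ T ↔ ∀ g : G, m (g • t • y) = m (g • y) := fun t => Iff.rfl
  have hstab : MulAction.stabilizer G y ≤ T := by
    intro t ht
    rw [hTmem]; intro g
    rw [MulAction.mem_stabilizer_iff.mp ht]
  refine ⟨T, y, hstab, fun g t ht => ht g, ?_⟩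
  intro g
  set B := Finset.univ.filter (fun z => ∃ t ∈ T, z = g • t • y) with hB
  have hmemB : ∀ (h k : G), k ∈ T → (h • y ∈ B ↔ h • k • y ∈ B) := by
    intro h k hk
    simp only [hB, Finset.mem_filter, Finset.mem_univ, true_and]
    constructor
    · rintro ⟨t, ht, h1⟩
      refine ⟨g⁻¹ * h * k, ?_, ?_⟩
      · have : t⁻¹ * (g⁻¹ * h) ∈ T := by
          apply hstab
          rw [MulAction.mem_stabilizer_iff, mul_smul, mul_smul, h1, inv_smul_smul, inv_smul_smul]
        have h3 := T.mul_mem (T.mul_mem ht this) hk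
        have h4 : t * (t⁻¹ * (g⁻¹ * h)) * k = g⁻¹ * h * k := by group
        rwa [h4] at h3
      · simp [mul_smul]
    · rintro ⟨t, ht, h1⟩
      refine ⟨g⁻¹ * h, ?_, ?_⟩
      · have : t⁻¹ * (g⁻¹ * h * k) ∈ T := by
          apply hstab
          rw [MulAction.mem_stabilizer_iff, mul_smul, mul_smul, mul_smul, h1, inv_smul_smul,
            inv_smul_smul]
        have h3 := T.mul_mem (T.mul_mem ht this) (T.inv_mem hk)
        have h4 : t * (t⁻¹ * (g⁻¹ * h * k)) * k⁻¹ = g⁻¹ * h := by group
        rwa [h4] at h3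
      · simp [mul_smul]
  obtain ⟨k, hk⟩ := MulAction.exists_smul_eq G y (bar y)
  have hmem : ∀ x ∈ P.erase y, (bar x ∈ B ↔ y ∈ B) ∧ (x ∈ B ↔ bar y ∈ B) := by
    intro x hx
    obtain ⟨hxy, hxP⟩ := Finset.mem_erase.mp hx
    obtain ⟨eta, heta⟩ := MulAction.exists_smul_eq G y (bar x)
    have hetaT : eta ∈ T := by
      rw [hTmem]; intro g
      rw [heta, ← hbG, hm, hpat g x hxP hxy, neg_neg]
    have e1 : y ∈ B ↔ bar x ∈ B := by
      have := hmemB 1 eta hetaT
      rwa [one_smul, one_smul, heta] at this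
    have hkT : k⁻¹ * eta * k ∈ T := by
      rw [hTmem]; intro g'
      have h1 : g' • (k⁻¹ * eta * k) • y = bar (g' • k⁻¹ • eta • y) := by
        simp only [mul_smul]
        rw [hk, hbG, hbG, hbG]
      have h2 : m (g' • k⁻¹ • eta • y) = m (g' • k⁻¹ • y) := by
        have := hetaT (g' * k⁻¹)
        simpa [mul_smul] using this
      have h3 : g' • y = bar (g' • k⁻¹ • y) := by
        rw [hbG, hbG, ← hk, inv_smul_smul]
      rw [h1, hm, h2, h3, hm]
    have e2 : bar y ∈ B ↔ x ∈ B := by
      have := hmemB k _ hkT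
      have h2 : k • (k⁻¹ * eta * k) • y = x := by
        simp only [mul_smul, smul_inv_smul]
        rw [hk, ← hbG, heta, hbb]
      rwa [hk, h2] at this
    exact ⟨e1.symm, e2.symm⟩
  have h1 : ∑ z ∈ B, nu z = ∑ z, (if z ∈ B then nu z else 0) := by
    rw [Finset.sum_ite_mem, Finset.univ_inter]
  rw [h1, hsplit (fun z => if z ∈ B then nu z else 0) (fun x hx => by simp [hx]),
    ← Finset.add_sum_erase _ _ hyP]
  have h2 : ∑ x ∈ P.erase y, ((if x ∈ B then nu x else 0) + (if bar x ∈ B then nu (bar x) else 0))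
      = ((if bar y ∈ B then 1 else 0) - (if y ∈ B then 1 else 0)) * ∑ x ∈ P.erase y, nu x := by
    rw [Finset.mul_sum]
    apply Finset.sum_congr rfl
    intro x hx
    obtain ⟨e1, e2⟩ := hmem x hx
    rw [hnu]
    by_cases c1 : y ∈ B <;> by_cases c2 : bar y ∈ B <;>
      simp [e1, e2, c1, c2]
  rw [h2, heq, hnu]
  by_cases c1 : y ∈ B <;> by_cases c2 : bar y ∈ B <;> simp [c1, c2]

end dominated

end Pool.Agent.H78.TateComb
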