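import Mathlib
import Pool.Agent.H78.TateBase
import Pool.Agent.H78.TateComb

set_option autoImplicit false

/-!
Tate classes when one slope is isolated at some prime: they are generated by Tate classes of degree
at most two.
-/

namespace Pool.Agent.H78.TateNeat

open Polynomial IntermediateField Pool.Agent.H78.TB

section
variable {E L : Type*} [Field E] [NumberField E] [Field L] [NumberField L] [IsGalois ℚ L]

open scoped Classical in
/-- A multiplicative relation between conjugates involves a conjugate pair. -/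
theorem extract {π : E} (hgen : ℚ⟮π⟯ = ⊤) {q w : ℕ} (hq0 : q ≠ 0)
    {K : Type*} [Field K] [CharZero K]
    (v : AddValuation K (WithTop ℚ)) (j : L →+* K) (hv : v (q : K) = 1)
    (habs : ∀ φ : E →+* ℂ, ‖φ π‖ ^ 2 = (q : ℝ)^w)
    (sl : (E →ₐ[ℚ] L) → ℚ) (hsl : ∀ φ, v (j (φ π)) = ((sl φ : ℚ) : WithTop ℚ))
    (r : ℕ) [Fact r.Prime] (φ0 : E →ₐ[ℚ] L) (hφ0 : sl φ0 ≠ (w:ℚ)/2)
    (hiso : ∀ φ : E →ₐ[ℚ] L, φ ≠ φ0 → φ π * φ0 π ≠ (q:L)^w →
      padicNorm r ((w:ℚ)/2 - sl φ) < padicNorm r ((w:ℚ)/2 - sl φ0))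
    (l : List (E →ₐ[ℚ] L)) (hl : l ≠ []) (M : ℕ) (hM : 1 ≤ M)
    (hrel : (l.map (fun φ => φ π)).prod^(2*M) = (q : L)^(w*l.length*M)) :
    ∃ φ ψ : E →ₐ[ℚ] L, φ ≠ ψ ∧ φ ∈ l ∧ ψ ∈ l ∧ φ π * ψ π = (q : L)^w := by
  classical
  let _ := act (E := E) (L := L)
  have hqpos : 0 < q := Nat.pos_of_ne_zero hq0
  have hqL : (q:L) ≠ 0 := by exact_mod_cast hqpos.ne'
  have hsmul : ∀ (σ : L ≃ₐ[ℚ] L) (φ : E →ₐ[ℚ] L) (z : E), (σ • φ) z = σ (φ z) := fun _ _ _ => rfl
  have _ : MulAction.IsPretransitive (L ≃ₐ[ℚ] L) (E →ₐ[ℚ] L) := ⟨fun φ ψ => exists_conj hgen φ ψ⟩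
  have hexbar := exists_bar (L := L) (π := π) (c := q^w) (pow_ne_zero _ hqpos.ne')
    (by intro φ; rw [habs φ]; push_cast; ring)
  choose bar hbar0 using hexbar
  have hbar : ∀ φ, (bar φ) π * φ π = (q:L)^w := by
    intro φ; rw [hbar0 φ]; push_cast; ring
  have hπ0 : ∀ φ : E →ₐ[ℚ] L, φ π ≠ 0 := by
    intro φ h
    have := hbar φ
    rw [h, mul_zero] at this
    exact pow_ne_zero _ hqL this.symm
  have hext : ∀ {φ ψ : E →ₐ[ℚ] L}, φ π = ψ π → φ = ψ := fun h => hom_ext_gen hgen h
  have hbar_unique : ∀ φ ψ : E →ₐ[ℚ] L, ψ π * φ π = (q:L)^w → ψ = bar φ := by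
    intro φ ψ h
    apply hext
    apply mul_right_cancel₀ (hπ0 φ)
    rw [h, hbar]
  have hbb : ∀ φ, bar (bar φ) = φ := by
    intro φ
    symm
    apply hbar_unique
    rw [mul_comm, hbar]
  have hbG : ∀ (g : L ≃ₐ[ℚ] L) φ, bar (g • φ) = g • bar φ := by
    intro g φ
    symm
    apply hbar_unique
    rw [hsmul, hsmul, ← map_mul, hbar, map_pow, map_natCast]
  have hvpow : ∀ n : ℕ, v ((q:K)^n) = ((n:ℚ) : WithTop ℚ) := by
    intro n
    rw [AddValuation.map_pow, hv]
    have h1 : (1 : WithTop ℚ) = ((1 : ℚ) : WithTop ℚ) := rfl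
    rw [h1, ← WithTop.coe_nsmul]; congr 1; simp
  have hslbar : ∀ φ, sl (bar φ) + sl φ = w := by
    intro φ
    have h := congrArg (fun t => v (j t)) (hbar φ)
    simp only [map_mul, map_pow, map_natCast, AddValuation.map_mul, hsl] at h
    rw [hvpow w] at h
    exact_mod_cast h
  set nu : (E →ₐ[ℚ] L) → ℚ := fun φ => (w:ℚ)/2 - sl φ with hnudef
  have hnu : ∀ φ, nu (bar φ) = - nu φ := by
    intro φ
    have := hslbar φ
    simp only [hnudef]; linarith
  have hnune : nu φ0 ≠ 0 := by
    simp only [hnudef]; intro h; exact hφ0 (by linarith)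
  -- valuation of a product of a list
  have hvlist : ∀ (σ : L ≃ₐ[ℚ] L) (t : List (E →ₐ[ℚ] L)),
      v (j (σ ((t.map (fun φ => φ π)).prod))) = (((t.map (fun φ => sl (σ • φ))).sum : ℚ) : WithTop ℚ) := by
    intro σ t
    induction t with
    | nil => simp
    | cons b t ih =>
      rw [List.map_cons, List.prod_cons, map_mul, map_mul, AddValuation.map_mul, ih, List.map_cons,
        List.sum_cons, WithTop.coe_add]
      congr 1
      exact hsl (σ • b)
  have hortho : ∀ σ : L ≃ₐ[ℚ] L, (l.map (fun φ => nu (σ • φ))).sum = 0 := by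
    intro σ
    have h := congrArg (fun t => v (j (σ t))) hrel
    simp only [map_pow, AddValuation.map_pow, hvlist, map_natCast] at h
    rw [← AddValuation.map_pow, hvpow, ← WithTop.coe_nsmul] at h
    have h2 : ((2*M) • (l.map (fun φ => sl (σ • φ))).sum : ℚ) = ((w * l.length * M : ℕ) : ℚ) := by
      exact_mod_cast h
    rw [nsmul_eq_mul] at h2
    have h3 : (l.map (fun φ => nu (σ • φ))).sum = l.length * ((w:ℚ)/2) - (l.map (fun φ => sl (σ • φ))).sum := by
      clear hrel h h2 hl
      induction l with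
      | nil => simp
      | cons b t ih =>
        simp only [List.map_cons, List.sum_cons, List.length_cons]
        rw [ih]; simp only [hnudef]; push_cast; ring
    rw [h3]
    have hMQ : (M:ℚ) ≠ 0 := by exact_mod_cast (by omega : M ≠ 0)
    push_cast at h2
    have h4 : (M:ℚ) * (2 * (l.map (fun φ => sl (σ • φ))).sum - w * l.length) = 0 := by linarith
    rcases mul_eq_zero.mp h4 with h5 | h5
    · exact absurd h5 hMQ
    · linarith
  set m : (E →ₐ[ℚ] L) → ℤ := fun φ => (l.count φ : ℤ) - (l.count (bar φ) : ℤ) with hmdef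
  have hmbar : ∀ φ, m (bar φ) = - m φ := by
    intro φ; simp only [hmdef, hbb]; ring
  let barE : (E →ₐ[ℚ] L) ≃ (E →ₐ[ℚ] L) := ⟨bar, bar, hbb, hbb⟩
  have hrelm : ∀ g : L ≃ₐ[ℚ] L, ∑ φ, (m (g • φ) : ℚ) * nu φ = 0 := by
    intro g
    have h1 : ∑ φ, (l.count (g • φ) : ℚ) * nu φ = 0 := by
      have h := hortho g⁻¹
      rw [list_sum_count] at h
      rw [← h]
      refine Fintype.sum_equiv (MulAction.toPerm g) _ _ ?_
      intro φ
      simp [MulAction.toPerm_apply]
    have h2 : ∑ φ, (l.count (bar (g • φ)) : ℚ) * nu φ = 0 := by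
      have : ∑ φ, (l.count (bar (g • φ)) : ℚ) * nu φ = - ∑ φ, (l.count (g • φ) : ℚ) * nu φ := by
        rw [← Finset.sum_neg_distrib]
        refine Fintype.sum_equiv barE _ _ ?_
        intro φ
        change (l.count (bar (g • φ)) : ℚ) * nu φ = -((l.count (g • bar φ) : ℚ) * nu (bar φ))
        rw [hbG, hnu]; ring
      rw [this, h1, neg_zero]
    have : ∀ φ, (m (g • φ) : ℚ) * nu φ = (l.count (g • φ) : ℚ) * nu φ - (l.count (bar (g • φ)) : ℚ) * nu φ := by
      intro φ; simp only [hmdef]; push_cast; ring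
    simp_rw [this, Finset.sum_sub_distrib, h1, h2, sub_zero]
  have hm0 : ∀ φ, m φ = 0 := by
    apply Pool.Agent.H78.TateComb.isolated bar hbb hbG nu hnu r φ0 hnune _ m hmbar hrelm
    intro x h1 h2
    apply hiso x h1
    intro h3
    exact h2 (hbar_unique _ _ h3)
  obtain ⟨φ, hφ⟩ := List.exists_mem_of_ne_nil l hl
  refine ⟨φ, bar φ, ?_, hφ, ?_, ?_⟩
  · intro h
    -- otherwise all slopes are w/2
    obtain ⟨g, hg⟩ := MulAction.exists_smul_eq (L ≃ₐ[ℚ] L) φ φ0
    apply hnune
    have h1 : bar φ0 = φ0 := by rw [← hg, hbG, ← h]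
    have h2 := hnu φ0
    rw [h1] at h2
    linarith
  · have h1 : 0 < l.count φ := List.count_pos_iff.mpr hφ
    have h2 := hm0 φ
    simp only [hmdef] at h2
    have h3 : 0 < l.count (bar φ) := by omega
    exact List.count_pos_iff.mp h3
  · rw [mul_comm, hbar]

end

section linalg

variable {C W A : Type*} [Field C] [AddCommGroup W] [Module C W] [Ring A] [Algebra C A]

/-- products of supersingular eigenclasses, even weight -/
theorem ss_single (ι : W →ₗ[C] A) (S : Subalgebra C A) (P : C × W → Prop)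
    (hS : ∀ x, P x → ι x.2 ∈ S) (t : List (C × W)) (ht : ∀ x ∈ t, P x) :
    (t.map (fun x => ι x.2)).prod ∈ S := by
  induction t with
  | nil => exact one_mem _
  | cons b t ih =>
    rw [List.map_cons, List.prod_cons]
    exact S.mul_mem (hS b (ht b (by simp))) (ih (fun x hx => ht x (by simp [hx])))

/-- products of an even number of supersingular eigenclasses -/
theorem ss_pair (ι : W →ₗ[C] A) (S : Subalgebra C A) (P : C × W → Prop)
    (hS : ∀ x y, P x → P y → ι x.2 * ι y.2 ∈ S) (n : ℕ) : ∀ t : List (C × W), t.length = 2 * n →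
    (∀ x ∈ t, P x) → (t.map (fun x => ι x.2)).prod ∈ S := by
  induction n with
  | zero =>
    intro t ht _
    have : t = [] := List.length_eq_zero_iff.mp (by omega)
    subst this
    exact one_mem _
  | succ n ih =>
    intro t ht hP
    match t, ht, hP with
    | a :: b :: t, ht, hP =>
      rw [List.map_cons, List.prod_cons, List.map_cons, List.prod_cons, ← mul_assoc]
      apply S.mul_mem (hS a b (hP a (by simp)) (hP b (by simp)))
      apply ih t (by simp only [List.length_cons] at ht; omega)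
      intro x hx; exact hP x (by simp [hx])

end linalg

section
variable {E L : Type*} [Field E] [NumberField E] [Field L] [NumberField L] [IsGalois ℚ L]

omit [IsGalois ℚ L] in
/-- A product of eigenclasses for conjugates of `π` whose eigenvalue is, up to a root of unity, a half
integral power of `Q`, is a product of pairs. -/
theorem peel {π : E} {q w : ℕ} (hq0 : q ≠ 0)
    (hex : ∀ (l : List (E →ₐ[ℚ] L)), l ≠ [] → ∀ M : ℕ, 1 ≤ M →
      (l.map (fun φ => φ π)).prod^(2*M) = (q : L)^(w*l.length*M) →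
      ∃ φ ψ : E →ₐ[ℚ] L, φ ≠ ψ ∧ φ ∈ l ∧ ψ ∈ l ∧ φ π * ψ π = (q : L)^w)
    {C W A : Type*} [Field C] [CharZero C] [AddCommGroup W] [Module C W] [Ring A] [Algebra C A]
    (jC : L →+* C) (F : W →ₗ[C] W) (ι : W →ₗ[C] A)
    (s : C) (hcomm : ∀ x y, ι x * ι y = s • (ι y * ι x)) (S : Subalgebra C A)
    (hS : ∀ (e e' : W) (α α' : C), F e = α • e → F e' = α' • e' → α * α' = (q:C)^w → ι e * ι e' ∈ S)
    (cf : C × W → (E →ₐ[ℚ] L))
    (n : ℕ) : ∀ (t : List (C × W)) (_ : t.length = n)
    (_ : ∀ x ∈ t, F x.2 = x.1 • x.2) (_ : ∀ x ∈ t, x.1 = jC (cf x π)) (M : ℕ) (_ : 1 ≤ M)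
    (_ : (t.map (fun x => x.1)).prod^(2*M) = ((q : C)^w)^(t.length*M)),
    Even t.length ∧ (t.map (fun x => ι x.2)).prod ∈ S := by
  classical
  have hqC : (q:C) ≠ 0 := by exact_mod_cast hq0
  have hQC : (q:C)^w ≠ 0 := pow_ne_zero _ hqC
  induction n using Nat.strong_induction_on with
  | _ n ih =>
  intro t htn hF hcf M hM hrel
  by_cases ht0 : t = []
  · rw [ht0]
    exact ⟨by simp, by simp only [List.map_nil, List.prod_nil]; exact one_mem _⟩
  · have hne0 : (t.map cf) ≠ [] := by
      intro h; exact ht0 (List.map_eq_nil_iff.mp h)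
    have hprodC : jC ((t.map cf).map (fun φ => φ π)).prod = (t.map (fun x => x.1)).prod := by
      rw [map_list_prod, List.map_map, List.map_map]
      congr 1
      apply List.map_congr_left
      intro x hx
      exact (hcf x hx).symm
    have hrelL : ((t.map cf).map (fun φ => φ π)).prod^(2*M) =
        (q : L)^(w*(t.map cf).length*M) := by
      apply jC.injective
      rw [map_pow, hprodC, hrel, map_pow, map_natCast, List.length_map, ← pow_mul, mul_assoc]
    obtain ⟨φ, ψ, hφψ, hφ, hψ, hprod⟩ := hex (t.map cf) hne0 M hM hrelL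
    obtain ⟨x, hx, hxφ⟩ := List.mem_map.mp hφ
    obtain ⟨x', hx', hxψ⟩ := List.mem_map.mp hψ
    have hxx' : x ≠ x' := by
      rintro rfl; exact hφψ (hxφ.symm.trans hxψ)
    have hp1 : t.Perm (x :: t.erase x) := List.perm_cons_erase hx
    have hx'2 : x' ∈ t.erase x := (List.mem_erase_of_ne hxx'.symm).mpr hx'
    have hp2 : t.Perm (x :: x' :: (t.erase x).erase x') :=
      hp1.trans (List.Perm.cons x (List.perm_cons_erase hx'2))
    set r := (t.erase x).erase x' with hr
    have hmemr : ∀ z ∈ r, z ∈ t := fun z hz =>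
      List.mem_of_mem_erase (List.mem_of_mem_erase hz)
    have hlen : t.length = r.length + 2 := by
      rw [hp2.length_eq]; simp
    have hxx : x.1 * x'.1 = (q:C)^w := by
      rw [hcf x hx, hcf x' hx', hxφ, hxψ, ← map_mul, hprod, map_pow, map_natCast]
    have hprodt : (t.map (fun x => x.1)).prod = (q:C)^w * (r.map (fun x => x.1)).prod := by
      rw [(hp2.map (fun x => x.1)).prod_eq]
      simp only [List.map_cons, List.prod_cons]
      rw [← mul_assoc, hxx]
    have hrelr : (r.map (fun x => x.1)).prod^(2*M) = ((q:C)^w)^(r.length*M) := by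
      rw [hprodt, mul_pow, hlen] at hrel
      have : ((q:C)^w)^((r.length+2)*M) = ((q:C)^w)^(2*M) * ((q:C)^w)^(r.length*M) := by
        rw [← pow_add]; congr 1; ring
      rw [this] at hrel
      exact mul_left_cancel₀ (pow_ne_zero _ hQC) hrel
    obtain ⟨hev, hrmem⟩ := ih r.length (by omega) r rfl (fun z hz => hF z (hmemr z hz))
      (fun z hz => hcf z (hmemr z hz)) M hM hrelr
    refine ⟨by rw [hlen]; exact hev.add (by norm_num), ?_⟩
    obtain ⟨c, hc⟩ := perm_prod ι s hcomm (hp2.map Prod.snd)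
    rw [List.map_map, List.map_map] at hc
    have hc' : (t.map (fun x => ι x.2)).prod = c • ((ι x.2 * ι x'.2) * (r.map (fun x => ι x.2)).prod) := by
      have e1 : (t.map (fun x => ι x.2)) = t.map (⇑ι ∘ Prod.snd) := rfl
      rw [e1, hc]
      simp only [List.map_cons, List.prod_cons, Function.comp_apply]
      rw [mul_assoc]
      rfl
    rw [hc']
    exact S.smul_mem (S.mul_mem (hS _ _ _ _ (hF x hx) (hF x' hx') hxx) hrmem) c

end

/-- `y` is multiplied by `q ^ (N * m)` by the `N`-th iterate of `Φ` for some `N ≥ 1` and `m`: a Tate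
class over the extension of degree `N`. -/
def IsTate {C A : Type*} [Field C] [Ring A] [Algebra C A] (q : ℕ) (Φ : A →ₐ[C] A) (y : A) : Prop :=
  ∃ N m : ℕ, 1 ≤ N ∧ (⇑Φ)^[N] y = (q : C) ^ (N * m) • y

theorem iter_eig {C A : Type*} [Field C] [Ring A] [Algebra C A] (Φ : A →ₐ[C] A) (y : A) (c : C)
    (h : Φ y = c • y) (n : ℕ) : (⇑Φ)^[n] y = c ^ n • y := by
  induction n with
  | zero => simp
  | succ n ih => rw [Function.iterate_succ_apply', ih, map_smul, h, smul_smul, pow_succ]

/-- **Tate classes when one slope is isolated.** -/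
theorem final
    (q w : ℕ)
    (E : Type*) [Field E] [NumberField E] (π : E) (hgen : IntermediateField.adjoin ℚ {π} = ⊤)
    (habs : ∀ φ : E →+* ℂ, ‖φ π‖ ^ 2 = (q : ℝ) ^ w)
    (K : Type*) [Field K] [CharZero K] [IsAlgClosed K]
    (v : AddValuation K (WithTop ℚ)) (hv : v (q : K) = 1)
    (sl : (E →+* K) → ℚ) (hsl : ∀ φ, v (φ π) = ((sl φ : ℚ) : WithTop ℚ))
    (r : ℕ) (hr : r.Prime) (φ0 : E →+* K) (hφ0 : sl φ0 ≠ (w : ℚ) / 2)
    (hiso : ∀ φ : E →+* K, φ ≠ φ0 → φ π * φ0 π ≠ (q : K) ^ w →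
      padicNorm r ((w : ℚ) / 2 - sl φ) < padicNorm r ((w : ℚ) / 2 - sl φ0))
    (C : Type*) [Field C] [CharZero C] [IsAlgClosed C]
    (W : Type*) [AddCommGroup W] [Module C W] (F : W →ₗ[C] W)
    (hF : Submodule.span C {e : W | ∃ α : C, F e = α • e ∧
      ((∃ φ : E →+* C, α = φ π) ∨ ∃ M : ℕ, 1 ≤ M ∧ α ^ (2 * M) = (q : C) ^ (w * M))} = ⊤)
    (A : Type*) [Ring A] [Algebra C A] (ι : W →ₗ[C] A)
    (s : C) (hcomm : ∀ x y, ι x * ι y = s • (ι y * ι x))
    (Φ : A →ₐ[C] A) (hΦ : ∀ x, Φ (ι x) = ι (F x))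
    (Z : Set A) (hZ : ∀ z ∈ Z, (∀ y, z * y = y * z) ∧ ∃ i : ℕ, Φ z = (q : C) ^ i • z)
    (hadj : Algebra.adjoin C (Set.range ι ∪ Z) = ⊤)
    (x : A) (hx : IsTate q Φ x) :
    x ∈ Algebra.adjoin C (Z ∪ {y | IsTate q Φ y ∧ ∃ e e' : W, y = ι e ∨ y = ι e * ι e'}) := by
  classical
  have : Fact r.Prime := ⟨hr⟩
  obtain ⟨N, m, hN, hx⟩ := hx
  -- q > 1
  have hq0 : q ≠ 0 := by
    rintro rfl
    rw [Nat.cast_zero, AddValuation.map_zero] at hv
    exact absurd hv (by simp)
  have hq1 : 1 < q := by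
    rcases Nat.lt_or_ge 1 q with h | h
    · exact h
    · exfalso
      have : q = 1 := by omega
      rw [this, Nat.cast_one, AddValuation.map_one] at hv
      exact absurd hv (by norm_num)
  have hqC : (q:C) ≠ 0 := by exact_mod_cast hq0
  -- the Galois closure
  let L := IntermediateField.normalClosure ℚ E ℂ
  have : Normal ℚ L := (Algebra.IsAlgebraic.isNormalClosure_normalClosure (F := ℚ) (K := E) (L := ℂ)
    (fun x => IsAlgClosed.splits _)).normal
  have : NumberField L := { to_charZero := inferInstance, to_finiteDimensional := inferInstance }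
  have : IsGalois ℚ L := { to_isSeparable := inferInstance, to_normal := inferInstance }
  let i0 : E →ₐ[ℚ] L := (normalClosure.algHomEquiv ℚ E ℂ).symm (IsAlgClosed.lift (R := ℚ))
  let jK : L →+* K := (IsAlgClosed.lift (R := ℚ) (M := K) (S := L)).toRingHom
  let jC : L →+* C := (IsAlgClosed.lift (R := ℚ) (M := C) (S := L)).toRingHom
  let jc : L →+* ℂ := (IsAlgClosed.lift (R := ℚ) (M := ℂ) (S := L)).toRingHom
  -- the relation extractor
  obtain ⟨φ0', hφ0'⟩ := exists_lift i0 hgen jK φ0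
  have hφ0'' : φ0 = jK.comp (φ0' : E →ₐ[ℚ] L).toRingHom := RingHom.ext hφ0'
  have hex : ∀ (l : List (E →ₐ[ℚ] L)), l ≠ [] → ∀ M : ℕ, 1 ≤ M →
      (l.map (fun φ => φ π)).prod^(2*M) = (q : L)^(w*l.length*M) →
      ∃ φ ψ : E →ₐ[ℚ] L, φ ≠ ψ ∧ φ ∈ l ∧ ψ ∈ l ∧ φ π * ψ π = (q : L)^w := by
    intro l hl M hM hrel
    refine extract hgen hq0 v jK hv habs (fun φ => sl (jK.comp (φ : E →ₐ[ℚ] L).toRingHom))
      (fun φ => hsl (jK.comp (φ : E →ₐ[ℚ] L).toRingHom)) r φ0' (by rw [← hφ0'']; exact hφ0) ?_ l hl M hM hrel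
    intro φ h1 h2
    rw [← hφ0'']
    apply hiso
    · intro h3
      apply h1
      apply AlgHom.ext
      intro z
      apply jK.injective
      have := congrArg (fun f : E →+* K => f z) h3
      simp only [hφ0''] at this
      exact this
    · intro h3
      apply h2
      apply jK.injective
      rw [map_mul, map_pow, map_natCast, ← h3, hφ0'']
      rfl
  -- the target
  set S := Algebra.adjoin C (Z ∪ {y | IsTate q Φ y ∧ ∃ e e' : W, y = ι e ∨ y = ι e * ι e'}) with hS
  have hZS : ∀ z ∈ Submonoid.closure Z, z ∈ S := by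
    intro z hz
    have : Submonoid.closure Z ≤ S.toSubsemiring.toSubmonoid := by
      rw [Submonoid.closure_le]
      intro z hz
      exact Algebra.subset_adjoin (Or.inl hz)
    exact this hz
  have hZc : ∀ z ∈ Submonoid.closure Z, ∀ y, z * y = y * z := by
    intro z hz
    induction hz using Submonoid.closure_induction with
    | mem z hz => exact (hZ z hz).1
    | one => intro y; rw [one_mul, mul_one]
    | mul a b _ _ ha hb => intro y; rw [mul_assoc, hb, ← mul_assoc, ha, mul_assoc]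
  -- eigenvectors
  let Good : C × W → Prop := fun x => F x.2 = x.1 • x.2 ∧
      ((∃ φ : E →+* C, x.1 = φ π) ∨ ∃ M : ℕ, 1 ≤ M ∧ x.1 ^ (2 * M) = (q : C) ^ (w * M))
  have hpairS : ∀ (e e' : W) (α α' : C), F e = α • e → F e' = α' • e' → α * α' = (q:C)^w →
      ι e * ι e' ∈ S := by
    intro e e' α α' he he' hαα
    apply Algebra.subset_adjoin
    right
    refine ⟨⟨1, w, le_rfl, ?_⟩, e, e', Or.inr rfl⟩
    rw [Function.iterate_one, map_mul, hΦ, hΦ, he, he', map_smul, map_smul, smul_mul_smul_comm, hαα,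
      one_mul]
  -- monomials
  let Mono : Set A := {y | ∃ (z : A) (i : ℕ) (t : List (C × W)), z ∈ Submonoid.closure Z ∧
    Φ z = (q:C)^i • z ∧ (∀ x ∈ t, Good x) ∧ y = z * (t.map (fun x => ι x.2)).prod}
  have hone : (1:A) ∈ Submodule.span C Mono :=
    Submodule.subset_span ⟨1, 0, [], one_mem _, by simp, by simp, by simp⟩
  have hmul : ∀ y z, y ∈ Submodule.span C Mono → z ∈ Submodule.span C Mono →
      y * z ∈ Submodule.span C Mono := by
    intro y z hy hz
    have h1 : y * z ∈ Submodule.span C Mono * Submodule.span C Mono := Submodule.mul_mem_mul hy hz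
    rw [Submodule.span_mul_span] at h1
    refine Submodule.span_mono ?_ h1
    rintro _ ⟨y, ⟨z, i, t, hz, hzi, ht, rfl⟩, y', ⟨z', i', t', hz', hzi', ht', rfl⟩, rfl⟩
    refine ⟨z * z', i + i', t ++ t', mul_mem hz hz', ?_, ?_, ?_⟩
    · rw [map_mul, hzi, hzi', smul_mul_smul_comm, pow_add]
    · intro x hx
      rcases List.mem_append.mp hx with h | h
      · exact ht x h
      · exact ht' x h
    · simp only [List.map_append, List.prod_append]
      rw [mul_assoc, mul_assoc]
      congr 1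
      rw [← mul_assoc, ← mul_assoc, ← hZc z' hz']
  have hspan : Submodule.span C Mono = ⊤ := by
    let S' : Subalgebra C A := (Submodule.span C Mono).toSubalgebra hone hmul
    have hS : S' = ⊤ := by
      rw [eq_top_iff, ← hadj]
      apply Algebra.adjoin_le
      rintro y (⟨x, rfl⟩ | hy)
      · change ι x ∈ Submodule.span C Mono
        have hxt : x ∈ Submodule.span C {e : W | ∃ α : C, F e = α • e ∧
            ((∃ φ : E →+* C, α = φ π) ∨ ∃ M : ℕ, 1 ≤ M ∧ α ^ (2 * M) = (q : C) ^ (w * M))} := by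
          rw [hF]; trivial
        induction hxt using Submodule.span_induction with
        | mem x hx =>
          obtain ⟨α, h1, h2⟩ := hx
          apply Submodule.subset_span
          refine ⟨1, 0, [(α, x)], one_mem _, by simp, ?_, by simp⟩
          intro z hz
          rw [List.mem_singleton] at hz
          rw [hz]
          exact ⟨h1, h2⟩
        | zero => rw [map_zero]; exact Submodule.zero_mem _
        | add x y _ _ hx hy => rw [map_add]; exact Submodule.add_mem _ hx hy
        | smul c x _ hx => rw [map_smul]; exact Submodule.smul_mem _ _ hx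
      · change y ∈ Submodule.span C Mono
        obtain ⟨i, hi⟩ := (hZ y hy).2
        exact Submodule.subset_span ⟨y, i, [], Submonoid.subset_closure hy, hi, by simp, by simp⟩
    rw [eq_top_iff]
    intro z _
    have : z ∈ S' := by rw [hS]; trivial
    exact this
  -- action on monomials
  have hact1 : ∀ (t : List (C × W)), (∀ x ∈ t, Good x) →
      Φ (t.map (fun x => ι x.2)).prod =
        ((t.map (fun x => x.1)).prod) • (t.map (fun x => ι x.2)).prod := by
    intro t ht
    induction t with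
    | nil => simp
    | cons b t ih =>
      simp only [List.map_cons, List.prod_cons]
      rw [map_mul, hΦ, (ht b (by simp)).1, map_smul, ih (fun x hx => ht x (by simp [hx])),
        smul_mul_smul_comm]
  have hact : ∀ (n : ℕ) (z : A) (i : ℕ) (t : List (C × W)), Φ z = (q:C)^i • z →
      (∀ x ∈ t, Good x) → (⇑Φ)^[n] (z * (t.map (fun x => ι x.2)).prod) =
        ((q:C)^i * (t.map (fun x => x.1)).prod)^n • (z * (t.map (fun x => ι x.2)).prod) := by
    intro n z i t hz ht
    apply iter_eig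
    rw [map_mul, hz, hact1 t ht, smul_mul_smul_comm]
  let T : Module.End C A := Φ.toLinearMap ^ N
  have hT : ∀ z, T z = (⇑Φ)^[N] z := by
    intro z
    change (Φ.toLinearMap ^ N) z = _
    rw [Module.End.pow_apply]; rfl
  have hxspan := eigen_span T Mono (by
    rintro _ ⟨z, i, t, hz, hzi, ht, rfl⟩
    exact ⟨_, by rw [hT]; exact hact N z i t hzi ht⟩) hspan ((q:C)^(N*m)) x (by rw [hT]; exact hx)
  refine (Submodule.span_le (p := Subalgebra.toSubmodule S)).mpr ?_ hxspan
  rintro _ ⟨⟨z, i, t, hz, hzi, ht, rfl⟩, hb⟩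
  change z * (t.map (fun x => ι x.2)).prod ∈ S
  by_cases hzero : z * (t.map (fun x => ι x.2)).prod = 0
  · rw [hzero]; exact zero_mem _
  apply S.mul_mem (hZS z hz)
  rw [hT, hact N z i t hzi ht] at hb
  have heq : ((q:C)^i * (t.map (fun x => x.1)).prod)^N = (q:C)^(N*m) := by
    by_contra h
    have h1 : (((q:C)^i * (t.map (fun x => x.1)).prod)^N - (q:C)^(N*m)) •
        (z * (t.map (fun x => ι x.2)).prod) = 0 := by
      rw [sub_smul, hb, sub_self]
    rcases smul_eq_zero.mp h1 with h2 | h2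
    · exact h (sub_eq_zero.mp h2)
    · exact hzero h2
  -- split in conjugates of `π` and supersingular eigenvalues
  let isB : C × W → Prop := fun x => ∃ φ : E →+* C, x.1 = φ π
  set tB := t.filter (fun x => isB x) with htB
  set tS := t.filter (fun x => ¬ isB x) with htS
  have hperm : t.Perm (tB ++ tS) := by
    have := List.filter_append_perm (fun x => decide (isB x)) t
    rw [htB, htS]
    refine this.symm.trans ?_
    simp
  have hBmem : ∀ x ∈ tB, x ∈ t ∧ isB x := by
    intro x hx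
    rw [htB, List.mem_filter] at hx
    exact ⟨hx.1, by simpa using hx.2⟩
  have hSmem : ∀ x ∈ tS, x ∈ t ∧ ¬ isB x := by
    intro x hx
    rw [htS, List.mem_filter] at hx
    exact ⟨hx.1, by simpa using hx.2⟩
  -- lifts
  have hcfex : ∀ x : C × W, ∃ ψ : E →ₐ[ℚ] L, isB x → x.1 = jC (ψ π) := by
    intro x
    by_cases h : isB x
    · obtain ⟨φ, hφ⟩ := h
      obtain ⟨ψ, hψ⟩ := exists_lift i0 hgen jC φ
      exact ⟨ψ, fun _ => by rw [hφ, hψ]⟩
    · exact ⟨i0, fun h' => absurd h' h⟩
  choose cf hcf using hcfex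
  -- a common exponent for the supersingular part
  obtain ⟨M', hM', hSrel⟩ : ∃ M' : ℕ, 1 ≤ M' ∧
      ((tS.map (fun x => x.1)).prod)^(2*M') = ((q:C)^w)^(tS.length * M') := by
    have hgoodS : ∀ x ∈ tS, ∃ M : ℕ, 1 ≤ M ∧ x.1 ^ (2 * M) = (q : C) ^ (w * M) := by
      intro x hx
      obtain ⟨h1, h2⟩ := hSmem x hx
      exact (ht x h1).2.resolve_left h2
    clear_value tS
    clear hperm hSmem htS
    induction tS with
    | nil => exact ⟨1, le_rfl, by simp⟩
    | cons b u ih =>
      obtain ⟨M1, h1, h2⟩ := ih (fun x hx => hgoodS x (by simp [hx]))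
      obtain ⟨M2, h3, h4⟩ := hgoodS b (by simp)
      refine ⟨M1 * M2, Nat.mul_pos h1 h3, ?_⟩
      rw [List.map_cons, List.prod_cons, mul_pow, List.length_cons]
      have e1 : b.1^(2*(M1*M2)) = ((q:C)^w)^(M1*M2) := by
        have : b.1^(2*(M1*M2)) = (b.1^(2*M2))^M1 := by rw [← pow_mul]; congr 1; ring
        rw [this, h4, ← pow_mul, ← pow_mul]; congr 1; ring
      have e2 : ((u.map (fun x => x.1)).prod)^(2*(M1*M2)) = ((q:C)^w)^(u.length*(M1*M2)) := by
        have : ((u.map (fun x => x.1)).prod)^(2*(M1*M2)) = (((u.map (fun x => x.1)).prod)^(2*M1))^M2 := by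
          rw [← pow_mul]; congr 1; ring
        rw [this, h2, ← pow_mul]; congr 1; ring
      rw [e1, e2, ← pow_add]; congr 1; ring
  have hprodsplit : (t.map (fun x => x.1)).prod =
      (tB.map (fun x => x.1)).prod * (tS.map (fun x => x.1)).prod := by
    rw [(hperm.map (fun x => x.1)).prod_eq, List.map_append, List.prod_append]
  have hlen : t.length = tB.length + tS.length := by
    rw [hperm.length_eq, List.length_append]
  -- the relation satisfied by the first part
  have hrel1 : (q:C)^(2*i*N*M') * ((tB.map (fun x => x.1)).prod^(2*(N*M')) *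
      (q:C)^(w*tS.length*N*M')) = (q:C)^(2*N*m*M') := by
    have h1 : (((q:C)^i * (t.map (fun x => x.1)).prod)^N)^(2*M') = ((q:C)^(N*m))^(2*M') := by
      rw [heq]
    rw [hprodsplit] at h1
    have h2 : (((q:C)^i * ((tB.map (fun x => x.1)).prod * (tS.map (fun x => x.1)).prod))^N)^(2*M') =
        (q:C)^(2*i*N*M') * ((tB.map (fun x => x.1)).prod^(2*(N*M')) *
          (((tS.map (fun x => x.1)).prod)^(2*M'))^N) := by
      rw [← pow_mul, mul_pow, mul_pow, ← pow_mul, ← pow_mul]
      congr 1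
      · congr 1; ring
      · congr 1
        · congr 1; ring
        · congr 1; ring
    rw [h2, hSrel, ← pow_mul, ← pow_mul, ← pow_mul] at h1
    have e1 : w * (tS.length * M') * N = w*tS.length*N*M' := by ring
    have e2 : N * m * (2 * M') = 2*N*m*M' := by ring
    have e3 : w * (tS.length * M' * N) = w*tS.length*N*M' := by ring
    first
      | rw [e1, e2] at h1
      | rw [e3, e2] at h1
    exact h1
  have hprodC : jC ((tB.map (fun x => (cf x) π)).prod) = (tB.map (fun x => x.1)).prod := by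
    rw [map_list_prod, List.map_map]
    congr 1
    apply List.map_congr_left
    intro x hx
    exact (hcf x (hBmem x hx).2).symm
  have hrelL : (q:L)^(2*i*N*M') * ((tB.map (fun x => (cf x) π)).prod^(2*(N*M')) *
      (q:L)^(w*tS.length*N*M')) = (q:L)^(2*N*m*M') := by
    apply jC.injective
    simp only [map_mul, map_pow, map_natCast, hprodC]
    exact hrel1
  have hnorm : ∀ u : List (C × W), ‖jc ((u.map (fun x => (cf x) π)).prod)‖^2 = (q:ℝ)^(w * u.length) := by
    intro u
    induction u with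
    | nil => simp
    | cons b u ih =>
      rw [List.map_cons, List.prod_cons, map_mul, norm_mul, mul_pow, ih, List.length_cons]
      have : ‖jc ((cf b) π)‖^2 = (q:ℝ)^w := habs (jc.comp (cf b).toRingHom)
      rw [this, ← pow_add]; congr 1; ring
  have hweight : 2 * i + w * t.length = 2 * m := by
    have h1 := congrArg (fun z => ‖jc z‖) hrelL
    simp only [map_mul, map_pow, map_natCast, norm_pow, norm_mul] at h1
    have h3 : ‖(q:ℂ)‖ = (q:ℝ) := by simp
    rw [h3, pow_mul (‖jc ((tB.map (fun x => (cf x) π)).prod)‖) 2, hnorm tB, ← pow_mul, ← pow_add, ← pow_add] at h1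
    have h4 : 2*i*N*M' + (w * tB.length * (N*M') + w*tS.length*N*M') = 2*N*m*M' := by
      have h5 : (q^(2*i*N*M' + (w * tB.length * (N*M') + w*tS.length*N*M')) : ℕ) = q^(2*N*m*M') := by
        exact_mod_cast h1
      exact Nat.pow_right_injective (by omega : 2 ≤ q) h5
    have h6 : (N*M') * (2 * i + w * t.length) = (N*M') * (2 * m) := by
      rw [hlen]; linarith
    exact Nat.eq_of_mul_eq_mul_left (Nat.mul_pos hN hM') h6
  have hrelB : (tB.map (fun x => x.1)).prod^(2*(N*M')) = ((q:C)^w)^(tB.length*(N*M')) := by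
    have e : (q:C)^(2*N*m*M') = (q:C)^(2*i*N*M') * (((q:C)^w)^(tB.length*(N*M')) *
        (q:C)^(w*tS.length*N*M')) := by
      rw [← pow_mul, ← pow_add, ← pow_add]
      congr 1
      have : 2*N*m*M' = (N*M')*(2*m) := by ring
      rw [this, ← hweight, hlen]; ring
    rw [e] at hrel1
    have h1 := mul_left_cancel₀ (pow_ne_zero _ hqC) hrel1
    exact mul_right_cancel₀ (pow_ne_zero _ hqC) h1
  obtain ⟨hBeven, hBS⟩ := peel hq0 hex jC F ι s hcomm S hpairS cf tB.length tB rfl
    (fun x hx => (ht x (hBmem x hx).1).1) (fun x hx => hcf x (hBmem x hx).2) (N*M')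
    (Nat.mul_pos hN hM') hrelB
  -- the supersingular part
  let PS : C × W → Prop := fun x => F x.2 = x.1 • x.2 ∧
    ∃ M : ℕ, 1 ≤ M ∧ x.1 ^ (2 * M) = (q : C) ^ (w * M)
  have hPS : ∀ x ∈ tS, PS x := by
    intro x hx
    obtain ⟨h1, h2⟩ := hSmem x hx
    exact ⟨(ht x h1).1, (ht x h1).2.resolve_left h2⟩
  have hSS : (tS.map (fun x => ι x.2)).prod ∈ S := by
    rcases Nat.even_or_odd w with ⟨w', hw'⟩ | hw
    · apply ss_single ι S PS _ tS hPS
      rintro y ⟨h1, M, hM, h2⟩
      apply Algebra.subset_adjoin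
      right
      refine ⟨⟨2*M, w', by omega, ?_⟩, y.2, 0, Or.inl rfl⟩
      rw [iter_eig Φ (ι y.2) y.1 (by rw [hΦ, h1, map_smul]), h2]
      congr 2; rw [hw']; ring
    · have hev : Even (w * t.length) := by
        refine ⟨m - i, ?_⟩
        omega
      have hev2 : Even t.length := by
        rcases Nat.even_mul.mp hev with h | h
        · exact absurd h (Nat.not_even_iff_odd.mpr hw)
        · exact h
      have hev3 : Even tS.length := by
        rw [hlen] at hev2
        exact (Nat.even_add.mp hev2).mp hBeven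
      obtain ⟨n, hn⟩ := hev3
      apply ss_pair ι S PS _ n tS (by omega) hPS
      rintro y y' ⟨h1, M, hM, h2⟩ ⟨h1', M2, hM2, h2'⟩
      apply Algebra.subset_adjoin
      right
      refine ⟨⟨2*(M*M2), w, by
        have := Nat.mul_pos hM hM2
        omega, ?_⟩, y.2, y'.2, Or.inr rfl⟩
      rw [iter_eig Φ (ι y.2 * ι y'.2) (y.1 * y'.1) (by
        rw [map_mul, hΦ, hΦ, h1, h1', map_smul, map_smul, smul_mul_smul_comm])]
      congr 1
      rw [mul_pow]
      have e1 : y.1^(2*(M*M2)) = (q:C)^(w*M*M2) := by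
        have : y.1^(2*(M*M2)) = (y.1^(2*M))^M2 := by rw [← pow_mul]; congr 1; ring
        rw [this, h2, ← pow_mul]
      have e2 : y'.1^(2*(M*M2)) = (q:C)^(w*M*M2) := by
        have : y'.1^(2*(M*M2)) = (y'.1^(2*M2))^M := by rw [← pow_mul]; congr 1; ring
        rw [this, h2', ← pow_mul]; congr 1; ring
      rw [e1, e2, ← pow_add]; congr 1; ring
  obtain ⟨c, hc⟩ := perm_prod ι s hcomm (hperm.map Prod.snd)
  rw [List.map_map, List.map_map] at hc
  have hc' : (t.map (fun x => ι x.2)).prod =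
      c • ((tB.map (fun x => ι x.2)).prod * (tS.map (fun x => ι x.2)).prod) := by
    have e1 : (t.map (fun x => ι x.2)) = t.map (⇑ι ∘ Prod.snd) := rfl
    rw [e1, hc, List.map_append, List.prod_append]
    rfl
  rw [hc']
  exact S.smul_mem (S.mul_mem hBS hSS) c

end Pool.Agent.H78.TateNeat
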