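import Mathlib

/-!
# Global domination with `k` Hamiltonian path factors: a reduction from 3SAT
-/

set_option autoImplicit false

namespace Pool.Agent.H78.GD

/-- `D` dominates the path `l` (vertices in the order of the list). -/
def Dom (D : Finset ℕ) (l : List ℕ) : Prop :=
  ∀ v ∈ l, v ∈ D ∨ ∃ u ∈ D, [u, v] <:+: l ∨ [v, u] <:+: l

/-- The paths `l`, `l'` have no edge in common. -/
def EDisj (l l' : List ℕ) : Prop :=
  ∀ u v, [u, v] <:+: l → ¬ [u, v] <:+: l' ∧ ¬ [v, u] <:+: l'

lemma Dom.append {D : Finset ℕ} {l l' : List ℕ} (h : Dom D l) (h' : Dom D l') :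
    Dom D (l ++ l') := by
  intro v hv
  rcases List.mem_append.mp hv with hv | hv
  · rcases h v hv with h | ⟨u, hu, h | h⟩
    · exact Or.inl h
    · exact Or.inr ⟨u, hu, Or.inl (h.trans (List.prefix_append l l').isInfix)⟩
    · exact Or.inr ⟨u, hu, Or.inr (h.trans (List.prefix_append l l').isInfix)⟩
  · rcases h' v hv with h | ⟨u, hu, h | h⟩
    · exact Or.inl h
    · exact Or.inr ⟨u, hu, Or.inl (h.trans (List.suffix_append l l').isInfix)⟩
    · exact Or.inr ⟨u, hu, Or.inr (h.trans (List.suffix_append l l').isInfix)⟩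

lemma Dom.nil {D : Finset ℕ} : Dom D [] := fun v hv => by simp at hv

lemma Dom.flatMap {D : Finset ℕ} {α : Type} (l : List α) (f : α → List ℕ)
    (h : ∀ a ∈ l, Dom D (f a)) : Dom D (l.flatMap f) := by
  induction l with
  | nil => exact Dom.nil
  | cons a l ih =>
    rw [List.flatMap_cons]
    exact (h a (by simp)).append (ih fun b hb => h b (by simp [hb]))

lemma infix_flatMap {α : Type} {l : List α} {f : α → List ℕ} {a : α} (ha : a ∈ l) :
    f a <:+: l.flatMap f := by
  obtain ⟨s, t, rfl⟩ := List.append_of_mem ha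
  rw [List.flatMap_append, List.flatMap_cons]
  exact ⟨s.flatMap f, t.flatMap f, by simp⟩

lemma infix_flatMap_two {α : Type} {l : List α} {f : α → List ℕ} {a b : α} (h : [a, b] <:+: l) :
    f a ++ f b <:+: l.flatMap f := by
  obtain ⟨s, t, rfl⟩ := h
  exact ⟨s.flatMap f, t.flatMap f, by simp⟩

lemma infix_left {α : Type} {a l l' : List α} (h : a <:+: l) : a <:+: l ++ l' :=
  h.trans (List.prefix_append l l').isInfix

lemma infix_right {α : Type} {a l l' : List α} (h : a <:+: l') : a <:+: l ++ l' :=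
  h.trans (List.suffix_append l l').isInfix

lemma nodup_split {l p q p' q' : List ℕ} {y : ℕ} (hl : l.Nodup) (h : p ++ y :: q = l)
    (h' : p' ++ y :: q' = l) : p = p' ∧ q = q' := by
  have key : ∀ {p q : List ℕ}, p ++ y :: q = l → p.length = l.idxOf y := by
    intro p q h
    subst h
    have : y ∉ p := by
      intro hy
      rw [List.nodup_append] at hl
      exact hl.2.2 y hy y (by simp) rfl
    rw [List.idxOf_append_of_notMem this]
    simp
  have h1 := List.append_inj (h.trans h'.symm) ((key h).trans (key h').symm)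
  exact ⟨h1.1, (List.cons.inj h1.2).2⟩

/-- In a path without repetitions the window of an inner vertex is hit. -/
lemma window {D : Finset ℕ} {l : List ℕ} (hl : l.Nodup) (hD : Dom D l) {x y z : ℕ}
    (h : [x, y, z] <:+: l) : x ∈ D ∨ y ∈ D ∨ z ∈ D := by
  have hy : y ∈ l := h.subset (by simp)
  obtain ⟨s, t, hst⟩ := h
  rcases hD y hy with h | ⟨u, hu, h | h⟩
  · exact Or.inr (Or.inl h)
  · left
    obtain ⟨s', t', hst'⟩ := h
    have h1 : (s ++ [x]) ++ y :: (z :: t) = l := by rw [← hst]; simp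
    have h2 : (s' ++ [u]) ++ y :: t' = l := by rw [← hst']; simp
    have h3 := (nodup_split hl h1 h2).1
    have h4 := (List.append_inj' h3 rfl).2
    simp only [List.cons.injEq, and_true] at h4
    rw [h4]
    exact hu
  · right; right
    obtain ⟨s', t', hst'⟩ := h
    have h1 : (s ++ [x]) ++ y :: (z :: t) = l := by rw [← hst]; simp
    have h2 : s' ++ y :: (u :: t') = l := by rw [← hst']; simp
    have h3 := (nodup_split hl h1 h2).2
    rw [(List.cons.inj h3).1]
    exact hu

lemma isChain_flatMap_range {R : ℕ → ℕ → Prop} (f : ℕ → List ℕ) (n : ℕ)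
    (hne : ∀ t < n, f t ≠ [])
    (h1 : ∀ t < n, List.IsChain R (f t))
    (h2 : ∀ t, t + 1 < n → ∀ x ∈ (f t).getLast?, ∀ y ∈ (f (t + 1)).head?, R x y) :
    List.IsChain R ((List.range n).flatMap f) := by
  induction n with
  | zero => simp
  | succ n ih =>
    rw [List.range_succ, List.flatMap_append, List.flatMap_singleton, List.isChain_append]
    refine ⟨ih (fun t ht => hne t (by omega)) (fun t ht => h1 t (by omega))
      (fun t ht => h2 t (by omega)), h1 n (by omega), ?_⟩
    intro x hx y hy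
    rcases n with _ | n
    · simp at hx
    · rw [List.range_succ, List.flatMap_append, List.flatMap_singleton,
        List.getLast?_append_of_ne_nil _ (hne n (by omega))] at hx
      exact h2 n (by omega) x hx y hy

lemma IsChain.rel_of_pair {R : ℕ → ℕ → Prop} {l : List ℕ} (h : List.IsChain R l) {u v : ℕ}
    (h' : [u, v] <:+: l) : R u v := by
  obtain ⟨s, t, rfl⟩ := h'
  rw [List.isChain_iff_forall_rel_of_append_cons_cons] at h
  exact h (l₁ := s) (l₂ := t) (by simp)

/-! ### The instance -/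

/-- A literal: a variable and a sign. -/
abbrev Lit := ℕ × Bool

/-- number of blocks without the fillers -/
def nB0 (k T : ℕ) : ℕ := 3 * T + 2 * (T / 3) + k

/-- number of vertices outside the fillers = number of fillers -/
def nN (k T : ℕ) : ℕ := 3 * T + 4 * nB0 k T

/-- number of blocks -/
def nB (k T : ℕ) : ℕ := nB0 k T + nN k T

/-- a block in the first path -/
def blk1 (T b : ℕ) : List ℕ := [3 * T + 4 * b + 3, 3 * T + 4 * b + 2, 3 * T + 4 * b + 1, 3 * T + 4 * b]

/-- a block in the second path -/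
def blk2 (T b : ℕ) : List ℕ := [3 * T + 4 * b + 1, 3 * T + 4 * b + 3, 3 * T + 4 * b, 3 * T + 4 * b + 2]

/-- the triple of an occurrence -/
def tri (o : ℕ) : List ℕ := [3 * o, 3 * o + 1, 3 * o + 2]

/-- the literal number `o` -/
def lit (ls : List Lit) (o : ℕ) : Lit := ls.getD o (0, true)

/-- the occurrences of the variable `x`, the positive ones first -/
def occ (ls : List Lit) (x : ℕ) : List ℕ :=
  (List.range ls.length).filter (fun o => lit ls o == (x, true)) ++
    (List.range ls.length).filter (fun o => lit ls o == (x, false))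

/-- `o` is the first occurrence of its variable -/
def first (ls : List Lit) (o : ℕ) : Bool :=
  (List.range o).all fun o' => (lit ls o').1 != (lit ls o).1

/-- piece of the first path -/
def piece1 (ls : List Lit) (o : ℕ) : List ℕ :=
  (if first ls o then (occ ls (lit ls o).1).flatMap tri else []) ++ blk1 ls.length o

/-- The first path. -/
def path1 (k : ℕ) (ls : List Lit) : List ℕ :=
  (List.range ls.length).flatMap (piece1 ls) ++
    (List.range (nB k ls.length - ls.length)).flatMap (fun b => blk1 ls.length (ls.length + b))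

/-- the vertex for the literal of the occurrence `o` -/
def lv (ls : List Lit) (o : ℕ) : ℕ := if (lit ls o).2 then 3 * o else 3 * o + 1

/-- the vertex for the opposite literal of the occurrence `o` -/
def lu (ls : List Lit) (o : ℕ) : ℕ := if (lit ls o).2 then 3 * o + 1 else 3 * o

/-- the piece of the second path for a clause -/
def pieceC (ls : List Lit) (i : ℕ) : List ℕ :=
  blk2 ls.length (ls.length + 2 * i) ++
    ([lv ls (3 * i), lv ls (3 * i + 1), lv ls (3 * i + 2)] ++
    blk2 ls.length (ls.length + 2 * i + 1))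

/-- the piece of the second path with the unused vertices -/
def pieceU (ls : List Lit) (o : ℕ) : List ℕ :=
  blk2 ls.length (ls.length + 2 * (ls.length / 3) + 2 * o) ++ ([lu ls o] ++
    (blk2 ls.length (ls.length + 2 * (ls.length / 3) + 2 * o + 1) ++ [3 * o + 2]))

/-- The second path. -/
def path2 (k : ℕ) (ls : List Lit) : List ℕ :=
  (List.range ls.length).flatMap (blk2 ls.length) ++
    ((List.range (ls.length / 3)).flatMap (pieceC ls) ++
    ((List.range ls.length).flatMap (pieceU ls) ++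
    (List.range (nB k ls.length - (3 * ls.length + 2 * (ls.length / 3)))).flatMap
      (fun b => blk2 ls.length (3 * ls.length + 2 * (ls.length / 3) + b))))

/-- cyclic shift -/
def sh (N t j : ℕ) : ℕ := if t + j < N then t + j else t + j - N

/-- piece of the other paths -/
def piece3 (N j t : ℕ) : List ℕ :=
  [t, N + 4 * sh N t j, N + 4 * t + 1, N + 4 * sh N t j + 3, N + 4 * sh N t (2 * j) + 2]

/-- The other paths. -/
def path3 (N j : ℕ) : List ℕ := (List.range N).flatMap (piece3 N j)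

/-- The `k` paths. -/
def paths (k : ℕ) (ls : List Lit) : List (List ℕ) :=
  path1 k ls :: path2 k ls ::
    (List.range (k - 2)).map (fun j => path3 (nN k ls.length) (j + 1))

/-- The number of vertices. -/
def nV (k : ℕ) (ls : List Lit) : ℕ := 3 * ls.length + 4 * nB k ls.length

/-- The bound. -/
def bound (k : ℕ) (ls : List Lit) : ℕ := ls.length + 2 * nB k ls.length

lemma nV_eq (k : ℕ) (ls : List Lit) : nV k ls = 5 * nN k ls.length := by
  unfold nV nB nN; ring

/-! ### The first path is a permutation -/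

lemma mem_blk1 {T b v : ℕ} : v ∈ blk1 T b ↔ 3 * T + 4 * b ≤ v ∧ v < 3 * T + 4 * b + 4 := by
  simp only [blk1, List.mem_cons, List.not_mem_nil, or_false]
  omega

lemma mem_blk2 {T b v : ℕ} : v ∈ blk2 T b ↔ 3 * T + 4 * b ≤ v ∧ v < 3 * T + 4 * b + 4 := by
  simp only [blk2, List.mem_cons, List.not_mem_nil, or_false]
  omega

lemma mem_tri {o v : ℕ} : v ∈ tri o ↔ 3 * o ≤ v ∧ v < 3 * o + 3 := by
  simp only [tri, List.mem_cons, List.not_mem_nil, or_false]
  omega

lemma nodup_blk1 (T b : ℕ) : (blk1 T b).Nodup := by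
  simp only [blk1, List.nodup_cons, List.mem_cons, List.not_mem_nil, or_false, not_false_eq_true,
    List.nodup_nil, and_true]
  omega

lemma nodup_tri (o : ℕ) : (tri o).Nodup := by
  simp only [tri, List.nodup_cons, List.mem_cons, List.not_mem_nil, or_false, not_false_eq_true,
    List.nodup_nil, and_true]
  omega

lemma mem_occ {ls : List Lit} {x o : ℕ} : o ∈ occ ls x ↔ o < ls.length ∧ (lit ls o).1 = x := by
  simp only [occ, List.mem_append, List.mem_filter, List.mem_range, beq_iff_eq]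
  constructor
  · rintro (⟨h1, h2⟩ | ⟨h1, h2⟩) <;> exact ⟨h1, by rw [h2]⟩
  · rintro ⟨h1, h2⟩
    rcases h : (lit ls o).2 with _ | _
    · exact Or.inr ⟨h1, Prod.ext h2 h⟩
    · exact Or.inl ⟨h1, Prod.ext h2 h⟩

lemma nodup_occ (ls : List Lit) (x : ℕ) : (occ ls x).Nodup := by
  unfold occ
  rw [List.nodup_append]
  refine ⟨List.nodup_range.filter _, List.nodup_range.filter _, ?_⟩
  rintro a ha b hb rfl
  simp only [List.mem_filter, List.mem_range, beq_iff_eq] at ha hb
  rw [ha.2] at hb
  simp at hb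

lemma first_iff {ls : List Lit} {o : ℕ} :
    first ls o = true ↔ ∀ o' < o, (lit ls o').1 ≠ (lit ls o).1 := by
  simp [first]

lemma exists_first (ls : List Lit) (o : ℕ) :
    ∃ o₀ ≤ o, first ls o₀ = true ∧ (lit ls o₀).1 = (lit ls o).1 := by
  classical
  have h : ∃ o', (lit ls o').1 = (lit ls o).1 := ⟨o, rfl⟩
  refine ⟨Nat.find h, Nat.find_min' h rfl, ?_, Nat.find_spec h⟩
  rw [first_iff]
  intro o' ho' he
  exact Nat.find_min h ho' (he.trans (Nat.find_spec h))

lemma mem_tris {ls : List Lit} {x v : ℕ} :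
    v ∈ (occ ls x).flatMap tri ↔ v < 3 * ls.length ∧ (lit ls (v / 3)).1 = x := by
  simp only [List.mem_flatMap, mem_occ, mem_tri]
  constructor
  · rintro ⟨o, ⟨h1, h2⟩, h3⟩
    have : v / 3 = o := by omega
    rw [this]
    exact ⟨by omega, h2⟩
  · rintro ⟨h1, h2⟩
    exact ⟨v / 3, ⟨by omega, h2⟩, by omega⟩

lemma nodup_tris (ls : List Lit) (x : ℕ) : ((occ ls x).flatMap tri).Nodup := by
  rw [List.nodup_flatMap]
  refine ⟨fun o _ => nodup_tri o, ?_⟩
  refine (nodup_occ ls x).imp fun {a b} hab => ?_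
  intro v ha hb
  rw [mem_tri] at ha hb
  omega

lemma mem_piece1 {ls : List Lit} {o v : ℕ} : v ∈ piece1 ls o ↔
    (first ls o = true ∧ v < 3 * ls.length ∧ (lit ls (v / 3)).1 = (lit ls o).1) ∨
      (3 * ls.length + 4 * o ≤ v ∧ v < 3 * ls.length + 4 * o + 4) := by
  unfold piece1
  rw [List.mem_append, mem_blk1]
  refine or_congr ?_ Iff.rfl
  split_ifs with h
  · rw [mem_tris]
    simp [h]
  · simp [h]

lemma nodup_piece1 (ls : List Lit) (o : ℕ) : (piece1 ls o).Nodup := by
  unfold piece1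
  rw [List.nodup_append]
  refine ⟨?_, nodup_blk1 _ _, ?_⟩
  · split_ifs with h
    · exact nodup_tris _ _
    · exact List.nodup_nil
  · rintro a ha b hb rfl
    rw [mem_blk1] at hb
    split_ifs at ha with h
    · rw [mem_tris] at ha
      omega
    · simp at ha

lemma nodup_path1 (k : ℕ) (ls : List Lit) : (path1 k ls).Nodup := by
  unfold path1
  rw [List.nodup_append]
  refine ⟨?_, ?_, ?_⟩
  · rw [List.nodup_flatMap]
    refine ⟨fun o _ => nodup_piece1 ls o, ?_⟩
    refine List.pairwise_lt_range.imp fun {a b} hab => ?_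
    intro v ha hb
    rw [mem_piece1] at ha hb
    rcases ha with ha | ha <;> rcases hb with hb | hb
    · have h1 := first_iff.mp hb.1 a hab
      exact h1 (ha.2.2.symm.trans hb.2.2)
    · omega
    · omega
    · omega
  · rw [List.nodup_flatMap]
    refine ⟨fun o _ => nodup_blk1 _ _, ?_⟩
    refine List.pairwise_lt_range.imp fun {a b} hab => ?_
    intro v ha hb
    rw [mem_blk1] at ha hb
    omega
  · rintro a ha b hb rfl
    simp only [List.mem_flatMap, mem_piece1, mem_blk1, List.mem_range] at ha hb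
    obtain ⟨o, ho, ha | ha⟩ := ha
    · obtain ⟨b, hb1, hb2⟩ := hb
      omega
    · obtain ⟨b, hb1, hb2⟩ := hb
      omega

lemma mem_path1 {k : ℕ} {ls : List Lit} {v : ℕ} : v ∈ path1 k ls ↔ v < nV k ls := by
  unfold path1 nV
  have hB : ls.length ≤ nB k ls.length := by unfold nB nB0; omega
  simp only [List.mem_append, List.mem_flatMap, mem_piece1, mem_blk1, List.mem_range]
  constructor
  · rintro (⟨o, ho, h | h⟩ | ⟨b, hb, h⟩)
    · omega
    · omega
    · omega
  · intro h
    by_cases h1 : v < 3 * ls.length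
    · obtain ⟨o₀, h2, h3, h4⟩ := exists_first ls (v / 3)
      exact Or.inl ⟨o₀, by omega, Or.inl ⟨h3, h1, h4.symm⟩⟩
    · by_cases h2 : v < 7 * ls.length
      · exact Or.inl ⟨(v - 3 * ls.length) / 4, by omega, Or.inr (by omega)⟩
      · exact Or.inr ⟨(v - 3 * ls.length) / 4 - ls.length, by omega, by omega⟩

lemma perm_path1 (k : ℕ) (ls : List Lit) : (path1 k ls).Perm (List.range (nV k ls)) := by
  rw [List.perm_ext_iff_of_nodup (nodup_path1 k ls) List.nodup_range]
  intro v
  rw [mem_path1, List.mem_range]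

/-! ### The other paths are permutations -/

lemma perm_of_subset {l : List ℕ} {n : ℕ} (h : ∀ v < n, v ∈ l) (hl : l.length ≤ n) :
    l.Perm (List.range n) := by
  have h1 : (List.range n).Subperm l :=
    List.subperm_of_subset List.nodup_range fun v hv => h v (List.mem_range.mp hv)
  exact (h1.perm_of_length_le (by simpa using hl)).symm

lemma length_flatMap_const {α : Type} (l : List α) (f : α → List ℕ) (c : ℕ)
    (h : ∀ a ∈ l, (f a).length = c) : (l.flatMap f).length = l.length * c := by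
  induction l with
  | nil => simp
  | cons a l ih =>
    rw [List.flatMap_cons, List.length_append, h a (by simp), ih fun b hb => h b (by simp [hb]),
      List.length_cons]
    ring

lemma lv_lu (ls : List Lit) (o : ℕ) :
    (lv ls o = 3 * o ∧ lu ls o = 3 * o + 1) ∨ (lv ls o = 3 * o + 1 ∧ lu ls o = 3 * o) := by
  unfold lv lu
  split_ifs <;> simp

lemma perm_path2 (k : ℕ) (ls : List Lit) (h3 : 3 ∣ ls.length) :
    (path2 k ls).Perm (List.range (nV k ls)) := by
  have hB : 3 * ls.length + 2 * (ls.length / 3) ≤ nB k ls.length := by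
    unfold nB nB0; omega
  apply perm_of_subset
  · intro v hv
    unfold nV at hv
    unfold path2
    simp only [List.mem_append, List.mem_flatMap, List.mem_range, mem_blk2, pieceC, pieceU,
      List.mem_cons, List.not_mem_nil, or_false]
    by_cases h1 : v < 3 * ls.length
    · by_cases h2 : v % 3 = 2
      · exact Or.inr (Or.inr (Or.inl ⟨v / 3, by omega, Or.inr (Or.inr (Or.inr (by omega)))⟩))
      · by_cases h4 : v = lv ls (v / 3)
        · refine Or.inr (Or.inl ⟨v / 3 / 3, by omega, Or.inr (Or.inl ?_)⟩)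
          have h5 : v / 3 = 3 * (v / 3 / 3) ∨ v / 3 = 3 * (v / 3 / 3) + 1 ∨
            v / 3 = 3 * (v / 3 / 3) + 2 := by omega
          rcases h5 with h5 | h5 | h5
          · left; rw [← h5]; exact h4
          · right; left; rw [← h5]; exact h4
          · right; right; rw [← h5]; exact h4
        · have h5 : v = lu ls (v / 3) := by
            rcases lv_lu ls (v / 3) with h | h <;> omega
          exact Or.inr (Or.inr (Or.inl ⟨v / 3, by omega, Or.inr (Or.inl h5)⟩))
    · by_cases h2 : v < 7 * ls.length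
      · exact Or.inl ⟨(v - 3 * ls.length) / 4, by omega, by omega⟩
      · by_cases h4 : v < 7 * ls.length + 8 * (ls.length / 3)
        · refine Or.inr (Or.inl ⟨(v - 7 * ls.length) / 8, by omega, ?_⟩)
          omega
        · by_cases h5 : v < 7 * ls.length + 8 * (ls.length / 3) + 8 * ls.length
          · refine Or.inr (Or.inr (Or.inl
              ⟨(v - (7 * ls.length + 8 * (ls.length / 3))) / 8, by omega, ?_⟩))
            omega
          · refine Or.inr (Or.inr (Or.inr
              ⟨(v - (7 * ls.length + 8 * (ls.length / 3) + 8 * ls.length)) / 4, by omega, ?_⟩))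
            omega
  · unfold path2 nV
    rw [List.length_append, List.length_append, List.length_append,
      length_flatMap_const _ _ 4 (fun _ _ => rfl), length_flatMap_const _ _ 11 (fun _ _ => rfl),
      length_flatMap_const _ _ 10 (fun _ _ => rfl), length_flatMap_const _ _ 4 (fun _ _ => rfl)]
    simp only [List.length_range]
    omega

lemma perm_path3 (k : ℕ) (ls : List Lit) (j : ℕ) (hj : 2 * j < nN k ls.length) :
    (path3 (nN k ls.length) j).Perm (List.range (nV k ls)) := by
  rw [nV_eq]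
  generalize nN k ls.length = N at *
  apply perm_of_subset
  · intro v hv
    unfold path3
    simp only [List.mem_flatMap, List.mem_range, piece3, List.mem_cons, List.not_mem_nil, or_false]
    by_cases h1 : v < N
    · exact ⟨v, h1, Or.inl rfl⟩
    · have hsh : ∀ s i, s < N → i < N → ∃ t < N, sh N t i = s := by
        intro s i hs hi
        unfold sh
        by_cases h : i ≤ s
        · refine ⟨s - i, by omega, ?_⟩
          rw [if_pos (by omega)]
          omega
        · refine ⟨s + N - i, by omega, ?_⟩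
          rw [if_neg (by omega)]
          omega
      have h2 : (v - N) % 4 = 0 ∨ (v - N) % 4 = 1 ∨ (v - N) % 4 = 2 ∨ (v - N) % 4 = 3 := by omega
      rcases h2 with h2 | h2 | h2 | h2
      · obtain ⟨t, ht, h3⟩ := hsh ((v - N) / 4) j (by omega) (by omega)
        exact ⟨t, ht, Or.inr (Or.inl (by rw [h3]; omega))⟩
      · exact ⟨(v - N) / 4, by omega, Or.inr (Or.inr (Or.inl (by omega)))⟩
      · obtain ⟨t, ht, h3⟩ := hsh ((v - N) / 4) (2 * j) (by omega) (by omega)
        exact ⟨t, ht, Or.inr (Or.inr (Or.inr (Or.inr (by rw [h3]; omega))))⟩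
      · obtain ⟨t, ht, h3⟩ := hsh ((v - N) / 4) j (by omega) (by omega)
        exact ⟨t, ht, Or.inr (Or.inr (Or.inr (Or.inl (by rw [h3]; omega))))⟩
  · unfold path3
    rw [length_flatMap_const _ _ 5 (fun _ _ => rfl), List.length_range]
    omega

/-! ### Edges -/

lemma getLast_flatMap_range {f : ℕ → List ℕ} {n x : ℕ} (hne : ∀ t < n, f t ≠ [])
    (hx : x ∈ ((List.range n).flatMap f).getLast?) : ∃ t, t + 1 = n ∧ x ∈ (f t).getLast? := by
  rcases n with _ | n
  · simp at hx
  · rw [List.range_succ, List.flatMap_append, List.flatMap_singleton,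
      List.getLast?_append_of_ne_nil _ (hne n (by omega))] at hx
    exact ⟨n, rfl, hx⟩

lemma head_flatMap_range {f : ℕ → List ℕ} {n y : ℕ} (hne : ∀ t < n, f t ≠ [])
    (hy : y ∈ ((List.range n).flatMap f).head?) : 0 < n ∧ y ∈ (f 0).head? := by
  rcases n with _ | n
  · simp at hy
  · rw [List.range_succ_eq_map, List.flatMap_cons,
      List.head?_append_of_ne_nil _ (hne 0 (by omega))] at hy
    exact ⟨by omega, hy⟩

lemma head_append {l l' : List ℕ} {y : ℕ} (hy : y ∈ (l ++ l').head?) :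
    y ∈ l.head? ∨ y ∈ l'.head? := by
  rcases l with _ | ⟨a, l⟩
  · exact Or.inr hy
  · exact Or.inl hy

lemma head_tris {l : List ℕ} {y : ℕ} (hy : y ∈ (l.flatMap tri).head?) :
    ∃ o ∈ l, y = 3 * o := by
  rcases l with _ | ⟨a, l⟩
  · simp at hy
  · refine ⟨a, by simp, ?_⟩
    simp only [List.flatMap_cons, tri, List.cons_append, List.head?_cons, Option.mem_def,
      Option.some.injEq] at hy
    exact hy.symm

lemma getLast_tris {l : List ℕ} {x : ℕ} (hx : x ∈ (l.flatMap tri).getLast?) :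
    ∃ o ∈ l, x = 3 * o + 2 := by
  induction l using List.reverseRecOn with
  | nil => simp at hx
  | append_singleton l a _ =>
    refine ⟨a, by simp, ?_⟩
    rw [List.flatMap_append, List.flatMap_singleton,
      List.getLast?_append_of_ne_nil _ (by simp [tri])] at hx
    simp only [tri, Option.mem_def, List.getLast?_cons_cons, List.getLast?_singleton,
      Option.some.injEq] at hx
    exact hx.symm

/-- consecutive vertices of the first path -/
def P1 (T : ℕ) (u v : ℕ) : Prop :=
  (∃ b r, r < 3 ∧ u = 3 * T + 4 * b + r + 1 ∧ v = 3 * T + 4 * b + r) ∨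
  (∃ b b', b < b' ∧ u = 3 * T + 4 * b ∧ v = 3 * T + 4 * b' + 3) ∨
  (∃ b o, o < T ∧ b < T ∧ u = 3 * T + 4 * b ∧ v = 3 * o) ∨
  (∃ b o, o < T ∧ b < T ∧ u = 3 * o + 2 ∧ v = 3 * T + 4 * b + 3) ∨
  (∃ o r, o < T ∧ r < 2 ∧ u = 3 * o + r ∧ v = 3 * o + r + 1) ∨
  (∃ o o', o < T ∧ o' < T ∧ u = 3 * o + 2 ∧ v = 3 * o')

/-- consecutive vertices of the second path -/
def P2 (T : ℕ) (u v : ℕ) : Prop :=
  (∃ b, u = 3 * T + 4 * b + 1 ∧ v = 3 * T + 4 * b + 3) ∨
  (∃ b, u = 3 * T + 4 * b + 3 ∧ v = 3 * T + 4 * b) ∨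
  (∃ b, u = 3 * T + 4 * b ∧ v = 3 * T + 4 * b + 2) ∨
  (∃ b b', b < b' ∧ u = 3 * T + 4 * b + 2 ∧ v = 3 * T + 4 * b' + 1) ∨
  (∃ b, b < 3 * T + 2 * (T / 3) ∧ u = 3 * T + 4 * b + 2 ∧ v < 3 * T) ∨
  (∃ b, u < 3 * T ∧ v = 3 * T + 4 * b + 1) ∨
  (∃ o o' r r', o ≠ o' ∧ o < T ∧ o' < T ∧ r < 2 ∧ r' < 2 ∧ u = 3 * o + r ∧ v = 3 * o' + r')

/-- consecutive vertices of the other paths -/
def P3 (N j : ℕ) (u v : ℕ) : Prop :=
  (∃ t < N, u = t ∧ v = N + 4 * sh N t j) ∨
  (∃ t < N, u = N + 4 * sh N t j ∧ v = N + 4 * t + 1) ∨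
  (∃ t < N, u = N + 4 * t + 1 ∧ v = N + 4 * sh N t j + 3) ∨
  (∃ t < N, u = N + 4 * sh N t j + 3 ∧ v = N + 4 * sh N t (2 * j) + 2) ∨
  (∃ t, t + 1 < N ∧ u = N + 4 * sh N t (2 * j) + 2 ∧ v = t + 1)

lemma chain_blk1 (T b : ℕ) : List.IsChain (P1 T) (blk1 T b) := by
  unfold blk1
  simp only [List.isChain_cons_cons, List.isChain_singleton, and_true]
  refine ⟨Or.inl ⟨b, 2, ?_⟩, Or.inl ⟨b, 1, ?_⟩, Or.inl ⟨b, 0, ?_⟩⟩ <;> omega

lemma chain_tris (T : ℕ) (l : List ℕ) (hl : ∀ o ∈ l, o < T) :
    List.IsChain (P1 T) (l.flatMap tri) := by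
  induction l with
  | nil => simp
  | cons a l ih =>
    have ha : a < T := hl a (by simp)
    rw [List.flatMap_cons, List.isChain_append]
    refine ⟨?_, ih fun o ho => hl o (by simp [ho]), ?_⟩
    · unfold tri
      simp only [List.isChain_cons_cons, List.isChain_singleton, and_true]
      refine ⟨?_, ?_⟩
      · exact Or.inr (Or.inr (Or.inr (Or.inr (Or.inl ⟨a, 0, by omega⟩))))
      · exact Or.inr (Or.inr (Or.inr (Or.inr (Or.inl ⟨a, 1, by omega⟩))))
    · intro x hx y hy
      obtain ⟨o, ho, rfl⟩ := head_tris hy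
      simp only [tri, Option.mem_def, List.getLast?_cons_cons, List.getLast?_singleton,
        Option.some.injEq] at hx
      have := hl o (by simp [ho])
      exact Or.inr (Or.inr (Or.inr (Or.inr (Or.inr ⟨a, o, by omega⟩))))

lemma last_piece1 {ls : List Lit} {o x : ℕ} (hx : x ∈ (piece1 ls o).getLast?) :
    x = 3 * ls.length + 4 * o := by
  unfold piece1 blk1 at hx
  rw [List.getLast?_append_of_ne_nil _ (by simp)] at hx
  simp only [Option.mem_def, List.getLast?_cons_cons, List.getLast?_singleton,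
    Option.some.injEq] at hx
  exact hx.symm

lemma head_piece1 {ls : List Lit} {o y : ℕ} (hy : y ∈ (piece1 ls o).head?) :
    (∃ o' < ls.length, y = 3 * o') ∨ y = 3 * ls.length + 4 * o + 3 := by
  unfold piece1 at hy
  rcases head_append hy with hy | hy
  · split_ifs at hy with h
    · obtain ⟨o', ho', rfl⟩ := head_tris hy
      exact Or.inl ⟨o', (mem_occ.mp ho').1, rfl⟩
    · simp at hy
  · right
    simp only [blk1, List.head?_cons, Option.mem_def, Option.some.injEq] at hy
    exact hy.symm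

lemma chain_piece1 (ls : List Lit) (o : ℕ) (ho : o < ls.length) :
    List.IsChain (P1 ls.length) (piece1 ls o) := by
  unfold piece1
  rw [List.isChain_append]
  refine ⟨?_, chain_blk1 _ _, ?_⟩
  · split_ifs with h
    · exact chain_tris _ _ fun o' ho' => (mem_occ.mp ho').1
    · simp
  · intro x hx y hy
    split_ifs at hx with h
    · obtain ⟨o', ho', rfl⟩ := getLast_tris hx
      have := (mem_occ.mp ho').1
      simp only [blk1, List.head?_cons, Option.mem_def, Option.some.injEq] at hy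
      exact Or.inr (Or.inr (Or.inr (Or.inl ⟨o, o', by omega⟩)))
    · simp at hx

lemma chain_path1 (k : ℕ) (ls : List Lit) : List.IsChain (P1 ls.length) (path1 k ls) := by
  unfold path1
  have hne : ∀ t < ls.length, piece1 ls t ≠ [] := by
    intro t _
    simp [piece1, blk1]
  rw [List.isChain_append]
  refine ⟨isChain_flatMap_range _ _ hne (fun t ht => chain_piece1 ls t ht) ?_,
    isChain_flatMap_range _ _ (fun t _ => by simp [blk1]) (fun t _ => chain_blk1 _ _) ?_, ?_⟩
  · intro t ht x hx y hy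
    have h1 := last_piece1 hx
    rcases head_piece1 hy with ⟨o', h2, h3⟩ | h2
    · exact Or.inr (Or.inr (Or.inl ⟨t, o', by omega⟩))
    · exact Or.inr (Or.inl ⟨t, t + 1, by omega⟩)
  · intro t ht x hx y hy
    simp only [blk1, List.head?_cons, Option.mem_def, Option.some.injEq, List.getLast?_cons_cons,
      List.getLast?_singleton] at hx hy
    exact Or.inr (Or.inl ⟨ls.length + t, ls.length + (t + 1), by omega⟩)
  · intro x hx y hy
    obtain ⟨t, ht, hx⟩ := getLast_flatMap_range hne hx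
    have h1 := last_piece1 hx
    obtain ⟨-, hy⟩ := head_flatMap_range (fun t _ => by simp [blk1]) hy
    simp only [blk1, List.head?_cons, Option.mem_def, Option.some.injEq] at hy
    exact Or.inr (Or.inl ⟨t, ls.length, by omega⟩)

lemma chain_blk2 (T b : ℕ) : List.IsChain (P2 T) (blk2 T b) := by
  unfold blk2
  simp only [List.isChain_cons_cons, List.isChain_singleton, and_true]
  exact ⟨Or.inl ⟨b, by omega⟩, Or.inr (Or.inl ⟨b, by omega⟩),
    Or.inr (Or.inr (Or.inl ⟨b, by omega⟩))⟩

lemma P2_qt {T b v : ℕ} (hb : b < 3 * T + 2 * (T / 3)) (hv : v < 3 * T) :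
    P2 T (3 * T + 4 * b + 2) v :=
  Or.inr (Or.inr (Or.inr (Or.inr (Or.inl ⟨b, hb, rfl, hv⟩))))

lemma P2_tq {T b u : ℕ} (hu : u < 3 * T) : P2 T u (3 * T + 4 * b + 1) :=
  Or.inr (Or.inr (Or.inr (Or.inr (Or.inr (Or.inl ⟨b, hu, rfl⟩)))))

lemma P2_qq {T b b' : ℕ} (h : b < b') : P2 T (3 * T + 4 * b + 2) (3 * T + 4 * b' + 1) :=
  Or.inr (Or.inr (Or.inr (Or.inl ⟨b, b', h, rfl, rfl⟩)))

lemma P2_lv {ls : List Lit} {o o' : ℕ} (h : o ≠ o') (ho : o < ls.length) (ho' : o' < ls.length) :
    P2 ls.length (lv ls o) (lv ls o') := by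
  refine Or.inr (Or.inr (Or.inr (Or.inr (Or.inr (Or.inr
    ⟨o, o', lv ls o - 3 * o, lv ls o' - 3 * o', h, ho, ho', ?_⟩)))))
  rcases lv_lu ls o with h1 | h1 <;> rcases lv_lu ls o' with h2 | h2 <;> omega

lemma lv_lt {ls : List Lit} {o : ℕ} (ho : o < ls.length) : lv ls o < 3 * ls.length := by
  rcases lv_lu ls o with h1 | h1 <;> omega

lemma lu_lt {ls : List Lit} {o : ℕ} (ho : o < ls.length) : lu ls o < 3 * ls.length := by
  rcases lv_lu ls o with h1 | h1 <;> omega

lemma head_blk2 {T b y : ℕ} (hy : y ∈ (blk2 T b).head?) : y = 3 * T + 4 * b + 1 := by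
  simp only [blk2, List.head?_cons, Option.mem_def, Option.some.injEq] at hy
  exact hy.symm

lemma head_blk2_append {T b y : ℕ} {l : List ℕ} (hy : y ∈ (blk2 T b ++ l).head?) :
    y = 3 * T + 4 * b + 1 := by
  simp only [blk2, List.cons_append, List.head?_cons, Option.mem_def, Option.some.injEq] at hy
  exact hy.symm

lemma last_blk2 {T b x : ℕ} (hx : x ∈ (blk2 T b).getLast?) : x = 3 * T + 4 * b + 2 := by
  simp only [blk2, Option.mem_def, List.getLast?_cons_cons, List.getLast?_singleton,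
    Option.some.injEq] at hx
  exact hx.symm

lemma chain_pieceC (ls : List Lit) (i : ℕ) (hi : i < ls.length / 3) :
    List.IsChain (P2 ls.length) (pieceC ls i) := by
  unfold pieceC
  rw [List.isChain_append, List.isChain_append]
  refine ⟨chain_blk2 _ _, ⟨?_, chain_blk2 _ _, ?_⟩, ?_⟩
  · simp only [List.isChain_cons_cons, List.isChain_singleton, and_true]
    exact ⟨P2_lv (by omega) (by omega) (by omega), P2_lv (by omega) (by omega) (by omega)⟩
  · intro x hx y hy
    rw [head_blk2 hy]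
    simp only [Option.mem_def, List.getLast?_cons_cons, List.getLast?_singleton,
      Option.some.injEq] at hx
    rw [← hx]
    exact P2_tq (lv_lt (by omega))
  · intro x hx y hy
    rw [last_blk2 hx]
    simp only [List.cons_append, List.head?_cons, Option.mem_def, Option.some.injEq] at hy
    rw [← hy]
    exact P2_qt (by omega) (lv_lt (by omega))

lemma chain_pieceU (ls : List Lit) (o : ℕ) (ho : o < ls.length) :
    List.IsChain (P2 ls.length) (pieceU ls o) := by
  unfold pieceU
  rw [List.isChain_append, List.isChain_append, List.isChain_append]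
  refine ⟨chain_blk2 _ _, ⟨by simp, ⟨chain_blk2 _ _, by simp, ?_⟩, ?_⟩, ?_⟩
  · intro x hx y hy
    rw [last_blk2 hx]
    simp only [List.head?_cons, Option.mem_def, Option.some.injEq] at hy
    exact P2_qt (by omega) (by omega)
  · intro x hx y hy
    rw [head_blk2_append hy]
    simp only [Option.mem_def, List.getLast?_singleton, Option.some.injEq] at hx
    rw [← hx]
    exact P2_tq (lu_lt ho)
  · intro x hx y hy
    rw [last_blk2 hx]
    simp only [List.cons_append, List.nil_append, List.head?_cons, Option.mem_def,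
      Option.some.injEq] at hy
    rw [← hy]
    exact P2_qt (by omega) (lu_lt ho)

lemma chain_path2 (k : ℕ) (ls : List Lit) (h3 : 3 ∣ ls.length) :
    List.IsChain (P2 ls.length) (path2 k ls) := by
  unfold path2
  have hneA : ∀ t < ls.length, blk2 ls.length t ≠ [] := fun t _ => by simp [blk2]
  have hneC : ∀ t < ls.length / 3, pieceC ls t ≠ [] := fun t _ => by simp [pieceC]
  have hneU : ∀ t < ls.length, pieceU ls t ≠ [] := fun t _ => by simp [pieceU]
  have hneD : ∀ t < nB k ls.length - (3 * ls.length + 2 * (ls.length / 3)),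
      blk2 ls.length (3 * ls.length + 2 * (ls.length / 3) + t) ≠ [] := fun t _ => by simp [blk2]
  have hC1 : ∀ i y, y ∈ (pieceC ls i).head? → y = 3 * ls.length + 4 * (ls.length + 2 * i) + 1 :=
    fun i y hy => head_blk2_append hy
  have hU1 : ∀ i y, y ∈ (pieceU ls i).head? →
      y = 3 * ls.length + 4 * (ls.length + 2 * (ls.length / 3) + 2 * i) + 1 :=
    fun i y hy => head_blk2_append hy
  have hC2 : ∀ i x, x ∈ (pieceC ls i).getLast? →
      x = 3 * ls.length + 4 * (ls.length + 2 * i + 1) + 2 := by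
    intro i x hx
    unfold pieceC at hx
    rw [List.getLast?_append_of_ne_nil _ (by simp),
      List.getLast?_append_of_ne_nil _ (by simp [blk2])] at hx
    exact last_blk2 hx
  have hU2 : ∀ o x, x ∈ (pieceU ls o).getLast? → x = 3 * o + 2 := by
    intro o x hx
    unfold pieceU at hx
    rw [List.getLast?_append_of_ne_nil _ (by simp), List.getLast?_append_of_ne_nil _ (by simp),
      List.getLast?_append_of_ne_nil _ (by simp)] at hx
    simp only [Option.mem_def, List.getLast?_singleton, Option.some.injEq] at hx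
    exact hx.symm
  rw [List.isChain_append, List.isChain_append, List.isChain_append]
  refine ⟨isChain_flatMap_range _ _ hneA (fun t _ => chain_blk2 _ _) ?_,
    ⟨isChain_flatMap_range _ _ hneC (fun t ht => chain_pieceC ls t ht) ?_,
      ⟨isChain_flatMap_range _ _ hneU (fun t ht => chain_pieceU ls t ht) ?_,
        isChain_flatMap_range _ _ hneD (fun t _ => chain_blk2 _ _) ?_, ?_⟩, ?_⟩, ?_⟩
  · intro t ht x hx y hy
    rw [last_blk2 hx, head_blk2 hy]
    exact P2_qq (by omega)
  · intro t ht x hx y hy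
    rw [hC2 _ _ hx, hC1 _ _ hy]
    exact P2_qq (by omega)
  · intro t ht x hx y hy
    rw [hU2 _ _ hx, hU1 _ _ hy]
    exact P2_tq (by omega)
  · intro t ht x hx y hy
    rw [last_blk2 hx, head_blk2 hy]
    exact P2_qq (by omega)
  · intro x hx y hy
    obtain ⟨t, ht, hx⟩ := getLast_flatMap_range hneU hx
    obtain ⟨-, hy⟩ := head_flatMap_range hneD hy
    rw [hU2 _ _ hx, head_blk2 hy]
    exact P2_tq (by omega)
  · intro x hx y hy
    obtain ⟨t, ht, hx⟩ := getLast_flatMap_range hneC hx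
    rw [hC2 _ _ hx]
    rcases head_append hy with hy | hy
    · obtain ⟨-, hy⟩ := head_flatMap_range hneU hy
      rw [hU1 _ _ hy]
      exact P2_qq (by omega)
    · obtain ⟨-, hy⟩ := head_flatMap_range hneD hy
      rw [head_blk2 hy]
      exact P2_qq (by omega)
  · intro x hx y hy
    obtain ⟨t, ht, hx⟩ := getLast_flatMap_range hneA hx
    rw [last_blk2 hx]
    rcases head_append hy with hy | hy
    · obtain ⟨-, hy⟩ := head_flatMap_range hneC hy
      rw [hC1 _ _ hy]
      exact P2_qq (by omega)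
    rcases head_append hy with hy | hy
    · obtain ⟨-, hy⟩ := head_flatMap_range hneU hy
      rw [hU1 _ _ hy]
      exact P2_qq (by omega)
    · obtain ⟨-, hy⟩ := head_flatMap_range hneD hy
      rw [head_blk2 hy]
      exact P2_qq (by omega)

lemma chain_path3 (N j : ℕ) : List.IsChain (P3 N j) (path3 N j) := by
  unfold path3
  refine isChain_flatMap_range _ _ (fun t _ => by simp [piece3]) ?_ ?_
  · intro t ht
    simp only [piece3, List.isChain_cons_cons, List.isChain_singleton, and_true]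
    exact ⟨Or.inl ⟨t, ht, rfl, rfl⟩, Or.inr (Or.inl ⟨t, ht, rfl, rfl⟩),
      Or.inr (Or.inr (Or.inl ⟨t, ht, rfl, rfl⟩)), Or.inr (Or.inr (Or.inr (Or.inl ⟨t, ht, rfl, rfl⟩)))⟩
  · intro t ht x hx y hy
    simp only [piece3, List.head?_cons, Option.mem_def, Option.some.injEq,
      List.getLast?_cons_cons, List.getLast?_singleton] at hx hy
    exact Or.inr (Or.inr (Or.inr (Or.inr ⟨t, ht, hx.symm, hy.symm⟩)))

lemma sh_spec (N t i : ℕ) :
    (sh N t i = t + i ∧ t + i < N) ∨ (sh N t i + N = t + i ∧ N ≤ t + i) := by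
  unfold sh
  split_ifs with h
  · left; omega
  · right; omega

lemma P1_P2 {T u v : ℕ} (h : P1 T u v) : ¬ P2 T u v ∧ ¬ P2 T v u := by
  unfold P1 at h
  unfold P2
  constructor
  · rintro (⟨b, h2⟩ | ⟨b, h2⟩ | ⟨b, h2⟩ | ⟨b, b', h2⟩ | ⟨b, h2⟩ | ⟨b, h2⟩ | ⟨o, o', r, r', h2⟩) <;>
    rcases h with ⟨c, s, h⟩ | ⟨c, c', h⟩ | ⟨c, p, h⟩ | ⟨c, p, h⟩ | ⟨p, s, h⟩ | ⟨p, p', h⟩ <;> omega
  · rintro (⟨b, h2⟩ | ⟨b, h2⟩ | ⟨b, h2⟩ | ⟨b, b', h2⟩ | ⟨b, h2⟩ | ⟨b, h2⟩ | ⟨o, o', r, r', h2⟩) <;>
    rcases h with ⟨c, s, h⟩ | ⟨c, c', h⟩ | ⟨c, p, h⟩ | ⟨c, p, h⟩ | ⟨p, s, h⟩ | ⟨p, p', h⟩ <;> omega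

lemma P3_P1 {T B₀ N j u v : ℕ} (hN : N = 3 * T + 4 * B₀) (hT : T ≤ B₀) (hj : 0 < j)
    (hjN : 2 * j < N) (h : P3 N j u v) : ¬ P1 T u v ∧ ¬ P1 T v u := by
  unfold P3 at h
  unfold P1
  constructor
  · rintro (⟨c, s, h2⟩ | ⟨c, c', h2⟩ | ⟨c, p, h2⟩ | ⟨c, p, h2⟩ | ⟨p, s, h2⟩ | ⟨p, p', h2⟩) <;>
    rcases h with ⟨t, h⟩ | ⟨t, h⟩ | ⟨t, h⟩ | ⟨t, h⟩ | ⟨t, h⟩ <;>
    have h4 := sh_spec N t j <;> have h5 := sh_spec N t (2 * j) <;> omega
  · rintro (⟨c, s, h2⟩ | ⟨c, c', h2⟩ | ⟨c, p, h2⟩ | ⟨c, p, h2⟩ | ⟨p, s, h2⟩ | ⟨p, p', h2⟩) <;>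
    rcases h with ⟨t, h⟩ | ⟨t, h⟩ | ⟨t, h⟩ | ⟨t, h⟩ | ⟨t, h⟩ <;>
    have h4 := sh_spec N t j <;> have h5 := sh_spec N t (2 * j) <;> omega

lemma P3_P2 {T B₀ N j u v : ℕ} (hN : N = 3 * T + 4 * B₀) (hT : 3 * T + 2 * (T / 3) ≤ B₀)
    (hj : 0 < j) (hjN : 2 * j < N) (h : P3 N j u v) : ¬ P2 T u v ∧ ¬ P2 T v u := by
  unfold P3 at h
  unfold P2
  constructor
  · rintro (⟨b, h2⟩ | ⟨b, h2⟩ | ⟨b, h2⟩ | ⟨b, b', h2⟩ | ⟨b, h2⟩ | ⟨b, h2⟩ | ⟨o, o', r, r', h2⟩) <;>
    rcases h with ⟨t, h⟩ | ⟨t, h⟩ | ⟨t, h⟩ | ⟨t, h⟩ | ⟨t, h⟩ <;>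
    have h4 := sh_spec N t j <;> have h5 := sh_spec N t (2 * j) <;> omega
  · rintro (⟨b, h2⟩ | ⟨b, h2⟩ | ⟨b, h2⟩ | ⟨b, b', h2⟩ | ⟨b, h2⟩ | ⟨b, h2⟩ | ⟨o, o', r, r', h2⟩) <;>
    rcases h with ⟨t, h⟩ | ⟨t, h⟩ | ⟨t, h⟩ | ⟨t, h⟩ | ⟨t, h⟩ <;>
    have h4 := sh_spec N t j <;> have h5 := sh_spec N t (2 * j) <;> omega

lemma P3_P3 {N j j' u v : ℕ} (hj : 0 < j) (hj' : 0 < j') (hjN : 2 * j < N) (hjN' : 2 * j' < N)
    (hjj : j ≠ j') (h : P3 N j u v) : ¬ P3 N j' u v ∧ ¬ P3 N j' v u := by
  unfold P3 at h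
  unfold P3
  constructor
  · rintro (⟨t', h2⟩ | ⟨t', h2⟩ | ⟨t', h2⟩ | ⟨t', h2⟩ | ⟨t', h2⟩) <;>
    rcases h with ⟨t, h⟩ | ⟨t, h⟩ | ⟨t, h⟩ | ⟨t, h⟩ | ⟨t, h⟩ <;>
    have h4 := sh_spec N t j <;> have h5 := sh_spec N t (2 * j) <;>
    have h6 := sh_spec N t' j' <;> have h7 := sh_spec N t' (2 * j') <;> omega
  · rintro (⟨t', h2⟩ | ⟨t', h2⟩ | ⟨t', h2⟩ | ⟨t', h2⟩ | ⟨t', h2⟩) <;>
    rcases h with ⟨t, h⟩ | ⟨t, h⟩ | ⟨t, h⟩ | ⟨t, h⟩ | ⟨t, h⟩ <;>
    have h4 := sh_spec N t j <;> have h5 := sh_spec N t (2 * j) <;>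
    have h6 := sh_spec N t' j' <;> have h7 := sh_spec N t' (2 * j') <;> omega

theorem paths_length (k : ℕ) (hk : 2 ≤ k) (ls : List Lit) : (paths k ls).length = k := by
  simp only [paths, List.length_cons, List.length_map, List.length_range]
  omega

lemma two_mul_lt_nN {k T j : ℕ} (hk : 2 ≤ k) (hj : j < k - 2) : 2 * (j + 1) < nN k T := by
  unfold nN nB0
  omega

theorem paths_perm (k : ℕ) (hk : 2 ≤ k) (ls : List Lit) (h3 : 3 ∣ ls.length) :
    ∀ p ∈ paths k ls, p.Perm (List.range (nV k ls)) := by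
  intro p hp
  simp only [paths, List.mem_cons, List.mem_map, List.mem_range] at hp
  rcases hp with rfl | rfl | ⟨j, hj, rfl⟩
  · exact perm_path1 k ls
  · exact perm_path2 k ls h3
  · exact perm_path3 k ls (j + 1) (two_mul_lt_nN hk hj)

theorem paths_edisj (k : ℕ) (hk : 2 ≤ k) (ls : List Lit) (h3 : 3 ∣ ls.length) :
    (paths k ls).Pairwise EDisj := by
  have hB : 3 * ls.length + 2 * (ls.length / 3) ≤ nB0 k ls.length := by unfold nB0; omega
  unfold paths
  rw [List.pairwise_cons, List.pairwise_cons]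
  refine ⟨?_, ?_, ?_⟩
  · intro p hp u v huv
    have h1 := IsChain.rel_of_pair (chain_path1 k ls) huv
    simp only [List.mem_cons, List.mem_map, List.mem_range] at hp
    rcases hp with rfl | ⟨j, hj, rfl⟩
    · exact ⟨fun h => (P1_P2 h1).1 (IsChain.rel_of_pair (chain_path2 k ls h3) h),
        fun h => (P1_P2 h1).2 (IsChain.rel_of_pair (chain_path2 k ls h3) h)⟩
    · have hj' := two_mul_lt_nN (T := ls.length) hk hj
      exact ⟨fun h => (P3_P1 rfl (by omega) (by omega) hj' (IsChain.rel_of_pair (chain_path3 _ _) h)).1 h1,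
        fun h => (P3_P1 rfl (by omega) (by omega) hj' (IsChain.rel_of_pair (chain_path3 _ _) h)).2 h1⟩
  · intro p hp u v huv
    have h1 := IsChain.rel_of_pair (chain_path2 k ls h3) huv
    simp only [List.mem_map, List.mem_range] at hp
    obtain ⟨j, hj, rfl⟩ := hp
    have hj' := two_mul_lt_nN (T := ls.length) hk hj
    exact ⟨fun h => (P3_P2 rfl hB (by omega) hj' (IsChain.rel_of_pair (chain_path3 _ _) h)).1 h1,
      fun h => (P3_P2 rfl hB (by omega) hj' (IsChain.rel_of_pair (chain_path3 _ _) h)).2 h1⟩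
  · rw [List.pairwise_map]
    refine List.Pairwise.imp_of_mem ?_ List.pairwise_lt_range
    intro j j' hj hj' hjj u v huv
    rw [List.mem_range] at hj hj'
    have h1 := two_mul_lt_nN (T := ls.length) hk hj
    have h2 := two_mul_lt_nN (T := ls.length) hk hj'
    have h4 := P3_P3 (by omega) (by omega) h1 h2 (by omega) (IsChain.rel_of_pair (chain_path3 _ _) huv)
    exact ⟨fun h => h4.1 (IsChain.rel_of_pair (chain_path3 _ _) h),
      fun h => h4.2 (IsChain.rel_of_pair (chain_path3 _ _) h)⟩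

/-! ### A satisfying assignment gives a dominating set -/

section dom

variable {D : Finset ℕ}

lemma dom4a {a b c d : ℕ} (ha : a ∈ D) (hd : d ∈ D) : Dom D [a, b, c, d] := by
  intro v hv
  simp only [List.mem_cons, List.not_mem_nil, or_false] at hv
  rcases hv with rfl | rfl | rfl | rfl
  · exact Or.inl ha
  · exact Or.inr ⟨a, ha, Or.inl ⟨[], [c, d], rfl⟩⟩
  · exact Or.inr ⟨d, hd, Or.inr ⟨[a, b], [], rfl⟩⟩
  · exact Or.inl hd

lemma dom4b {a b c d : ℕ} (hb : b ∈ D) (hc : c ∈ D) : Dom D [a, b, c, d] := by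
  intro v hv
  simp only [List.mem_cons, List.not_mem_nil, or_false] at hv
  rcases hv with rfl | rfl | rfl | rfl
  · exact Or.inr ⟨b, hb, Or.inr ⟨[], [c, d], rfl⟩⟩
  · exact Or.inl hb
  · exact Or.inl hc
  · exact Or.inr ⟨c, hc, Or.inl ⟨[a, b], [], rfl⟩⟩

lemma dom5a {a b c d e : ℕ} (ha : a ∈ D) (hd : d ∈ D) : Dom D [a, b, c, d, e] := by
  intro v hv
  simp only [List.mem_cons, List.not_mem_nil, or_false] at hv
  rcases hv with rfl | rfl | rfl | rfl | rfl
  · exact Or.inl ha
  · exact Or.inr ⟨a, ha, Or.inl ⟨[], [c, d, e], rfl⟩⟩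
  · exact Or.inr ⟨d, hd, Or.inr ⟨[a, b], [e], rfl⟩⟩
  · exact Or.inl hd
  · exact Or.inr ⟨d, hd, Or.inl ⟨[a, b, c], [], rfl⟩⟩

lemma dom5b {a b c d e : ℕ} (hb : b ∈ D) (hd : d ∈ D) : Dom D [a, b, c, d, e] := by
  intro v hv
  simp only [List.mem_cons, List.not_mem_nil, or_false] at hv
  rcases hv with rfl | rfl | rfl | rfl | rfl
  · exact Or.inr ⟨b, hb, Or.inr ⟨[], [c, d, e], rfl⟩⟩
  · exact Or.inl hb
  · exact Or.inr ⟨b, hb, Or.inl ⟨[a], [d, e], rfl⟩⟩
  · exact Or.inl hd
  · exact Or.inr ⟨d, hd, Or.inl ⟨[a, b, c], [], rfl⟩⟩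

lemma dom11 {a b c d x y z e f g h : ℕ} (ha : a ∈ D) (hd : d ∈ D) (he : e ∈ D) (hh : h ∈ D)
    (hxyz : x ∈ D ∨ y ∈ D ∨ z ∈ D) : Dom D [a, b, c, d, x, y, z, e, f, g, h] := by
  intro v hv
  simp only [List.mem_cons, List.not_mem_nil, or_false] at hv
  rcases hv with rfl | rfl | rfl | rfl | rfl | rfl | rfl | rfl | rfl | rfl | rfl
  · exact Or.inl ha
  · exact Or.inr ⟨a, ha, Or.inl ⟨[], [c, d, x, y, z, e, f, g, h], rfl⟩⟩
  · exact Or.inr ⟨d, hd, Or.inr ⟨[a, b], [x, y, z, e, f, g, h], rfl⟩⟩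
  · exact Or.inl hd
  · exact Or.inr ⟨d, hd, Or.inl ⟨[a, b, c], [y, z, e, f, g, h], rfl⟩⟩
  · rcases hxyz with h' | h' | h'
    · exact Or.inr ⟨x, h', Or.inl ⟨[a, b, c, d], [z, e, f, g, h], rfl⟩⟩
    · exact Or.inl h'
    · exact Or.inr ⟨z, h', Or.inr ⟨[a, b, c, d, x], [e, f, g, h], rfl⟩⟩
  · exact Or.inr ⟨e, he, Or.inr ⟨[a, b, c, d, x, y], [f, g, h], rfl⟩⟩
  · exact Or.inl he
  · exact Or.inr ⟨e, he, Or.inl ⟨[a, b, c, d, x, y, z], [g, h], rfl⟩⟩
  · exact Or.inr ⟨h, hh, Or.inr ⟨[a, b, c, d, x, y, z, e, f], [], rfl⟩⟩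
  · exact Or.inl hh

lemma dom3 {a b c : ℕ} (hb : b ∈ D) : Dom D [a, b, c] := by
  intro v hv
  simp only [List.mem_cons, List.not_mem_nil, or_false] at hv
  rcases hv with rfl | rfl | rfl
  · exact Or.inr ⟨b, hb, Or.inr ⟨[], [c], rfl⟩⟩
  · exact Or.inl hb
  · exact Or.inr ⟨b, hb, Or.inl ⟨[a], [], rfl⟩⟩

lemma dom_cons3 {a b c y : ℕ} {s : List ℕ} (ha : a ∈ D) (hy : y ∈ D) (h : Dom D (y :: s)) :
    Dom D (a :: b :: c :: y :: s) := by
  intro v hv
  by_cases hv' : v ∈ y :: s
  · rcases h v hv' with h | ⟨u, hu, h | h⟩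
    · exact Or.inl h
    · exact Or.inr ⟨u, hu, Or.inl (infix_right (l := [a, b, c]) h)⟩
    · exact Or.inr ⟨u, hu, Or.inr (infix_right (l := [a, b, c]) h)⟩
  · simp only [List.mem_cons] at hv hv'
    push Not at hv'
    rcases hv with rfl | rfl | rfl | hv | hv
    · exact Or.inl ha
    · exact Or.inr ⟨a, ha, Or.inl ⟨[], c :: y :: s, rfl⟩⟩
    · exact Or.inr ⟨y, hy, Or.inr ⟨[a, b], s, rfl⟩⟩
    · exact absurd hv hv'.1
    · exact absurd hv hv'.2

lemma dom_tris_a {l : List ℕ} (hl : ∀ o ∈ l, 3 * o ∈ D) {y : ℕ} {s : List ℕ} (hy : y ∈ D)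
    (h : Dom D (y :: s)) : Dom D (l.flatMap tri ++ (y :: s)) := by
  induction l with
  | nil => exact h
  | cons a l ih =>
    have ih' := ih fun o ho => hl o (by simp [ho])
    have ha : 3 * a ∈ D := hl a (by simp)
    rw [List.flatMap_cons, List.append_assoc]
    rcases l with _ | ⟨b, l⟩
    · exact dom_cons3 ha hy h
    · exact dom_cons3 ha (hl b (by simp)) ih'

lemma dom_tris_b {l : List ℕ} (hl : ∀ o ∈ l, 3 * o + 1 ∈ D) : Dom D (l.flatMap tri) :=
  Dom.flatMap _ _ fun o ho => dom3 (hl o ho)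

end dom

/-- the intended dominating set for an assignment -/
def dset (k : ℕ) (ls : List Lit) (σ : ℕ → Bool) : Finset ℕ :=
  (Finset.range ls.length).image (fun o => if σ (lit ls o).1 then 3 * o else 3 * o + 1) ∪
    ((Finset.range (nB k ls.length)).image
      (fun b => if b < ls.length ∨ nB0 k ls.length ≤ b then 3 * ls.length + 4 * b
        else 3 * ls.length + 4 * b + 1) ∪
    (Finset.range (nB k ls.length)).image
      (fun b => if b < ls.length ∨ nB0 k ls.length ≤ b then 3 * ls.length + 4 * b + 3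
        else 3 * ls.length + 4 * b + 2))

lemma card_dset (k : ℕ) (ls : List Lit) (σ : ℕ → Bool) : (dset k ls σ).card ≤ bound k ls := by
  unfold dset bound
  refine (Finset.card_union_le _ _).trans ?_
  have h1 := Finset.card_union_le ((Finset.range (nB k ls.length)).image
      (fun b => if b < ls.length ∨ nB0 k ls.length ≤ b then 3 * ls.length + 4 * b
        else 3 * ls.length + 4 * b + 1)) ((Finset.range (nB k ls.length)).image
      (fun b => if b < ls.length ∨ nB0 k ls.length ≤ b then 3 * ls.length + 4 * b + 3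
        else 3 * ls.length + 4 * b + 2))
  have h2 : ∀ (n : ℕ) (f : ℕ → ℕ), ((Finset.range n).image f).card ≤ n := fun n f =>
    Finset.card_image_le.trans (by simp)
  have h3 := h2 ls.length (fun o => if σ (lit ls o).1 then 3 * o else 3 * o + 1)
  have h4 := h2 (nB k ls.length) (fun b => if b < ls.length ∨ nB0 k ls.length ≤ b then
    3 * ls.length + 4 * b else 3 * ls.length + 4 * b + 1)
  have h5 := h2 (nB k ls.length) (fun b => if b < ls.length ∨ nB0 k ls.length ≤ b then
    3 * ls.length + 4 * b + 3 else 3 * ls.length + 4 * b + 2)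
  omega

lemma dset_lt {k : ℕ} {ls : List Lit} {σ : ℕ → Bool} {v : ℕ} (hv : v ∈ dset k ls σ) :
    v < nV k ls := by
  unfold dset at hv
  unfold nV
  simp only [Finset.mem_union, Finset.mem_image, Finset.mem_range] at hv
  rcases hv with ⟨o, h1, h2⟩ | ⟨o, h1, h2⟩ | ⟨o, h1, h2⟩ <;> split_ifs at h2 <;> omega

lemma dset_t {k : ℕ} {ls : List Lit} {σ : ℕ → Bool} {o : ℕ} (ho : o < ls.length)
    (h : σ (lit ls o).1 = true) : 3 * o ∈ dset k ls σ := by
  unfold dset
  rw [Finset.mem_union, Finset.mem_image]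
  exact Or.inl ⟨o, Finset.mem_range.mpr ho, by simp [h]⟩

lemma dset_f {k : ℕ} {ls : List Lit} {σ : ℕ → Bool} {o : ℕ} (ho : o < ls.length)
    (h : σ (lit ls o).1 = false) : 3 * o + 1 ∈ dset k ls σ := by
  unfold dset
  rw [Finset.mem_union, Finset.mem_image]
  exact Or.inl ⟨o, Finset.mem_range.mpr ho, by simp [h]⟩

lemma dset_03 {k : ℕ} {ls : List Lit} {σ : ℕ → Bool} {b : ℕ} (hb : b < nB k ls.length)
    (h : b < ls.length ∨ nB0 k ls.length ≤ b) :
    3 * ls.length + 4 * b ∈ dset k ls σ ∧ 3 * ls.length + 4 * b + 3 ∈ dset k ls σ := by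
  unfold dset
  simp only [Finset.mem_union, Finset.mem_image, Finset.mem_range]
  exact ⟨Or.inr (Or.inl ⟨b, hb, if_pos h⟩), Or.inr (Or.inr ⟨b, hb, if_pos h⟩)⟩

lemma dset_12 {k : ℕ} {ls : List Lit} {σ : ℕ → Bool} {b : ℕ} (hb : b < nB k ls.length)
    (h : ¬ (b < ls.length ∨ nB0 k ls.length ≤ b)) :
    3 * ls.length + 4 * b + 1 ∈ dset k ls σ ∧ 3 * ls.length + 4 * b + 2 ∈ dset k ls σ := by
  unfold dset
  simp only [Finset.mem_union, Finset.mem_image, Finset.mem_range]
  exact ⟨Or.inr (Or.inl ⟨b, hb, if_neg h⟩), Or.inr (Or.inr ⟨b, hb, if_neg h⟩)⟩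

lemma dom_blk1 {k : ℕ} {ls : List Lit} {σ : ℕ → Bool} {b : ℕ} (hb : b < nB k ls.length) :
    Dom (dset k ls σ) (blk1 ls.length b) := by
  by_cases h : b < ls.length ∨ nB0 k ls.length ≤ b
  · have := dset_03 (σ := σ) hb h
    exact dom4a this.2 this.1
  · have := dset_12 (σ := σ) hb h
    exact dom4b this.2 this.1

lemma dom_blk2 {k : ℕ} {ls : List Lit} {σ : ℕ → Bool} {b : ℕ} (hb : b < nB k ls.length) :
    Dom (dset k ls σ) (blk2 ls.length b) := by
  by_cases h : b < ls.length ∨ nB0 k ls.length ≤ b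
  · have := dset_03 (σ := σ) hb h
    exact dom4b this.2 this.1
  · have := dset_12 (σ := σ) hb h
    exact dom4a this.1 this.2

lemma dom_path1 (k : ℕ) (ls : List Lit) (σ : ℕ → Bool) :
    Dom (dset k ls σ) (path1 k ls) := by
  have hB : ls.length ≤ nB k ls.length := by unfold nB nB0; omega
  unfold path1
  refine (Dom.flatMap _ _ fun o ho => ?_).append (Dom.flatMap _ _ fun b hb => ?_)
  · rw [List.mem_range] at ho
    have hb : Dom (dset k ls σ) (blk1 ls.length o) := dom_blk1 (by omega)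
    unfold piece1
    split_ifs with h
    · rcases h' : σ (lit ls o).1 with _ | _
      · refine Dom.append (dom_tris_b fun o' ho' => ?_) hb
        rw [mem_occ] at ho'
        exact dset_f ho'.1 (by rw [ho'.2]; exact h')
      · refine dom_tris_a (fun o' ho' => ?_) (dset_03 (by omega) (Or.inl ho)).2 hb
        rw [mem_occ] at ho'
        exact dset_t ho'.1 (by rw [ho'.2]; exact h')
    · exact hb
  · rw [List.mem_range] at hb
    exact dom_blk1 (by omega)

lemma lv_mem {k : ℕ} {ls : List Lit} {σ : ℕ → Bool} {o : ℕ} (ho : o < ls.length)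
    (h : σ (lit ls o).1 = (lit ls o).2) : lv ls o ∈ dset k ls σ := by
  unfold lv
  split_ifs with h'
  · exact dset_t ho (h.trans h')
  · exact dset_f ho (h.trans (by simpa using h'))

/-- The formula with the literals `ls`, three consecutive ones forming a clause, is satisfied by
`σ`. -/
def SatBy (ls : List Lit) (σ : ℕ → Bool) : Prop :=
  ∀ i < ls.length / 3, σ (lit ls (3 * i)).1 = (lit ls (3 * i)).2 ∨
    σ (lit ls (3 * i + 1)).1 = (lit ls (3 * i + 1)).2 ∨
    σ (lit ls (3 * i + 2)).1 = (lit ls (3 * i + 2)).2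

lemma dom_path2 (k : ℕ) (ls : List Lit) (h3 : 3 ∣ ls.length) (σ : ℕ → Bool)
    (hσ : SatBy ls σ) :
    Dom (dset k ls σ) (path2 k ls) := by
  have hB : 3 * ls.length + 2 * (ls.length / 3) ≤ nB0 k ls.length := by unfold nB0; omega
  have hB' : nB0 k ls.length ≤ nB k ls.length := by unfold nB; omega
  unfold path2
  refine (Dom.flatMap _ _ fun o ho => ?_).append ((Dom.flatMap _ _ fun i hi => ?_).append
    ((Dom.flatMap _ _ fun o ho => ?_).append (Dom.flatMap _ _ fun b hb => ?_)))
  · rw [List.mem_range] at ho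
    exact dom_blk2 (by omega)
  · rw [List.mem_range] at hi
    have h1 := dset_12 (k := k) (ls := ls) (σ := σ) (b := ls.length + 2 * i) (by omega) (by omega)
    have h2 := dset_12 (k := k) (ls := ls) (σ := σ) (b := ls.length + 2 * i + 1) (by omega)
      (by omega)
    refine dom11 h1.1 h1.2 h2.1 h2.2 ?_
    rcases hσ i hi with h | h | h
    · exact Or.inl (lv_mem (by omega) h)
    · exact Or.inr (Or.inl (lv_mem (by omega) h))
    · exact Or.inr (Or.inr (lv_mem (by omega) h))
  · rw [List.mem_range] at ho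
    have h1 := dset_12 (k := k) (ls := ls) (σ := σ)
      (b := ls.length + 2 * (ls.length / 3) + 2 * o) (by omega) (by omega)
    have h2 := dset_12 (k := k) (ls := ls) (σ := σ)
      (b := ls.length + 2 * (ls.length / 3) + 2 * o + 1) (by omega) (by omega)
    exact (dom5a h1.1 h1.2).append (dom5a h2.1 h2.2)
  · rw [List.mem_range] at hb
    exact dom_blk2 (by omega)

lemma dom_path3 (k : ℕ) (ls : List Lit) (σ : ℕ → Bool) (j : ℕ) (hj : 2 * j < nN k ls.length) :
    Dom (dset k ls σ) (path3 (nN k ls.length) j) := by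
  unfold path3
  refine Dom.flatMap _ _ fun t ht => ?_
  rw [List.mem_range] at ht
  have h1 := sh_spec (nN k ls.length) t j
  have h2 := dset_03 (k := k) (ls := ls) (σ := σ)
    (b := nB0 k ls.length + sh (nN k ls.length) t j) (by unfold nB; omega) (Or.inr (by omega))
  have e : 3 * ls.length + 4 * (nB0 k ls.length + sh (nN k ls.length) t j) =
      nN k ls.length + 4 * sh (nN k ls.length) t j := by
    have : nN k ls.length = 3 * ls.length + 4 * nB0 k ls.length := rfl
    omega
  rw [e] at h2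
  exact dom5b h2.1 h2.2

theorem exists_dom (k : ℕ) (hk : 2 ≤ k) (ls : List Lit) (h3 : 3 ∣ ls.length) (σ : ℕ → Bool)
    (hσ : SatBy ls σ) : ∃ D : Finset ℕ, (∀ v ∈ D, v < nV k ls) ∧ D.card ≤ bound k ls ∧
      ∀ p ∈ paths k ls, Dom D p := by
  refine ⟨dset k ls σ, fun v hv => dset_lt hv, card_dset k ls σ, fun p hp => ?_⟩
  simp only [paths, List.mem_cons, List.mem_map, List.mem_range] at hp
  rcases hp with rfl | rfl | ⟨j, hj, rfl⟩
  · exact dom_path1 k ls σ
  · exact dom_path2 k ls h3 σ hσ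
  · exact dom_path3 k ls σ (j + 1) (two_mul_lt_nN hk hj)

/-! ### A small dominating set gives a satisfying assignment -/

lemma tris_infix_path1 {k : ℕ} {ls : List Lit} {o : ℕ} (ho : o < ls.length) :
    (occ ls (lit ls o).1).flatMap tri <:+: path1 k ls := by
  obtain ⟨o₀, h1, h2, h3⟩ := exists_first ls o
  refine infix_left ?_
  have h4 : piece1 ls o₀ <:+: (List.range ls.length).flatMap (piece1 ls) :=
    infix_flatMap (List.mem_range.mpr (by omega))
  refine List.IsInfix.trans ?_ h4
  unfold piece1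
  rw [if_pos h2, h3]
  exact infix_left List.infix_rfl

lemma tri_infix_path1 {k : ℕ} {ls : List Lit} {o : ℕ} (ho : o < ls.length) :
    [3 * o, 3 * o + 1, 3 * o + 2] <:+: path1 k ls := by
  refine List.IsInfix.trans ?_ (tris_infix_path1 ho)
  exact infix_flatMap (f := tri) (mem_occ.mpr ⟨ho, rfl⟩)

lemma blk1_infix_path1 {k : ℕ} {ls : List Lit} {b : ℕ} (hb : b < nB k ls.length) :
    blk1 ls.length b <:+: path1 k ls := by
  by_cases h : b < ls.length
  · refine infix_left ?_
    have h4 : piece1 ls b <:+: (List.range ls.length).flatMap (piece1 ls) :=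
      infix_flatMap (List.mem_range.mpr h)
    exact (infix_right List.infix_rfl).trans h4
  · refine infix_right ?_
    have h4 := infix_flatMap (l := List.range (nB k ls.length - ls.length))
      (f := fun b => blk1 ls.length (ls.length + b)) (a := b - ls.length)
      (List.mem_range.mpr (by omega))
    have e : ls.length + (b - ls.length) = b := by omega
    simpa only [e] using h4

lemma blk2_infix_path2 {k : ℕ} {ls : List Lit} (h3 : 3 ∣ ls.length) {b : ℕ}
    (hb : b < nB k ls.length) : blk2 ls.length b <:+: path2 k ls := by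
  unfold path2
  by_cases h : b < ls.length
  · exact infix_left (infix_flatMap (List.mem_range.mpr h))
  refine infix_right ?_
  by_cases h' : b < ls.length + 2 * (ls.length / 3)
  · refine infix_left ?_
    have h4 := infix_flatMap (l := List.range (ls.length / 3)) (f := pieceC ls)
      (a := (b - ls.length) / 2) (List.mem_range.mpr (by omega))
    refine List.IsInfix.trans ?_ h4
    unfold pieceC
    have h5 : b = ls.length + 2 * ((b - ls.length) / 2) ∨
      b = ls.length + 2 * ((b - ls.length) / 2) + 1 := by omega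
    rcases h5 with h5 | h5
    · rw [← h5]
      exact infix_left List.infix_rfl
    · rw [← h5]
      exact infix_right (infix_right List.infix_rfl)
  refine infix_right ?_
  by_cases h'' : b < 3 * ls.length + 2 * (ls.length / 3)
  · refine infix_left ?_
    have h4 := infix_flatMap (l := List.range ls.length) (f := pieceU ls)
      (a := (b - (ls.length + 2 * (ls.length / 3))) / 2) (List.mem_range.mpr (by omega))
    refine List.IsInfix.trans ?_ h4
    unfold pieceU
    have h5 : b = ls.length + 2 * (ls.length / 3) +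
        2 * ((b - (ls.length + 2 * (ls.length / 3))) / 2) ∨
      b = ls.length + 2 * (ls.length / 3) +
        2 * ((b - (ls.length + 2 * (ls.length / 3))) / 2) + 1 := by omega
    rcases h5 with h5 | h5
    · rw [← h5]
      exact infix_left List.infix_rfl
    · rw [← h5]
      exact infix_right (infix_right (infix_left List.infix_rfl))
  · refine infix_right ?_
    have h4 := infix_flatMap
      (l := List.range (nB k ls.length - (3 * ls.length + 2 * (ls.length / 3))))
      (f := fun b => blk2 ls.length (3 * ls.length + 2 * (ls.length / 3) + b))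
      (a := b - (3 * ls.length + 2 * (ls.length / 3)))
      (List.mem_range.mpr (by omega))
    have e : 3 * ls.length + 2 * (ls.length / 3) +
      (b - (3 * ls.length + 2 * (ls.length / 3))) = b := by omega
    simpa only [e] using h4

lemma lv_infix_path2 {k : ℕ} {ls : List Lit} {i : ℕ} (hi : i < ls.length / 3) :
    [lv ls (3 * i), lv ls (3 * i + 1), lv ls (3 * i + 2)] <:+: path2 k ls := by
  unfold path2
  refine infix_right (infix_left ?_)
  refine List.IsInfix.trans ?_ (infix_flatMap (f := pieceC ls) (List.mem_range.mpr hi))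
  unfold pieceC
  exact infix_right (infix_left List.infix_rfl)

/-- the cell of a vertex -/
def cell (T v : ℕ) : ℕ := if v < 3 * T then v / 3 else T + (v - 3 * T) / 4

lemma two_le_card {s : Finset ℕ} {a b : ℕ} (ha : a ∈ s) (hb : b ∈ s) (hab : a ≠ b) :
    2 ≤ s.card := by
  have : ({a, b} : Finset ℕ) ⊆ s := by
    intro x hx
    simp only [Finset.mem_insert, Finset.mem_singleton] at hx
    rcases hx with rfl | rfl <;> assumption
  have h := Finset.card_le_card this
  rwa [Finset.card_pair hab] at h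

lemma tight {k : ℕ} {ls : List Lit} (h3 : 3 ∣ ls.length) {D : Finset ℕ}
    (hcard : D.card ≤ bound k ls) (hD1 : Dom D (path1 k ls)) (hD2 : Dom D (path2 k ls))
    {o : ℕ} (ho : o < ls.length) {a b : ℕ} (ha : a ∈ D) (hb : b ∈ D) (hao : a / 3 = o)
    (hbo : b / 3 = o) : a = b := by
  classical
  by_contra hab
  have n1 := nodup_path1 k ls
  have n2 : (path2 k ls).Nodup := (perm_path2 k ls h3).nodup_iff.mpr List.nodup_range
  let T := ls.length
  let B := nB k ls.length
  let D' := D.filter fun v => cell T v < T + B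
  have hD' : D'.card = ∑ c ∈ Finset.range (T + B), (D'.filter fun v => cell T v = c).card := by
    apply Finset.card_eq_sum_card_fiberwise
    intro v hv
    simp only [D', Finset.coe_filter, Set.mem_ofPred_eq] at hv
    simpa using hv.2
  have hle : D'.card ≤ D.card := Finset.card_filter_le _ _
  have hmem : ∀ c < T + B, ∀ v, v ∈ D → cell T v = c → v ∈ D'.filter fun v => cell T v = c := by
    intro c hc v hv hvc
    simp only [D', Finset.mem_filter]
    exact ⟨⟨hv, by omega⟩, hvc⟩
  have hw : ∀ c ∈ Finset.range (T + B), (if c < T then 1 else 2) ≤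
      (D'.filter fun v => cell T v = c).card := by
    intro c hc
    rw [Finset.mem_range] at hc
    split_ifs with h
    · apply Finset.card_pos.mpr
      rcases window n1 hD1 (tri_infix_path1 (k := k) h) with h1 | h1 | h1
      · exact ⟨_, hmem c hc _ h1 (by unfold cell; rw [if_pos (by omega)]; omega)⟩
      · exact ⟨_, hmem c hc _ h1 (by unfold cell; rw [if_pos (by omega)]; omega)⟩
      · exact ⟨_, hmem c hc _ h1 (by unfold cell; rw [if_pos (by omega)]; omega)⟩
    · obtain ⟨b, rfl⟩ : ∃ b, c = T + b := ⟨c - T, by omega⟩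
      have hbB : b < nB k ls.length := by
        have : T + b < T + nB k ls.length := hc
        omega
      have e1 : ∀ r < 4, cell T (3 * T + 4 * b + r) = T + b := by
        intro r hr
        unfold cell
        rw [if_neg (by omega)]
        omega
      have i1 : [3 * T + 4 * b + 3, 3 * T + 4 * b + 2, 3 * T + 4 * b + 1] <:+: path1 k ls :=
        List.IsInfix.trans ⟨[], [3 * T + 4 * b], rfl⟩ (blk1_infix_path1 hbB)
      have i2 : [3 * T + 4 * b + 2, 3 * T + 4 * b + 1, 3 * T + 4 * b] <:+: path1 k ls :=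
        List.IsInfix.trans ⟨[3 * T + 4 * b + 3], [], rfl⟩ (blk1_infix_path1 hbB)
      have i3 : [3 * T + 4 * b + 1, 3 * T + 4 * b + 3, 3 * T + 4 * b] <:+: path2 k ls :=
        List.IsInfix.trans ⟨[], [3 * T + 4 * b + 2], rfl⟩ (blk2_infix_path2 h3 hbB)
      have i4 : [3 * T + 4 * b + 3, 3 * T + 4 * b, 3 * T + 4 * b + 2] <:+: path2 k ls :=
        List.IsInfix.trans ⟨[3 * T + 4 * b + 1], [], rfl⟩ (blk2_infix_path2 h3 hbB)
      have w1 := window n1 hD1 i1
      have w2 := window n1 hD1 i2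
      have w3 := window n2 hD2 i3
      have w4 := window n2 hD2 i4
      have m0 : 3 * T + 4 * b ∈ D → 3 * T + 4 * b ∈ D'.filter fun v => cell T v = T + b :=
        fun h => hmem _ hc _ h (e1 0 (by omega))
      have m1 : 3 * T + 4 * b + 1 ∈ D → 3 * T + 4 * b + 1 ∈ D'.filter fun v => cell T v = T + b :=
        fun h => hmem _ hc _ h (e1 1 (by omega))
      have m2 : 3 * T + 4 * b + 2 ∈ D → 3 * T + 4 * b + 2 ∈ D'.filter fun v => cell T v = T + b :=
        fun h => hmem _ hc _ h (e1 2 (by omega))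
      have m3 : 3 * T + 4 * b + 3 ∈ D → 3 * T + 4 * b + 3 ∈ D'.filter fun v => cell T v = T + b :=
        fun h => hmem _ hc _ h (e1 3 (by omega))
      by_cases h0 : 3 * T + 4 * b ∈ D
      · rcases w1 with h | h | h
        · exact two_le_card (m0 h0) (m3 h) (by omega)
        · exact two_le_card (m0 h0) (m2 h) (by omega)
        · exact two_le_card (m0 h0) (m1 h) (by omega)
      · by_cases h1 : 3 * T + 4 * b + 1 ∈ D
        · rcases w4 with h | h | h
          · exact two_le_card (m1 h1) (m3 h) (by omega)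
          · exact absurd h h0
          · exact two_le_card (m1 h1) (m2 h) (by omega)
        · have h2 : 3 * T + 4 * b + 2 ∈ D := by
            rcases w2 with h | h | h
            · exact h
            · exact absurd h h1
            · exact absurd h h0
          have h3 : 3 * T + 4 * b + 3 ∈ D := by
            rcases w3 with h | h | h
            · exact absurd h h1
            · exact h
            · exact absurd h h0
          exact two_le_card (m2 h2) (m3 h3) (by omega)
  have hsum : ∑ c ∈ Finset.range (T + B), (if c < T then 1 else 2) = T + 2 * B := by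
    rw [Finset.sum_range_add]
    have s1 : ∑ c ∈ Finset.range T, (if c < T then 1 else 2) = T := by
      rw [Finset.sum_congr rfl (g := fun _ => 1) fun c hc => if_pos (Finset.mem_range.mp hc)]
      simp
    have s2 : ∑ c ∈ Finset.range B, (if T + c < T then 1 else 2) = 2 * B := by
      rw [Finset.sum_congr rfl (g := fun _ => 2) fun c hc => if_neg (by omega)]
      simp [mul_comm]
    rw [s1, s2]
  have hlt : ∑ c ∈ Finset.range (T + B), (if c < T then 1 else 2) <
      ∑ c ∈ Finset.range (T + B), (D'.filter fun v => cell T v = c).card := by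
    refine Finset.sum_lt_sum hw ⟨o, Finset.mem_range.mpr (by omega), ?_⟩
    rw [if_pos ho]
    have hoT : o < T := ho
    have ca : cell T a = o := by unfold cell; rw [if_pos (by omega)]; exact hao
    have cb : cell T b = o := by unfold cell; rw [if_pos (by omega)]; exact hbo
    exact two_le_card (hmem o (by omega) a ha ca) (hmem o (by omega) b hb cb) hab
  have hb : bound k ls = T + 2 * B := rfl
  omega

theorem sat_of_dom (k : ℕ) (ls : List Lit) (h3 : 3 ∣ ls.length) (D : Finset ℕ)
    (hcard : D.card ≤ bound k ls) (hD1 : Dom D (path1 k ls)) (hD2 : Dom D (path2 k ls)) :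
    ∃ σ, SatBy ls σ := by
  classical
  have n1 := nodup_path1 k ls
  have n2 : (path2 k ls).Nodup := (perm_path2 k ls h3).nodup_iff.mpr List.nodup_range
  have ht : ∀ o < ls.length, 3 * o ∈ D → 3 * o + 1 ∉ D ∧ 3 * o + 2 ∉ D := by
    intro o ho h
    constructor
    · intro h'
      have := tight h3 hcard hD1 hD2 ho h h' (by omega) (by omega)
      omega
    · intro h'
      have := tight h3 hcard hD1 hD2 ho h h' (by omega) (by omega)
      omega
  have hstep : ∀ x o o', [o, o'] <:+: occ ls x → 3 * o ∈ D → 3 * o' ∈ D := by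
    intro x o o' h ho
    have h1 : o ∈ occ ls x := h.subset (by simp)
    rw [mem_occ] at h1
    have h2 := (infix_flatMap_two (f := tri) h).trans (h1.2 ▸ tris_infix_path1 (k := k) h1.1)
    have h4 : [3 * o + 1, 3 * o + 2, 3 * o'] <:+: path1 k ls :=
      List.IsInfix.trans ⟨[3 * o], [3 * o' + 1, 3 * o' + 2], rfl⟩ h2
    rcases window n1 hD1 h4 with h5 | h5 | h5
    · exact absurd h5 (ht o h1.1 ho).1
    · exact absurd h5 (ht o h1.1 ho).2
    · exact h5
  have hchain : ∀ x, (occ ls x).Pairwise fun o o' => 3 * o ∈ D → 3 * o' ∈ D := by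
    intro x
    have : Trans (fun o o' : ℕ => 3 * o ∈ D → 3 * o' ∈ D) (fun o o' : ℕ => 3 * o ∈ D → 3 * o' ∈ D)
      (fun o o' : ℕ => 3 * o ∈ D → 3 * o' ∈ D) := ⟨fun h1 h2 h => h2 (h1 h)⟩
    rw [← List.isChain_iff_pairwise, List.isChain_iff_forall_rel_of_append_cons_cons]
    intro a b l₁ l₂ h
    exact hstep x a b ⟨l₁, l₂, by rw [h]; simp⟩
  have hpn : ∀ o o', o < ls.length → o' < ls.length → (lit ls o).1 = (lit ls o').1 →
      (lit ls o).2 = true → (lit ls o').2 = false → 3 * o ∈ D → 3 * o' + 1 ∉ D := by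
    intro o o' ho ho' hv hs hs' h
    have h1 := hchain (lit ls o).1
    unfold occ at h1
    rw [List.pairwise_append] at h1
    have h2 := h1.2.2 o (by
      rw [List.mem_filter, List.mem_range, beq_iff_eq]
      exact ⟨ho, Prod.ext rfl hs⟩) o' (by
      rw [List.mem_filter, List.mem_range, beq_iff_eq]
      exact ⟨ho', Prod.ext hv.symm hs'⟩)
    exact (ht o' ho' (h2 h)).1
  refine ⟨fun x => decide (∃ o < ls.length, lit ls o = (x, true) ∧ 3 * o ∈ D), ?_⟩
  have key : ∀ o < ls.length, lv ls o ∈ D →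
      decide (∃ o' < ls.length, lit ls o' = ((lit ls o).1, true) ∧ 3 * o' ∈ D) = (lit ls o).2 := by
    intro o ho h
    rcases hs : (lit ls o).2 with _ | _
    · rw [decide_eq_false_iff_not]
      rintro ⟨o', ho', h1, h2⟩
      have h5 : lv ls o = 3 * o + 1 := by unfold lv; rw [hs]; simp
      rw [h5] at h
      exact hpn o' o ho' ho (by rw [h1]) (by rw [h1]) hs h2 h
    · rw [decide_eq_true_iff]
      have h5 : lv ls o = 3 * o := by unfold lv; rw [hs]; simp
      rw [h5] at h
      exact ⟨o, ho, Prod.ext rfl hs, h⟩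
  intro i hi
  rcases window n2 hD2 (lv_infix_path2 hi) with h | h | h
  · exact Or.inl (key _ (by omega) h)
  · exact Or.inr (Or.inl (key _ (by omega) h))
  · exact Or.inr (Or.inr (key _ (by omega) h))

/-- **Correctness of the reduction** from 3SAT. -/
theorem gd_iff_sat (k : ℕ) (hk : 2 ≤ k) (ls : List Lit) (h3 : 3 ∣ ls.length) :
    (∃ D : Finset ℕ, (∀ v ∈ D, v < nV k ls) ∧ D.card ≤ bound k ls ∧ ∀ p ∈ paths k ls, Dom D p) ↔
      ∃ σ, SatBy ls σ := by
  constructor
  · rintro ⟨D, -, h1, h2⟩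
    exact sat_of_dom k ls h3 D h1 (h2 _ (by simp [paths])) (h2 _ (by simp [paths]))
  · rintro ⟨σ, hσ⟩
    exact exists_dom k hk ls h3 σ hσ

end Pool.Agent.H78.GD
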