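import Mathlib

/-!
# Hensel minimality: definitions

Languages are one-sorted. An element of the sort `RV_λ` is represented by an element of the field,
two elements `x, y` of the field representing the same element of `RV_λ` exactly when
`rvEq O λ x y` holds.
-/

set_option autoImplicit false

universe u

open FirstOrder FirstOrder.Language

namespace Pool.Agent.H78.HM

/-- The function symbols `+`, `·` of the language of valued fields. -/
inductive ValFun : ℕ → Type
  | add : ValFun 2
  | mul : ValFun 2

/-- The relation symbol of the language of valued fields: a unary predicate for the valuation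
ring. -/
inductive ValRel : ℕ → Type
  | int : ValRel 1

/-- The language `L_val = {+, ·, O}`. -/
def Lval : FirstOrder.Language.{0, 0} := ⟨ValFun, ValRel⟩

/-- `K` is a field with valuation ring `O`, considered as an `L`-structure for a language
`L ⊇ L_val` (the inclusion is `φ`): the symbols of `L_val` have their standard meaning. -/
structure IsValuedStr {L : FirstOrder.Language.{u, u}} (φ : Lval →ᴸ L) (K : Type u) [Field K]
    [L.Structure K] (O : ValuationSubring K) : Prop where
  add : ∀ x y : K, Structure.funMap (φ.onFunction ValFun.add) ![x, y] = x + y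
  mul : ∀ x y : K, Structure.funMap (φ.onFunction ValFun.mul) ![x, y] = x * y
  int : ∀ x : K, Structure.RelMap (φ.onRelation ValRel.int) ![x] ↔ x ∈ O

/-- `rv_λ(x) = rv_λ(y)` in `RV_λ = Kˣ / (1 + B_{<λ}(0)) ∪ {0}`: both `x, y` are zero, or both are
nonzero and `x / y ∈ 1 + B_{<λ}(0)`. The valuation `O.valuation` is multiplicative, with
values in `O.ValueGroup` (a linearly ordered group with a least element `0` added). -/
def rvEq {K : Type u} [Field K] (O : ValuationSubring K) (lam : O.ValueGroup) (x y : K) : Prop :=
  (x = 0 ∧ y = 0) ∨ (x ≠ 0 ∧ y ≠ 0 ∧ O.valuation (x / y - 1) < lam)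

/-- `C` `λ`-prepares `X`: membership of `x` in `X` depends only on the tuple
`(rv_λ(x - c))_{c ∈ C}`. -/
def Prepares {K : Type u} [Field K] (O : ValuationSubring K) (lam : O.ValueGroup)
    (C X : Set K) : Prop :=
  ∀ x y : K, (∀ c ∈ C, rvEq O lam (x - c) (y - c)) → (x ∈ X ↔ y ∈ X)

/-- `X ⊆ K` is `L`-definable with parameters from `A ∪ RV_K ∪ ξ`, where `ξ` is a tuple from
`RV_λ` of length at most `ℓ`. The elements of `RV_K` used are `rv(z 0), ..., rv(z (n-1))` and
`ξ = (rv_λ(w 0), ..., rv_λ(w (k-1)))`; the formula `θ` (with parameters from `A`) may use the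
representatives `z`, `w`, but it has to define the same set `X` for all choices of representatives
of these elements of `RV_K` and `RV_λ`. -/
def DefinableRV (L : FirstOrder.Language.{u, u}) {K : Type u} [Field K] [L.Structure K]
    (O : ValuationSubring K) (A : Set K) (ell : ℕ∞) (lam : O.ValueGroup) (X : Set K) : Prop :=
  ∃ (n k : ℕ) (_ : (k : ℕ∞) ≤ ell) (z : Fin n → K) (w : Fin k → K)
    (θ : L[[A]].Formula (Fin 1 ⊕ (Fin n ⊕ Fin k))),
    ∀ (z' : Fin n → K) (w' : Fin k → K), (∀ i, rvEq O 1 (z i) (z' i)) →
      (∀ j, rvEq O lam (w j) (w' j)) →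
      ∀ x : K, x ∈ X ↔ θ.Realize (Sum.elim (fun _ => x) (Sum.elim z' w'))

/-- `ℓ`-h-minimality of the complete `L`-theory of `K` (`ℓ = ⊤` is `ω`-h-minimality). Here `K'`
ranges over all valued fields, considered as `L`-structures, which are elementarily equivalent
to `K`. -/
def HMin {L : FirstOrder.Language.{u, u}} (φ : Lval →ᴸ L) (ell : ℕ∞) (K : Type u)
    [L.Structure K] : Prop :=
  ∀ (K' : Type u) [Field K'] [L.Structure K'] (O : ValuationSubring K'),
    IsValuedStr φ K' O → (K ≅[L] K') →
    ∀ lam : O.ValueGroup, lam ≠ 0 → lam ≤ 1 →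
    ∀ A X : Set K', DefinableRV L O A ell lam X →
    ∃ C : Set K', C.Finite ∧ C.Nonempty ∧ A.Definable₁ L C ∧ Prepares O lam C X

/-- The language with only relation symbols, given by `R`. -/
def relLang (R : ℕ → Type u) : FirstOrder.Language.{u, u} := ⟨fun _ => PEmpty, R⟩

/-- All the relations of the `relLang R`-structure `K` are (pullbacks to `K` of) relations on
`RV_K`: they depend only on the images of their arguments in `RV_K = RV_1`. -/
def IsRVRel {K : Type u} [Field K] (O : ValuationSubring K) (R : ℕ → Type u)
    [(relLang R).Structure K] : Prop :=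
  ∀ (n : ℕ) (r : (relLang R).Relations n) (x y : Fin n → K), (∀ i, rvEq O 1 (x i) (y i)) →
    (Structure.RelMap r x ↔ Structure.RelMap r y)

end Pool.Agent.H78.HM
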