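import Pool.Agent.H78.HMinUP

/-!
# Adding relations on `RV`
-/

set_option autoImplicit false
set_option linter.style.haveILetI false

universe u

open FirstOrder FirstOrder.Language Set

namespace Pool.Agent.H78.HM

variable {L : FirstOrder.Language.{u, u}} {φ : Lval →ᴸ L}
variable {N : Type u} [Field N] [L.Structure N] {O : ValuationSubring N}

/-- the section of a set -/
def ssec {β : Type} (C : Set (β ⊕ Fin 1 → N)) (a : β → N) : Set N :=
  {y | Sum.elim a (fun _ => y) ∈ C}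

/-- `S` is invariant under changing the last coordinates within `rv`-fibres. -/
def RVInv {β κ : Type} (O : ValuationSubring N) (S : Set (β ⊕ κ → N)) : Prop :=
  ∀ (a : β → N) (z z' : κ → N), (∀ k, rvEq O 1 (z k) (z' k)) →
    (Sum.elim a z ∈ S ↔ Sum.elim a z' ∈ S)

/-- **Uniform preparation**. -/
theorem up {ell : ℕ∞} (hN : IsValuedStr φ N O) (hmin : HMin φ ell N) {β κ : Type} [Finite β]
    [Finite κ] {S : Set ((β ⊕ Fin 1) ⊕ κ → N)} (hS : (∅ : Set N).Definable L S)
    (hinv : RVInv O S) :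
    ∃ (m : ℕ) (C : Set (β ⊕ Fin 1 → N)), (∅ : Set N).Definable L C ∧
      (∀ a : β → N, (ssec C a).encard ≤ m) ∧
      ∀ (a : β → N) (z : κ → N),
        Prepares O 1 (ssec C a) {x | Sum.elim (Sum.elim a (fun _ => x)) z ∈ S} := by
  classical
  rw [Set.empty_definable_iff] at hS
  obtain ⟨ψ, rfl⟩ := hS
  obtain ⟨F, hF⟩ := up_step1 hN hmin ψ (fun a z z' h => hinv a z z' h)
  let D : (ℕ × L.Formula (β ⊕ Fin 1)) → Set (β ⊕ Fin 1 → N) := fun c =>
    {v | ((fMany c.2 c.1).relabel (Sum.inl : β → β ⊕ Fin 1)).Realize v}ᶜ ∩ {v | c.2.Realize v}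
  have hD : ∀ c, (∅ : Set N).Definable L (D c) := by
    intro c
    refine Definable.inter (Definable.compl ?_) ?_
    · rw [Set.empty_definable_iff]
      exact ⟨_, rfl⟩
    · rw [Set.empty_definable_iff]
      exact ⟨_, rfl⟩
  have hsec : ∀ c a, ssec (D c) a = if (sec c.2 a).encard ≤ c.1 then sec c.2 a else ∅ := by
    intro c a
    ext y
    have h1 : Sum.elim a (fun _ => y) ∈ D c ↔ (sec c.2 a).encard ≤ c.1 ∧ y ∈ sec c.2 a := by
      show ¬ _ ∧ _ ↔ _
      rw [Set.mem_ofPred_eq, Formula.realize_relabel]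
      have : (Sum.elim a (fun _ => y) : β ⊕ Fin 1 → N) ∘ Sum.inl = a := rfl
      rw [this, realize_fMany', not_not]
      rfl
    show Sum.elim a (fun _ => y) ∈ D c ↔ _
    rw [h1]
    split_ifs with h
    · simp [h]
    · simp [h]
  refine ⟨∑ c ∈ F, c.1, ⋃ c ∈ F, D c, definable_biUnion_finset hD F, ?_, ?_⟩
  · intro a
    have h1 : ssec (⋃ c ∈ F, D c) a = ⋃ c ∈ F, ssec (D c) a := by
      ext y
      simp only [ssec, Set.mem_iUnion, Set.mem_ofPred_eq]
    rw [h1]
    have h2 : ∀ G : Finset (ℕ × L.Formula (β ⊕ Fin 1)),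
        (⋃ c ∈ G, ssec (D c) a).encard ≤ ((∑ c ∈ G, c.1 : ℕ) : ℕ∞) := by
      intro G
      induction G using Finset.induction_on with
      | empty => simp
      | insert c G hc ih =>
        rw [Finset.set_biUnion_insert, Finset.sum_insert hc]
        refine (Set.encard_union_le _ _).trans ?_
        push_cast at ih ⊢
        refine add_le_add ?_ ih
        rw [hsec]
        split_ifs with h
        · exact h
        · simp
    exact h2 F
  · intro a z x y hxy
    obtain ⟨c, hc, h1, h2⟩ := hF a z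
    refine h2 x y fun d hd => hxy d ?_
    show Sum.elim a (fun _ => d) ∈ ⋃ c ∈ F, D c
    rw [Set.mem_iUnion₂]
    refine ⟨c, hc, ?_⟩
    have h3 : d ∈ ssec (D c) a := by
      rw [hsec, if_pos h1]
      exact hd
    exact h3

/-- The truth of `D` is determined by the traces on `RV` of a definable family. -/
def RVdet (L : FirstOrder.Language.{u, u}) [L.Structure N] (O : ValuationSubring N) {β : Type}
    (D : Set (β → N)) : Prop :=
  ∃ (κ : Type) (_ : Finite κ) (S : Set (β ⊕ κ → N)), (∅ : Set N).Definable L S ∧ RVInv O S ∧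
    ∀ a b : β → N, (∀ z, Sum.elim a z ∈ S ↔ Sum.elim b z ∈ S) → (a ∈ D ↔ b ∈ D)

lemma RVdet.of_definable {β : Type} {D : Set (β → N)} (hD : (∅ : Set N).Definable L D) :
    RVdet L O D := by
  refine ⟨Empty, inferInstance, (fun w : β ⊕ Empty → N => w ∘ Sum.inl) ⁻¹' D,
    hD.preimage_comp Sum.inl, fun a z z' _ => Iff.rfl, fun a b h => ?_⟩
  exact h Empty.elim

/-- the relation `rv(w i) = rv(w j)` is definable -/
lemma definable_rv (hN : IsValuedStr φ N O) {γ : Type} (i j : γ) :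
    (∅ : Set N).Definable L {w : γ → N | rvEq O 1 (w i) (w j)} := by
  rw [Set.empty_definable_iff]
  refine ⟨(fRv1 φ).relabel ![i, j], ?_⟩
  ext w
  rw [Set.mem_ofPred_eq, Set.mem_ofPred_eq, Formula.realize_relabel, ← realize_fRv1 hN]
  apply iff_of_eq
  congr 1
  funext k
  fin_cases k <;> rfl

/-- the relation `rv(w i - w j) = rv(w k)` is definable -/
lemma definable_sub_rv (hN : IsValuedStr φ N O) {γ : Type} [Finite γ] (i j k : γ) :
    (∅ : Set N).Definable L {w : γ → N | rvEq O 1 (w i - w j) (w k)} := by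
  have h1 : (∅ : Set N).Definable L {w : γ ⊕ Fin 1 → N |
      w (Sum.inr 0) + w (Sum.inl j) = w (Sum.inl i) ∧
        rvEq O 1 (w (Sum.inr 0)) (w (Sum.inl k))} := by
    refine Definable.inter (f := {w : γ ⊕ Fin 1 → N |
      w (Sum.inr 0) + w (Sum.inl j) = w (Sum.inl i)}) ?_ (definable_rv hN _ _)
    rw [Set.empty_definable_iff]
    refine ⟨(tA φ (Term.var (Sum.inr 0)) (Term.var (Sum.inl j))).equal (Term.var (Sum.inl i)), ?_⟩
    ext w
    rw [Set.mem_ofPred_eq, Set.mem_ofPred_eq, Formula.realize_equal, realize_tA]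
    have := hN.add (w (Sum.inr 0)) (w (Sum.inl j))
    change sA φ _ _ = _ at this
    simp only [Term.realize_var]
    rw [this]
  have h2 := h1.exists_of_finite
  convert h2 using 1
  ext w
  simp only [Set.mem_ofPred_eq, Sum.elim_inr, Sum.elim_inl]
  constructor
  · intro h
    exact ⟨fun _ => w i - w j, by ring, h⟩
  · rintro ⟨u, hu, h⟩
    have : u 0 = w i - w j := by rw [← hu]; ring
    rwa [this] at h

lemma RVdet.reindex {β β' : Type} (f : β → β') {D : Set (β → N)} (hD : RVdet L O D) :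
    RVdet L O {v : β' → N | v ∘ f ∈ D} := by
  obtain ⟨κ, hκ, S, hS, hinv, hdet⟩ := hD
  refine ⟨κ, hκ, (fun w : β' ⊕ κ → N => w ∘ Sum.map f id) ⁻¹' S, hS.preimage_comp _, ?_, ?_⟩
  · intro a z z' h
    have := hinv (a ∘ f) z z' h
    simpa [Set.mem_preimage, Sum.elim_comp_map] using this
  · intro a b h
    refine hdet _ _ fun z => ?_
    have := h z
    simpa [Set.mem_preimage, Sum.elim_comp_map] using this

/-- combination of two families -/
lemma RVdet.combine (hN : IsValuedStr φ N O) {β : Type} {D₁ D₂ D : Set (β → N)}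
    (h₁ : RVdet L O D₁) (h₂ : RVdet L O D₂)
    (hD : ∀ a b, (a ∈ D₁ ↔ b ∈ D₁) → (a ∈ D₂ ↔ b ∈ D₂) → (a ∈ D ↔ b ∈ D)) : RVdet L O D := by
  obtain ⟨κ₁, hκ₁, S₁, hS₁, hinv₁, hdet₁⟩ := h₁
  obtain ⟨κ₂, hκ₂, S₂, hS₂, hinv₂, hdet₂⟩ := h₂
  let κ : Type := (κ₁ ⊕ κ₂) ⊕ Fin 2
  let Rt : Set (β ⊕ κ → N) :=
    {w | rvEq O 1 (w (Sum.inr (Sum.inr 0))) (w (Sum.inr (Sum.inr 1)))}
  let T₁ : Set (β ⊕ κ → N) :=
    (fun w : β ⊕ κ → N => w ∘ Sum.map id (fun k : κ₁ => Sum.inl (Sum.inl k))) ⁻¹' S₁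
  let T₂ : Set (β ⊕ κ → N) :=
    (fun w : β ⊕ κ → N => w ∘ Sum.map id (fun k : κ₂ => Sum.inl (Sum.inr k))) ⁻¹' S₂
  have hRt : (∅ : Set N).Definable L Rt := definable_rv hN _ _
  have hT₁ : (∅ : Set N).Definable L T₁ := hS₁.preimage_comp _
  have hT₂ : (∅ : Set N).Definable L T₂ := hS₂.preimage_comp _
  have m₁ : ∀ (a : β → N) (z : κ → N), Sum.elim a z ∈ T₁ ↔
      Sum.elim a (fun k => z (Sum.inl (Sum.inl k))) ∈ S₁ := by
    intro a z
    show (Sum.elim a z) ∘ Sum.map id (fun k : κ₁ => Sum.inl (Sum.inl k)) ∈ S₁ ↔ _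
    rw [Sum.elim_comp_map]
    rfl
  have m₂ : ∀ (a : β → N) (z : κ → N), Sum.elim a z ∈ T₂ ↔
      Sum.elim a (fun k => z (Sum.inl (Sum.inr k))) ∈ S₂ := by
    intro a z
    show (Sum.elim a z) ∘ Sum.map id (fun k : κ₂ => Sum.inl (Sum.inr k)) ∈ S₂ ↔ _
    rw [Sum.elim_comp_map]
    rfl
  have mR : ∀ (a : β → N) (z : κ → N), Sum.elim a z ∈ Rt ↔
      rvEq O 1 (z (Sum.inr 0)) (z (Sum.inr 1)) := fun a z => Iff.rfl
  have mS : ∀ (a : β → N) (z : κ → N), Sum.elim a z ∈ (Rt ∩ T₁) ∪ (Rtᶜ ∩ T₂) ↔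
      (rvEq O 1 (z (Sum.inr 0)) (z (Sum.inr 1)) ∧
        Sum.elim a (fun k => z (Sum.inl (Sum.inl k))) ∈ S₁) ∨
      (¬ rvEq O 1 (z (Sum.inr 0)) (z (Sum.inr 1)) ∧
        Sum.elim a (fun k => z (Sum.inl (Sum.inr k))) ∈ S₂) := by
    intro a z
    rw [Set.mem_union, Set.mem_inter_iff, Set.mem_inter_iff, Set.mem_compl_iff, m₁, m₂, mR]
  refine ⟨κ, inferInstance, (Rt ∩ T₁) ∪ (Rtᶜ ∩ T₂),
    (hRt.inter hT₁).union (hRt.compl.inter hT₂), ?_, ?_⟩
  · intro a z z' h
    rw [mS, mS]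
    have e1 := hinv₁ a (fun k => z (Sum.inl (Sum.inl k))) (fun k => z' (Sum.inl (Sum.inl k)))
      (fun k => h _)
    have e2 := hinv₂ a (fun k => z (Sum.inl (Sum.inr k))) (fun k => z' (Sum.inl (Sum.inr k)))
      (fun k => h _)
    have e3 : rvEq O 1 (z (Sum.inr 0)) (z (Sum.inr 1)) ↔
        rvEq O 1 (z' (Sum.inr 0)) (z' (Sum.inr 1)) := by
      constructor
      · intro h'
        exact rvEq_trans O (rvEq_symm O (h _)) (rvEq_trans O h' (h _))
      · intro h'
        exact rvEq_trans O (h _) (rvEq_trans O h' (rvEq_symm O (h _)))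
    rw [e1, e2, e3]
  · intro a b h
    refine hD a b (hdet₁ a b fun z => ?_) (hdet₂ a b fun z => ?_)
    · have := h (Sum.elim (Sum.elim z (fun _ => 0)) (fun _ => 0))
      rw [mS, mS] at this
      simpa [rvEq_refl] using this
    · have := h (Sum.elim (Sum.elim (fun _ => 0) z) ![0, 1])
      rw [mS, mS] at this
      simpa [not_rvEq_zero_one] using this

lemma exists_enum {S : Set N} {m : ℕ} (h : S.encard ≤ m) : ∃ e : Fin m → N, S ⊆ Set.range e := by
  have hfin : S.Finite := Set.finite_of_encard_le_coe h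
  have hcard : hfin.toFinset.card ≤ m := by
    rw [hfin.encard_eq_coe_toFinset_card] at h
    exact_mod_cast h
  let g := hfin.toFinset.equivFin
  refine ⟨fun i => if hi : i.val < hfin.toFinset.card then (g.symm ⟨i.val, hi⟩ : N) else 0, ?_⟩
  intro x hx
  have hx' : x ∈ hfin.toFinset := hfin.mem_toFinset.mpr hx
  refine ⟨⟨(g ⟨x, hx'⟩).val, lt_of_lt_of_le (g ⟨x, hx'⟩).isLt hcard⟩, ?_⟩
  simp

/-- Main step: universal quantification. -/
theorem RVdet.forall {ell : ℕ∞} (hN : IsValuedStr φ N O) (hmin : HMin φ ell N) {β : Type}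
    [Finite β] {D : Set (β ⊕ Fin 1 → N)} (hD : RVdet L O D) :
    RVdet L O {a : β → N | ∀ x : N, Sum.elim a (fun _ => x) ∈ D} := by
  classical
  obtain ⟨κ, hκ, S, hS, hinv, hdet⟩ := hD
  obtain ⟨m, C, hC, hCm, hCprep⟩ := up hN hmin hS hinv
  -- closure of `S` under complements
  let κ₂ : Type := κ ⊕ Fin 2
  let Rt : Set ((β ⊕ Fin 1) ⊕ κ₂ → N) :=
    {w | rvEq O 1 (w (Sum.inr (Sum.inr 0))) (w (Sum.inr (Sum.inr 1)))}
  let T : Set ((β ⊕ Fin 1) ⊕ κ₂ → N) :=
    (fun w : (β ⊕ Fin 1) ⊕ κ₂ → N => w ∘ Sum.map id Sum.inl) ⁻¹' S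
  have hRt : (∅ : Set N).Definable L Rt := definable_rv hN _ _
  have hT : (∅ : Set N).Definable L T := hS.preimage_comp _
  let S₂ : Set ((β ⊕ Fin 1) ⊕ κ₂ → N) := (Rt ∩ T) ∪ (Rtᶜ ∩ Tᶜ)
  have hS₂ : (∅ : Set N).Definable L S₂ := (hRt.inter hT).union (hRt.compl.inter hT.compl)
  have mS₂ : ∀ (a : β ⊕ Fin 1 → N) (z : κ₂ → N), Sum.elim a z ∈ S₂ ↔
      (rvEq O 1 (z (Sum.inr 0)) (z (Sum.inr 1)) ↔ Sum.elim a (z ∘ Sum.inl) ∈ S) := by
    intro a z
    have m₁ : Sum.elim a z ∈ T ↔ Sum.elim a (z ∘ Sum.inl) ∈ S := by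
      show (Sum.elim a z) ∘ Sum.map id Sum.inl ∈ S ↔ _
      rw [Sum.elim_comp_map]
      rfl
    have m₂ : Sum.elim a z ∈ Rt ↔ rvEq O 1 (z (Sum.inr 0)) (z (Sum.inr 1)) := Iff.rfl
    show _ ∨ _ ↔ _
    rw [Set.mem_inter_iff, Set.mem_inter_iff, Set.mem_compl_iff, Set.mem_compl_iff, m₁, m₂]
    constructor
    · rintro (⟨h1, h2⟩ | ⟨h1, h2⟩)
      · exact ⟨fun _ => h2, fun _ => h1⟩
      · exact ⟨fun h => absurd h h1, fun h => absurd h h2⟩
    · intro h
      by_cases h1 : rvEq O 1 (z (Sum.inr 0)) (z (Sum.inr 1))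
      · exact Or.inl ⟨h1, h.mp h1⟩
      · exact Or.inr ⟨h1, fun h2 => h1 (h.mpr h2)⟩
  have mS₂' : ∀ (a : β ⊕ Fin 1 → N) (z : κ → N) (t : Fin 2 → N),
      Sum.elim a (Sum.elim z t : κ₂ → N) ∈ S₂ ↔ (rvEq O 1 (t 0) (t 1) ↔ Sum.elim a z ∈ S) :=
    fun a z t => mS₂ a (Sum.elim z t)
  have hinv₂ : RVInv O S₂ := by
    intro a z z' h
    rw [mS₂, mS₂]
    have e1 := hinv a (z ∘ Sum.inl) (z' ∘ Sum.inl) (fun k => h _)
    have e3 : rvEq O 1 (z (Sum.inr 0)) (z (Sum.inr 1)) ↔
        rvEq O 1 (z' (Sum.inr 0)) (z' (Sum.inr 1)) := by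
      constructor
      · intro h'
        exact rvEq_trans O (rvEq_symm O (h _)) (rvEq_trans O h' (h _))
      · intro h'
        exact rvEq_trans O (h _) (rvEq_trans O h' (rvEq_symm O (h _)))
    rw [e1, e3]
  -- the new family
  let J : Type := Fin m → Fin m
  let κ' : Type := Fin m ⊕ (J × κ₂)
  -- membership in Θ
  let P : (β → N) → (Fin m → N) → (J × κ₂ → N) → N → Prop := fun a u z x =>
    (∀ y ∈ ssec C a, ∃ l, rvEq O 1 (x - y) (u l)) ∧
      ∀ τ : J, Sum.elim (Sum.elim a (fun _ => x)) (fun q => z (τ, q)) ∈ S₂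
  let Θ : Set (β ⊕ κ' → N) := {w | ∃ x : N, P (w ∘ Sum.inl) (w ∘ Sum.inr ∘ Sum.inl)
    (w ∘ Sum.inr ∘ Sum.inr) x}
  have hΘ : (∅ : Set N).Definable L Θ := by
    -- first condition
    have c1 : (∅ : Set N).Definable L {w : (β ⊕ κ') ⊕ Fin 1 → N |
        ∀ y ∈ ssec C (w ∘ Sum.inl ∘ Sum.inl),
          ∃ l : Fin m, rvEq O 1 (w (Sum.inr 0) - y) (w (Sum.inl (Sum.inr (Sum.inl l))))} := by
      have c2 : (∅ : Set N).Definable L {w : ((β ⊕ κ') ⊕ Fin 1) ⊕ Fin 1 → N |
          Sum.elim (w ∘ Sum.inl ∘ Sum.inl ∘ Sum.inl) (fun _ => w (Sum.inr 0)) ∈ C} := by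
        have := hC.preimage_comp (Sum.elim (Sum.inl ∘ Sum.inl ∘ Sum.inl) (fun _ => Sum.inr 0) :
          β ⊕ Fin 1 → ((β ⊕ κ') ⊕ Fin 1) ⊕ Fin 1)
        convert this using 1
        ext w
        rw [Set.mem_preimage, Set.mem_ofPred_eq, Sum.comp_elim]
        rfl
      have c3 : (∅ : Set N).Definable L (⋃ l : Fin m, {w : ((β ⊕ κ') ⊕ Fin 1) ⊕ Fin 1 → N |
          rvEq O 1 (w (Sum.inl (Sum.inr 0)) - w (Sum.inr 0))
            (w (Sum.inl (Sum.inl (Sum.inr (Sum.inl l)))))}) :=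
        definable_iUnion_of_finite fun l => definable_sub_rv hN _ _ _
      have c4 := (c2.compl.union c3).forall_of_finite
      convert c4 using 1
      ext w
      simp only [Set.mem_ofPred_eq, Set.mem_union, Set.mem_compl_iff, Set.mem_iUnion]
      constructor
      · intro h u
        by_cases hu : Sum.elim ((Sum.elim w u) ∘ Sum.inl ∘ Sum.inl ∘ Sum.inl)
            (fun _ => (Sum.elim w u) (Sum.inr 0)) ∈ C
        · exact Or.inr (h (u 0) hu)
        · exact Or.inl hu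
      · intro h y hy
        rcases h (fun _ => y) with h1 | h1
        · exact absurd hy h1
        · exact h1
    have c5 : ∀ τ : J, (∅ : Set N).Definable L {w : (β ⊕ κ') ⊕ Fin 1 → N |
        Sum.elim (Sum.elim (w ∘ Sum.inl ∘ Sum.inl) (fun _ => w (Sum.inr 0)))
          (fun q => w (Sum.inl (Sum.inr (Sum.inr (τ, q))))) ∈ S₂} := by
      intro τ
      have := hS₂.preimage_comp (Sum.elim (Sum.elim (Sum.inl ∘ Sum.inl) (fun _ => Sum.inr 0))
        (fun q => Sum.inl (Sum.inr (Sum.inr (τ, q)))) :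
        (β ⊕ Fin 1) ⊕ κ₂ → (β ⊕ κ') ⊕ Fin 1)
      convert this using 1
      ext w
      rw [Set.mem_preimage, Set.mem_ofPred_eq, Sum.comp_elim, Sum.comp_elim]
      rfl
    have c6 := (c1.inter (definable_iInter_of_finite c5)).exists_of_finite
    convert c6 using 1
    ext w
    simp only [Θ, P, Set.mem_ofPred_eq, Set.mem_inter_iff, Set.mem_iInter]
    constructor
    · rintro ⟨x, h1, h2⟩
      exact ⟨fun _ => x, h1, h2⟩
    · rintro ⟨x, h1, h2⟩
      have hx : (fun _ : Fin 1 => x 0) = x := by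
        funext i
        rw [Subsingleton.elim i 0]
      exact ⟨x 0, h1, h2⟩
  have mΘ : ∀ (a : β → N) (z : κ' → N), Sum.elim a z ∈ Θ ↔
      ∃ x : N, P a (z ∘ Sum.inl) (z ∘ Sum.inr) x := fun a z => Iff.rfl
  have hinvΘ : RVInv O Θ := by
    have key : ∀ (a : β → N) (z z' : κ' → N), (∀ k, rvEq O 1 (z k) (z' k)) →
        (Sum.elim a z ∈ Θ → Sum.elim a z' ∈ Θ) := by
      intro a z z' h
      rw [mΘ, mΘ]
      rintro ⟨x, h1, h2⟩
      refine ⟨x, fun y hy => ?_, fun τ => ?_⟩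
      · obtain ⟨l, hl⟩ := h1 y hy
        exact ⟨l, rvEq_trans O hl (h _)⟩
      · exact (hinv₂ _ _ _ (fun k => h _)).mp (h2 τ)
    exact fun a z z' h => ⟨key a z z' h, key a z' z fun k => rvEq_symm O (h k)⟩
  -- the extension property
  have ext_prop : ∀ a b : β → N, (∀ z, Sum.elim a z ∈ Θ ↔ Sum.elim b z ∈ Θ) → ∀ c : N,
      ∃ d : N, ∀ z : κ → N, Sum.elim (Sum.elim a (fun _ => c)) z ∈ S ↔
        Sum.elim (Sum.elim b (fun _ => d)) z ∈ S := by
    intro a b hab c
    by_contra hcon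
    push Not at hcon
    obtain ⟨ea, hea⟩ := exists_enum (hCm a)
    obtain ⟨eb, heb⟩ := exists_enum (hCm b)
    let u : Fin m → N := fun l => c - ea l
    let cls : J → Set N := fun τ => {x | ∀ l, eb l ∈ ssec C b → rvEq O 1 (x - eb l) (u (τ l))}
    -- witnesses
    have hw : ∀ d : N, ∃ z : κ₂ → N, Sum.elim (Sum.elim a (fun _ => c)) z ∈ S₂ ∧
        Sum.elim (Sum.elim b (fun _ => d)) z ∉ S₂ := by
      intro d
      obtain ⟨z, hz⟩ := hcon d
      have hz' : ¬ (Sum.elim (Sum.elim a (fun _ => c)) z ∈ S ↔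
        Sum.elim (Sum.elim b (fun _ => d)) z ∈ S) := by tauto
      by_cases h : Sum.elim (Sum.elim a (fun _ => c)) z ∈ S
      · refine ⟨Sum.elim z (fun _ => 0), ?_, ?_⟩
        · rw [mS₂']
          exact ⟨fun _ => h, fun _ => rvEq_refl O _⟩
        · rw [mS₂']
          intro h1
          exact hz' ⟨fun _ => h1.mp (rvEq_refl O _), fun _ => h⟩
      · refine ⟨Sum.elim z ![0, 1], ?_, ?_⟩
        · rw [mS₂']
          exact ⟨fun h1 => absurd h1 (not_rvEq_zero_one O), fun h1 => absurd h1 h⟩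
        · rw [mS₂']
          intro h1
          exact hz' ⟨fun h2 => absurd h2 h, fun h2 => absurd (h1.mpr h2) (not_rvEq_zero_one O)⟩
    choose wz hwz1 hwz2 using hw
    let rep : J → N := fun τ => if h : (cls τ).Nonempty then h.some else 0
    have hrep : ∀ τ, (cls τ).Nonempty → rep τ ∈ cls τ := by
      intro τ h
      show (if h : (cls τ).Nonempty then h.some else 0) ∈ cls τ
      rw [dif_pos h]
      exact h.some_mem
    let z : κ' → N := Sum.elim u (fun q : J × κ₂ => wz (rep q.1) q.2)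
    have h1 : Sum.elim a z ∈ Θ := by
      rw [mΘ]
      refine ⟨c, fun y hy => ?_, fun τ => hwz1 (rep τ)⟩
      obtain ⟨l, rfl⟩ := hea hy
      exact ⟨l, rvEq_refl O _⟩
    rw [hab, mΘ] at h1
    obtain ⟨d, h2, h3⟩ := h1
    -- the class of `d`
    have hch : ∀ l : Fin m, ∃ l' : Fin m, eb l ∈ ssec C b → rvEq O 1 (d - eb l) (u l') := by
      intro l
      by_cases hl : eb l ∈ ssec C b
      · obtain ⟨l', hl'⟩ := h2 (eb l) hl
        exact ⟨l', fun _ => hl'⟩
      · exact ⟨l, fun h => absurd h hl⟩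
    choose τ hτ using hch
    have hd : d ∈ cls τ := fun l hl => hτ l hl
    have hr := hrep τ ⟨d, hd⟩
    have h4 := h3 τ
    have h5 := hwz2 (rep τ)
    apply h5
    rw [mS₂] at h4 ⊢
    have h6 : Sum.elim (Sum.elim b (fun _ => d)) ((wz (rep τ)) ∘ Sum.inl) ∈ S ↔
        Sum.elim (Sum.elim b (fun _ => rep τ)) ((wz (rep τ)) ∘ Sum.inl) ∈ S := by
      refine hCprep b ((wz (rep τ)) ∘ Sum.inl) d (rep τ) fun y hy => ?_
      obtain ⟨l, rfl⟩ := heb hy
      exact rvEq_trans O (hd l hy) (rvEq_symm O (hr l hy))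
    rw [← h6]
    exact h4
  refine ⟨κ', inferInstance, Θ, hΘ, hinvΘ, fun a b hab => ?_⟩
  have key : ∀ a b : β → N, (∀ z, Sum.elim a z ∈ Θ ↔ Sum.elim b z ∈ Θ) →
      (∀ x : N, Sum.elim a (fun _ => x) ∈ D) → ∀ x : N, Sum.elim b (fun _ => x) ∈ D := by
    intro a b hab ha d
    obtain ⟨c, hc⟩ := ext_prop b a (fun z => (hab z).symm) d
    exact (hdet _ _ hc).mpr (ha c)
  exact ⟨key a b hab, key b a fun z => (hab z).symm⟩

/-- A second structure on `N`, wrapped so that it is not used by instance search. -/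
structure Str2 (L : FirstOrder.Language.{u, u}) (N : Type u) where
  /-- the structure -/
  str : L.Structure N

/-- **Quantifier elimination down to `RV`** for an expansion by relations on `RV`. -/
theorem ef {ell : ℕ∞} (hN : IsValuedStr φ N O) (hmin : HMin φ ell N) (s₂ : Str2 L N)
    (hfun : ∀ (n : ℕ) (f : L.Functions n) (x : Fin n → N),
      s₂.str.funMap f x = Structure.funMap f x)
    (hrel : ∀ (n : ℕ) (r : L.Relations n),
      (∀ x : Fin n → N, s₂.str.RelMap r x ↔ Structure.RelMap r x) ∨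
      (∀ x y : Fin n → N, (∀ i, rvEq O 1 (x i) (y i)) → (s₂.str.RelMap r x ↔ s₂.str.RelMap r y)))
    {α : Type} [Finite α] {n : ℕ} (θ : L.BoundedFormula α n) :
    RVdet L O {v : α ⊕ Fin n → N |
      @BoundedFormula.Realize L N s₂.str α n θ (v ∘ Sum.inl) (v ∘ Sum.inr)} := by
  have hterm : ∀ {γ : Type} (t : L.Term γ) (v : γ → N),
      @Term.realize L N s₂.str γ v t = t.realize v := by
    intro γ t v
    induction t with
    | var => rfl
    | func f ts ih =>
      show s₂.str.funMap f (fun i => @Term.realize L N s₂.str _ v (ts i)) =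
        Structure.funMap f (fun i => (ts i).realize v)
      rw [hfun]
      exact congrArg _ (funext fun i => ih i)
  have helim : ∀ {n : ℕ} (v : α ⊕ Fin n → N), Sum.elim (v ∘ Sum.inl) (v ∘ Sum.inr) = v :=
    fun v => Sum.elim_comp_inl_inr v
  induction θ with
  | falsum =>
    apply RVdet.of_definable
    exact definable_empty
  | @equal n t₁ t₂ =>
    apply RVdet.of_definable
    rw [Set.empty_definable_iff]
    refine ⟨t₁.equal t₂, ?_⟩
    ext v
    rw [Set.mem_ofPred_eq, Set.mem_ofPred_eq, Formula.realize_equal]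
    show @Term.realize L N s₂.str _ _ t₁ = @Term.realize L N s₂.str _ _ t₂ ↔ _
    rw [hterm, hterm, helim]
  | @rel n k r ts =>
    rcases hrel k r with h | h
    · apply RVdet.of_definable
      rw [Set.empty_definable_iff]
      refine ⟨r.formula ts, ?_⟩
      ext v
      rw [Set.mem_ofPred_eq, Set.mem_ofPred_eq, Formula.realize_rel]
      show s₂.str.RelMap r (fun i => @Term.realize L N s₂.str _ _ (ts i)) ↔ _
      rw [h]
      simp only [hterm, helim]
    · refine ⟨Fin k, inferInstance,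
        ⋂ i : Fin k, {w : (α ⊕ Fin n) ⊕ Fin k → N |
          rvEq O 1 ((ts i).realize (w ∘ Sum.inl)) (w (Sum.inr i))}, ?_, ?_, ?_⟩
      · refine definable_iInter_of_finite fun i => ?_
        rw [Set.empty_definable_iff]
        refine ⟨(fRv1 φ).subst ![(ts i).relabel Sum.inl, Term.var (Sum.inr i)], ?_⟩
        ext w
        rw [Set.mem_ofPred_eq, Set.mem_ofPred_eq, ← realize_fRv1 hN]
        refine Iff.trans ?_ BoundedFormula.realize_subst.symm
        apply iff_of_eq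
        unfold Formula.Realize
        congr 1
        funext j
        fin_cases j
        · simp [Term.realize_relabel]
        · simp
      · intro a z z' h
        simp only [Set.mem_iInter, Set.mem_ofPred_eq, Sum.elim_comp_inl, Sum.elim_inr]
        exact ⟨fun h' i => rvEq_trans O (h' i) (h i),
          fun h' i => rvEq_trans O (h' i) (rvEq_symm O (h i))⟩
      · intro a b hab
        have h1 := hab (fun i => (ts i).realize a)
        simp only [Set.mem_iInter, Set.mem_ofPred_eq, Sum.elim_comp_inl, Sum.elim_inr] at h1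
        have h2 := h1.mp (fun i => rvEq_refl O _)
        show s₂.str.RelMap r (fun i => @Term.realize L N s₂.str _ _ (ts i)) ↔
          s₂.str.RelMap r (fun i => @Term.realize L N s₂.str _ _ (ts i))
        simp only [hterm, helim]
        exact (h _ _ h2).symm
  | imp f g h1 h2 =>
    refine RVdet.combine hN h1 h2 fun a b ha hb => ?_
    simp only [Set.mem_ofPred_eq] at ha hb ⊢
    exact imp_congr ha hb
  | @all n f ih =>
    let g : α ⊕ Fin (n + 1) → (α ⊕ Fin n) ⊕ Fin 1 :=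
      Sum.elim (Sum.inl ∘ Sum.inl) (Fin.lastCases (Sum.inr 0) (fun i => Sum.inl (Sum.inr i)))
    have h1 := (RVdet.reindex g ih).forall hN hmin
    convert h1 using 1
    ext v
    rw [Set.mem_ofPred_eq, Set.mem_ofPred_eq]
    show (∀ x : N, @BoundedFormula.Realize L N s₂.str α (n + 1) f (v ∘ Sum.inl)
      (Fin.snoc (v ∘ Sum.inr) x)) ↔ _
    refine forall_congr' fun x => ?_
    rw [Set.mem_ofPred_eq, Set.mem_ofPred_eq]
    have e1 : ((Sum.elim v (fun _ => x) : (α ⊕ Fin n) ⊕ Fin 1 → N) ∘ g) ∘ Sum.inl =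
        v ∘ Sum.inl := rfl
    have e2 : ((Sum.elim v (fun _ => x) : (α ⊕ Fin n) ⊕ Fin 1 → N) ∘ g) ∘ Sum.inr =
        Fin.snoc (v ∘ Sum.inr) x := by
      funext i
      induction i using Fin.lastCases with
      | last => simp [g]
      | cast i => simp [g]
    rw [e1, e2]

/-- Balls are infinite if the valuation is nontrivial. -/
lemma ball_infinite (hO : O ≠ ⊤) (x : N) (γ : O.ValueGroup) (hγ : γ ≠ 0) :
    {y : N | O.valuation (y - x) < γ}.Infinite := by
  obtain ⟨g, rfl⟩ := O.valuation_surjective γ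
  have hg : g ≠ 0 := (Valuation.ne_zero_iff _).mp hγ
  have h1 : ∃ t : N, t ∉ O := by
    by_contra h
    push Not at h
    exact hO (ValuationSubring.ext _ _ fun t => ⟨fun _ => ValuationSubring.mem_top t, fun _ => h t⟩)
  obtain ⟨t, ht⟩ := h1
  have ht0 : t ≠ 0 := fun h => ht (h ▸ O.zero_mem)
  have ht1 : 1 < O.valuation t := by
    rw [← not_le, ValuationSubring.valuation_le_one_iff]
    exact ht
  have hs : O.valuation t⁻¹ < 1 := by
    rw [map_inv₀]
    exact inv_lt_one_of_one_lt₀ ht1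
  set s := t⁻¹ with hsdef
  have hs0 : s ≠ 0 := inv_ne_zero ht0
  have hinj : Function.Injective (fun n : ℕ => x + g * s ^ (n + 1)) := by
    intro n m hnm
    simp only [add_right_inj] at hnm
    have h2 := mul_left_cancel₀ hg hnm
    by_contra hne
    have h3 : O.valuation s ^ (n + 1) = O.valuation s ^ (m + 1) := by
      rw [← map_pow, ← map_pow, h2]
    have h4 : StrictAnti (fun n : ℕ => O.valuation s ^ n) :=
      pow_right_strictAnti₀ (zero_lt_iff.mpr ((Valuation.ne_zero_iff _).mpr hs0)) hs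
    have := h4.injective h3
    omega
  refine Set.infinite_of_injective_forall_mem hinj fun n => ?_
  rw [Set.mem_ofPred_eq, add_sub_cancel_left, map_mul, map_pow]
  have h5 : O.valuation s ^ (n + 1) < 1 := pow_lt_one₀ zero_le hs (Nat.succ_ne_zero n)
  calc O.valuation g * O.valuation s ^ (n + 1) < O.valuation g * 1 :=
        mul_lt_mul_of_pos_left h5 (zero_lt_iff.mpr hγ)
    _ = O.valuation g := mul_one _

/-- Algebraicity in the expansion implies algebraicity. -/
theorem acl_lemma {ell : ℕ∞} (hN : IsValuedStr φ N O) (hmin : HMin φ ell N) (hO : O ≠ ⊤)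
    {β : Type} [Finite β] {D : Set (β ⊕ Fin 1 → N)} (hD : RVdet L O D) (a : β → N)
    (hfin : (ssec D a).Finite) :
    ∃ χ : L.Formula (β ⊕ Fin 1), (sec χ a).Finite ∧ ssec D a ⊆ sec χ a := by
  obtain ⟨κ, hκ, S, hS, hinv, hdet⟩ := hD
  obtain ⟨m, C, hC, hCm, hCprep⟩ := up hN hmin hS hinv
  rw [Set.empty_definable_iff] at hC
  obtain ⟨χ, rfl⟩ := hC
  have hsec : ssec {v | χ.Realize v} a = sec χ a := rfl
  have hCfin : (sec χ a).Finite := by
    have := hCm a
    rw [hsec] at this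
    exact Set.finite_of_encard_le_coe this
  refine ⟨χ, hCfin, fun x hx => ?_⟩
  by_contra hxC
  -- lower bound for the distances
  have hγ : ∃ γ : O.ValueGroup, γ ≠ 0 ∧ ∀ c ∈ sec χ a, γ ≤ O.valuation (x - c) := by
    have hne : ∀ c ∈ sec χ a, O.valuation (x - c) ≠ 0 := by
      intro c hc
      rw [Valuation.ne_zero_iff, sub_ne_zero]
      rintro rfl
      exact hxC hc
    rcases (sec χ a).eq_empty_or_nonempty with h | h
    · exact ⟨1, one_ne_zero, by simp [h]⟩
    · obtain ⟨c, hc, hmin⟩ := Set.exists_min_image _ (fun c => O.valuation (x - c)) hCfin h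
      exact ⟨_, hne c hc, hmin⟩
  obtain ⟨γ, hγ0, hγ⟩ := hγ
  refine (ball_infinite hO x γ hγ0).mono ?_ hfin
  intro y hy
  have h1 : ∀ c ∈ sec χ a, rvEq O 1 (x - c) (y - c) := by
    intro c hc
    rw [rvEq_one_iff]
    right
    have h2 : O.valuation (y - x) < O.valuation (x - c) := lt_of_lt_of_le hy (hγ c hc)
    have h3 : O.valuation (y - c) = O.valuation (x - c) := by
      have : y - c = (x - c) + (y - x) := by ring
      rw [this, Valuation.map_add_eq_of_lt_left _ h2]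
    have h4 : x - c ≠ 0 := by
      rw [sub_ne_zero]
      rintro rfl
      exact hxC hc
    refine ⟨⟨h4, ?_⟩, ?_⟩
    · rw [← Valuation.ne_zero_iff O.valuation, h3, Valuation.ne_zero_iff]
      exact h4
    · have : x - c - (y - c) = -(y - x) := by ring
      rw [this, Valuation.map_neg, h3]
      exact h2
  have h2 := hdet (Sum.elim a (fun _ => x)) (Sum.elim a (fun _ => y))
    (fun z => hCprep a z x y h1)
  exact h2.mp hx

end Pool.Agent.H78.HM
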