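import Pool.Agent.H78.HMinDefs

/-!
# Transfer of the field structure and of the `RV` relation
-/

set_option autoImplicit false
set_option linter.style.haveILetI false

universe u

open FirstOrder FirstOrder.Language

namespace Pool.Agent.H78.HM

section general

variable {L : FirstOrder.Language.{u, u}} {K M : Type u} [L.Structure K] [L.Structure M]

/-- Transfer of universally quantified formulas. -/
lemma transfer (h : K ≅[L] M) {γ : Type} [Finite γ] (θ : L.Formula γ) :
    (∀ v : γ → K, θ.Realize v) ↔ (∀ v : γ → M, θ.Realize v) := by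
  let S : L.Sentence := (θ.relabel (Sum.inr : γ → Empty ⊕ γ)).iAlls γ
  have h1 : ∀ (N : Type u) [L.Structure N], N ⊨ S ↔ ∀ v : γ → N, θ.Realize v := by
    intro N _
    show Formula.Realize S (default : Empty → N) ↔ _
    rw [Formula.realize_iAlls]
    refine forall_congr' fun v => ?_
    rw [Formula.realize_relabel]
    rfl
  rw [← h1 K, ← h1 M]
  exact elementarilyEquivalent_iff.mp h S

end general

section formulas

variable {L : FirstOrder.Language.{u, u}} (φ : Lval →ᴸ L)

/-- sum of terms -/
def tA {γ : Type*} (s t : L.Term γ) : L.Term γ := (φ.onFunction ValFun.add).apply₂ s t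

/-- product of terms -/
def tM {γ : Type*} (s t : L.Term γ) : L.Term γ := (φ.onFunction ValFun.mul).apply₂ s t

/-- membership in the valuation ring -/
def fO {γ : Type*} (s : L.Term γ) : L.Formula γ := (φ.onRelation ValRel.int).formula₁ s

/-- addition of the structure -/
def sA {M : Type u} [L.Structure M] (x y : M) : M :=
  Structure.funMap (φ.onFunction ValFun.add) ![x, y]

/-- multiplication of the structure -/
def sM {M : Type u} [L.Structure M] (x y : M) : M :=
  Structure.funMap (φ.onFunction ValFun.mul) ![x, y]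

/-- valuation ring of the structure -/
def sO {M : Type u} [L.Structure M] (x : M) : Prop :=
  Structure.RelMap (φ.onRelation ValRel.int) ![x]

@[simp] lemma realize_tA {γ : Type*} {M : Type u} [L.Structure M] (s t : L.Term γ) (v : γ → M) :
    (tA φ s t).realize v = sA φ (s.realize v) (t.realize v) :=
  Term.realize_functions_apply₂

@[simp] lemma realize_tM {γ : Type*} {M : Type u} [L.Structure M] (s t : L.Term γ) (v : γ → M) :
    (tM φ s t).realize v = sM φ (s.realize v) (t.realize v) :=
  Term.realize_functions_apply₂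

@[simp] lemma realize_fO {γ : Type*} {M : Type u} [L.Structure M] (s : L.Term γ) (v : γ → M) :
    (fO φ s).Realize v ↔ sO φ (s.realize v) :=
  Formula.realize_rel₁

variable {φ}

/-- Every structure elementarily equivalent to a valued field is a valued field. -/
theorem exists_field {K M : Type u} [Field K] [L.Structure K] [L.Structure M]
    {O : ValuationSubring K} (hK : IsValuedStr φ K O) (h : K ≅[L] M) :
    ∃ (_ : Field M) (O' : ValuationSubring M), IsValuedStr φ M O' := by
  have kA : ∀ x y : K, sA φ x y = x + y := hK.add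
  have kM : ∀ x y : K, sM φ x y = x * y := hK.mul
  have kO : ∀ x : K, sO φ x ↔ x ∈ O := hK.int
  -- axioms
  have hA1 : ∀ x y z : M, sA φ (sA φ x y) z = sA φ x (sA φ y z) := by
    have := (transfer h (γ := Fin 3)
      ((tA φ (tA φ (Term.var 0) (Term.var 1)) (Term.var 2)).equal
        (tA φ (Term.var 0) (tA φ (Term.var 1) (Term.var 2))))).mp
      (fun v => by simp [kA, add_assoc])
    intro x y z
    simpa using this ![x, y, z]
  have hA2 : ∀ x y : M, sA φ x y = sA φ y x := by
    have := (transfer h (γ := Fin 2)
      ((tA φ (Term.var 0) (Term.var 1)).equal (tA φ (Term.var 1) (Term.var 0)))).mp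
      (fun v => by simp [kA, add_comm])
    intro x y
    simpa using this ![x, y]
  have hM1 : ∀ x y z : M, sM φ (sM φ x y) z = sM φ x (sM φ y z) := by
    have := (transfer h (γ := Fin 3)
      ((tM φ (tM φ (Term.var 0) (Term.var 1)) (Term.var 2)).equal
        (tM φ (Term.var 0) (tM φ (Term.var 1) (Term.var 2))))).mp
      (fun v => by simp [kM, mul_assoc])
    intro x y z
    simpa using this ![x, y, z]
  have hM2 : ∀ x y : M, sM φ x y = sM φ y x := by
    have := (transfer h (γ := Fin 2)
      ((tM φ (Term.var 0) (Term.var 1)).equal (tM φ (Term.var 1) (Term.var 0)))).mp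
      (fun v => by simp [kM, mul_comm])
    intro x y
    simpa using this ![x, y]
  have hD : ∀ x y z : M, sM φ x (sA φ y z) = sA φ (sM φ x y) (sM φ x z) := by
    have := (transfer h (γ := Fin 3)
      ((tM φ (Term.var 0) (tA φ (Term.var 1) (Term.var 2))).equal
        (tA φ (tM φ (Term.var 0) (Term.var 1)) (tM φ (Term.var 0) (Term.var 2))))).mp
      (fun v => by simp [kM, kA, mul_add])
    intro x y z
    simpa using this ![x, y, z]
  have hZ : ∃ z : M, ∀ x : M, sA φ x z = x := by
    have := (transfer h (γ := Empty)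
      ((((tA φ (Term.var (Sum.inr 0)) (Term.var (Sum.inl (Sum.inr 0)))).equal
        (Term.var (Sum.inr 0)) : L.Formula ((Empty ⊕ Fin 1) ⊕ Fin 1)).iAlls (Fin 1)).iExs
          (Fin 1))).mp
      (fun v => by
        rw [Formula.realize_iExs]
        refine ⟨fun _ => 0, ?_⟩
        rw [Formula.realize_iAlls]
        intro w
        simp [kA])
    have h1 := this Empty.elim
    rw [Formula.realize_iExs] at h1
    obtain ⟨z, hz⟩ := h1
    rw [Formula.realize_iAlls] at hz
    refine ⟨z 0, fun x => ?_⟩
    simpa using hz (fun _ => x)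
  have hN : ∀ x : M, ∃ y : M, ∀ z : M, sA φ (sA φ x y) z = z := by
    have := (transfer h (γ := Fin 1)
      ((((tA φ (tA φ (Term.var (Sum.inl (Sum.inl 0))) (Term.var (Sum.inl (Sum.inr 0))))
        (Term.var (Sum.inr 0))).equal
        (Term.var (Sum.inr 0)) : L.Formula ((Fin 1 ⊕ Fin 1) ⊕ Fin 1)).iAlls (Fin 1)).iExs
          (Fin 1))).mp
      (fun v => by
        rw [Formula.realize_iExs]
        refine ⟨fun _ => - v 0, ?_⟩
        rw [Formula.realize_iAlls]
        intro w
        simp [kA])
    intro x
    have h1 := this (fun _ => x)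
    rw [Formula.realize_iExs] at h1
    obtain ⟨y, hy⟩ := h1
    rw [Formula.realize_iAlls] at hy
    refine ⟨y 0, fun z => ?_⟩
    simpa using hy (fun _ => z)
  have hE : ∃ e : M, (∀ x : M, sM φ x e = x) ∧ sA φ e e ≠ e := by
    have := (transfer h (γ := Empty)
      ((((((tM φ (Term.var (Sum.inr 0)) (Term.var (Sum.inl (Sum.inr 0)))).equal
        (Term.var (Sum.inr 0)) : L.Formula ((Empty ⊕ Fin 1) ⊕ Fin 1)).iAlls (Fin 1)) ⊓
        ((tA φ (Term.var (Sum.inr 0)) (Term.var (Sum.inr 0))).equal
        (Term.var (Sum.inr 0)) : L.Formula (Empty ⊕ Fin 1)).not)).iExs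
          (Fin 1))).mp
      (fun v => by
        rw [Formula.realize_iExs]
        refine ⟨fun _ => 1, ?_⟩
        rw [Formula.realize_inf, Formula.realize_iAlls]
        constructor
        · intro w
          simp [kM]
        · simp [kA])
    have h1 := this Empty.elim
    rw [Formula.realize_iExs] at h1
    obtain ⟨z, hz⟩ := h1
    rw [Formula.realize_inf, Formula.realize_iAlls] at hz
    refine ⟨z 0, fun x => ?_, ?_⟩
    · simpa using hz.1 (fun _ => x)
    · simpa using hz.2
  have hI : ∀ x : M, sA φ x x ≠ x → ∃ y : M, ∀ z : M, sM φ (sM φ x y) z = z := by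
    have := (transfer h (γ := Fin 1)
      (((tA φ (Term.var 0) (Term.var 0)).equal (Term.var 0) : L.Formula (Fin 1)).not.imp
      ((((tM φ (tM φ (Term.var (Sum.inl (Sum.inl 0))) (Term.var (Sum.inl (Sum.inr 0))))
        (Term.var (Sum.inr 0))).equal
        (Term.var (Sum.inr 0)) : L.Formula ((Fin 1 ⊕ Fin 1) ⊕ Fin 1)).iAlls (Fin 1)).iExs
          (Fin 1)))).mp
      (fun v => by
        rw [Formula.realize_imp]
        intro h0
        have hv : v 0 ≠ 0 := by simpa [kA] using h0
        rw [Formula.realize_iExs]
        refine ⟨fun _ => (v 0)⁻¹, ?_⟩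
        rw [Formula.realize_iAlls]
        intro w
        simp [kM, hv])
    intro x hx
    have h1 := this (fun _ => x)
    rw [Formula.realize_imp] at h1
    have h2 := h1 (by simpa using hx)
    rw [Formula.realize_iExs] at h2
    obtain ⟨y, hy⟩ := h2
    rw [Formula.realize_iAlls] at hy
    refine ⟨y 0, fun z => ?_⟩
    simpa using hy (fun _ => z)
  have hV1 : ∀ x y : M, sO φ x → sO φ y → sO φ (sA φ x y) := by
    have := (transfer h (γ := Fin 2)
      ((fO φ (Term.var 0)).imp ((fO φ (Term.var 1)).imp (fO φ (tA φ (Term.var 0) (Term.var 1)))))).mp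
      (fun v => by
        simp only [Formula.realize_imp, realize_fO, realize_tA, Term.realize_var, kA, kO]
        exact O.add_mem _ _)
    intro x y
    simpa using this ![x, y]
  have hV2 : ∀ x y : M, sO φ x → sO φ y → sO φ (sM φ x y) := by
    have := (transfer h (γ := Fin 2)
      ((fO φ (Term.var 0)).imp ((fO φ (Term.var 1)).imp (fO φ (tM φ (Term.var 0) (Term.var 1)))))).mp
      (fun v => by
        simp only [Formula.realize_imp, realize_fO, realize_tM, Term.realize_var, kM, kO]
        exact O.mul_mem _ _)
    intro x y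
    simpa using this ![x, y]
  have hV3 : ∀ x y : M, sO φ x → (∀ z, sA φ (sA φ x y) z = z) → sO φ y := by
    have := (transfer h (γ := Fin 2)
      ((fO φ (Term.var 0)).imp
      (((((tA φ (tA φ (Term.var (Sum.inl 0)) (Term.var (Sum.inl 1)))
        (Term.var (Sum.inr 0))).equal
        (Term.var (Sum.inr 0)) : L.Formula (Fin 2 ⊕ Fin 1)).iAlls (Fin 1))).imp
        (fO φ (Term.var 1))))).mp
      (fun v => by
        simp only [Formula.realize_imp, realize_fO, Term.realize_var, kO, Formula.realize_iAlls]
        intro h0 h1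
        have h2 := h1 (fun _ => 0)
        simp only [Formula.realize_equal, realize_tA, Term.realize_var, Sum.elim_inl,
          Sum.elim_inr, kA, add_zero] at h2
        have h3 : v 1 = - v 0 := (neg_eq_of_add_eq_zero_right h2).symm
        rw [h3]
        exact O.neg_mem _ h0)
    intro x y hx hxy
    have h1 := this ![x, y]
    simp only [Formula.realize_imp, realize_fO, Term.realize_var, Formula.realize_iAlls,
      Formula.realize_equal, realize_tA, Sum.elim_inl, Sum.elim_inr] at h1
    exact h1 hx (fun z => hxy (z 0))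
  have hV4 : ∀ x y : M, (∀ z, sM φ (sM φ x y) z = z) → sO φ x ∨ sO φ y := by
    have := (transfer h (γ := Fin 2)
      (((((tM φ (tM φ (Term.var (Sum.inl 0)) (Term.var (Sum.inl 1)))
        (Term.var (Sum.inr 0))).equal
        (Term.var (Sum.inr 0)) : L.Formula (Fin 2 ⊕ Fin 1)).iAlls (Fin 1))).imp
        (fO φ (Term.var 0) ⊔ fO φ (Term.var 1)))).mp
      (fun v => by
        simp only [Formula.realize_imp, realize_fO, Term.realize_var, kO, Formula.realize_iAlls,
          Formula.realize_sup]
        intro h1
        have h2 := h1 (fun _ => 1)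
        simp only [Formula.realize_equal, realize_tM, Term.realize_var, Sum.elim_inl,
          Sum.elim_inr, kM, mul_one] at h2
        have h3 : v 1 = (v 0)⁻¹ := eq_inv_of_mul_eq_one_right h2
        rw [h3]
        exact O.mem_or_inv_mem _)
    intro x y hxy
    have h1 := this ![x, y]
    simp only [Formula.realize_imp, realize_fO, Term.realize_var, Formula.realize_iAlls,
      Formula.realize_equal, realize_tM, Sum.elim_inl, Sum.elim_inr, Formula.realize_sup] at h1
    exact h1 (fun z => hxy (z 0))
  -- the field structure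
  choose z hz using hZ
  choose e he he' using hE
  choose neg hneg using hN
  classical
  let inv : M → M := fun x => if hx : sA φ x x ≠ x then (hI x hx).choose else z
  have hz' : ∀ x, sA φ z x = x := fun x => by rw [hA2, hz]
  have he1 : ∀ x, sM φ e x = x := fun x => by rw [hM2, he]
  have hcancel : ∀ x, sA φ x x = x → x = z := by
    intro x hx
    have h1 : sA φ (sA φ x x) (neg x) = sA φ x (neg x) := by rw [hx]
    rw [hA1] at h1
    have h2 : sA φ x (neg x) = z := by
      have := hneg x z
      rwa [hz] at this
    rw [h2, hz] at h1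
    exact h1
  letI iF : Field M :=
    @Field.ofMinimalAxioms M ⟨sA φ⟩ ⟨sM φ⟩ ⟨neg⟩ ⟨inv⟩ ⟨z⟩ ⟨e⟩
      hA1 hz' (fun x => by
        show sA φ (neg x) x = z
        rw [hA2]
        have := hneg x z
        rwa [hz] at this)
      hM1 hM2 he1
      (fun x hx => by
        show sM φ x (inv x) = e
        have hx' : sA φ x x ≠ x := fun h => hx (hcancel x h)
        have h1 : inv x = (hI x hx').choose := dif_pos hx'
        have h2 := (hI x hx').choose_spec e
        rw [he] at h2
        rw [h1]
        exact h2)
      (by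
        show inv z = z
        have h0 : ¬ (sA φ z z ≠ z) := not_not.mpr (hz z)
        exact dif_neg h0)
      hD ⟨e, z, fun h => by
        have : sA φ e e = e := by
          rw [h]; exact hz z
        exact he' this⟩
  let R : Subring M :=
    { carrier := {x | sO φ x}
      mul_mem' := fun {a b} ha hb => hV2 a b ha hb
      one_mem' := by
        have := hV4 e e (fun x => by rw [he1, he1])
        exact this.elim id id
      add_mem' := fun {a b} ha hb => hV1 a b ha hb
      zero_mem' := by
        have h1 : sO φ e := by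
          have := hV4 e e (fun x => by rw [he1, he1])
          exact this.elim id id
        have h2 : sO φ (neg e) := hV3 e (neg e) h1 (hneg e)
        have h3 := hV1 e (neg e) h1 h2
        have h4 : sA φ e (neg e) = z := by
          have := hneg e z
          rwa [hz] at this
        rw [h4] at h3
        exact h3
      neg_mem' := fun {a} ha => hV3 a (neg a) ha (hneg a) }
  refine ⟨iF, ValuationSubring.ofSubring R (fun x => ?_), ?_⟩
  · by_cases hx : x = 0
    · left; rw [hx]; exact R.zero_mem
    · have := hV4 x x⁻¹ (fun y => by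
        have h1 : x * x⁻¹ * y = y := by rw [mul_inv_cancel₀ hx, one_mul]
        exact h1)
      exact this
  · exact ⟨fun x y => rfl, fun x y => rfl, fun x => Iff.rfl⟩

/-! ### The relation `rv_λ(x) = rv_λ(y)` -/

variable (φ) in
/-- `x = 0` -/
def fZero {γ : Type*} (s : L.Term γ) : L.Formula γ := (tA φ s s).equal s

variable (φ) in
/-- `v(a) < v(b)` -/
noncomputable def fLt : L.Formula (Fin 2) :=
  (fZero φ (Term.var 1)).not ⊓
    (((tM φ (Term.var (Sum.inr 0)) (Term.var (Sum.inl 0))).equal (Term.var (Sum.inl 1)) :
      L.Formula (Fin 2 ⊕ Fin 1)).imp (fO φ (Term.var (Sum.inr 0))).not).iAlls (Fin 1)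

variable (φ) in
/-- `rv_λ(x) = rv_λ(y)` for `λ = v(l)`, with variables `l, x, y`. -/
noncomputable def fRv : L.Formula (Fin 3) :=
  (fZero φ (Term.var 1) ⊓ fZero φ (Term.var 2)) ⊔
    (((fZero φ (Term.var 1)).not ⊓ (fZero φ (Term.var 2)).not) ⊓
      ((((tA φ (Term.var (Sum.inr 0)) (Term.var (Sum.inl 2))).equal (Term.var (Sum.inl 1)) :
        L.Formula (Fin 3 ⊕ Fin 1)).imp
        ((fLt φ).subst ![Term.var (Sum.inr 0),
          tM φ (Term.var (Sum.inl 0)) (Term.var (Sum.inl 2))])).iAlls (Fin 1)))

variable (φ) in
/-- `rv(x) = rv(y)`, with variables `x, y`. -/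
noncomputable def fRv1 : L.Formula (Fin 2) :=
  ((((tM φ (Term.var (Sum.inr 0)) (Term.var (Sum.inr 0))).equal (Term.var (Sum.inr 0)) :
    L.Formula (Fin 2 ⊕ Fin 1)) ⊓ (fZero φ (Term.var (Sum.inr 0))).not) ⊓
    ((fRv φ).relabel ![Sum.inr 0, Sum.inl 0, Sum.inl 1])).iExs (Fin 1)

variable {K : Type u} [Field K] [L.Structure K] {O : ValuationSubring K}

lemma realize_fZero (hK : IsValuedStr φ K O) {γ : Type*} (s : L.Term γ) (v : γ → K) :
    (fZero φ s).Realize v ↔ s.realize v = 0 := by
  unfold fZero
  rw [Formula.realize_equal, realize_tA]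
  have := hK.add (s.realize v) (s.realize v)
  change sA φ _ _ = _ at this
  rw [this]
  simp

lemma realize_fLt (hK : IsValuedStr φ K O) (a b : K) :
    (fLt φ).Realize ![a, b] ↔ O.valuation a < O.valuation b := by
  have kM : ∀ x y : K, sM φ x y = x * y := hK.mul
  have kO : ∀ x : K, sO φ x ↔ x ∈ O := hK.int
  unfold fLt
  simp only [Formula.realize_inf, Formula.realize_not, realize_fZero hK, Term.realize_var,
    Formula.realize_iAlls, Formula.realize_imp, Formula.realize_equal, realize_tM, kM, realize_fO,
    kO, Sum.elim_inr, Sum.elim_inl, Matrix.cons_val_zero, Matrix.cons_val_one]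
  constructor
  · rintro ⟨hb, h⟩
    by_cases ha : a = 0
    · rw [ha, map_zero]
      exact zero_lt_iff.mpr ((Valuation.ne_zero_iff _).mpr hb)
    · have h1 := h (fun _ => b / a) (div_mul_cancel₀ b ha)
      rw [← ValuationSubring.valuation_le_one_iff, not_le, map_div₀,
        one_lt_div₀ (zero_lt_iff.mpr ((Valuation.ne_zero_iff _).mpr ha))] at h1
      exact h1
  · intro h
    have hb : b ≠ 0 := by
      rintro rfl
      rw [map_zero] at h
      exact not_lt_zero h
    refine ⟨hb, fun w hw hO => ?_⟩
    rw [← ValuationSubring.valuation_le_one_iff] at hO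
    rw [← hw, map_mul] at h
    exact absurd h (not_lt.mpr (mul_le_of_le_one_left' hO))

lemma rvEq_iff (O : ValuationSubring K) (l x y : K) :
    rvEq O (O.valuation l) x y ↔
      (x = 0 ∧ y = 0) ∨ ((x ≠ 0 ∧ y ≠ 0) ∧ O.valuation (x - y) < O.valuation (l * y)) := by
  unfold rvEq
  rw [and_assoc]
  refine or_congr Iff.rfl (and_congr_right fun _ => and_congr_right fun hy => ?_)
  have h1 : x / y - 1 = (x - y) / y := by field_simp
  rw [h1, map_div₀, map_mul, div_lt_iff₀ (zero_lt_iff.mpr ((Valuation.ne_zero_iff _).mpr hy))]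

lemma realize_fRv (hK : IsValuedStr φ K O) (l x y : K) :
    (fRv φ).Realize ![l, x, y] ↔ rvEq O (O.valuation l) x y := by
  have kA : ∀ x y : K, sA φ x y = x + y := hK.add
  have kM : ∀ x y : K, sM φ x y = x * y := hK.mul
  rw [rvEq_iff]
  unfold fRv
  have e : ∀ w : Fin 1 → K, (fun a => ((![Term.var (Sum.inr 0),
      tM φ (Term.var (Sum.inl 0)) (Term.var (Sum.inl 2))] : Fin 2 → L.Term (Fin 3 ⊕ Fin 1)) a).realize
      (Sum.elim ![l, x, y] w)) = ![w 0, l * y] := by
    intro w
    funext a
    fin_cases a
    · rfl
    · simp [kM]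
  simp only [Formula.realize_sup, Formula.realize_inf, Formula.realize_not, realize_fZero hK,
    Term.realize_var, Formula.realize_iAlls, Formula.realize_imp, Formula.realize_equal,
    realize_tA, kA, Sum.elim_inr, Sum.elim_inl]
  have e2 : ∀ w : Fin 1 → K, Formula.Realize (BoundedFormula.subst (fLt φ) ![Term.var (Sum.inr 0),
      tM φ (Term.var (Sum.inl 0)) (Term.var (Sum.inl 2))] : L.Formula (Fin 3 ⊕ Fin 1))
      (Sum.elim ![l, x, y] w) ↔ O.valuation (w 0) < O.valuation (l * y) := by
    intro w
    rw [← realize_fLt hK, ← e w]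
    exact BoundedFormula.realize_subst
  refine or_congr Iff.rfl (and_congr_right fun _ => ?_)
  constructor
  · intro h
    have h1 := h (fun _ => x - y) (by simp)
    rw [e2] at h1
    exact h1
  · intro h w hw
    rw [e2]
    have : w 0 = x - y := by
      have h2 : w 0 + y = x := by simpa using hw
      rw [← h2]; ring
    rw [this]
    exact h

lemma realize_fRv1 (hK : IsValuedStr φ K O) (x y : K) :
    (fRv1 φ).Realize ![x, y] ↔ rvEq O 1 x y := by
  have kM : ∀ x y : K, sM φ x y = x * y := hK.mul
  unfold fRv1
  rw [Formula.realize_iExs]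
  have e : ∀ w : Fin 1 → K, (Sum.elim ![x, y] w) ∘ ![Sum.inr 0, Sum.inl 0, Sum.inl 1] =
      ![w 0, x, y] := by
    intro w
    funext a
    fin_cases a <;> rfl
  simp only [Formula.realize_inf, Formula.realize_not, realize_fZero hK, Term.realize_var,
    Formula.realize_equal, realize_tM, kM, Sum.elim_inr, Formula.realize_relabel, e]
  have h1 : rvEq O 1 x y ↔ rvEq O (O.valuation 1) x y := by rw [map_one]
  rw [h1]
  constructor
  · rintro ⟨w, ⟨h2, h3⟩, h4⟩
    rw [realize_fRv hK] at h4
    have : w 0 = 1 := by
      have := mul_right_cancel₀ h3 (h2.trans (one_mul _).symm)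
      exact this
    rwa [this] at h4
  · intro h
    refine ⟨fun _ => 1, ⟨by simp, by simp⟩, ?_⟩
    rw [realize_fRv hK]
    exact h

end formulas

end Pool.Agent.H78.HM
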