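import Pool.Agent.H78.HMinRed

/-!
# Hensel minimality passes from an `RV`-expansion to the original language
-/

set_option autoImplicit false
set_option linter.style.haveILetI false

universe u

open FirstOrder FirstOrder.Language Set

namespace Pool.Agent.H78.HM

section main

variable {L L' : FirstOrder.Language.{u, u}} {φ : Lval →ᴸ L} {ι : L →ᴸ L'}

variable (φ) in
/-- invariance of `ψ(a, x, z, w)` under changing representatives of `z`, `w` -/
noncomputable def fInv {m n k : ℕ} (ψ : L.Formula (Fin m ⊕ (Fin 1 ⊕ (Fin n ⊕ Fin k)))) :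
    L.Formula (Fin m ⊕ (Fin 1 ⊕ (Fin n ⊕ Fin k))) :=
  (((Formula.iInf fun i : Fin n => (fRv1 φ).relabel
      ![Sum.inl (Sum.inr (Sum.inr (Sum.inl i))), Sum.inr (Sum.inr (Sum.inl i))]) ⊓
    (Formula.iInf fun j : Fin k => (fRv φ).relabel
      ![Sum.inl (Sum.inr (Sum.inl 0)), Sum.inl (Sum.inr (Sum.inr (Sum.inr j))),
        Sum.inr (Sum.inr (Sum.inr j))])).imp
    ((ψ.relabel (Sum.elim (Sum.inl ∘ Sum.inl) (Sum.elim (Sum.inr ∘ Sum.inl)
        (fun s => Sum.inl (Sum.inr (Sum.inr s)))))).iff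
      (ψ.relabel (Sum.elim (Sum.inl ∘ Sum.inl) Sum.inr)) :
      L.Formula ((Fin m ⊕ (Fin 1 ⊕ (Fin n ⊕ Fin k))) ⊕ (Fin 1 ⊕ (Fin n ⊕ Fin k))))).iAlls
    (Fin 1 ⊕ (Fin n ⊕ Fin k))

lemma realize_fInv {M : Type u} [Field M] [L.Structure M] {OM : ValuationSubring M}
    (hM : IsValuedStr φ M OM) {m n k : ℕ} (ψ : L.Formula (Fin m ⊕ (Fin 1 ⊕ (Fin n ⊕ Fin k))))
    (a : Fin m → M) (l : M) (z : Fin n → M) (w : Fin k → M) :
    (fInv φ ψ).Realize (Sum.elim a (Sum.elim (fun _ => l) (Sum.elim z w))) ↔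
      ∀ (x : M) (z' : Fin n → M) (w' : Fin k → M), (∀ i, rvEq OM 1 (z i) (z' i)) →
        (∀ j, rvEq OM (OM.valuation l) (w j) (w' j)) →
        (ψ.Realize (Sum.elim a (Sum.elim (fun _ => x) (Sum.elim z w))) ↔
          ψ.Realize (Sum.elim a (Sum.elim (fun _ => x) (Sum.elim z' w')))) := by
  unfold fInv
  rw [Formula.realize_iAlls]
  have key : ∀ (x : M) (z' : Fin n → M) (w' : Fin k → M),
      Formula.Realize (((Formula.iInf fun i : Fin n => (fRv1 φ).relabel
      ![Sum.inl (Sum.inr (Sum.inr (Sum.inl i))), Sum.inr (Sum.inr (Sum.inl i))]) ⊓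
    (Formula.iInf fun j : Fin k => (fRv φ).relabel
      ![Sum.inl (Sum.inr (Sum.inl 0)), Sum.inl (Sum.inr (Sum.inr (Sum.inr j))),
        Sum.inr (Sum.inr (Sum.inr j))])).imp
    ((ψ.relabel (Sum.elim (Sum.inl ∘ Sum.inl) (Sum.elim (Sum.inr ∘ Sum.inl)
        (fun s => Sum.inl (Sum.inr (Sum.inr s)))))).iff
      (ψ.relabel (Sum.elim (Sum.inl ∘ Sum.inl) Sum.inr)) :
      L.Formula ((Fin m ⊕ (Fin 1 ⊕ (Fin n ⊕ Fin k))) ⊕ (Fin 1 ⊕ (Fin n ⊕ Fin k)))))
      (Sum.elim (Sum.elim a (Sum.elim (fun _ => l) (Sum.elim z w)))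
        (Sum.elim (fun _ => x) (Sum.elim z' w'))) ↔
      ((∀ i, rvEq OM 1 (z i) (z' i)) → (∀ j, rvEq OM (OM.valuation l) (w j) (w' j)) →
        (ψ.Realize (Sum.elim a (Sum.elim (fun _ => x) (Sum.elim z w))) ↔
          ψ.Realize (Sum.elim a (Sum.elim (fun _ => x) (Sum.elim z' w'))))) := by
    intro x z' w'
    rw [Formula.realize_imp, Formula.realize_inf, Formula.realize_iInf, Formula.realize_iInf,
      Formula.realize_iff, Formula.realize_relabel, Formula.realize_relabel, and_imp]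
    refine imp_congr (forall_congr' fun i => ?_) (imp_congr (forall_congr' fun j => ?_) ?_)
    · rw [Formula.realize_relabel, ← realize_fRv1 hM]
      apply iff_of_eq
      congr 1
      funext s
      fin_cases s <;> rfl
    · rw [Formula.realize_relabel, ← realize_fRv hM]
      apply iff_of_eq
      congr 1
      funext s
      fin_cases s <;> rfl
    · refine iff_congr ?_ ?_
      · apply iff_of_eq
        congr 1
        funext s
        rcases s with s | s | s | s <;> rfl
      · apply iff_of_eq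
        congr 1
        funext s
        rcases s with s | s | s | s <;> rfl
  constructor
  · intro h x z' w'
    exact (key x z' w').mp (h _)
  · intro h i
    have h1 := (key (i (Sum.inl 0)) (fun s => i (Sum.inr (Sum.inl s)))
      (fun s => i (Sum.inr (Sum.inr s)))).mpr (h _ _ _)
    have e : (Sum.elim (fun _ => i (Sum.inl 0)) (Sum.elim (fun s => i (Sum.inr (Sum.inl s)))
      (fun s => i (Sum.inr (Sum.inr s)))) : Fin 1 ⊕ (Fin n ⊕ Fin k) → M) = i := by
      funext s
      rcases s with s | s | s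
      · rw [Subsingleton.elim s 0]
        rfl
      · rfl
      · rfl
    rw [e] at h1
    exact h1

/-- A formula with parameters is obtained from a formula by plugging in a finite tuple. -/
lemma exists_finite_params {M : Type u} [L.Structure M] {A : Set M} {δ : Type} [Finite δ]
    (θ : L[[A]].Formula δ) : ∃ (m : ℕ) (a : Fin m → M) (ψ : L.Formula (Fin m ⊕ δ)),
      (∀ i, a i ∈ A) ∧ ∀ v : δ → M, θ.Realize v ↔ ψ.Realize (Sum.elim a v) := by
  classical
  have h1 : A.Definable L {v : δ → M | θ.Realize v} := ⟨θ, rfl⟩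
  rw [Set.definable_iff_finitely_definable] at h1
  obtain ⟨A₀, hA₀, h1⟩ := h1
  rw [Set.definable_iff_exists_formula_sum] at h1
  obtain ⟨ψ, hψ⟩ := h1
  let e := A₀.equivFin
  refine ⟨A₀.card, fun i => (e.symm i : M), ψ.relabel (Sum.map (fun x => e x) id),
    fun i => hA₀ (e.symm i).2, fun v => ?_⟩
  have h2 := Set.ext_iff.mp hψ v
  simp only [Set.mem_ofPred_eq] at h2
  rw [h2, Formula.realize_relabel]
  apply iff_of_eq
  congr 1
  funext s
  rcases s with s | s
  · simp
  · rfl

lemma rvEq_refl' {K : Type u} [Field K] (O : ValuationSubring K) {lam : O.ValueGroup}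
    (hlam : lam ≠ 0) (x : K) : rvEq O lam x x := by
  by_cases h : x = 0
  · exact Or.inl ⟨h, h⟩
  · refine Or.inr ⟨h, h, ?_⟩
    rw [div_self h, sub_self, map_zero]
    exact zero_lt_iff.mpr hlam

theorem main_reduct {K : Type u} [Field K] [L.Structure K] [L'.Structure K] [ι.IsExpansionOn K]
    {O : ValuationSubring K} (hK : IsValuedStr φ K O) (hO : O ≠ ⊤)
    (hfun : ∀ (n : ℕ) (f : L'.Functions n), ∃ f₀, f = ι.onFunction f₀)
    (hrel : ∀ (n : ℕ) (r : L'.Relations n), (∃ r₀, r = ι.onRelation r₀) ∨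
      (∀ x y : Fin n → K, (∀ i, rvEq O 1 (x i) (y i)) →
        (Structure.RelMap r x ↔ Structure.RelMap r y)))
    {ell : ℕ∞} (h : HMin (ι.comp φ) ell K) : HMin φ ell K := by
  intro K' _ _ O' hK' e lam hlam0 hlam1 A X hX
  obtain ⟨n, k, hk, z, w, θ, hθ⟩ := hX
  have hK1 : IsValuedStr (ι.comp φ) K O := by
    refine ⟨fun x y => ?_, fun x y => ?_, fun x => ?_⟩
    · exact (LHom.map_onFunction ι (φ.onFunction ValFun.add) ![x, y]).trans (hK.add x y)
    · exact (LHom.map_onFunction ι (φ.onFunction ValFun.mul) ![x, y]).trans (hK.mul x y)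
    · exact (iff_of_eq (LHom.map_onRelation ι (φ.onRelation ValRel.int) ![x])).trans (hK.int x)
  obtain ⟨K'', s'', j, g, hg⟩ := amalgam0 ι (A := K) (B := K')
    (fun σ => (LHom.realize_onSentence K ι σ).trans ((elementarilyEquivalent_iff.mp e) σ))
  obtain ⟨f'', O'', hK''⟩ := exists_field hK1 j.elementarilyEquivalent
  have hO'' : O'' ≠ ⊤ := isInt_transfer hK1 hO j.elementarilyEquivalent hK''
  have hmin'' : HMin (ι.comp φ) ell K'' := h.congr j.elementarilyEquivalent
  have hrel'' : ∀ (n : ℕ) (r : L'.Relations n), (∃ r₀, r = ι.onRelation r₀) ∨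
      (∀ x y : Fin n → K'', (∀ i, rvEq O'' 1 (x i) (y i)) →
        (Structure.RelMap r x ↔ Structure.RelMap r y)) := by
    intro n r
    rcases hrel n r with h | h
    · exact Or.inl h
    · exact Or.inr (rvRel_transfer hK1 j.elementarilyEquivalent hK'' r h)
  letI sr := ι.reduct K''
  haveI := ι.isExpansionOn_reduct K''
  have hKr : IsValuedStr φ K'' O'' := ⟨hK''.add, hK''.mul, hK''.int⟩
  have hg' : ∀ (α : Type) (θ : L.Formula α) (v : α → K'), θ.Realize (g ∘ v) ↔ θ.Realize v := by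
    intro α θ v
    rw [← hg α θ v, LHom.realize_onFormula]
  obtain ⟨m, a, ψ, haA, hψ⟩ := exists_finite_params θ
  obtain ⟨l, rfl⟩ := O'.valuation_surjective lam
  have ginj : Function.Injective g := by
    intro x y hxy
    have h1 := hg' (Fin 2) ((Term.var 0).equal (Term.var 1)) ![x, y]
    rw [Formula.realize_equal, Formula.realize_equal] at h1
    exact h1.mp hxy
  have T_rv : ∀ l x y : K', rvEq O'' (O''.valuation (g l)) (g x) (g y) ↔
      rvEq O' (O'.valuation l) x y := by
    intro l x y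
    rw [← realize_fRv hKr, ← realize_fRv hK', ← hg']
    apply iff_of_eq
    congr 1
    funext s
    fin_cases s <;> rfl
  have T_rv1 : ∀ x y : K', rvEq O'' 1 (g x) (g y) ↔ rvEq O' 1 x y := by
    intro x y
    rw [← realize_fRv1 hKr, ← realize_fRv1 hK', ← hg']
    apply iff_of_eq
    congr 1
    funext s
    fin_cases s <;> rfl
  have T_zero : ∀ x : K', g x = 0 ↔ x = 0 := by
    intro x
    have h1 := hg' (Fin 1) (fZero φ (Term.var 0)) (fun _ => x)
    rw [realize_fZero hKr, realize_fZero hK'] at h1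
    exact h1
  have T_int : ∀ x : K', g x ∈ O'' ↔ x ∈ O' := by
    intro x
    have h1 := hg' (Fin 1) (fO φ (Term.var 0)) (fun _ => x)
    rw [realize_fO, realize_fO] at h1
    exact (hKr.int (g x)).symm.trans (h1.trans (hK'.int x))
  have T_sub : ∀ x y : K', g (x - y) = g x - g y := by
    intro x y
    have h1 := hg' (Fin 3) ((tA φ (Term.var 0) (Term.var 1)).equal (Term.var 2)) ![x - y, y, x]
    rw [Formula.realize_equal, Formula.realize_equal, realize_tA, realize_tA] at h1
    have h2 : sA φ (x - y) y = x := (hK'.add (x - y) y).trans (sub_add_cancel x y)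
    have h3 := h1.mpr h2
    have h4 : sA φ (g (x - y)) (g y) = g (x - y) + g y := hKr.add _ _
    have h5 : g (x - y) + g y = g x := h4.symm.trans h3
    exact eq_sub_of_add_eq h5
  have hgl0 : O''.valuation (g l) ≠ 0 := by
    rw [Valuation.ne_zero_iff]
    intro h0
    exact (Valuation.ne_zero_iff _).mp hlam0 ((T_zero l).mp h0)
  have hgl1 : O''.valuation (g l) ≤ 1 := by
    rw [ValuationSubring.valuation_le_one_iff, T_int, ← ValuationSubring.valuation_le_one_iff]
    exact hlam1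
  let X'' : Set K'' := {x | (ι.onFormula ψ).Realize (Sum.elim (g ∘ a)
    (Sum.elim (fun _ => x) (Sum.elim (g ∘ z) (g ∘ w))))}
  have hXg : ∀ x : K', g x ∈ X'' ↔ x ∈ X := by
    intro x
    rw [hθ z w (fun i => rvEq_refl O' _) (fun j => rvEq_refl' O' hlam0 _) x, hψ]
    show (ι.onFormula ψ).Realize _ ↔ _
    rw [LHom.realize_onFormula, ← hg']
    apply iff_of_eq
    congr 1
    funext s
    rcases s with s | s | s | s <;> rfl
  have hX'' : DefinableRV L' O'' (Set.range (g ∘ a)) ell (O''.valuation (g l)) X'' := by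
    obtain ⟨θ', hθ'⟩ := exists_const_formula (Set.range (g ∘ a)) (ι.onFormula ψ) (g ∘ a)
      (fun i => Set.mem_range_self i)
    refine ⟨n, k, hk, g ∘ z, g ∘ w, θ', ?_⟩
    have h1 : (fInv φ ψ).Realize (Sum.elim a (Sum.elim (fun _ => l) (Sum.elim z w))) := by
      rw [realize_fInv hK']
      intro x z' w' hz' hw'
      rw [← hψ, ← hψ, ← hθ z' w' hz' hw',
        ← hθ z w (fun i => rvEq_refl O' _) (fun j => rvEq_refl' O' hlam0 _)]
    rw [← hg'] at h1
    have e1 : g ∘ (Sum.elim a (Sum.elim (fun _ => l) (Sum.elim z w)) :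
        Fin m ⊕ (Fin 1 ⊕ (Fin n ⊕ Fin k)) → K') =
        Sum.elim (g ∘ a) (Sum.elim (fun _ => g l) (Sum.elim (g ∘ z) (g ∘ w))) := by
      funext s
      rcases s with s | s | s | s <;> rfl
    rw [e1, realize_fInv hKr] at h1
    intro z' w' hz' hw' x
    rw [hθ', LHom.realize_onFormula, ← h1 x z' w' hz' hw']
    show (ι.onFormula ψ).Realize _ ↔ _
    rw [LHom.realize_onFormula]
  obtain ⟨C'', hC1, hC2, hC3, hC4⟩ := hmin'' K'' O'' hK'' (j.elementarilyEquivalent.symm.trans j.elementarilyEquivalent)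
    _ hgl0 hgl1 _ X'' hX''
  obtain ⟨η, rfl⟩ := exists_formula_of_definable (g ∘ a) hC3
  -- finite `L`-definable set containing `C''`
  have hcore : ∃ χ : L.Formula (Fin m ⊕ Fin 1), (sec χ (g ∘ a)).Finite ∧
      sec η (g ∘ a) ⊆ sec χ (g ∘ a) := by
    have h1 : ∀ c ∈ sec η (g ∘ a), ∃ χ : L.Formula (Fin m ⊕ Fin 1),
        (sec χ (g ∘ a)).Finite ∧ c ∈ sec χ (g ∘ a) := by
      intro c hc
      obtain ⟨χ, h2, h3⟩ := core hK'' hO'' hfun hrel'' hmin'' (g ∘ a) c η hC1 hc
      have h4 : sec (ι.onFormula χ) (g ∘ a) = sec χ (g ∘ a) := by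
        ext y
        exact LHom.realize_onFormula ι χ
      rw [h4] at h2 h3
      exact ⟨χ, h2, h3⟩
    have h2 : ∀ S : Set K'', S.Finite → S ⊆ sec η (g ∘ a) → ∃ χ : L.Formula (Fin m ⊕ Fin 1),
        (sec χ (g ∘ a)).Finite ∧ S ⊆ sec χ (g ∘ a) := by
      intro S hS
      induction S, hS using Set.Finite.induction_on with
      | empty =>
        intro _
        refine ⟨⊥, ?_, Set.empty_subset _⟩
        exact Set.finite_empty.subset fun y hy => hy
      | @insert c S _ _ ih =>
        intro hcS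
        obtain ⟨χ, h3, h4⟩ := ih ((Set.subset_insert c S).trans hcS)
        obtain ⟨χ', h5, h6⟩ := h1 c (hcS (Set.mem_insert c S))
        have h7 : sec (χ ⊔ χ') (g ∘ a) = sec χ (g ∘ a) ∪ sec χ' (g ∘ a) := by
          ext y
          exact Formula.realize_sup
        refine ⟨χ ⊔ χ', ?_, ?_⟩
        · rw [h7]
          exact h3.union h5
        · rw [h7]
          exact Set.insert_subset (Or.inr h6) (h4.trans Set.subset_union_left)
    exact h2 _ hC1 subset_rfl
  obtain ⟨χ, hχ1, hχ2⟩ := hcore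
  have hcard : (sec χ a).encard = (sec χ (g ∘ a)).encard :=
    encard_sec_congr χ a (g ∘ a) fun k => (hg' _ _ _).symm
  have himg : g '' sec χ a = sec χ (g ∘ a) := by
    have hsub : g '' sec χ a ⊆ sec χ (g ∘ a) := by
      rintro _ ⟨y, hy, rfl⟩
      have h1 := (hg' _ χ (Sum.elim a (fun _ => y))).mpr hy
      have e1 : g ∘ (Sum.elim a (fun _ => y) : Fin m ⊕ Fin 1 → K') =
          Sum.elim (g ∘ a) (fun _ => g y) := by
        funext s
        rcases s with s | s <;> rfl
      rw [e1] at h1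
      exact h1
    refine Set.Finite.eq_of_subset_of_encard_le (hχ1.subset hsub) hsub ?_
    rw [ginj.encard_image, hcard]
  refine ⟨sec χ a, ?_, ?_, ?_, ?_⟩
  · rw [← Set.encard_lt_top_iff, hcard, Set.encard_lt_top_iff]
    exact hχ1
  · have h1 : (g '' sec χ a).Nonempty := himg ▸ hC2.mono hχ2
    exact Set.image_nonempty.mp h1
  · obtain ⟨θ', hθ'⟩ := exists_const_formula A χ a haA
    refine ⟨θ', ?_⟩
    ext v
    show _ ∈ sec χ a ↔ θ'.Realize v
    rw [hθ']
    have e1 : v = fun _ => v 0 := funext fun i => by rw [Subsingleton.elim i 0]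
    rw [e1]
    rfl
  · intro x y hxy
    rw [← hXg, ← hXg]
    refine hC4 _ _ fun c'' hc'' => ?_
    have h1 : c'' ∈ g '' sec χ a := himg ▸ hχ2 hc''
    obtain ⟨c, hc, rfl⟩ := h1
    rw [← T_sub, ← T_sub, T_rv]
    exact hxy c hc

end main

end Pool.Agent.H78.HM
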