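import Pool.Agent.H78.HMinEF

/-!
# Reducts of `RV`-expansions
-/

set_option autoImplicit false
set_option linter.style.haveILetI false

universe u

open FirstOrder FirstOrder.Language Set

namespace Pool.Agent.H78.HM

section small

variable {L L₁ L₂ : FirstOrder.Language.{u, u}}

open Pool.Agent.H78.MT

theorem exists_realize0 {M : Type u} [L.Structure M] [Nonempty M] {δ β : Type} (v₀ : δ → M)
    (T : Set (L.Formula (δ ⊕ β)))
    (hT : ∀ T₀ : Finset (L.Formula (δ ⊕ β)), (↑T₀ : Set (L.Formula (δ ⊕ β))) ⊆ T →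
      ∃ w : β → M, ∀ θ ∈ T₀, θ.Realize (Sum.elim v₀ w)) :
    ∃ (N : Type u) (_ : L.Structure N) (j : M ↪ₑ[L] N) (w : β → N),
      ∀ θ ∈ T, θ.Realize (Sum.elim (j ∘ v₀) w) := by
  classical
  let up : δ ⊕ β → ULift.{u} δ ⊕ ULift.{u} β := Sum.map ULift.up ULift.up
  let dn : ULift.{u} δ ⊕ ULift.{u} β → δ ⊕ β := Sum.map ULift.down ULift.down
  have hcomp : ∀ {M : Type u} (v : ULift.{u} δ → M) (w : ULift.{u} β → M),
      (Sum.elim v w) ∘ up = Sum.elim (v ∘ ULift.up) (w ∘ ULift.up) := by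
    intro M v w
    funext s
    rcases s with s | s <;> rfl
  obtain ⟨N, sN, j, w, hw⟩ := exists_realize (L := L) (v₀ ∘ ULift.down : ULift.{u} δ → M)
    ((fun θ : L.Formula (δ ⊕ β) => θ.relabel up) '' T) (by
      intro T₀ hT₀
      obtain ⟨T₁, hT₁, rfl⟩ := Finset.subset_set_image_iff.mp hT₀
      obtain ⟨w, hw⟩ := hT T₁ hT₁
      refine ⟨w ∘ ULift.down, fun θ hθ => ?_⟩
      obtain ⟨θ', hθ', rfl⟩ := Finset.mem_image.mp hθ
      rw [Formula.realize_relabel, hcomp]
      exact hw θ' hθ')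
  refine ⟨N, sN, j, w ∘ ULift.up, fun θ hθ => ?_⟩
  have := hw _ ⟨θ, hθ, rfl⟩
  rw [Formula.realize_relabel, hcomp] at this
  exact this

theorem robinson0 (φ₁ : L →ᴸ L₁) (φ₂ : L →ᴸ L₂) {A B : Type u} {δ : Type} [L₁.Structure A]
    [L₂.Structure B] [Nonempty A] [Nonempty B] (a : δ → A) (b : δ → B)
    (h : ∀ θ : L.Formula δ, (φ₁.onFormula θ).Realize a ↔ (φ₂.onFormula θ).Realize b) :
    ∃ (N : Type u) (s₁ : Str2 L₁ N) (_ : L₂.Structure N) (c : δ → N),
      (∀ (n : ℕ) (f : L.Functions n) (x : Fin n → N),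
        s₁.str.funMap (φ₁.onFunction f) x = Structure.funMap (φ₂.onFunction f) x) ∧
      (∀ (n : ℕ) (r : L.Relations n) (x : Fin n → N),
        s₁.str.RelMap (φ₁.onRelation r) x ↔ Structure.RelMap (φ₂.onRelation r) x) ∧
      (∀ θ : L₁.Formula δ, @Formula.Realize L₁ N s₁.str δ θ c ↔ θ.Realize a) ∧
      (∀ θ : L₂.Formula δ, θ.Realize c ↔ θ.Realize b) := by
  have h' : Agree φ₁ φ₂ (a ∘ ULift.down : ULift.{u} δ → A) (b ∘ ULift.down) := by
    rw [agree_iff]
    intro θ
    have h1 := h (θ.relabel ULift.down)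
    letI := φ₁.reduct A
    letI := φ₂.reduct B
    haveI := φ₁.isExpansionOn_reduct A
    haveI := φ₂.isExpansionOn_reduct B
    rw [LHom.realize_onFormula, LHom.realize_onFormula, Formula.realize_relabel,
      Formula.realize_relabel] at h1
    exact h1
  obtain ⟨N, s₁, s₂, c, h1, h2, h3, h4⟩ := robinson φ₁ φ₂ _ _ h'
  refine ⟨N, ⟨s₁⟩, s₂, c ∘ ULift.up, h1, h2, fun θ => ?_, fun θ => ?_⟩
  · have := h3 (θ.relabel ULift.up)
    rw [Formula.realize_relabel, Formula.realize_relabel] at this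
    exact this
  · have := h4 (θ.relabel ULift.up)
    rw [Formula.realize_relabel, Formula.realize_relabel] at this
    exact this

theorem amalgam0 (φ₁ : L →ᴸ L₁) {A B : Type u} [L₁.Structure A] [L.Structure B] [Nonempty A]
    (h : ∀ σ : L.Sentence, A ⊨ φ₁.onSentence σ ↔ B ⊨ σ) :
    ∃ (A' : Type u) (_ : L₁.Structure A') (_ : A ↪ₑ[L₁] A') (g : B → A'),
      ∀ (α : Type) (θ : L.Formula α) (v : α → B),
        (φ₁.onFormula θ).Realize (g ∘ v) ↔ θ.Realize v := by
  have h' : Agree φ₁ (LHom.id L) (PEmpty.elim : PEmpty.{u + 1} → A)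
      (PEmpty.elim : PEmpty.{u + 1} → B) := by
    intro θ
    have h1 := h ((θ.relabel PEmpty.elim : L.Formula Empty))
    letI := φ₁.reduct A
    haveI := φ₁.isExpansionOn_reduct A
    unfold Sentence.Realize LHom.onSentence at h1
    rw [LHom.realize_onFormula, Formula.realize_relabel, Formula.realize_relabel] at h1
    rw [LHom.realize_onFormula, LHom.realize_onFormula]
    have e1 : (default : Empty → A) ∘ PEmpty.elim = (PEmpty.elim : PEmpty.{u + 1} → A) :=
      funext fun x => x.elim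
    have e2 : (default : Empty → B) ∘ PEmpty.elim = (PEmpty.elim : PEmpty.{u + 1} → B) :=
      funext fun x => x.elim
    rw [e1, e2] at h1
    exact h1
  obtain ⟨A', sA', j, g, hg, -⟩ := amalgam φ₁ (LHom.id L) _ _ h'
  refine ⟨A', sA', j, g, fun α θ v => ?_⟩
  have h1 := (hg.reindex (v ∘ ULift.down : ULift.{u} α → B)) (θ.relabel ULift.up)
  letI := φ₁.reduct A'
  haveI := φ₁.isExpansionOn_reduct A'
  rw [LHom.realize_onFormula] at h1 ⊢
  rw [LHom.realize_onFormula, Formula.realize_relabel, Formula.realize_relabel] at h1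
  exact h1

lemma equiv_of_type {M N : Type u} [L.Structure M] [L.Structure N] {δ : Type} {a : δ → M}
    {b : δ → N} (h : ∀ θ : L.Formula δ, θ.Realize a ↔ θ.Realize b) : M ≅[L] N := by
  rw [elementarilyEquivalent_iff]
  intro σ
  have h1 := h ((σ : L.Formula Empty).relabel Empty.elim)
  rw [Formula.realize_relabel, Formula.realize_relabel] at h1
  have e1 : a ∘ Empty.elim = (default : Empty → M) := funext fun x => x.elim
  have e2 : b ∘ Empty.elim = (default : Empty → N) := funext fun x => x.elim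
  rw [e1, e2] at h1
  exact h1

lemma equiv_of_type_symm {M N : Type u} [L.Structure M] [L.Structure N] {δ : Type} {a : δ → M}
    {b : δ → N} (h : ∀ θ : L.Formula δ, θ.Realize a ↔ θ.Realize b) : N ≅[L] M :=
  (equiv_of_type h).symm

end small

section core

variable {L L' : FirstOrder.Language.{u, u}} {φ : Lval →ᴸ L} {ι : L →ᴸ L'}

lemma isInt_transfer {φ : Lval →ᴸ L} {K N : Type u} [Field K] [L.Structure K]
    {O : ValuationSubring K} (hK : IsValuedStr φ K O) (hO : O ≠ ⊤) [L.Structure N] (h : K ≅[L] N) [Field N]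
    {O' : ValuationSubring N} (hN : IsValuedStr φ N O') : O' ≠ ⊤ := by
  rintro rfl
  apply hO
  ext x
  simp only [ValuationSubring.mem_top, iff_true]
  have h1 := (transfer h (γ := Fin 1) (fO φ (Term.var 0))).mpr (fun v => by
    rw [realize_fO]
    exact (hN.int _).mpr (ValuationSubring.mem_top _)) (fun _ => x)
  rw [realize_fO] at h1
  exact (hK.int _).mp h1

lemma encard_sec_congr {L : FirstOrder.Language.{u, u}} {M N : Type u} [L.Structure M]
    [L.Structure N] {β : Type} (γ : L.Formula (β ⊕ Fin 1)) (a : β → M) (b : β → N)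
    (h : ∀ k, (fMany γ k).Realize a ↔ (fMany γ k).Realize b) :
    (sec γ a).encard = (sec γ b).encard := by
  have h' : ∀ k : ℕ, (sec γ a).encard ≤ k ↔ (sec γ b).encard ≤ k := by
    intro k
    have := h k
    rw [realize_fMany', realize_fMany', not_iff_not] at this
    exact this
  generalize (sec γ a).encard = m at h'
  generalize (sec γ b).encard = n at h'
  apply le_antisymm
  · induction n using ENat.recTopCoe with
    | top => exact le_top
    | coe n => exact (h' n).mpr le_rfl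
  · induction m using ENat.recTopCoe with
    | top => exact le_top
    | coe m => exact (h' m).mp le_rfl

lemma encard_sec_congr' {L : FirstOrder.Language.{u, u}} {M N : Type u} [L.Structure M]
    [L.Structure N] {β : Type} (γ : L.Formula (β ⊕ Fin 1)) (t : β ⊕ Fin 1 → M)
    (t' : β ⊕ Fin 1 → N) (h : ∀ θ : L.Formula (β ⊕ Fin 1), θ.Realize t ↔ θ.Realize t') :
    (sec γ (t ∘ Sum.inl)).encard = (sec γ (t' ∘ Sum.inl)).encard := by
  refine encard_sec_congr γ _ _ fun k => ?_
  have := h ((fMany γ k).relabel Sum.inl)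
  rwa [Formula.realize_relabel, Formula.realize_relabel] at this

lemma mem_sec_self {L : FirstOrder.Language.{u, u}} {M : Type u} [L.Structure M] {β : Type}
    (γ : L.Formula (β ⊕ Fin 1)) (t : β ⊕ Fin 1 → M) :
    t (Sum.inr 0) ∈ sec γ (t ∘ Sum.inl) ↔ γ.Realize t := by
  unfold sec
  rw [Set.mem_ofPred_eq]
  apply iff_of_eq
  congr 1
  funext s
  rcases s with s | s
  · rfl
  · rw [Subsingleton.elim s 0]
    rfl

/-- The relation `r` depends only on the images in `RV`; this transfers. -/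
lemma rvRel_transfer {φ : Lval →ᴸ L} {K N : Type u} [Field K] [L.Structure K]
    {O : ValuationSubring K} (hK : IsValuedStr φ K O) [L.Structure N] (h : K ≅[L] N) [Field N]
    {O' : ValuationSubring N} (hN : IsValuedStr φ N O') {n : ℕ} (r : L.Relations n)
    (hr : ∀ x y : Fin n → K, (∀ i, rvEq O 1 (x i) (y i)) →
      (Structure.RelMap r x ↔ Structure.RelMap r y)) :
    ∀ x y : Fin n → N, (∀ i, rvEq O' 1 (x i) (y i)) →
      (Structure.RelMap r x ↔ Structure.RelMap r y) := by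
  let θ : L.Formula (Fin n ⊕ Fin n) :=
    (Formula.iInf fun i : Fin n => (fRv1 φ).relabel ![Sum.inl i, Sum.inr i]).imp
      ((r.formula fun i => Term.var (Sum.inl i)).iff (r.formula fun i => Term.var (Sum.inr i)))
  have key : ∀ (M : Type u) [Field M] [L.Structure M] (OM : ValuationSubring M)
      (_ : IsValuedStr φ M OM), (∀ v : Fin n ⊕ Fin n → M, θ.Realize v) ↔
      ∀ x y : Fin n → M, (∀ i, rvEq OM 1 (x i) (y i)) →
        (Structure.RelMap r x ↔ Structure.RelMap r y) := by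
    intro M _ _ OM hM
    have h0 : ∀ v : Fin n ⊕ Fin n → M, θ.Realize v ↔
        ((∀ i, rvEq OM 1 (v (Sum.inl i)) (v (Sum.inr i))) →
          (Structure.RelMap r (v ∘ Sum.inl) ↔ Structure.RelMap r (v ∘ Sum.inr))) := by
      intro v
      show (Formula.imp _ _).Realize v ↔ _
      rw [Formula.realize_imp, Formula.realize_iInf, Formula.realize_iff, Formula.realize_rel,
        Formula.realize_rel]
      refine imp_congr (forall_congr' fun i => ?_) Iff.rfl
      rw [Formula.realize_relabel, ← realize_fRv1 hM]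
      apply iff_of_eq
      congr 1
      funext k
      fin_cases k <;> rfl
    constructor
    · intro h x y
      exact (h0 (Sum.elim x y)).mp (h _)
    · intro h v
      rw [h0]
      exact h _ _
  rw [← key N O' hN, ← transfer h, key K O hK]
  exact hr

lemma isValuedStr_of_agree {N : Type u} [Field N] [L'.Structure N] {ON : ValuationSubring N}
    (s₁ : Str2 L' N) (hN2 : IsValuedStr (ι.comp φ) N ON)
    (hf : ∀ (n : ℕ) (f : L.Functions n) (x : Fin n → N),
        s₁.str.funMap (ι.onFunction f) x = Structure.funMap (ι.onFunction f) x)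
    (hr : ∀ (n : ℕ) (r : L.Relations n) (x : Fin n → N),
        s₁.str.RelMap (ι.onRelation r) x ↔ Structure.RelMap (ι.onRelation r) x) :
    @IsValuedStr L' (ι.comp φ) N _ s₁.str ON :=
  @IsValuedStr.mk L' (ι.comp φ) N _ s₁.str ON
    (fun x y => (hf 2 (φ.onFunction ValFun.add) ![x, y]).trans (hN2.add x y))
    (fun x y => (hf 2 (φ.onFunction ValFun.mul) ![x, y]).trans (hN2.mul x y))
    (fun x => (hr 1 (φ.onRelation ValRel.int) ![x]).trans (hN2.int x))

theorem core {K : Type u} [Field K] [L'.Structure K] {O : ValuationSubring K}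
    (hK : IsValuedStr (ι.comp φ) K O) (hO : O ≠ ⊤)
    (hfun : ∀ (n : ℕ) (f : L'.Functions n), ∃ f₀, f = ι.onFunction f₀)
    (hrel : ∀ (n : ℕ) (r : L'.Relations n), (∃ r₀, r = ι.onRelation r₀) ∨
      (∀ x y : Fin n → K, (∀ i, rvEq O 1 (x i) (y i)) →
        (Structure.RelMap r x ↔ Structure.RelMap r y)))
    {ell : ℕ∞} (hmin : HMin (ι.comp φ) ell K) {β : Type} [Finite β] (a : β → K) (c : K)
    (η : L'.Formula (β ⊕ Fin 1)) (hη : (sec η a).Finite) (hc : c ∈ sec η a) :
    ∃ χ : L.Formula (β ⊕ Fin 1), (sec (ι.onFormula χ) a).Finite ∧ c ∈ sec (ι.onFormula χ) a := by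
  classical
  by_contra hcon
  push Not at hcon
  let T : Set (L'.Formula (β ⊕ Fin 1)) :=
    {θ | ∃ χ : L.Formula (β ⊕ Fin 1), θ = ι.onFormula χ ∧ c ∈ sec (ι.onFormula χ) a} ∪
    {θ | ∃ ζ : L'.Formula (β ⊕ Fin 1), (sec ζ a).Finite ∧ θ = ζ.not}
  have hT : ∀ T₀ : Finset (L'.Formula (β ⊕ Fin 1)), (↑T₀ : Set (L'.Formula (β ⊕ Fin 1))) ⊆ T →
      ∃ w : Fin 1 → K, ∀ θ ∈ T₀, θ.Realize (Sum.elim a w) := by
    intro T₀ hT₀
    -- the conjunction of the positive part
    have h1 : ∃ χ : L.Formula (β ⊕ Fin 1), c ∈ sec (ι.onFormula χ) a ∧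
        ∀ θ ∈ T₀, (∃ χ' : L.Formula (β ⊕ Fin 1), θ = ι.onFormula χ' ∧
          c ∈ sec (ι.onFormula χ') a) → sec (ι.onFormula χ) a ⊆ sec θ a := by
      clear hT₀
      induction T₀ using Finset.induction_on with
      | empty =>
        refine ⟨⊤, ?_, by simp⟩
        exact id
      | insert θ₀ T₀ _ ih =>
        obtain ⟨χ, h1, h2⟩ := ih
        by_cases h : ∃ χ' : L.Formula (β ⊕ Fin 1), θ₀ = ι.onFormula χ' ∧
          c ∈ sec (ι.onFormula χ') a
        · obtain ⟨χ', rfl, h3⟩ := h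
          have h4 : ∀ y, y ∈ sec (ι.onFormula (χ ⊓ χ')) a ↔
              y ∈ sec (ι.onFormula χ) a ∧ y ∈ sec (ι.onFormula χ') a := by
            intro y
            have : ι.onFormula (χ ⊓ χ') = ι.onFormula χ ⊓ ι.onFormula χ' := rfl
            unfold sec
            rw [Set.mem_ofPred_eq, Set.mem_ofPred_eq, Set.mem_ofPred_eq, this,
              Formula.realize_inf]
          refine ⟨χ ⊓ χ', (h4 c).mpr ⟨h1, h3⟩, fun θ hθ hθ' y hy => ?_⟩
          have hy' := (h4 y).mp hy
          rcases Finset.mem_insert.mp hθ with rfl | hθ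
          · exact hy'.2
          · exact h2 θ hθ hθ' hy'.1
        · refine ⟨χ, h1, fun θ hθ hθ' => ?_⟩
          rcases Finset.mem_insert.mp hθ with rfl | hθ
          · exact absurd hθ' h
          · exact h2 θ hθ hθ'
    obtain ⟨χ, hχ1, hχ2⟩ := h1
    have h2 : ¬ (sec (ι.onFormula χ) a).Finite := fun h => hcon χ h hχ1
    have h3 : (⋃ θ ∈ T₀, {y : K | ∃ ζ : L'.Formula (β ⊕ Fin 1), (sec ζ a).Finite ∧ θ = ζ.not ∧
        y ∈ sec ζ a}).Finite := by
      refine Set.Finite.biUnion (Finset.finite_toSet T₀) fun θ _ => ?_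
      by_cases h : ∃ ζ : L'.Formula (β ⊕ Fin 1), (sec ζ a).Finite ∧ θ = ζ.not
      · obtain ⟨ζ, hζ, rfl⟩ := h
        refine hζ.subset fun y hy => ?_
        obtain ⟨ζ', hζ', he, hy'⟩ := hy
        by_contra hy2
        have h4 : (ζ'.not).Realize (Sum.elim a fun _ => y) := by
          rw [← he, Formula.realize_not]
          exact hy2
        rw [Formula.realize_not] at h4
        exact h4 hy'
      · refine Set.finite_empty.subset fun y hy => ?_
        obtain ⟨ζ', hζ', he, hy'⟩ := hy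
        exact h ⟨ζ', hζ', he⟩
    obtain ⟨y, hy1, hy2⟩ := (Set.Infinite.sdiff h2 h3).nonempty
    refine ⟨fun _ => y, fun θ hθ => ?_⟩
    rcases hT₀ hθ with h | h
    · exact hχ2 θ hθ h hy1
    · obtain ⟨ζ, hζ, rfl⟩ := h
      rw [Formula.realize_not]
      intro h4
      apply hy2
      simp only [Set.mem_iUnion]
      exact ⟨ζ.not, hθ, ζ, hζ, rfl, h4⟩
  obtain ⟨K₃, s3, j, w, hw⟩ := exists_realize0 a T hT
  have hagree : ∀ χ : L.Formula (β ⊕ Fin 1), (ι.onFormula χ).Realize (Sum.elim a (fun _ => c)) ↔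
      (ι.onFormula χ).Realize (Sum.elim (j ∘ a) w) := by
    intro χ
    constructor
    · intro h
      exact hw _ (Or.inl ⟨χ, rfl, h⟩)
    · intro h
      by_contra h'
      have h1 := hw (ι.onFormula χ.not) (Or.inl ⟨χ.not, rfl, h'⟩)
      exact h1 h
  have : Nonempty K₃ := ⟨j 0⟩
  obtain ⟨N, s₁, s₂, t, hf, hr, ht1, ht2⟩ := robinson0 ι ι (A := K) (B := K₃)
    (Sum.elim a (fun _ => c)) (Sum.elim (j ∘ a) w) hagree
  have heq2 : K ≅[L'] N := j.elementarilyEquivalent.trans (equiv_of_type ht2).symm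
  have heq1 : @ElementarilyEquivalent L' K N _ s₁.str :=
    @equiv_of_type_symm L' N K s₁.str _ _ _ _ ht1
  obtain ⟨fN, ON, hN2⟩ := exists_field hK heq2
  have hN1 : @IsValuedStr L' (ι.comp φ) N _ s₁.str ON := isValuedStr_of_agree s₁ hN2 hf hr
  have hON : ON ≠ ⊤ := isInt_transfer hK hO heq2 hN2
  have hminN : HMin (ι.comp φ) ell N := hmin.congr heq2
  have hD := ef hN2 hminN s₁ (fun n f x => by
      obtain ⟨f₀, rfl⟩ := hfun n f
      exact hf n f₀ x) (fun n r => by
      rcases hrel n r with ⟨r₀, rfl⟩ | h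
      · exact Or.inl (hr n r₀)
      · exact Or.inr (@rvRel_transfer L' (ι.comp φ) K N _ _ O hK s₁.str heq1 _ ON hN1 n r h))
    (α := β ⊕ Fin 1) (n := 0) η
  have hD' := RVdet.reindex (Sum.elim id Fin.elim0 : (β ⊕ Fin 1) ⊕ Fin 0 → β ⊕ Fin 1) hD
  have hD'' : RVdet L' ON {v : β ⊕ Fin 1 → N | @Formula.Realize L' N s₁.str _ η v} := by
    convert hD' using 1
    ext v
    show @BoundedFormula.Realize L' N s₁.str _ 0 η v default ↔
      @BoundedFormula.Realize L' N s₁.str _ 0 η
        ((v ∘ (Sum.elim id Fin.elim0 : (β ⊕ Fin 1) ⊕ Fin 0 → β ⊕ Fin 1)) ∘ Sum.inl)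
        ((v ∘ (Sum.elim id Fin.elim0 : (β ⊕ Fin 1) ⊕ Fin 0 → β ⊕ Fin 1)) ∘ Sum.inr)
    have h1 : (default : Fin 0 → N) =
        ((v ∘ (Sum.elim id Fin.elim0 : (β ⊕ Fin 1) ⊕ Fin 0 → β ⊕ Fin 1)) ∘ Sum.inr) :=
      Subsingleton.elim _ _
    rw [← h1]
    rfl
  have h1 : (@sec L' N s₁.str β η (t ∘ Sum.inl)).encard = (sec η a).encard :=
    @encard_sec_congr' L' N K s₁.str _ β η t (Sum.elim a (fun _ => c)) ht1
  have h2 : (@sec L' N s₁.str β η (t ∘ Sum.inl)).Finite := by
    rw [← Set.encard_lt_top_iff, h1, Set.encard_lt_top_iff]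
    exact hη
  have h3 : t (Sum.inr 0) ∈ @sec L' N s₁.str β η (t ∘ Sum.inl) := by
    refine (@mem_sec_self L' N s₁.str β η t).mpr ?_
    exact (ht1 η).mpr hc
  obtain ⟨χ, hχ1, hχ2⟩ := acl_lemma hN2 hminN hON hD'' (t ∘ Sum.inl) h2
  have h4 : χ.Realize t := (mem_sec_self χ t).mp (hχ2 h3)
  have h5 : (sec χ (j ∘ a)).encard = (sec χ (t ∘ Sum.inl)).encard :=
    encard_sec_congr' χ (Sum.elim (j ∘ a) w) t fun θ => (ht2 θ).symm
  have h6 : (sec χ a).encard = (sec χ (j ∘ a)).encard :=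
    encard_sec_congr χ a (j ∘ a) fun k => (j.map_formula _ _).symm
  have h7 : (sec χ a).Finite := by
    rw [← Set.encard_lt_top_iff, h6, h5, Set.encard_lt_top_iff]
    exact hχ1
  have h8 := hw χ.not (Or.inr ⟨χ, h7, rfl⟩)
  rw [Formula.realize_not] at h8
  exact h8 ((ht2 χ).mp h4)

end core

end Pool.Agent.H78.HM
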