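import Mathlib

/-!
# Some general model theory

Realization of types in elementary extensions, elementary amalgamation over a reduct, elementary
chains, and the Robinson joint consistency theorem in a semantic form.
-/

set_option autoImplicit false
set_option linter.style.haveILetI false

universe u

open FirstOrder FirstOrder.Language Filter

namespace Pool.Agent.H78.MT

section types

variable {L : FirstOrder.Language.{u, u}}

/-- Finitely satisfiable sets of formulas (with parameters from the structure) are realized in an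
elementary extension. -/
theorem exists_realize {M : Type u} [L.Structure M] [Nonempty M] {δ β : Type u} (v₀ : δ → M)
    (T : Set (L.Formula (δ ⊕ β)))
    (hT : ∀ T₀ : Finset (L.Formula (δ ⊕ β)), (↑T₀ : Set (L.Formula (δ ⊕ β))) ⊆ T →
      ∃ w : β → M, ∀ θ ∈ T₀, θ.Realize (Sum.elim v₀ w)) :
    ∃ (N : Type u) (_ : L.Structure N) (j : M ↪ₑ[L] N) (w : β → N),
      ∀ θ ∈ T, θ.Realize (Sum.elim (j ∘ v₀) w) := by
  classical
  let I : Type u := {T₀ : Finset (L.Formula (δ ⊕ β)) // (↑T₀ : Set (L.Formula (δ ⊕ β))) ⊆ T}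
  have hne : Nonempty I := ⟨⟨∅, by simp⟩⟩
  have hdir : IsDirectedOrder I := ⟨fun a b => ⟨⟨a.1 ∪ b.1, by
    rw [Finset.coe_union]; exact Set.union_subset a.2 b.2⟩,
    Finset.subset_union_left, Finset.subset_union_right⟩⟩
  let U : Ultrafilter I := Ultrafilter.of atTop
  have hU : (U : Filter I) ≤ atTop := Ultrafilter.of_le _
  choose w hw using fun i : I => hT i.1 i.2
  let N : Type u := (U : Filter I).Product (fun _ => M)
  let d : M → N := fun m => ((fun _ => m : I → M) : (U : Filter I).Product (fun _ => M))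
  refine ⟨N, inferInstanceAs (L.Structure ((U : Filter I).Product (fun _ => M))), ⟨d, ?_⟩,
    fun b => ((fun i => w i b : I → M) : (U : Filter I).Product (fun _ => M)), ?_⟩
  · intro n φ x
    have := Ultraproduct.realize_formula_cast (u := U) (M := fun _ : I => M) φ
      (fun i _ => x i)
    refine this.trans ?_
    simp
  · intro θ hθ
    have h1 := Ultraproduct.realize_formula_cast (u := U) (M := fun _ : I => M) θ
      (fun s i => Sum.elim v₀ (w i) s)
    have h2 : ∀ᶠ i : I in U, θ.Realize (Sum.elim v₀ (w i)) := by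
      apply hU
      rw [Filter.mem_atTop_sets]
      refine ⟨⟨{θ}, by simpa using hθ⟩, fun i hi => ?_⟩
      exact hw i θ (hi (Finset.mem_singleton_self θ))
    have h3 := h1.mpr h2
    have e : (Sum.elim (d ∘ v₀)
        (fun b => ((fun i => w i b : I → M) : (U : Filter I).Product (fun _ => M)))) =
        fun s : δ ⊕ β => ((fun i => Sum.elim v₀ (w i) s : I → M) :
          (U : Filter I).Product (fun _ => M)) := by
      funext s
      rcases s with s | s <;> rfl
    exact (congrArg θ.Realize e).mpr h3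

/-- Every formula only depends on finitely many variables. -/
lemma exists_restrict {B : Type u} (θ : L.Formula B) :
    ∃ (s : Finset B) (θ' : L.Formula s), ∀ (M : Type u) [L.Structure M] (v : B → M),
      θ'.Realize (fun x : s => v x) ↔ θ.Realize v := by
  classical
  refine ⟨θ.freeVarFinset, θ.restrictFreeVar id, fun M _ v => ?_⟩
  exact BoundedFormula.realize_restrictFreeVar (φ := θ) (f := id) v (by simp)

end types

section agree

variable {L L₁ L₂ : FirstOrder.Language.{u, u}}

/-- The tuples `a` (in an `L₁`-structure) and `b` (in an `L₂`-structure) have the same `L`-type. -/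
def Agree (φ₁ : L →ᴸ L₁) (φ₂ : L →ᴸ L₂) {A B δ : Type u} [L₁.Structure A] [L₂.Structure B]
    (a : δ → A) (b : δ → B) : Prop :=
  ∀ θ : L.Formula δ, (φ₁.onFormula θ).Realize a ↔ (φ₂.onFormula θ).Realize b

lemma realize_onFormula' (φ₁ : L →ᴸ L₁) {A : Type u} [L₁.Structure A] {δ : Type u}
    (θ : L.Formula δ) (a : δ → A) :
    (φ₁.onFormula θ).Realize a ↔ @Formula.Realize L A (φ₁.reduct A) δ θ a := by
  letI := φ₁.reduct A
  haveI := φ₁.isExpansionOn_reduct A
  exact LHom.realize_onFormula φ₁ θ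

lemma agree_iff {φ₁ : L →ᴸ L₁} {φ₂ : L →ᴸ L₂} {A B δ : Type u} [L₁.Structure A]
    [L₂.Structure B] {a : δ → A} {b : δ → B} :
    Agree φ₁ φ₂ a b ↔ ∀ θ : L.Formula δ, @Formula.Realize L A (φ₁.reduct A) δ θ a ↔
      @Formula.Realize L B (φ₂.reduct B) δ θ b := by
  simp only [Agree, realize_onFormula']

lemma Agree.reindex {φ₁ : L →ᴸ L₁} {φ₂ : L →ᴸ L₂} {A B δ γ : Type u} [L₁.Structure A]
    [L₂.Structure B] {a : δ → A} {b : δ → B} (h : Agree φ₁ φ₂ a b) (f : γ → δ) :
    Agree φ₁ φ₂ (a ∘ f) (b ∘ f) := by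
  rw [agree_iff] at h ⊢
  intro θ
  letI := φ₁.reduct A
  letI := φ₂.reduct B
  have := h (θ.relabel f)
  rwa [Formula.realize_relabel, Formula.realize_relabel] at this

lemma Agree.symm {φ₁ : L →ᴸ L₁} {φ₂ : L →ᴸ L₂} {A B δ : Type u} [L₁.Structure A]
    [L₂.Structure B] {a : δ → A} {b : δ → B} (h : Agree φ₁ φ₂ a b) : Agree φ₂ φ₁ b a :=
  fun θ => (h θ).symm

/-- Elementary amalgamation over a common reduct. -/
theorem amalgam (φ₁ : L →ᴸ L₁) (φ₂ : L →ᴸ L₂) {A B δ : Type u} [L₁.Structure A]
    [L₂.Structure B] [Nonempty A] (a : δ → A) (b : δ → B) (h : Agree φ₁ φ₂ a b) :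
    ∃ (A' : Type u) (_ : L₁.Structure A') (j : A ↪ₑ[L₁] A') (g : B → A'),
      Agree φ₁ φ₂ g (id : B → B) ∧ ∀ d, g (b d) = j (a d) := by
  classical
  rw [agree_iff] at h
  letI iA := φ₁.reduct A
  letI iB := φ₂.reduct B
  haveI := φ₁.isExpansionOn_reduct A
  let T : Set (L₁.Formula (δ ⊕ B)) :=
    {η | ∃ θ : L.Formula B, @Formula.Realize L B iB B θ id ∧
      η = φ₁.onFormula (θ.relabel (Sum.inr : B → δ ⊕ B))} ∪
    {η | ∃ d : δ, η = (Term.var (Sum.inl d : δ ⊕ B)).equal (Term.var (Sum.inr (b d)))}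
  obtain ⟨N, iN, j, w, hw⟩ := exists_realize (L := L₁) a T (by
    intro T₀ hT₀
    -- choose for each element of T₀ of the first kind a formula
    have hch : ∀ η : L₁.Formula (δ ⊕ B), ∃ θ : L.Formula B, @Formula.Realize L B iB B θ id ∧
        ((∃ θ : L.Formula B, @Formula.Realize L B iB B θ id ∧
          η = φ₁.onFormula (θ.relabel (Sum.inr : B → δ ⊕ B))) →
          η = φ₁.onFormula (θ.relabel (Sum.inr : B → δ ⊕ B))) := by
      intro η
      by_cases hη : ∃ θ : L.Formula B, @Formula.Realize L B iB B θ id ∧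
          η = φ₁.onFormula (θ.relabel (Sum.inr : B → δ ⊕ B))
      · obtain ⟨θ, h1, h2⟩ := hη
        exact ⟨θ, h1, fun _ => h2⟩
      · exact ⟨⊤, Formula.realize_top.mpr trivial, fun h => absurd h hη⟩
    choose Θ hΘ1 hΘ2 using hch
    have hcd : ∀ η : L₁.Formula (δ ⊕ B), ∃ D : Finset δ,
        (∃ d : δ, η = (Term.var (Sum.inl d : δ ⊕ B)).equal (Term.var (Sum.inr (b d)))) →
        ∃ d ∈ D, η = (Term.var (Sum.inl d : δ ⊕ B)).equal (Term.var (Sum.inr (b d))) := by
      intro η
      by_cases hη : ∃ d : δ, η = (Term.var (Sum.inl d : δ ⊕ B)).equal (Term.var (Sum.inr (b d)))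
      · obtain ⟨d, hd⟩ := hη
        exact ⟨{d}, fun _ => ⟨d, Finset.mem_singleton_self d, hd⟩⟩
      · exact ⟨∅, fun h => absurd h hη⟩
    choose D hD using hcd
    let D₀ : Finset δ := T₀.biUnion D
    -- the conjunction
    let θ : L.Formula B := Formula.iInf (fun η : T₀ => Θ η)
    have hθ : @Formula.Realize L B iB B θ id := by
      rw [Formula.realize_iInf]
      intro η
      exact hΘ1 η
    obtain ⟨s, θ', hθ'⟩ := exists_restrict θ
    let s' : Finset B := s ∪ D₀.image b
    have hs : s ⊆ s' := Finset.subset_union_left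
    let θ'' : L.Formula (δ ⊕ s') := θ'.relabel (fun x : s => Sum.inr ⟨x.1, hs x.2⟩)
    let eqs : L.Formula (δ ⊕ s') := Formula.iInf (fun d : D₀ =>
      (Term.var (Sum.inl d.1 : δ ⊕ s')).equal (Term.var (Sum.inr ⟨b d.1,
        Finset.mem_union_right _ (Finset.mem_image_of_mem b d.2)⟩)))
    have key : @Formula.Realize L B iB δ ((θ'' ⊓ eqs).iExs s') b := by
      rw [Formula.realize_iExs]
      refine ⟨fun x => x.1, ?_⟩
      rw [Formula.realize_inf]
      constructor
      · rw [Formula.realize_relabel]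
        have := (hθ' B (id : B → B)).mpr hθ
        exact this
      · rw [Formula.realize_iInf]
        intro d
        rw [Formula.realize_equal]
        rfl
    rw [← h] at key
    rw [Formula.realize_iExs] at key
    obtain ⟨w, hw⟩ := key
    rw [Formula.realize_inf] at hw
    let w' : B → A := fun x => if hx : x ∈ s' then w ⟨x, hx⟩ else Classical.arbitrary A
    refine ⟨w', fun η hη => ?_⟩
    rcases hT₀ hη with h1 | h1
    · have h2 := hΘ2 η h1
      rw [h2, LHom.realize_onFormula, Formula.realize_relabel]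
      have h3 : (Sum.elim a w' ∘ Sum.inr) = w' := rfl
      rw [h3]
      have h4 : θ.Realize w' := by
        rw [← hθ' A w']
        have h5 := hw.1
        rw [Formula.realize_relabel] at h5
        convert h5 using 1
        funext x
        simp only [Function.comp_apply, Sum.elim_inr, w']
        rw [dif_pos (hs x.2)]
      rw [Formula.realize_iInf] at h4
      exact h4 ⟨η, hη⟩
    · obtain ⟨d, hd, h2⟩ := hD η h1
      rw [h2, Formula.realize_equal]
      have hd0 : d ∈ D₀ := Finset.mem_biUnion.mpr ⟨η, hη, hd⟩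
      have h5 := hw.2
      rw [Formula.realize_iInf] at h5
      have h6 := h5 ⟨d, hd0⟩
      rw [Formula.realize_equal] at h6
      simp only [Term.realize_var, Sum.elim_inl, Sum.elim_inr, w'] at h6 ⊢
      rw [dif_pos (Finset.mem_union_right _ (Finset.mem_image_of_mem b hd0))]
      exact h6)
  refine ⟨N, iN, j, w, ?_, ?_⟩
  · rw [agree_iff]
    letI := φ₁.reduct N
    haveI := φ₁.isExpansionOn_reduct N
    have h1 : ∀ θ : L.Formula B, @Formula.Realize L B iB B θ id → θ.Realize w := by
      intro θ hθ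
      have := hw _ (Or.inl ⟨θ, hθ, rfl⟩)
      rw [LHom.realize_onFormula, Formula.realize_relabel] at this
      exact this
    intro θ
    refine ⟨fun h2 => ?_, h1 θ⟩
    by_contra h3
    have := h1 θ.not (by rwa [Formula.realize_not])
    rw [Formula.realize_not] at this
    exact this h2
  · intro d
    have := hw _ (Or.inr ⟨d, rfl⟩)
    rw [Formula.realize_equal] at this
    exact this.symm

end agree

section chain

variable {L : FirstOrder.Language.{u, u}} {G : ℕ → Type u} [∀ i, L.Structure (G i)]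
  (f : ∀ n, G n ↪ₑ[L] G (n + 1))

/-- The directed system of a chain of elementary embeddings. -/
def sys : ∀ i j, i ≤ j → G i ↪[L] G j :=
  DirectedSystem.natLERec fun n => (f n).toEmbedding

instance : DirectedSystem G fun i j h => sys f i j h :=
  DirectedSystem.natLERec.directedSystem _

lemma sys_self (i : ℕ) (x : G i) : sys f i i le_rfl x = x :=
  DirectedSystem.map_self' (f := fun i j h => sys f i j h) x

lemma sys_succ (i j : ℕ) (h : i ≤ j) (x : G i) :
    sys f i (j + 1) (h.trans (Nat.le_succ j)) x = f j (sys f i j h x) := by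
  unfold sys
  rw [DirectedSystem.coe_natLERec, DirectedSystem.coe_natLERec]
  exact Nat.leRecOn_succ h x

lemma sys_elem {α : Type u} (i j : ℕ) (h : i ≤ j) (φ : L.Formula α) (v : α → G i) :
    φ.Realize (sys f i j h ∘ v) ↔ φ.Realize v := by
  induction j, h using Nat.le_induction with
  | base =>
    have : sys f i i le_rfl ∘ v = v := funext fun a => sys_self f i (v a)
    rw [this]
  | succ j h ih =>
    have : sys f i (j + 1) (h.trans (Nat.le_succ j)) ∘ v = f j ∘ (sys f i j h ∘ v) :=
      funext fun a => sys_succ f i j h (v a)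
    rw [this, (f j).map_formula, ih]

lemma sys_elem' {α : Type*} {n : ℕ} (i j : ℕ) (h : i ≤ j) (φ : L.BoundedFormula α n)
    (v : α → G i) (xs : Fin n → G i) :
    φ.Realize (sys f i j h ∘ v) (sys f i j h ∘ xs) ↔ φ.Realize v xs := by
  induction j, h using Nat.le_induction with
  | base =>
    have h1 : sys f i i le_rfl ∘ v = v := funext fun a => sys_self f i (v a)
    have h2 : sys f i i le_rfl ∘ xs = xs := funext fun a => sys_self f i (xs a)
    rw [h1, h2]
  | succ j h ih =>
    have h1 : sys f i (j + 1) (h.trans (Nat.le_succ j)) ∘ v = f j ∘ (sys f i j h ∘ v) :=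
      funext fun a => sys_succ f i j h (v a)
    have h2 : sys f i (j + 1) (h.trans (Nat.le_succ j)) ∘ xs = f j ∘ (sys f i j h ∘ xs) :=
      funext fun a => sys_succ f i j h (xs a)
    rw [h1, h2, (f j).map_boundedFormula, ih]

/-- The limit of an elementary chain. -/
abbrev Lim : Type u := FirstOrder.Language.DirectLimit G (sys f)

/-- The canonical maps to the limit. -/
noncomputable def toLim (i : ℕ) : G i ↪[L] Lim f := FirstOrder.Language.DirectLimit.of L ℕ G (sys f) i

lemma toLim_sys (i j : ℕ) (h : i ≤ j) (x : G i) : toLim f j (sys f i j h x) = toLim f i x :=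
  FirstOrder.Language.DirectLimit.of_f

lemma toLim_succ (i : ℕ) (x : G i) : toLim f (i + 1) (f i x) = toLim f i x := by
  have := sys_succ f i i le_rfl x
  rw [sys_self] at this
  rw [← this, toLim_sys]

lemma exists_toLim (z : Lim f) : ∃ i x, toLim f i x = z := FirstOrder.Language.DirectLimit.exists_of z

lemma exists_toLim_ge (n : ℕ) (z : Lim f) : ∃ i, n ≤ i ∧ ∃ x, toLim f i x = z := by
  obtain ⟨i, x, rfl⟩ := exists_toLim f z
  refine ⟨max n i, le_max_left _ _, sys f i _ (le_max_right _ _) x, toLim_sys f _ _ _ _⟩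

lemma exists_toLim_finite {α : Type*} [Finite α] (z : α → Lim f) :
    ∃ i, ∃ x : α → G i, z = fun a => toLim f i (x a) :=
  FirstOrder.Language.DirectLimit.exists_quotient_mk'_sigma_mk'_eq G (sys f) z

/-- Union of elementary chains. -/
theorem lim_elem {α : Type*} {n : ℕ} (φ : L.BoundedFormula α n) (i : ℕ) (v : α → G i)
    (xs : Fin n → G i) :
    φ.Realize (toLim f i ∘ v) (toLim f i ∘ xs) ↔ φ.Realize v xs := by
  induction φ generalizing i with
  | falsum => exact Iff.rfl
  | equal t₁ t₂ =>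
    simp only [BoundedFormula.Realize]
    rw [← Sum.comp_elim, HomClass.realize_term, HomClass.realize_term]
    exact (toLim f i).injective.eq_iff
  | rel R ts =>
    simp only [BoundedFormula.Realize]
    rw [← Sum.comp_elim]
    simp only [HomClass.realize_term]
    exact (toLim f i).map_rel R _
  | imp φ ψ h1 h2 =>
    simp only [BoundedFormula.Realize]
    rw [h1, h2]
  | all φ ih =>
    simp only [BoundedFormula.Realize]
    constructor
    · intro h x
      have := h (toLim f i x)
      rw [← Fin.comp_snoc, ih] at this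
      exact this
    · intro h z
      obtain ⟨j, hij, x, rfl⟩ := exists_toLim_ge f i z
      have h1 : toLim f i ∘ v = toLim f j ∘ (sys f i j hij ∘ v) :=
        funext fun a => (toLim_sys f i j hij (v a)).symm
      have h2 : toLim f i ∘ xs = toLim f j ∘ (sys f i j hij ∘ xs) :=
        funext fun a => (toLim_sys f i j hij (xs a)).symm
      rw [h1, h2, ← Fin.comp_snoc, ih]
      have h3 : φ.all.Realize v xs := h
      rw [← sys_elem' f i j hij] at h3
      exact h3 x

/-- The canonical maps to the limit are elementary. -/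
noncomputable def toLimElem (i : ℕ) : G i ↪ₑ[L] Lim f :=
  ⟨toLim f i, fun n φ x => by
    have := lim_elem f φ i x default
    rw [Formula.Realize, Formula.Realize, ← this]
    exact iff_of_eq (congrArg _ (Subsingleton.elim _ _))⟩

lemma toLimElem_apply (i : ℕ) (x : G i) : toLimElem f i x = toLim f i x := rfl

end chain

section robinson

variable {L L₁ L₂ : FirstOrder.Language.{u, u}} (φ₁ : L →ᴸ L₁) (φ₂ : L →ᴸ L₂)

/-- A stage of the alternating chain. -/
structure Stage where
  A : Type u
  sA : L₁.Structure A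
  neA : Nonempty A
  B : Type u
  sB : L₂.Structure B
  neB : Nonempty B
  g : B → A
  hg : Agree φ₁ φ₂ g (id : B → B)

attribute [instance] Stage.sA Stage.sB Stage.neA Stage.neB

variable {φ₁ φ₂}

/-- A next stage. -/
structure Next (S : Stage φ₁ φ₂) where
  S' : Stage φ₁ φ₂
  jA : S.A ↪ₑ[L₁] S'.A
  jB : S.B ↪ₑ[L₂] S'.B
  comm : ∀ x : S.B, S'.g (jB x) = jA (S.g x)
  surj : ∀ a : S.A, ∃ b : S'.B, S'.g b = jA a

lemma exists_next (S : Stage φ₁ φ₂) : Nonempty (Next S) := by
  obtain ⟨B', sB', jB, h, hh, hcomm⟩ := amalgam φ₂ φ₁ (id : S.B → S.B) S.g S.hg.symm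
  have neB' : Nonempty B' := ⟨jB (Classical.arbitrary S.B)⟩
  obtain ⟨A', sA', jA, g', hg', hcomm'⟩ := amalgam φ₁ φ₂ (id : S.A → S.A) h hh.symm
  have neA' : Nonempty A' := ⟨jA (Classical.arbitrary S.A)⟩
  refine ⟨⟨⟨A', sA', neA', B', sB', neB', g', hg'⟩, jA, jB, ?_, ?_⟩⟩
  · intro x
    have h1 : jB x = h (S.g x) := (hcomm x).symm
    show g' (jB x) = jA (S.g x)
    rw [h1]
    exact hcomm' (S.g x)
  · intro a
    exact ⟨h a, hcomm' a⟩

/-- A chosen next stage. -/
noncomputable def nx (S : Stage φ₁ φ₂) : Next S := Classical.choice (exists_next S)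

/-- The sequence of stages. -/
noncomputable def stg (S₀ : Stage φ₁ φ₂) : ℕ → Stage φ₁ φ₂
  | 0 => S₀
  | n + 1 => (nx (stg S₀ n)).S'

variable (S₀ : Stage φ₁ φ₂)

/-- The chain on the `A`-side. -/
noncomputable def cA (n : ℕ) : (stg S₀ n).A ↪ₑ[L₁] (stg S₀ (n + 1)).A := (nx (stg S₀ n)).jA

/-- The chain on the `B`-side. -/
noncomputable def cB (n : ℕ) : (stg S₀ n).B ↪ₑ[L₂] (stg S₀ (n + 1)).B := (nx (stg S₀ n)).jB

lemma c_comm (n : ℕ) (x : (stg S₀ n).B) :
    (stg S₀ (n + 1)).g (cB S₀ n x) = cA S₀ n ((stg S₀ n).g x) := (nx (stg S₀ n)).comm x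

lemma c_surj (n : ℕ) (a : (stg S₀ n).A) : ∃ b, (stg S₀ (n + 1)).g b = cA S₀ n a :=
  (nx (stg S₀ n)).surj a

lemma sys_comm (i j : ℕ) (h : i ≤ j) (x : (stg S₀ i).B) :
    (stg S₀ j).g (sys (cB S₀) i j h x) = sys (cA S₀) i j h ((stg S₀ i).g x) := by
  induction j, h using Nat.le_induction with
  | base => rw [sys_self, sys_self]
  | succ j h ih => rw [sys_succ _ i j h, sys_succ _ i j h, c_comm, ih]

/-- The limit map. -/
noncomputable def limG (z : Lim (cB S₀)) : Lim (cA S₀) :=
  toLim (cA S₀) (exists_toLim (cB S₀) z).choose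
    ((stg S₀ _).g (exists_toLim (cB S₀) z).choose_spec.choose)

lemma limG_toLim (i : ℕ) (x : (stg S₀ i).B) :
    limG S₀ (toLim (cB S₀) i x) = toLim (cA S₀) i ((stg S₀ i).g x) := by
  have hz := (exists_toLim (cB S₀) (toLim (cB S₀) i x)).choose_spec.choose_spec
  unfold limG
  set k := (exists_toLim (cB S₀) (toLim (cB S₀) i x)).choose with hk
  set y := (exists_toLim (cB S₀) (toLim (cB S₀) i x)).choose_spec.choose with hy
  set m := max k i with hm
  have h1 : sys (cB S₀) k m (le_max_left _ _) y = sys (cB S₀) i m (le_max_right _ _) x := by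
    apply (toLim (cB S₀) m).injective
    rw [toLim_sys, toLim_sys]
    exact hz
  rw [← toLim_sys (cA S₀) k m (le_max_left _ _), ← toLim_sys (cA S₀) i m (le_max_right _ _),
    ← sys_comm, ← sys_comm, h1]

lemma limG_surj : Function.Surjective (limG S₀) := by
  intro a
  obtain ⟨i, x, rfl⟩ := exists_toLim (cA S₀) a
  obtain ⟨b, hb⟩ := c_surj S₀ i x
  refine ⟨toLim (cB S₀) (i + 1) b, ?_⟩
  rw [limG_toLim, hb]
  exact toLim_succ (cA S₀) i x

lemma limG_agree : Agree φ₁ φ₂ (limG S₀) (id : Lim (cB S₀) → Lim (cB S₀)) := by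
  rw [agree_iff]
  intro θ
  obtain ⟨s, θ', hθ'⟩ := exists_restrict θ
  have h1 := @hθ' (Lim (cA S₀)) (φ₁.reduct _) (limG S₀)
  have h2 := @hθ' (Lim (cB S₀)) (φ₂.reduct _) id
  rw [← h1, ← h2, ← realize_onFormula', ← realize_onFormula']
  obtain ⟨i, x, hx⟩ := exists_toLim_finite (cB S₀) (fun a : s => (a : Lim (cB S₀)))
  have e2 : (fun x : s => (id (x : Lim (cB S₀)) : Lim (cB S₀))) = toLimElem (cB S₀) i ∘ x := hx
  have e1 : (fun x : s => limG S₀ (x : Lim (cB S₀))) =
      toLimElem (cA S₀) i ∘ ((stg S₀ i).g ∘ x) := by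
    funext a
    have := congrFun hx a
    have h3 : (a : Lim (cB S₀)) = toLim (cB S₀) i (x a) := this
    rw [h3, limG_toLim]
    rfl
  rw [e1, e2, (toLimElem (cB S₀) i).map_formula, (toLimElem (cA S₀) i).map_formula]
  exact ((stg S₀ i).hg.reindex x) θ'

lemma limG_inj : Function.Injective (limG S₀) := by
  intro x y hxy
  letI iA : L.Structure (Lim (cA S₀)) := φ₁.reduct _
  letI iB : L.Structure (Lim (cB S₀)) := φ₂.reduct _
  have h := (agree_iff.mp (limG_agree S₀)) ((Term.var x).equal (Term.var y))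
  rw [Formula.realize_equal, Formula.realize_equal] at h
  exact h.mp hxy

/-- **Robinson's joint consistency theorem** (semantic form). -/
theorem robinson (φ₁ : L →ᴸ L₁) (φ₂ : L →ᴸ L₂) {A B δ : Type u} [L₁.Structure A]
    [L₂.Structure B] [Nonempty A] [Nonempty B] (a : δ → A) (b : δ → B)
    (h : Agree φ₁ φ₂ a b) :
    ∃ (N : Type u) (s₁ : L₁.Structure N) (s₂ : L₂.Structure N) (c : δ → N),
      (∀ (n : ℕ) (f : L.Functions n) (x : Fin n → N),
        s₁.funMap (φ₁.onFunction f) x = s₂.funMap (φ₂.onFunction f) x) ∧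
      (∀ (n : ℕ) (r : L.Relations n) (x : Fin n → N),
        s₁.RelMap (φ₁.onRelation r) x ↔ s₂.RelMap (φ₂.onRelation r) x) ∧
      (∀ θ : L₁.Formula δ, θ.Realize c ↔ θ.Realize a) ∧
      (∀ θ : L₂.Formula δ, θ.Realize c ↔ θ.Realize b) := by
  obtain ⟨A', sA', jA, g, hg, hcomm⟩ := amalgam φ₁ φ₂ a b h
  have neA' : Nonempty A' := ⟨jA (Classical.arbitrary A)⟩
  let S₀ : Stage φ₁ φ₂ := ⟨A', sA', neA', B, inferInstance, inferInstance, g, hg⟩
  let e : Lim (cB S₀) ≃ Lim (cA S₀) := Equiv.ofBijective (limG S₀) ⟨limG_inj S₀, limG_surj S₀⟩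
  let s₁ : L₁.Structure (Lim (cA S₀)) := inferInstance
  let s₂ : L₂.Structure (Lim (cA S₀)) := e.inducedStructure
  letI iA : L.Structure (Lim (cA S₀)) := φ₁.reduct _
  letI iB : L.Structure (Lim (cB S₀)) := φ₂.reduct _
  have hag := agree_iff.mp (limG_agree S₀)
  let a' : δ → (stg S₀ 0).A := fun d => jA (a d)
  let b' : δ → (stg S₀ 0).B := b
  let c : δ → Lim (cA S₀) := fun d => toLim (cA S₀) 0 (a' d)
  have hc : ∀ d, c d = e (toLim (cB S₀) 0 (b' d)) := by
    intro d
    have h1 := limG_toLim S₀ 0 (b' d)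
    have h2 : (stg S₀ 0).g (b' d) = a' d := hcomm d
    rw [h2] at h1
    exact h1.symm
  refine ⟨Lim (cA S₀), s₁, s₂, c, ?_, ?_, ?_, ?_⟩
  · intro n f x
    have hx : x = e ∘ (e.symm ∘ x) := by
      funext i; simp
    let y := e.symm ∘ x
    have h1 := hag ((Term.func f (fun i => Term.var (y i))).equal
      (Term.var ((φ₂.reduct (Lim (cB S₀))).funMap f y)))
    rw [Formula.realize_equal, Formula.realize_equal] at h1
    have h2 := h1.mpr rfl
    show s₁.funMap (φ₁.onFunction f) x = e ((inferInstance : L₂.Structure (Lim (cB S₀))).funMap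
      (φ₂.onFunction f) (e.symm ∘ x))
    rw [hx]
    have e1 : e.symm ∘ (e ∘ (e.symm ∘ x)) = y := by
      funext i; simp [y]
    rw [e1]
    exact h2
  · intro n r x
    have hx : x = e ∘ (e.symm ∘ x) := by
      funext i; simp
    let y := e.symm ∘ x
    have h1 := hag (Relations.formula r (fun i => Term.var (y i)))
    rw [Formula.realize_rel, Formula.realize_rel] at h1
    show s₁.RelMap (φ₁.onRelation r) x ↔ (inferInstance : L₂.Structure (Lim (cB S₀))).RelMap
      (φ₂.onRelation r) (e.symm ∘ x)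
    rw [hx]
    have e1 : e.symm ∘ (e ∘ (e.symm ∘ x)) = y := by
      funext i; simp [y]
    rw [e1]
    exact h1
  · intro θ
    have h1 := (toLimElem (cA S₀) 0).map_formula θ a'
    have h2 := jA.map_formula θ a
    exact h1.trans h2
  · intro θ
    let E : Lim (cB S₀) ≃[L₂] Lim (cA S₀) := e.inducedStructureEquiv
    have h1 := (toLimElem (cB S₀) 0).map_formula θ b'
    have h2 := E.toElementaryEmbedding.map_formula θ (toLimElem (cB S₀) 0 ∘ b')
    have h3 : c = E.toElementaryEmbedding ∘ (toLimElem (cB S₀) 0 ∘ b') := by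
      funext d
      exact hc d
    rw [h3]
    exact h2.trans h1

end robinson

end Pool.Agent.H78.MT
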