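import Pool.Agent.H78.HMinField
import Pool.Agent.H78.MT

/-!
# Uniform preparation
-/

set_option autoImplicit false
set_option linter.style.haveILetI false

universe u

open FirstOrder FirstOrder.Language Filter

namespace Pool.Agent.H78.HM

section rv

variable {K : Type u} [Field K] (O : ValuationSubring K)

lemma rvEq_one_iff (x y : K) :
    rvEq O 1 x y ↔
      (x = 0 ∧ y = 0) ∨ ((x ≠ 0 ∧ y ≠ 0) ∧ O.valuation (x - y) < O.valuation y) := by
  have h := rvEq_iff O 1 x y
  rwa [map_one, one_mul] at h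

lemma rvEq_refl (x : K) : rvEq O 1 x x := by
  rw [rvEq_one_iff]
  by_cases h : x = 0
  · exact Or.inl ⟨h, h⟩
  · refine Or.inr ⟨⟨h, h⟩, ?_⟩
    rw [sub_self, map_zero]
    exact zero_lt_iff.mpr ((Valuation.ne_zero_iff _).mpr h)

lemma rvEq_val {x y : K} (h : rvEq O 1 x y) : O.valuation x = O.valuation y := by
  rw [rvEq_one_iff] at h
  rcases h with ⟨h1, h2⟩ | ⟨-, h2⟩
  · rw [h1, h2]
  · have : x = y + (x - y) := by ring
    rw [this, Valuation.map_add_eq_of_lt_left _ h2]

lemma rvEq_symm {x y : K} (h : rvEq O 1 x y) : rvEq O 1 y x := by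
  have hv := rvEq_val O h
  rw [rvEq_one_iff] at h ⊢
  rcases h with ⟨h1, h2⟩ | ⟨⟨h1, h2⟩, h3⟩
  · exact Or.inl ⟨h2, h1⟩
  · refine Or.inr ⟨⟨h2, h1⟩, ?_⟩
    rw [hv, Valuation.map_sub_swap]
    exact h3

lemma rvEq_trans {x y z : K} (h : rvEq O 1 x y) (h' : rvEq O 1 y z) : rvEq O 1 x z := by
  have hv := rvEq_val O h'
  rw [rvEq_one_iff] at h h' ⊢
  rcases h with ⟨h1, h2⟩ | ⟨⟨h1, h2⟩, h3⟩
  · rcases h' with ⟨h4, h5⟩ | ⟨⟨h4, h5⟩, h6⟩
    · exact Or.inl ⟨h1, h5⟩
    · exact absurd h2 h4
  · rcases h' with ⟨h4, h5⟩ | ⟨⟨h4, h5⟩, h6⟩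
    · exact absurd h4 h2
    · refine Or.inr ⟨⟨h1, h5⟩, ?_⟩
      have : x - z = (x - y) + (y - z) := by ring
      rw [this]
      exact Valuation.map_add_lt _ (hv ▸ h3) h6

lemma not_rvEq_zero_one : ¬ rvEq O 1 (0 : K) 1 := by
  rw [rvEq_one_iff]
  simp

end rv

section card

variable {L : FirstOrder.Language.{u, u}}

/-- there are at least `k + 1` elements satisfying the formula -/
noncomputable def fMany {β : Type} (γ : L.Formula (β ⊕ Fin 1)) (k : ℕ) : L.Formula β :=
  ((Formula.iInf fun p : {p : Fin (k + 1) × Fin (k + 1) // p.1 ≠ p.2} =>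
      ((Term.var (Sum.inr p.1.1)).equal (Term.var (Sum.inr p.1.2)) :
        L.Formula (β ⊕ Fin (k + 1))).not) ⊓
    (Formula.iInf fun i : Fin (k + 1) => γ.relabel (Sum.map id (fun _ => i)))).iExs (Fin (k + 1))

lemma realize_fMany {M : Type u} [L.Structure M] {β : Type} (γ : L.Formula (β ⊕ Fin 1)) (k : ℕ)
    (a : β → M) :
    (fMany γ k).Realize a ↔ ∃ w : Fin (k + 1) → M, Function.Injective w ∧
      ∀ i, γ.Realize (Sum.elim a (fun _ => w i)) := by
  unfold fMany
  rw [Formula.realize_iExs]
  refine exists_congr fun w => ?_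
  rw [Formula.realize_inf, Formula.realize_iInf, Formula.realize_iInf]
  refine and_congr ⟨?_, ?_⟩ (forall_congr' fun i => ?_)
  · intro h i j hij
    by_contra hne
    have := h ⟨(i, j), hne⟩
    rw [Formula.realize_not, Formula.realize_equal] at this
    exact this hij
  · intro h p
    rw [Formula.realize_not, Formula.realize_equal]
    exact fun he => p.2 (h he)
  · rw [Formula.realize_relabel]
    apply iff_of_eq
    congr 1
    funext s
    rcases s with s | s <;> rfl

lemma exists_inj_iff {M : Type u} (S : Set M) (k : ℕ) :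
    (∃ w : Fin (k + 1) → M, Function.Injective w ∧ ∀ i, w i ∈ S) ↔ ¬ S.encard ≤ k := by
  rw [not_le]
  constructor
  · rintro ⟨w, hw, hS⟩
    have h1 : (Set.range w).encard ≤ S.encard :=
      Set.encard_le_encard (Set.range_subset_iff.mpr hS)
    have h2 : (Set.range w).encard = ((k + 1 : ℕ) : ℕ∞) := by
      rw [← Set.image_univ, hw.encard_image, Set.encard_univ]
      simp
    rw [h2] at h1
    refine lt_of_lt_of_le ?_ h1
    exact_mod_cast Nat.lt_succ_self k
  · intro h
    have h1 : ((k + 1 : ℕ) : ℕ∞) ≤ S.encard := by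
      have := Order.add_one_le_of_lt h
      exact_mod_cast this
    obtain ⟨T, hT, hT2⟩ := Set.exists_subset_encard_eq h1
    have hfin : T.Finite := Set.finite_of_encard_eq_coe hT2
    have hcard : hfin.toFinset.card = k + 1 := by
      rw [hfin.encard_eq_coe_toFinset_card] at hT2
      exact_mod_cast hT2
    refine ⟨fun i => (hfin.toFinset.equivFinOfCardEq hcard).symm i, ?_, ?_⟩
    · intro i j hij
      exact (hfin.toFinset.equivFinOfCardEq hcard).symm.injective (Subtype.ext hij)
    · intro i
      exact hT (hfin.mem_toFinset.mp ((hfin.toFinset.equivFinOfCardEq hcard).symm i).2)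

/-- The section of a formula. -/
def sec {M : Type u} [L.Structure M] {β : Type} (γ : L.Formula (β ⊕ Fin 1)) (a : β → M) : Set M :=
  {y | γ.Realize (Sum.elim a (fun _ => y))}

lemma realize_fMany' {M : Type u} [L.Structure M] {β : Type} (γ : L.Formula (β ⊕ Fin 1)) (k : ℕ)
    (a : β → M) : (fMany γ k).Realize a ↔ ¬ (sec γ a).encard ≤ k := by
  rw [realize_fMany, ← exists_inj_iff]
  rfl

end card

section up

variable {L : FirstOrder.Language.{u, u}} {φ : Lval →ᴸ L}

/-- `HMin` is a property of the theory. -/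
lemma HMin.congr {ell : ℕ∞} {K M : Type u} [L.Structure K] [L.Structure M] (h : HMin φ ell K)
    (hKM : K ≅[L] M) : HMin φ ell M :=
  fun K' _ _ O h1 h2 => h K' O h1 (hKM.trans h2)

/-- Conversion of a formula into one with constants. -/
lemma exists_const_formula {M : Type u} [L.Structure M] (A : Set M) {γ δ : Type} 
    (ψ : L.Formula (γ ⊕ δ)) (a : γ → M) (ha : ∀ i, a i ∈ A) :
    ∃ θ : L[[A]].Formula δ, ∀ v : δ → M, θ.Realize v ↔ ψ.Realize (Sum.elim a v) := by
  let f : γ ⊕ δ → A ⊕ δ := Sum.map (fun i => ⟨a i, ha i⟩) id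
  have h1 : A.Definable L {v : δ → M | ψ.Realize (Sum.elim a v)} := by
    rw [Set.definable_iff_exists_formula_sum]
    refine ⟨ψ.relabel f, ?_⟩
    ext v
    rw [Set.mem_ofPred_eq, Set.mem_ofPred_eq, Formula.realize_relabel]
    apply iff_of_eq
    congr 1
    funext s
    rcases s with s | s <;> rfl
  obtain ⟨θ, hθ⟩ := h1
  refine ⟨θ, fun v => ?_⟩
  have := Set.ext_iff.mp hθ v
  exact this.symm

/-- Conversion in the other direction, for parameters in the range of a tuple. -/
lemma exists_formula_of_definable {M : Type u} [L.Structure M] {β : Type} (a : β → M)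
    {C : Set M} (hC : (Set.range a).Definable₁ L C) :
    ∃ χ : L.Formula (β ⊕ Fin 1), C = sec χ a := by
  unfold Set.Definable₁ at hC
  rw [Set.definable_iff_exists_formula_sum] at hC
  obtain ⟨ψ, hψ⟩ := hC
  have hch : ∀ x : Set.range a, ∃ b : β, a b = x := fun x => x.2
  choose g hg using hch
  refine ⟨ψ.relabel (Sum.map g id), ?_⟩
  ext y
  have h1 := Set.ext_iff.mp hψ (fun _ => y)
  simp only [Set.mem_ofPred_eq] at h1
  rw [h1, sec, Set.mem_ofPred_eq, Formula.realize_relabel]
  apply iff_of_eq
  congr 1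
  funext s
  rcases s with s | s
  · exact (hg s).symm
  · rfl

/-- **Uniform preparation**, step 1. -/
lemma up_step1 {ell : ℕ∞} {N : Type u} [Field N] [L.Structure N] {O : ValuationSubring N}
    (hN : IsValuedStr φ N O) (hmin : HMin φ ell N) {β κ : Type} [Finite κ]
    (ψ : L.Formula ((β ⊕ Fin 1) ⊕ κ))
    (hinv : ∀ (a : β ⊕ Fin 1 → N) (z z' : κ → N), (∀ k, rvEq O 1 (z k) (z' k)) →
      (ψ.Realize (Sum.elim a z) ↔ ψ.Realize (Sum.elim a z'))) :
    ∃ F : Finset (ℕ × L.Formula (β ⊕ Fin 1)), ∀ (a : β → N) (z : κ → N), ∃ c ∈ F,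
      (sec c.2 a).encard ≤ c.1 ∧
      Prepares O 1 (sec c.2 a) {x | ψ.Realize (Sum.elim (Sum.elim a (fun _ => x)) z)} := by
  classical
  by_contra hcon
  push Not at hcon
  let I : Type u := Finset (ℕ × L.Formula (β ⊕ Fin 1))
  let U : Ultrafilter I := Ultrafilter.of atTop
  have hU : (U : Filter I) ≤ atTop := Ultrafilter.of_le _
  choose aF zF hF using hcon
  have neN : Nonempty N := ⟨0⟩
  let P : Type u := (U : Filter I).Product (fun _ => N)
  letI sP : L.Structure P := inferInstanceAs (L.Structure ((U : Filter I).Product (fun _ => N)))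
  let q : (I → N) → P := fun x => (x : (U : Filter I).Product (fun _ => N))
  have los : ∀ {γ : Type} (θ : L.Formula γ) (x : γ → I → N),
      θ.Realize (fun i => q (x i)) ↔ ∀ᶠ F : I in U, θ.Realize (fun i => x i F) := by
    intro γ θ x
    exact Ultraproduct.realize_formula_cast (u := U) (M := fun _ : I => N) θ x
  have hq : Function.Surjective q := fun x => Quotient.inductionOn' x (fun y => ⟨y, rfl⟩)
  have nf : ¬ ∀ᶠ F : I in (U : Filter I), False :=
    fun h => U.neBot.ne (Filter.eventually_false_iff_eq_bot.mp h)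
  have hNP : N ≅[L] P := by
    rw [elementarilyEquivalent_iff]
    intro S
    have := Ultraproduct.sentence_realize (u := U) (M := fun _ : I => N) S
    refine Iff.trans ?_ this.symm
    simp
  obtain ⟨iF, O', hP⟩ := exists_field hN hNP
  -- subtraction
  have hsub : ∀ x y : I → N, q x - q y = q (fun F => x F - y F) := by
    intro x y
    have h1 : q (fun F => x F - y F) + q y = q x := by
      rw [← hP.add]
      have h2 := Ultraproduct.funMap_cast (u := U) (M := fun _ : I => N)
        (φ.onFunction ValFun.add : L.Functions 2) ![fun F => x F - y F, y]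
      have h3 : (fun i => ((![fun F => x F - y F, y] : Fin 2 → I → N) i :
          (U : Filter I).Product (fun _ => N))) = ![q (fun F => x F - y F), q y] := by
        funext i
        fin_cases i <;> rfl
      rw [h3] at h2
      refine h2.trans ?_
      have h4 : (fun F => Structure.funMap (φ.onFunction ValFun.add)
          (fun i => (![fun F => x F - y F, y] : Fin 2 → I → N) i F)) = x := by
        funext F
        have h5 : (fun i => (![fun F => x F - y F, y] : Fin 2 → I → N) i F) =
            ![x F - y F, y F] := by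
          funext i
          fin_cases i <;> rfl
        rw [h5, hN.add]
        ring
      exact congrArg q h4
    rw [← h1]; ring
  have hrv : ∀ x y : I → N, rvEq O' 1 (q x) (q y) ↔ ∀ᶠ F : I in U, rvEq O 1 (x F) (y F) := by
    intro x y
    rw [← realize_fRv1 hP]
    have h1 : (![q x, q y] : Fin 2 → P) = fun i => q ((![x, y] : Fin 2 → I → N) i) := by
      funext i
      fin_cases i <;> rfl
    rw [h1, los]
    refine eventually_congr (Eventually.of_forall fun F => ?_)
    rw [← realize_fRv1 hN]
    apply iff_of_eq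
    congr 1
    funext i
    fin_cases i <;> rfl
  let a : β → P := fun b => q (fun F => aF F b)
  let z : κ → P := fun k => q (fun F => zF F k)
  let X : Set P := {x | ψ.Realize (Sum.elim (Sum.elim a (fun _ => x)) z)}
  have losX : ∀ (x : I → N) (z' : κ → I → N),
      ψ.Realize (Sum.elim (Sum.elim a (fun _ => q x)) (fun k => q (z' k))) ↔
      ∀ᶠ F : I in U, ψ.Realize (Sum.elim (Sum.elim (aF F) (fun _ => x F)) (fun k => z' k F)) := by
    intro x z'
    have h1 : (Sum.elim (Sum.elim a (fun _ => q x)) (fun k => q (z' k)) :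
        (β ⊕ Fin 1) ⊕ κ → P) = fun s => q ((Sum.elim (Sum.elim (fun b F => aF F b)
          (fun _ => x)) z' : (β ⊕ Fin 1) ⊕ κ → I → N) s) := by
      funext s
      rcases s with (s | s) | s <;> rfl
    rw [h1, los]
    refine eventually_congr (Eventually.of_forall fun F => ?_)
    apply iff_of_eq
    congr 1
    funext s
    rcases s with (s | s) | s <;> rfl
  have hinv' : ∀ (x : P) (z' : κ → P), (∀ k, rvEq O' 1 (z k) (z' k)) →
      (ψ.Realize (Sum.elim (Sum.elim a (fun _ => x)) z) ↔
        ψ.Realize (Sum.elim (Sum.elim a (fun _ => x)) z')) := by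
    intro x z' hz'
    obtain ⟨x, rfl⟩ := hq x
    have hch : ∀ k, ∃ y : I → N, q y = z' k := fun k => hq (z' k)
    choose y hy using hch
    have hy' : z' = fun k => q (y k) := funext fun k => (hy k).symm
    rw [hy'] at hz' ⊢
    have e1 := losX x (fun k F => zF F k)
    have e2 := losX x y
    have h1 : ∀ᶠ F : I in U, ∀ k, rvEq O 1 (zF F k) (y k F) := by
      rw [eventually_all]
      intro k
      exact (hrv _ _).mp (hz' k)
    refine e1.trans (Iff.trans ?_ e2.symm)
    refine eventually_congr (h1.mono fun F hF' => ?_)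
    exact hinv _ _ _ hF'
  -- the set X is definable with parameters
  have hdef : DefinableRV L O' (Set.range a) ell 1 X := by
    let n := Nat.card κ
    let eκ : κ ≃ Fin n := Finite.equivFin κ
    let f : (β ⊕ Fin 1) ⊕ κ → β ⊕ (Fin 1 ⊕ (Fin n ⊕ Fin 0)) :=
      Sum.elim (Sum.elim Sum.inl (fun i => Sum.inr (Sum.inl i)))
        (fun k => Sum.inr (Sum.inr (Sum.inl (eκ k))))
    obtain ⟨θ, hθ⟩ := exists_const_formula (Set.range a) (ψ.relabel f) a
      (fun i => Set.mem_range_self i)
    refine ⟨n, 0, by simp, fun i => z (eκ.symm i), Fin.elim0, θ, ?_⟩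
    intro z' w' hz' _ x
    rw [hθ, Formula.realize_relabel]
    have h1 : (Sum.elim a (Sum.elim (fun _ => x) (Sum.elim z' w')) :
        β ⊕ (Fin 1 ⊕ (Fin n ⊕ Fin 0)) → P) ∘ f =
        Sum.elim (Sum.elim a (fun _ => x)) (fun k => z' (eκ k)) := by
      funext s
      rcases s with (s | s) | s <;> rfl
    rw [h1]
    refine hinv' x _ (fun k => ?_)
    have := hz' (eκ k)
    simp only [Equiv.symm_apply_apply] at this
    exact this
  obtain ⟨C, hCfin, -, hCdef, hCprep⟩ := hmin P O' hP hNP 1 one_ne_zero le_rfl (Set.range a) X hdef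
  obtain ⟨χ, rfl⟩ := exists_formula_of_definable a hCdef
  let m : ℕ := (sec χ a).ncard
  have hCm : (sec χ a).encard ≤ m := by
    rw [hCfin.cast_ncard_eq]
  have hev : ∀ᶠ F : I in U, (m, χ) ∈ F := by
    apply hU
    rw [Filter.mem_atTop_sets]
    exact ⟨{(m, χ)}, fun F hF => hF (Finset.mem_singleton_self _)⟩
  have losC : ∀ (y : I → N), q y ∈ sec χ a ↔ ∀ᶠ F : I in U, y F ∈ sec χ (aF F) := by
    intro y
    have h1 : (Sum.elim a (fun _ => q y) : β ⊕ Fin 1 → P) =
        fun s => q ((Sum.elim (fun b F => aF F b) (fun _ => y) : β ⊕ Fin 1 → I → N) s) := by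
      funext s
      rcases s with s | s <;> rfl
    unfold sec
    rw [Set.mem_ofPred_eq, h1, los]
    refine eventually_congr (Eventually.of_forall fun F => ?_)
    rw [Set.mem_ofPred_eq]
    apply iff_of_eq
    congr 1
    funext s
    rcases s with s | s <;> rfl
  -- number of elements
  have hcard : ∀ᶠ F : I in U, (sec χ (aF F)).encard ≤ m := by
    by_contra hnot
    rw [← Ultrafilter.eventually_not] at hnot
    have hch : ∀ F : I, ∃ w : Fin (m + 1) → N, ¬ (sec χ (aF F)).encard ≤ m →
        (Function.Injective w ∧ ∀ i, w i ∈ sec χ (aF F)) := by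
      intro F
      by_cases h : (sec χ (aF F)).encard ≤ m
      · exact ⟨fun _ => 0, fun h' => absurd h h'⟩
      · obtain ⟨w, hw⟩ := (exists_inj_iff _ _).mpr h
        exact ⟨w, fun _ => hw⟩
    choose w hw using hch
    have h1 : ¬ (sec χ a).encard ≤ m := by
      rw [← exists_inj_iff]
      refine ⟨fun i => q (fun F => w F i), ?_, ?_⟩
      · intro i j hij
        by_contra hne
        have h2 : ∀ᶠ F : I in U, w F i = w F j := Quotient.eq''.mp hij
        have h3 : ∀ᶠ F : I in U, False := by
          filter_upwards [h2, hnot] with F h4 h5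
          exact hne ((hw F h5).1 h4)
        exact nf h3
      · intro i
        rw [losC]
        filter_upwards [hnot] with F h5
        exact (hw F h5).2 i
    exact h1 hCm
  -- preparation
  have hprep : ∀ᶠ F : I in U, Prepares O 1 (sec χ (aF F))
      {x | ψ.Realize (Sum.elim (Sum.elim (aF F) (fun _ => x)) (zF F))} := by
    by_contra hnot
    rw [← Ultrafilter.eventually_not] at hnot
    have hch : ∀ F : I, ∃ x y : N, ¬ Prepares O 1 (sec χ (aF F))
        {x | ψ.Realize (Sum.elim (Sum.elim (aF F) (fun _ => x)) (zF F))} →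
        ((∀ c ∈ sec χ (aF F), rvEq O 1 (x - c) (y - c)) ∧
          ¬ (ψ.Realize (Sum.elim (Sum.elim (aF F) (fun _ => x)) (zF F)) ↔
            ψ.Realize (Sum.elim (Sum.elim (aF F) (fun _ => y)) (zF F)))) := by
      intro F
      by_cases h : Prepares O 1 (sec χ (aF F))
        {x | ψ.Realize (Sum.elim (Sum.elim (aF F) (fun _ => x)) (zF F))}
      · exact ⟨0, 0, fun h' => absurd h h'⟩
      · unfold Prepares at h
        push Not at h
        obtain ⟨x, y, h1, h2⟩ := h
        refine ⟨x, y, fun _ => ⟨h1, fun h3 => ?_⟩⟩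
        rcases h2 with h2 | h2
        · exact h2.2 (h3.mp h2.1)
        · exact h2.1 (h3.mpr h2.2)
    choose x y hxy using hch
    have h1 : q x ∈ X ↔ q y ∈ X := by
      apply hCprep
      intro c hc
      obtain ⟨c, rfl⟩ := hq c
      rw [hsub, hsub, hrv]
      rw [losC] at hc
      filter_upwards [hc, hnot] with F h2 h3
      exact (hxy F h3).1 _ h2
    have h2 := losX x (fun k F => zF F k)
    have h3 := losX y (fun k F => zF F k)
    have h4 : (∀ᶠ F : I in U, ψ.Realize (Sum.elim (Sum.elim (aF F) (fun _ => x F)) (zF F))) ↔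
        ∀ᶠ F : I in U, ψ.Realize (Sum.elim (Sum.elim (aF F) (fun _ => y F)) (zF F)) :=
      h2.symm.trans (h1.trans h3)
    have h5 : ∀ᶠ F : I in U, (ψ.Realize (Sum.elim (Sum.elim (aF F) (fun _ => x F)) (zF F)) ↔
        ψ.Realize (Sum.elim (Sum.elim (aF F) (fun _ => y F)) (zF F))) := by
      by_cases h6 : ∀ᶠ F : I in U,
          ψ.Realize (Sum.elim (Sum.elim (aF F) (fun _ => x F)) (zF F))
      · filter_upwards [h6, h4.mp h6] with F h7 h8
        exact ⟨fun _ => h8, fun _ => h7⟩
      · have h7 : ¬ ∀ᶠ F : I in U,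
          ψ.Realize (Sum.elim (Sum.elim (aF F) (fun _ => y F)) (zF F)) := fun h => h6 (h4.mpr h)
        rw [← Ultrafilter.eventually_not] at h6 h7
        filter_upwards [h6, h7] with F h8 h9
        exact ⟨fun h => absurd h h8, fun h => absurd h h9⟩
    have h6 : ∀ᶠ F : I in U, False := by
      filter_upwards [h5, hnot] with F h7 h8
      exact (hxy F h8).2 h7
    exact nf h6
  have hfalse : ∀ᶠ F : I in U, False := by
    filter_upwards [hev, hcard, hprep] with F h1 h2 h3
    exact hF F (m, χ) h1 h2 h3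
  exact nf hfalse

end up

end Pool.Agent.H78.HM
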