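import Pool.Prelude.Def_F_458e953d

/-!
# The decision problem: cyclic orderings of bipartite graphs without alternating edges

A graph with the vertices `0, ..., n - 1` is given by its adjacency lists. A cyclic ordering is an
arrangement of the vertices on the places `0, ..., n - 1` of a circle.
-/

set_option autoImplicit false

namespace Pool.Agent.H78.OS

/-- The graph on `Fin n` with the adjacency lists `adj`: two different vertices are adjacent when
one of them occurs in the list of the other. -/
def graph (n : ℕ) (adj : List (List ℕ)) : SimpleGraph (Fin n) :=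
  SimpleGraph.fromRel fun u v : Fin n => v.val ∈ adj.getD u.val []

/-- The (distinct) places `a, b, c, d` of a circle with the places `0, 1, ..., n - 1` are met in
this cyclic order. -/
def InCyclicOrder {n : ℕ} (a b c d : Fin n) : Prop :=
  (a < b ∧ b < c ∧ c < d) ∨ (b < c ∧ c < d ∧ d < a) ∨ (c < d ∧ d < a ∧ a < b) ∨
    (d < a ∧ a < b ∧ b < c)

/-- The vertices `a, b, c, d` form an alternating-edge obstruction for the cyclic ordering in which
the vertex `v` is at the place `π v`: they are met in this cyclic order, `ac` and `bd` are edges,
and none of `ab`, `bc`, `cd`, `da` is an edge. -/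
def Obstruction {n : ℕ} (G : SimpleGraph (Fin n)) (π : Fin n ≃ Fin n) (a b c d : Fin n) : Prop :=
  InCyclicOrder (π a) (π b) (π c) (π d) ∧ G.Adj a c ∧ G.Adj b d ∧
    ¬ G.Adj a b ∧ ¬ G.Adj b c ∧ ¬ G.Adj c d ∧ ¬ G.Adj d a

/-- `G` has a cyclic ordering with no alternating-edge obstruction. -/
def HasOrdering {n : ℕ} (G : SimpleGraph (Fin n)) : Prop :=
  ∃ π : Fin n ≃ Fin n, ∀ a b c d, ¬ Obstruction G π a b c d

open Classical in
/-- The decision problem, as a set of bit strings: the codes (standard binary code of the prelude)
of the adjacency lists of bipartite graphs which have a cyclic ordering with no alternating-edge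
obstruction. -/
noncomputable def problem : N68a2faeb.DecisionProblem := fun x =>
  decide (∃ (n : ℕ) (adj : List (List ℕ)), x = N487b59b3.bitEncode adj ∧ adj.length = n ∧
    (∀ l ∈ adj, ∀ v ∈ l, v < n) ∧ (graph n adj).IsBipartite ∧ HasOrdering (graph n adj))

end Pool.Agent.H78.OS
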