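import Pool.Agent.H78.OSPTime

/-!
# NP-completeness
-/

set_option autoImplicit false
set_option linter.unusedVariables false

namespace Pool.Agent.H78.OS

open TMLib Polynomial N487b59b3 N68a2faeb N793a5b8e
open Pool.Agent.H78.GD (lit SatBy)
open Pool.Agent.H79.GD (flat length_flat satBy_flat)

/-- the vertex with a given number -/
def dec (n M v : ℕ) : Vx :=
  if v < bs n M then .a (v / n) (v % n)
  else if v < bs n M + n then .t (v - bs n M)
  else if v < bs n M + 2 * n then .w (v - (bs n M + n))
  else if v < bs n M + 2 * n + M then .b (v - (bs n M + 2 * n))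
  else .r (v - (bs n M + 2 * n + M))

lemma div_le {n M v : ℕ} (hn : 0 < n) (hv : v < bs n M) : v / n ≤ M ∧ v % n < n := by
  unfold bs at hv
  refine ⟨?_, Nat.mod_lt _ hn⟩
  have := Nat.div_lt_of_lt_mul (m := v) (n := n) (k := M + 1) (by rwa [mul_comm] at hv)
  omega

lemma dec_valid {n : ℕ} {q : List Con} (hn : 0 < n) {v : ℕ} (hv : v < nT n q.length) :
    Valid n q (dec n q.length v) := by
  unfold nT at hv
  unfold dec
  split_ifs with h1 h2 h3 h4
  · exact div_le hn h1
  · show v - _ < n
    omega
  · show v - _ < n
    omega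
  · show v - _ < q.length
    omega
  · show v - _ < q.length
    omega

lemma ABn_iff {n : ℕ} {q : List Con} {u v : ℕ} (hv : v < nT n q.length) :
    ABn n q.length q u v ↔ AB q (dec n q.length u) (dec n q.length v) := by
  unfold nT at hv
  unfold ABn
  by_cases h1 : u < bs n q.length
  · have e1 : dec n q.length u = .a (u / n) (u % n) := by
      unfold dec
      rw [if_pos h1]
    rw [e1]
    by_cases k1 : v < bs n q.length
    · have e2 : dec n q.length v = .a (v / n) (v % n) := by
        unfold dec
        rw [if_pos k1]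
      rw [e2]
      unfold Q1 Q2 Q3 Q4
      simp only [AB, iff_false]
      rintro ⟨-, h | h | h | h⟩ <;> omega
    by_cases k2 : v < bs n q.length + n
    · have e2 : dec n q.length v = .t (v - bs n q.length) := by
        unfold dec
        rw [if_neg k1, if_pos k2]
      rw [e2]
      unfold Q1 Q2 Q3 Q4
      simp only [AB]
      constructor
      · rintro ⟨-, h | h | h | h⟩ <;> omega
      · intro h
        exact ⟨h1, Or.inl ⟨⟨by omega, k2⟩, h⟩⟩
    by_cases k3 : v < bs n q.length + 2 * n
    · have e2 : dec n q.length v = .w (v - (bs n q.length + n)) := by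
        unfold dec
        rw [if_neg k1, if_neg k2, if_pos k3]
      rw [e2]
      unfold Q1 Q2 Q3 Q4
      simp only [AB]
      constructor
      · rintro ⟨-, h | h | h | h⟩
        · omega
        · exact h.2
        · omega
        · omega
      · intro h
        exact ⟨h1, Or.inr (Or.inl ⟨⟨by omega, k3⟩, h⟩)⟩
    by_cases k4 : v < bs n q.length + 2 * n + q.length
    · have e2 : dec n q.length v = .b (v - (bs n q.length + 2 * n)) := by
        unfold dec
        rw [if_neg k1, if_neg k2, if_neg k3, if_pos k4]
      rw [e2]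
      unfold Q1 Q2 Q3 Q4
      constructor
      · rintro ⟨-, h | h | h | h⟩
        · omega
        · omega
        · exact h.2
        · omega
      · intro h
        exact ⟨h1, Or.inr (Or.inr (Or.inl ⟨⟨by omega, k4⟩, h⟩))⟩
    · have e2 : dec n q.length v = .r (v - (bs n q.length + 2 * n + q.length)) := by
        unfold dec
        rw [if_neg k1, if_neg k2, if_neg k3, if_neg k4]
      rw [e2]
      unfold Q1 Q2 Q3 Q4
      constructor
      · rintro ⟨-, h | h | h | h⟩
        · omega
        · omega
        · omega
        · exact h.2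
      · intro h
        exact ⟨h1, Or.inr (Or.inr (Or.inr ⟨by omega, h⟩))⟩
  · refine iff_of_false (fun h => h1 h.1) ?_
    unfold dec
    rw [if_neg h1]
    split_ifs <;> simp [AB]

lemma dec_inj {n : ℕ} {q : List Con} (hn : 0 < n) {u v : ℕ} (hu : u < nT n q.length)
    (hv : v < nT n q.length) (h : dec n q.length u = dec n q.length v) : u = v := by
  unfold nT at hu hv
  unfold dec at h
  split_ifs at h <;> simp only [Vx.a.injEq, Vx.t.injEq, Vx.w.injEq, Vx.b.injEq, Vx.r.injEq,
    reduceCtorEq] at h
  · rw [← Nat.div_add_mod u n, ← Nat.div_add_mod v n, h.1, h.2]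
  all_goals omega

lemma dec_surj {n : ℕ} {q : List Con} {x : Vx} (hx : Valid n q x) :
    ∃ v < nT n q.length, dec n q.length v = x := by
  unfold nT
  rcases x with ⟨c, i⟩ | i | i | d | d
  · have h1 : c * n + i < bs n q.length := by
      unfold bs
      have h2 : c ≤ q.length := hx.1
      have h3 : i < n := hx.2
      calc c * n + i < c * n + n := by omega
        _ = (c + 1) * n := by ring
        _ ≤ (q.length + 1) * n := Nat.mul_le_mul_right n (by omega)
    refine ⟨c * n + i, by omega, ?_⟩
    unfold dec
    rw [if_pos h1]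
    have h3 : i < n := hx.2
    have h4 : (c * n + i) / n = c := by
      rw [mul_comm, Nat.mul_add_div (by omega), Nat.div_eq_of_lt h3, add_zero]
    have h5 : (c * n + i) % n = i := by
      rw [mul_comm, Nat.mul_add_mod, Nat.mod_eq_of_lt h3]
    rw [h4, h5]
  · have h3 : i < n := hx
    refine ⟨bs n q.length + i, by omega, ?_⟩
    unfold dec
    rw [if_neg (by omega), if_pos (by omega)]
    congr 1
    omega
  · have h3 : i < n := hx
    refine ⟨bs n q.length + n + i, by omega, ?_⟩
    unfold dec
    rw [if_neg (by omega), if_neg (by omega), if_pos (by omega)]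
    congr 1
    omega
  · have h3 : d < q.length := hx
    refine ⟨bs n q.length + 2 * n + d, by omega, ?_⟩
    unfold dec
    rw [if_neg (by omega), if_neg (by omega), if_neg (by omega), if_pos (by omega)]
    congr 1
    omega
  · have h3 : d < q.length := hx
    refine ⟨bs n q.length + 2 * n + q.length + d, by omega, ?_⟩
    unfold dec
    rw [if_neg (by omega), if_neg (by omega), if_neg (by omega), if_neg (by omega)]
    congr 1
    omega

section graph

variable (ls : List (ℕ × Bool))

lemma length_adjL : (adjL ls).length = nT (nE ls) (cons ls).length := by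
  simp [adjL]

lemma mem_adjL {u v : ℕ} (hu : u < nT (nE ls) (cons ls).length) :
    v ∈ (adjL ls).getD u [] ↔
      v < nT (nE ls) (cons ls).length ∧ ABn (nE ls) (cons ls).length (cons ls) u v := by
  rw [List.getD_eq_getElem _ _ (by rw [length_adjL]; exact hu)]
  simp [adjL]

lemma nE_pos : 0 < nE ls := by unfold nE; omega

lemma AB_irrefl (q : List Con) (u : Vx) : ¬ AB q u u := by
  rcases u with ⟨c, i⟩ | i | i | d | d <;> simp [AB]

lemma graph_adjL {u v : Fin (nT (nE ls) (cons ls).length)} :
    (graph (nT (nE ls) (cons ls).length) (adjL ls)).Adj u v ↔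
      Adj (cons ls) (dec (nE ls) (cons ls).length u.val) (dec (nE ls) (cons ls).length v.val) := by
  rw [graph_adj]
  unfold adjp Adj
  rw [mem_adjL ls u.isLt, mem_adjL ls v.isLt, ABn_iff v.isLt, ABn_iff u.isLt]
  constructor
  · rintro ⟨-, h | h⟩
    · exact Or.inl h.2
    · exact Or.inr h.2
  · intro h
    refine ⟨?_, ?_⟩
    · intro huv
      rw [huv] at h
      rcases h with h | h <;> exact AB_irrefl _ _ h
    · rcases h with h | h
      · exact Or.inl ⟨v.isLt, h⟩
      · exact Or.inr ⟨u.isLt, h⟩

lemma bipartite_adjL : (graph (nT (nE ls) (cons ls).length) (adjL ls)).IsBipartite := by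
  refine ⟨SimpleGraph.Coloring.mk (fun v : Fin (nT (nE ls) (cons ls).length) =>
    if v.val < bs (nE ls) (cons ls).length then (0 : Fin 2) else 1) fun {u v} huv => ?_⟩
  have key : ∀ {u v : Fin (nT (nE ls) (cons ls).length)},
      ABn (nE ls) (cons ls).length (cons ls) u.val v.val →
      u.val < bs (nE ls) (cons ls).length ∧ ¬ v.val < bs (nE ls) (cons ls).length := by
    intro u v h
    refine ⟨h.1, ?_⟩
    rcases h.2 with h | h | h | h
    · have := h.1.1; omega
    · have := h.1.1; omega
    · have := h.1.1; omega
    · have := h.1; omega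
  rw [graph_adj] at huv
  rcases huv.2 with h | h
  · rw [mem_adjL ls u.isLt] at h
    have := key h.2
    rw [if_pos this.1, if_neg this.2]
    simp
  · rw [mem_adjL ls v.isLt] at h
    have := key h.2
    rw [if_pos this.1, if_neg this.2]
    simp

theorem hasOrdering_iff_sat : HasOrdering (graph (nT (nE ls) (cons ls).length) (adjL ls)) ↔
    ∃ σ, SatBy ls σ := by
  classical
  rw [← order_iff_sat, hasOrdering_iff]
  constructor
  · rintro ⟨π, hπ⟩
    let pos : Vx → ℤ := fun x =>
      if h : ∃ v : Fin (nT (nE ls) (cons ls).length), dec (nE ls) (cons ls).length v.val = x then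
        ((π h.choose).val : ℤ) else 0
    have hpos : ∀ v : Fin (nT (nE ls) (cons ls).length),
        pos (dec (nE ls) (cons ls).length v.val) = ((π v).val : ℤ) := by
      intro v
      have h : ∃ w : Fin (nT (nE ls) (cons ls).length),
        dec (nE ls) (cons ls).length w.val = dec (nE ls) (cons ls).length v.val := ⟨v, rfl⟩
      show (if h : ∃ w : Fin (nT (nE ls) (cons ls).length), dec (nE ls) (cons ls).length w.val =
        dec (nE ls) (cons ls).length v.val then ((π h.choose).val : ℤ) else 0) = _
      rw [dif_pos h]
      have h2 : h.choose = v :=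
        Fin.ext (dec_inj (nE_pos ls) h.choose.isLt v.isLt h.choose_spec)
      rw [h2]
    have hsurj : ∀ x, Valid (nE ls) (cons ls) x →
        ∃ v : Fin (nT (nE ls) (cons ls).length), dec (nE ls) (cons ls).length v.val = x := by
      intro x hx
      obtain ⟨v, hv, h⟩ := dec_surj hx
      exact ⟨⟨v, hv⟩, h⟩
    refine ⟨pos, ?_, ?_⟩
    · intro u v hu hv huv
      obtain ⟨u', rfl⟩ := hsurj u hu
      obtain ⟨v', rfl⟩ := hsurj v hv
      rw [hpos, hpos] at huv
      have h1 : π u' = π v' := Fin.ext (by exact_mod_cast huv)
      rw [π.injective h1]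
    · intro u v x y hu hv hx hy h1 h2 h3
      obtain ⟨u', rfl⟩ := hsurj u hu
      obtain ⟨v', rfl⟩ := hsurj v hv
      obtain ⟨x', rfl⟩ := hsurj x hx
      obtain ⟨y', rfl⟩ := hsurj y hy
      rw [hpos, hpos] at h1 h2 h3
      have := hπ u' v' x' y' (by exact_mod_cast h1) (by exact_mod_cast h2) (by exact_mod_cast h3)
      simpa only [graph_adjL] using this
  · rintro ⟨pos, hinj, hg⟩
    let f : Fin (nT (nE ls) (cons ls).length) → ℤ := fun v =>
      pos (dec (nE ls) (cons ls).length v.val)
    have hf : Function.Injective f := by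
      intro u v huv
      have h1 := hinj _ _ (dec_valid (nE_pos ls) u.isLt) (dec_valid (nE_pos ls) v.isLt) huv
      exact Fin.ext (dec_inj (nE_pos ls) u.isLt v.isLt h1)
    have hmono : StrictMono (f ∘ Tuple.sort f) :=
      (Tuple.monotone_sort f).strictMono_of_injective (hf.comp (Tuple.sort f).injective)
    refine ⟨(Tuple.sort f).symm, fun a b c d h1 h2 h3 => ?_⟩
    have e : ∀ a b, (Tuple.sort f).symm a < (Tuple.sort f).symm b → f a < f b := by
      intro a b h
      have := hmono h
      simpa using this
    have := hg _ _ _ _ (dec_valid (nE_pos ls) a.isLt) (dec_valid (nE_pos ls) b.isLt)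
      (dec_valid (nE_pos ls) c.isLt) (dec_valid (nE_pos ls) d.isLt) (e a b h1) (e b c h2) (e c d h3)
    simpa only [graph_adjL] using this

end graph

/-- **NP-completeness.** -/
theorem isCompleteFor_problem : IsCompleteFor NP problem := by
  classical
  refine ⟨problem_mem_NP, hard_of_sat (g := fun φ => bitEncode (adjL (flat φ))) (by fun_prop)
    fun φ => ?_⟩
  have key : Sat φ ↔ ∃ σ, SatBy (flat φ) σ := exists_congr fun σ => (satBy_flat φ σ).symm
  rw [key, ← hasOrdering_iff_sat]
  simp only [problem, decide_eq_true_eq]
  constructor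
  · intro h
    refine ⟨_, _, rfl, length_adjL _, ?_, bipartite_adjL _, h⟩
    intro l hl v hv
    unfold adjL at hl
    rw [List.mem_map] at hl
    obtain ⟨u, hu, rfl⟩ := hl
    rw [List.mem_filter, List.mem_range] at hv
    exact hv.1
  · rintro ⟨n, adj, he, hn, -, -, h⟩
    have h1 := bitEncode_injective he
    subst h1
    rw [length_adjL] at hn
    subst hn
    exact h

end Pool.Agent.H78.OS
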