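import Pool.Agent.H79.GDNP
import Pool.Agent.H78.OSDefs

/-!
# The problem is in `NP`
-/

set_option autoImplicit false

namespace Pool.Agent.H78.OS

open TMLib Polynomial N487b59b3 N68a2faeb

/-- Certificate: adjacency lists, places, colours. -/
abbrev Cert := List (List ℕ) × List ℕ × List Bool

/-- adjacency -/
def adjp (adj : List (List ℕ)) (u v : ℕ) : Prop :=
  u ≠ v ∧ (v ∈ adj.getD u [] ∨ u ∈ adj.getD v [])

instance (adj : List (List ℕ)) (u v : ℕ) : Decidable (adjp adj u v) := by
  unfold adjp; infer_instance

@[fun_prop] lemma ptime_adjp {α : Type} [Enc α] {adj : α → List (List ℕ)} {u v : α → ℕ}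
    (ha : PTime adj) (hu : PTime u) (hv : PTime v) :
    PTime (fun x => decide (adjp (adj x) (u x) (v x))) := by
  unfold adjp; fun_prop

/-- The encoding is right. -/
def check1 (x : List Bool) (b : Cert) : Prop := x = bitEncode b.1

/-- The vertices are in the right range. -/
def check2 (b : Cert) : Prop := ∀ l ∈ b.1, ∀ v ∈ l, v < b.1.length

/-- The colouring is proper. -/
def check3 (b : Cert) : Prop :=
  ∀ u ∈ List.range b.1.length, ∀ v ∈ b.1.getD u [], u = v ∨
    b.2.2.getD u false ≠ b.2.2.getD v false

/-- The places form a permutation. -/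
def check4 (b : Cert) : Prop :=
  b.2.1.length = b.1.length ∧ ∀ v ∈ List.range b.1.length, v ∈ b.2.1

/-- bad pattern -/
def bad (adj : List (List ℕ)) (p : List ℕ) (a b c d : ℕ) : Prop :=
  (p.getD a 0 < p.getD b 0 ∧ p.getD b 0 < p.getD c 0 ∧ p.getD c 0 < p.getD d 0) ∧
    adjp adj a c ∧ adjp adj b d ∧ ¬ adjp adj a b ∧ ¬ adjp adj b c ∧ ¬ adjp adj c d ∧
    ¬ adjp adj d a

/-- There is no obstruction. -/
def check5 (b : Cert) : Prop :=
  ∀ a ∈ List.range b.1.length, ∀ a' ∈ List.range b.1.length, ∀ c ∈ List.range b.1.length,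
    ∀ d ∈ List.range b.1.length, ¬ bad b.1 b.2.1 a a' c d

instance (x : List Bool) (b : Cert) : Decidable (check1 x b) := by
  unfold check1; infer_instance
instance (b : Cert) : Decidable (check2 b) := by unfold check2; infer_instance
instance (b : Cert) : Decidable (check3 b) := by unfold check3; infer_instance
instance (b : Cert) : Decidable (check4 b) := by unfold check4; infer_instance
instance (adj : List (List ℕ)) (p : List ℕ) (a b c d : ℕ) : Decidable (bad adj p a b c d) := by
  unfold bad; infer_instance
instance (b : Cert) : Decidable (check5 b) := by unfold check5; infer_instance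

@[fun_prop] lemma ptime_bad {α : Type} [Enc α] {adj : α → List (List ℕ)} {p : α → List ℕ}
    {a b c d : α → ℕ} (hadj : PTime adj) (hp : PTime p) (ha : PTime a) (hb : PTime b)
    (hc : PTime c) (hd : PTime d) :
    PTime (fun x => decide (bad (adj x) (p x) (a x) (b x) (c x) (d x))) := by
  unfold bad; fun_prop

lemma ptime_check1 : PTime (fun p : List Bool × Cert => decide (check1 p.1 p.2)) := by
  unfold check1; fun_prop

lemma ptime_check2 : PTime (fun p : List Bool × Cert => decide (check2 p.2)) := by
  unfold check2; fun_prop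

lemma ptime_check3 : PTime (fun p : List Bool × Cert => decide (check3 p.2)) := by
  unfold check3; fun_prop

lemma ptime_check4 : PTime (fun p : List Bool × Cert => decide (check4 p.2)) := by
  unfold check4; fun_prop

lemma ptime_check5 : PTime (fun p : List Bool × Cert => decide (check5 p.2)) := by
  unfold check5; fun_prop

/-! ### Correctness -/

lemma graph_adj {n : ℕ} {adj : List (List ℕ)} {u v : Fin n} :
    (graph n adj).Adj u v ↔ adjp adj u.val v.val := by
  unfold graph adjp
  rw [SimpleGraph.fromRel_adj, ne_eq, ne_eq, Fin.ext_iff]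

/-- A rotation invariant condition only has to be checked for increasing places. -/
lemma hasOrdering_iff {n : ℕ} (G : SimpleGraph (Fin n)) :
    HasOrdering G ↔ ∃ π : Fin n ≃ Fin n, ∀ a b c d, π a < π b → π b < π c → π c < π d →
      ¬ (G.Adj a c ∧ G.Adj b d ∧ ¬ G.Adj a b ∧ ¬ G.Adj b c ∧ ¬ G.Adj c d ∧ ¬ G.Adj d a) := by
  unfold HasOrdering Obstruction InCyclicOrder
  refine exists_congr fun π => ⟨fun h a b c d h1 h2 h3 h4 => ?_, fun h a b c d => ?_⟩
  · exact h a b c d ⟨Or.inl ⟨h1, h2, h3⟩, h4⟩
  · rintro ⟨h1 | h1 | h1 | h1, e1, e2, n1, n2, n3, n4⟩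
    · exact h a b c d h1.1 h1.2.1 h1.2.2 ⟨e1, e2, n1, n2, n3, n4⟩
    · exact h b c d a h1.1 h1.2.1 h1.2.2 ⟨e2, e1.symm, n2, n3, n4, n1⟩
    · exact h c d a b h1.1 h1.2.1 h1.2.2 ⟨e1.symm, e2.symm, n3, n4, n1, n2⟩
    · exact h d a b c h1.1 h1.2.1 h1.2.2 ⟨e2.symm, e1, n4, n1, n2, n3⟩

/-- The permutation given by a list. -/
lemma exists_perm_of_list {n : ℕ} {p : List ℕ} (h1 : p.length = n)
    (h2 : ∀ v ∈ List.range n, v ∈ p) :
    ∃ π : Fin n ≃ Fin n, ∀ v : Fin n, (π v).val = p.getD v.val 0 := by
  have hperm : p.Perm (List.range n) := Pool.Agent.H79.GD.perm_range_iff.1 ⟨h1, h2⟩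
  have hnd : p.Nodup := hperm.nodup_iff.2 List.nodup_range
  have hlt : ∀ v : Fin n, p.getD v.val 0 < n := by
    intro v
    have hv : v.val < p.length := by rw [h1]; exact v.isLt
    rw [List.getD_eq_getElem _ _ hv]
    have := hperm.mem_iff.1 (List.getElem_mem hv)
    simpa using this
  let f : Fin n → Fin n := fun v => ⟨p.getD v.val 0, hlt v⟩
  have hf : Function.Injective f := by
    intro u v huv
    have hu : u.val < p.length := by rw [h1]; exact u.isLt
    have hv : v.val < p.length := by rw [h1]; exact v.isLt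
    have h3 : p.getD u.val 0 = p.getD v.val 0 := congrArg Fin.val huv
    rw [List.getD_eq_getElem _ _ hu, List.getD_eq_getElem _ _ hv] at h3
    exact Fin.ext ((hnd.getElem_inj_iff).mp h3)
  exact ⟨Equiv.ofBijective f (Finite.injective_iff_bijective.mp hf), fun v => rfl⟩

theorem problem_mem_NP : problem ∈ NP := by
  classical
  have hV : PTime (fun p : List Bool × Cert => decide (check1 p.1 p.2) && (decide (check2 p.2) &&
      (decide (check3 p.2) && (decide (check4 p.2) && decide (check5 p.2))))) :=
    PTime.and ptime_check1 (PTime.and ptime_check2 (PTime.and ptime_check3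
      (PTime.and ptime_check4 ptime_check5)))
  refine mem_NP_cert (V := fun x b => decide (check1 x b) && (decide (check2 b) &&
      (decide (check3 b) && (decide (check4 b) && decide (check5 b))))) hV
    (2 + (1 + X * (1 + (1 + X * (1 + (2 * X + 1))))) + (1 + X * (1 + (2 * X + 1))) +
      (1 + 4 * X)) ?_ ?_
  · intro x b hb
    simp only [Bool.and_eq_true, decide_eq_true_eq] at hb
    obtain ⟨e1, e2, e3, ⟨e4, e4'⟩, e5⟩ := hb
    obtain ⟨adj, p, col⟩ := b
    simp only at e1 e2 e3 e4 e4' e5
    simp only [problem, decide_eq_true_eq]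
    refine ⟨adj.length, adj, e1, rfl, e2, ?_, ?_⟩
    · refine ⟨SimpleGraph.Coloring.mk (fun v : Fin adj.length => if col.getD v.val false then
        (1 : Fin 2) else 0) fun {u v} huv => ?_⟩
      rw [graph_adj] at huv
      have h1 : col.getD u.val false ≠ col.getD v.val false := by
        rcases huv.2 with h | h
        · exact (e3 u.val (by simp) v.val h).resolve_left huv.1
        · exact ((e3 v.val (by simp) u.val h).resolve_left (Ne.symm huv.1)).symm
      intro h2
      apply h1
      generalize col.getD u.val false = a at h2 ⊢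
      generalize col.getD v.val false = b at h2 ⊢
      cases a <;> cases b <;> simp at h2 ⊢
    · rw [hasOrdering_iff]
      obtain ⟨π, hπ⟩ := exists_perm_of_list e4 e4'
      refine ⟨π, fun a b c d h1 h2 h3 h4 => ?_⟩
      simp only [graph_adj] at h4
      refine e5 a.val (by simp) b.val (by simp) c.val (by simp) d.val (by simp) ⟨⟨?_, ?_, ?_⟩, h4⟩
      · rw [← hπ, ← hπ]; exact h1
      · rw [← hπ, ← hπ]; exact h2
      · rw [← hπ, ← hπ]; exact h3
  · intro x hx
    simp only [problem, decide_eq_true_eq] at hx
    obtain ⟨n, adj, rfl, hn, h2, ⟨col⟩, h4⟩ := hx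
    subst hn
    rw [hasOrdering_iff] at h4
    obtain ⟨π, hπ⟩ := h4
    let p : List ℕ := List.ofFn fun v : Fin adj.length => (π v).val
    let cl : List Bool := List.ofFn fun v : Fin adj.length => decide (col v = 1)
    have hp : ∀ v : Fin adj.length, p.getD v.val 0 = (π v).val := by
      intro v
      rw [List.getD_eq_getElem _ _ (by simp [p])]
      simp [p]
    have hc : ∀ v : Fin adj.length, cl.getD v.val false = decide (col v = 1) := by
      intro v
      rw [List.getD_eq_getElem _ _ (by simp [cl])]
      simp [cl]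
    refine ⟨(adj, p, cl), ?_, ?_⟩
    · have hN : adj.length ≤ (bitEncode adj).length := Pool.Agent.H79.GD.length_le_bitEncode adj
      have hrow : ∀ l ∈ adj, l.length ≤ (bitEncode adj).length := fun l hl =>
        (Pool.Agent.H79.GD.length_le_bitEncode l).trans (Pool.Agent.H79.GD.bitEncode_le_of_mem hl)
      generalize (bitEncode adj).length = N at hN hrow ⊢
      have s1 : sz adj ≤ 1 + N * (1 + (1 + N * (1 + (2 * N + 1)))) := by
        refine sz_list_le _ _ _ hN fun q hq => ?_
        refine sz_list_le _ _ _ (hrow q hq) fun v hv => ?_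
        have := h2 q hq v hv
        simp
        omega
      have s2 : sz p ≤ 1 + N * (1 + (2 * N + 1)) := by
        refine sz_list_le _ _ _ (by simpa [p] using hN) fun v hv => ?_
        simp only [p, List.mem_ofFn] at hv
        obtain ⟨w, rfl⟩ := hv
        have := (π w).isLt
        simp
        omega
      have s3 : sz cl ≤ 1 + 4 * N := (sz_bits_le _).trans (by simp [cl]; omega)
      have e2 : eval N (2 : ℕ[X]) = 2 := by simp
      have e4 : eval N (4 : ℕ[X]) = 4 := by simp
      have e1 : eval N (1 : ℕ[X]) = 1 := by simp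
      simp only [sz_pair, eval_add, eval_mul, eval_X, e1, e2, e4]
      omega
    · simp only [Bool.and_eq_true, decide_eq_true_eq]
      refine ⟨rfl, h2, ?_, ⟨by simp [p], ?_⟩, ?_⟩
      · intro u hu v hv
        simp only [List.mem_range] at hu
        have hvlt : v < adj.length := by
          have h5 : adj.getD u [] ∈ adj := by
            rw [List.getD_eq_getElem _ _ hu]
            exact List.getElem_mem hu
          exact h2 _ h5 v hv
        by_cases huv : u = v
        · exact Or.inl huv
        · right
          have h6 : (graph adj.length adj).Adj ⟨u, hu⟩ ⟨v, hvlt⟩ := by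
            rw [graph_adj]
            exact ⟨huv, Or.inl hv⟩
          have h7 := col.valid h6
          have h8 := hc ⟨u, hu⟩
          have h9 := hc ⟨v, hvlt⟩
          simp only at h8 h9 ⊢
          rw [h8, h9]
          intro h10
          apply h7
          rw [decide_eq_decide] at h10
          generalize col ⟨u, hu⟩ = a at h10 ⊢
          generalize col ⟨v, hvlt⟩ = b at h10 ⊢
          fin_cases a <;> fin_cases b <;> simp at h10 ⊢
      · intro v hv
        simp only [List.mem_range] at hv
        simp only [p, List.mem_ofFn]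
        exact ⟨π.symm ⟨v, hv⟩, by simp⟩
      · intro a ha b hb c hc' d hd
        simp only [List.mem_range] at ha hb hc' hd
        rintro ⟨⟨l1, l2, l3⟩, h5⟩
        have pa := hp ⟨a, ha⟩
        have pb := hp ⟨b, hb⟩
        have pc := hp ⟨c, hc'⟩
        have pd := hp ⟨d, hd⟩
        simp only at pa pb pc pd l1 l2 l3
        rw [pa, pb] at l1
        rw [pb, pc] at l2
        rw [pc, pd] at l3
        refine hπ ⟨a, ha⟩ ⟨b, hb⟩ ⟨c, hc'⟩ ⟨d, hd⟩ l1 l2 l3 ?_
        simp only [graph_adj]
        exact h5

end Pool.Agent.H78.OS
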