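import Pool.Agent.H78.OuterB

/-!
# Cyclic orderings of bipartite graphs without alternating edges: from an assignment to an ordering
-/

set_option autoImplicit false
set_option linter.unusedVariables false
set_option linter.unusedSimpArgs false

namespace Pool.Agent.H78.OS

open Pool.Agent.H78.GD (Lit lit SatBy)

section pos

lemma crA {α : Type} {pos : α → ℤ} {u v x y : α} (h1 : pos u < pos x ↔ pos u < pos y)
    (h2 : pos v < pos x ↔ pos v < pos y) : cr pos u v x y = 0 := by
  unfold cr s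
  rw [if_congr h1 rfl rfl, if_congr h2 rfl rfl]
  generalize (if pos u < pos y then (1 : ZMod 2) else 0) = a
  generalize (if pos v < pos y then (1 : ZMod 2) else 0) = b
  linear_combination (a + b) * two_zmod

lemma crB {α : Type} {pos : α → ℤ} {u v x y : α} (h1 : pos u < pos x ↔ pos v < pos x)
    (h2 : pos u < pos y ↔ pos v < pos y) : cr pos u v x y = 0 := by
  unfold cr s
  rw [if_congr h1 rfl rfl, if_congr h2 rfl rfl]
  generalize (if pos v < pos x then (1 : ZMod 2) else 0) = a
  generalize (if pos v < pos y then (1 : ZMod 2) else 0) = b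
  linear_combination (a + b) * two_zmod

/-- the positions of the vertices for a given order `ρ` of the elements -/
def posV (ρ : ℕ → ℤ) (q : List Con) : Vx → ℤ
  | .a c i => ρ i * (3 * q.length + 5) + c
  | .t i => ρ i * (3 * q.length + 5) + (q.length + 1)
  | .w i => ρ i * (3 * q.length + 5) + (q.length + 2)
  | .b d => ρ (q.getD d default).1 * (3 * q.length + 5) + (q.length + 3 + 2 * d)
  | .r d => ρ (q.getD d default).2.2.1 * (3 * q.length + 5) + (q.length + 4 + 2 * d)

variable {ρ : ℕ → ℤ} {n : ℕ} {q : List Con}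

lemma sep (hρ : ∀ i < n, ∀ j < n, ρ i = ρ j → i = j) {i j : ℕ} (hi : i < n) (hj : j < n)
    (hij : i ≠ j) (K : ℤ) (hK : 0 < K) : (ρ i < ρ j ∧ ρ i * K + K ≤ ρ j * K) ∨
      (ρ j < ρ i ∧ ρ j * K + K ≤ ρ i * K) := by
  rcases lt_trichotomy (ρ i) (ρ j) with h | h | h
  · left
    exact ⟨h, by nlinarith⟩
  · exact absurd (hρ i hi j hj h) hij
  · right
    exact ⟨h, by nlinarith⟩

lemma getD_ok (hq : ConOK n q) {d : ℕ} (hd : d < q.length) :
    (q.getD d default).1 < n ∧ (q.getD d default).2.1 < n ∧ (q.getD d default).2.2.1 < n ∧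
    (q.getD d default).2.2.2 < n ∧ (q.getD d default).1 ≠ (q.getD d default).2.1 ∧
    (q.getD d default).1 ≠ (q.getD d default).2.2.1 ∧
    (q.getD d default).1 ≠ (q.getD d default).2.2.2 ∧
    (q.getD d default).2.1 ≠ (q.getD d default).2.2.1 ∧
    (q.getD d default).2.1 ≠ (q.getD d default).2.2.2 ∧
    (q.getD d default).2.2.1 ≠ (q.getD d default).2.2.2 := by
  rw [List.getD_eq_getElem _ _ hd]
  exact hq _ (List.getElem_mem hd)

lemma nc_tt (hρ : ∀ i < n, ∀ j < n, ρ i = ρ j → i = j) {c i c' j : ℕ}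
    (hc : c ≤ q.length) (hi : i < n) (hc' : c' ≤ q.length) (hj : j < n) (hij : i ≠ j) :
    cr (posV ρ q) (.a c i) (.t i) (.a c' j) (.t j) = 0 := by
  have h1 := sep hρ hi hj hij (3 * q.length + 5) (by omega)
  refine crB ?_ ?_ <;> simp only [posV] <;> omega

lemma nc_tw (hρ : ∀ i < n, ∀ j < n, ρ i = ρ j → i = j) {c i j l : ℕ}
    (hc : c ≤ q.length) (hi : i < n) (hj : j < n) (hl : l < n) (hij : i ≠ j) (hjl : j ≠ l) :
    cr (posV ρ q) (.a c i) (.t i) (.a 0 j) (.w l) = 0 := by
  have h1 := sep hρ hi hj hij (3 * q.length + 5) (by omega)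
  rcases eq_or_ne i l with rfl | hil
  · refine crB ?_ ?_ <;> simp only [posV] <;> omega
  · have h2 := sep hρ hi hl hil (3 * q.length + 5) (by omega)
    refine crB ?_ ?_ <;> simp only [posV] <;> omega

lemma nc_tb (hρ : ∀ i < n, ∀ j < n, ρ i = ρ j → i = j) (hq : ConOK n q) {c i c' j d : ℕ}
    (hc : c ≤ q.length) (hi : i < n) (hc' : c' ≤ q.length) (hj : j < n) (hd : d < q.length)
    (hij : i ≠ j) :
    cr (posV ρ q) (.a c i) (.t i) (.a c' j) (.b d) = 0 := by
  have h1 := sep hρ hi hj hij (3 * q.length + 5) (by omega)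
  have hok := getD_ok hq hd
  rcases eq_or_ne i (q.getD d default).1 with hix | hix
  · refine crB ?_ ?_ <;> simp only [posV, ← hix] <;> omega
  · have h2 := sep hρ hi hok.1 hix (3 * q.length + 5) (by omega)
    refine crB ?_ ?_ <;> simp only [posV] <;> omega

lemma nc_tr (hρ : ∀ i < n, ∀ j < n, ρ i = ρ j → i = j) (hq : ConOK n q) {c i c' j d : ℕ}
    (hc : c ≤ q.length) (hi : i < n) (hc' : c' ≤ q.length) (hj : j < n) (hd : d < q.length)
    (hij : i ≠ j) :
    cr (posV ρ q) (.a c i) (.t i) (.a c' j) (.r d) = 0 := by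
  have h1 := sep hρ hi hj hij (3 * q.length + 5) (by omega)
  have hok := getD_ok hq hd
  rcases eq_or_ne i (q.getD d default).2.2.1 with hix | hix
  · refine crB ?_ ?_ <;> simp only [posV, ← hix] <;> omega
  · have h2 := sep hρ hi hok.2.2.1 hix (3 * q.length + 5) (by omega)
    refine crB ?_ ?_ <;> simp only [posV] <;> omega

lemma nc_ww (hρ : ∀ i < n, ∀ j < n, ρ i = ρ j → i = j) {i j : ℕ}
    (hi : i < n) (hj : j < n) (hij : i ≠ j) :
    cr (posV ρ q) (.a 0 i) (.w j) (.a 0 j) (.w i) = 0 := by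
  rcases sep hρ hi hj hij (3 * q.length + 5) (by omega) with h1 | h1
  · refine crA ?_ ?_ <;> simp only [posV] <;> omega
  · refine crB ?_ ?_ <;> simp only [posV] <;> omega

lemma s_spot (hρ : ∀ i < n, ∀ j < n, ρ i = ρ j → i = j) {i j : ℕ} (hi : i < n) (hj : j < n)
    (hij : i ≠ j) {u v : Vx} {a b : ℤ} (hu : posV ρ q u = ρ i * (3 * q.length + 5) + a)
    (hv : posV ρ q v = ρ j * (3 * q.length + 5) + b) (ha : 0 ≤ a) (ha' : a < 3 * q.length + 5)
    (hb : 0 ≤ b) (hb' : b < 3 * q.length + 5) : s (posV ρ q) u v = s ρ i j := by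
  have h1 := sep hρ hi hj hij (3 * q.length + 5) (by omega)
  unfold s
  refine if_congr ?_ rfl rfl
  rw [hu, hv]
  omega

lemma nc_br (hρ : ∀ i < n, ∀ j < n, ρ i = ρ j → i = j) (hq : ConOK n q)
    (hcr : ∀ c ∈ q, cr ρ c.1 c.2.1 c.2.2.1 c.2.2.2 = 0) {i j d : ℕ} (hd : d < q.length)
    (hi : i = (q.getD d default).1 ∨ i = (q.getD d default).2.1)
    (hj : j = (q.getD d default).2.2.1 ∨ j = (q.getD d default).2.2.2) :
    cr (posV ρ q) (.a (d + 1) i) (.b d) (.a (d + 1) j) (.r d) = 0 := by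
  have hok := getD_ok hq hd
  have hcr' : cr ρ (q.getD d default).1 (q.getD d default).2.1 (q.getD d default).2.2.1
      (q.getD d default).2.2.2 = 0 := by
    rw [List.getD_eq_getElem _ _ hd]
    exact hcr _ (List.getElem_mem hd)
  have pb : posV ρ q (.b d) =
      ρ (q.getD d default).1 * (3 * q.length + 5) + (q.length + 3 + 2 * d) := rfl
  have pr : posV ρ q (.r d) =
      ρ (q.getD d default).2.2.1 * (3 * q.length + 5) + (q.length + 4 + 2 * d) := rfl
  have pa : ∀ i, posV ρ q (.a (d + 1) i) = ρ i * (3 * q.length + 5) + ((d + 1 : ℕ) : ℤ) :=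
    fun i => rfl
  obtain ⟨hx, hy, hz, hw, nxy, nxz, nxw, nyz, nyw, nzw⟩ := hok
  generalize (q.getD d default).1 = x at *
  generalize (q.getD d default).2.1 = y at *
  generalize (q.getD d default).2.2.1 = z at *
  generalize (q.getD d default).2.2.2 = w at *
  unfold cr at hcr' ⊢
  rcases hi with rfl | rfl <;> rcases hj with rfl | rfl
  · rw [s_spot hρ hx hz nxz (pa _) (pa _) (by omega) (by omega) (by omega) (by omega),
      s_spot hρ hx hz nxz (pa _) pr (by omega) (by omega) (by omega) (by omega),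
      s_spot hρ hx hz nxz pb (pa _) (by omega) (by omega) (by omega) (by omega),
      s_spot hρ hx hz nxz pb pr (by omega) (by omega) (by omega) (by omega)]
    linear_combination (2 * s ρ i j) * two_zmod
  · rw [s_spot hρ hx hw nxw (pa _) (pa _) (by omega) (by omega) (by omega) (by omega),
      s_spot hρ hx hz nxz (pa _) pr (by omega) (by omega) (by omega) (by omega),
      s_spot hρ hx hw nxw pb (pa _) (by omega) (by omega) (by omega) (by omega),
      s_spot hρ hx hz nxz pb pr (by omega) (by omega) (by omega) (by omega)]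
    linear_combination (s ρ i j + s ρ i z) * two_zmod
  · rw [s_spot hρ hy hz nyz (pa _) (pa _) (by omega) (by omega) (by omega) (by omega),
      s_spot hρ hy hz nyz (pa _) pr (by omega) (by omega) (by omega) (by omega),
      s_spot hρ hx hz nxz pb (pa _) (by omega) (by omega) (by omega) (by omega),
      s_spot hρ hx hz nxz pb pr (by omega) (by omega) (by omega) (by omega)]
    linear_combination (s ρ i j + s ρ x j) * two_zmod
  · rw [s_spot hρ hy hw nyw (pa _) (pa _) (by omega) (by omega) (by omega) (by omega),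
      s_spot hρ hy hz nyz (pa _) pr (by omega) (by omega) (by omega) (by omega),
      s_spot hρ hx hw nxw pb (pa _) (by omega) (by omega) (by omega) (by omega),
      s_spot hρ hx hz nxz pb pr (by omega) (by omega) (by omega) (by omega)]
    linear_combination hcr'

/-- noncrossing of all pairs -/
lemma nc_all (hρ : ∀ i < n, ∀ j < n, ρ i = ρ j → i = j) (hq : ConOK n q)
    (hcr : ∀ c ∈ q, cr ρ c.1 c.2.1 c.2.2.1 c.2.2.2 = 0)
    (hne : ∀ u v, Valid n q u → Valid n q v → u ≠ v → posV ρ q u ≠ posV ρ q v)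
    {c i c' j : ℕ} {β β' : Vx} (h1 : Valid n q (.a c i)) (h2 : Valid n q (.a c' j))
    (h3 : Valid n q β) (h4 : Valid n q β') (h5 : AB q (.a c i) β) (h6 : AB q (.a c' j) β')
    (h7 : ¬ AB q (.a c i) β') (h8 : ¬ AB q (.a c' j) β) :
    cr (posV ρ q) (.a c i) β (.a c' j) β' = 0 := by
  have hcomm : ∀ {c i c' j : ℕ} {β β' : Vx}, Valid n q (.a c i) → Valid n q (.a c' j) →
      Valid n q β → Valid n q β' → (∀ c i, β ≠ .a c i) → (∀ c i, β' ≠ .a c i) → β ≠ β' →
      (Vx.a c i) ≠ (.a c' j) →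
      cr (posV ρ q) (.a c i) β (.a c' j) β' = cr (posV ρ q) (.a c' j) β' (.a c i) β := by
    intro c i c' j β β' v1 v2 v3 v4 n1 n2 n3 n4
    exact cr_comm (hne _ _ v1 v2 n4) (hne _ _ v1 v4 (n2 c i).symm) (hne _ _ v3 v2 (n1 _ _))
      (hne _ _ v3 v4 n3)
  have hne4 : ∀ {c c' i j : ℕ}, i ≠ j → (Vx.a c i) ≠ (.a c' j) := by
    intro c c' i j hij h
    simp only [Vx.a.injEq] at h
    exact hij h.2
  rcases β with ⟨_, _⟩ | k | l | d | d <;> rcases β' with ⟨_, _⟩ | k' | l' | d' | d' <;>
    simp only [AB, Valid] at h1 h2 h3 h4 h5 h6 h7 h8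
  · -- t t
    subst h5 h6
    exact nc_tt hρ h1.1 h1.2 h2.1 h2.2 h7
  · -- t w
    subst h5
    obtain ⟨rfl, h6⟩ := h6
    exact nc_tw hρ h1.1 h1.2 h2.2 h4 (fun h => h8 h.symm) h6
  · subst h5
    exact nc_tb hρ hq h1.1 h1.2 h2.1 h2.2 h4 (fun h => h8 h.symm)
  · subst h5
    exact nc_tr hρ hq h1.1 h1.2 h2.1 h2.2 h4 (fun h => h8 h.symm)
  · -- w t
    subst h6
    obtain ⟨rfl, h5⟩ := h5
    rw [hcomm (β := .w l) (β' := .t j) h1 h2 h3 h4 (by simp) (by simp) (by simp) (hne4 h7)]
    exact nc_tw hρ h2.1 h2.2 h1.2 h3 (fun h => h7 h.symm) h5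
  · -- w w
    obtain ⟨rfl, h5⟩ := h5
    obtain ⟨rfl, h6⟩ := h6
    have e1 : i = l' := by
      by_contra h
      exact h7 ⟨rfl, h⟩
    have e2 : j = l := by
      by_contra h
      exact h8 ⟨rfl, h⟩
    subst e1 e2
    exact nc_ww hρ h4 h3 h5
  · omega
  · omega
  · -- b t
    subst h6
    rw [hcomm (β := .b d) (β' := .t j) h1 h2 h3 h4 (by simp) (by simp) (by simp) (hne4 h7)]
    exact nc_tb hρ hq h2.1 h2.2 h1.1 h1.2 h3 (fun h => h7 h.symm)
  · omega
  · -- b b
    have : d = d' := by omega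
    subst this
    exact absurd h5 h7
  · -- b r
    have e0 : d = d' := by omega
    subst e0
    have e1 : c = d + 1 := by omega
    have e2 : c' = d + 1 := by omega
    subst e1 e2
    exact nc_br hρ hq hcr h3 (by omega) (by omega)
  · -- r t
    subst h6
    rw [hcomm (β := .r d) (β' := .t j) h1 h2 h3 h4 (by simp) (by simp) (by simp) (hne4 h7)]
    exact nc_tr hρ hq h2.1 h2.2 h1.1 h1.2 h3 (fun h => h7 h.symm)
  · omega
  · -- r b
    have e0 : d = d' := by omega
    subst e0
    have e1 : c = d + 1 := by omega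
    have e2 : c' = d + 1 := by omega
    subst e1 e2
    have hok := getD_ok hq h3
    have hij : i ≠ j := by omega
    rw [hcomm (β := .r d) (β' := .b d) h1 h2 h3 h4 (by simp) (by simp) (by simp) (hne4 hij)]
    exact nc_br hρ hq hcr h3 (by omega) (by omega)
  · -- r r
    have : d = d' := by omega
    subst this
    exact absurd h5 h7

/-- the spot of a vertex -/
def spot (q : List Con) : Vx → ℕ
  | .a _ i => i
  | .t i => i
  | .w i => i
  | .b d => (q.getD d default).1
  | .r d => (q.getD d default).2.2.1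

/-- the offset of a vertex in its spot -/
def offs (q : List Con) : Vx → ℤ
  | .a c _ => c
  | .t _ => q.length + 1
  | .w _ => q.length + 2
  | .b d => q.length + 3 + 2 * d
  | .r d => q.length + 4 + 2 * d

lemma posV_eq (ρ : ℕ → ℤ) (q : List Con) (u : Vx) :
    posV ρ q u = ρ (spot q u) * (3 * q.length + 5) + offs q u := by
  rcases u with ⟨_, _⟩ | _ | _ | _ | _ <;> rfl

lemma spot_lt (hq : ConOK n q) {u : Vx} (hu : Valid n q u) : spot q u < n := by
  rcases u with ⟨_, _⟩ | _ | _ | _ | _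
  · exact hu.2
  · exact hu
  · exact hu
  · exact (getD_ok hq hu).1
  · exact (getD_ok hq hu).2.2.1

lemma offs_range {u : Vx} (hu : Valid n q u) : 0 ≤ offs q u ∧ offs q u < 3 * q.length + 5 := by
  rcases u with ⟨_, _⟩ | _ | _ | _ | _ <;> simp only [Valid] at hu <;> simp only [offs] <;> omega

lemma posV_inj (hρ : ∀ i < n, ∀ j < n, ρ i = ρ j → i = j) (hq : ConOK n q) {u v : Vx}
    (hu : Valid n q u) (hv : Valid n q v) (h : posV ρ q u = posV ρ q v) : u = v := by
  rw [posV_eq, posV_eq] at h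
  have h1 := offs_range hu
  have h2 := offs_range hv
  have h3 : spot q u = spot q v := by
    by_contra hne
    have h4 := sep hρ (spot_lt hq hu) (spot_lt hq hv) hne (3 * q.length + 5) (by omega)
    omega
  rw [h3] at h
  have h5 : offs q u = offs q v := by omega
  rcases u with ⟨c, i⟩ | i | i | d | d <;> rcases v with ⟨c', i'⟩ | i' | i' | d' | d' <;>
    simp only [Valid] at hu hv <;> simp only [offs] at h5 <;> simp only [spot] at h3
  · have : c = c' := by omega
    rw [this, h3]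
  · omega
  · omega
  · omega
  · omega
  · omega
  · rw [h3]
  · omega
  · omega
  · omega
  · omega
  · omega
  · rw [h3]
  · omega
  · omega
  · omega
  · omega
  · omega
  · have : d = d' := by omega
    rw [this]
  · omega
  · omega
  · omega
  · omega
  · omega
  · have : d = d' := by omega
    rw [this]

theorem good_posV (hρ : ∀ i < n, ∀ j < n, ρ i = ρ j → i = j) (hq : ConOK n q)
    (hcr : ∀ c ∈ q, cr ρ c.1 c.2.1 c.2.2.1 c.2.2.2 = 0) : Good n q (posV ρ q) := by
  have hne : ∀ u v, Valid n q u → Valid n q v → u ≠ v → posV ρ q u ≠ posV ρ q v :=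
    fun u v hu hv huv h => huv (posV_inj hρ hq hu hv h)
  have hA : ∀ {u v : Vx}, AB q u v → ∃ c i, u = .a c i := by
    intro u v h
    rcases u with ⟨c, i⟩ | i | i | d | d
    · exact ⟨c, i, rfl⟩
    all_goals (rcases v with ⟨_, _⟩ | _ | _ | _ | _ <;> exact absurd h (by simp [AB]))
  intro u v x y hu hv hx hy h1 h2 h3
  rintro ⟨a1, a2, n1, n2, n3, n4⟩
  have m1 : ¬ AB q u v ∧ ¬ AB q v u := not_or.mp n1
  have m2 : ¬ AB q v x ∧ ¬ AB q x v := not_or.mp n2
  have m3 : ¬ AB q x y ∧ ¬ AB q y x := not_or.mp n3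
  have m4 : ¬ AB q y u ∧ ¬ AB q u y := not_or.mp n4
  have hodd : cr (posV ρ q) u x v y = 1 := by
    unfold cr s
    rw [if_pos h1, if_pos (by omega), if_neg (by omega), if_pos h3]
    rfl
  have hzero : cr (posV ρ q) u x v y = 0 := by
    rcases a1 with a1 | a1 <;> rcases a2 with a2 | a2
    · obtain ⟨c, i, rfl⟩ := hA a1
      obtain ⟨c', j, rfl⟩ := hA a2
      exact nc_all hρ hq hcr hne hu hv hx hy a1 a2 m4.2 m2.1
    · obtain ⟨c, i, rfl⟩ := hA a1
      obtain ⟨c', j, rfl⟩ := hA a2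
      rw [cr_swap_right]
      exact nc_all hρ hq hcr hne hu hy hx hv a1 a2 m1.1 m3.2
    · obtain ⟨c, i, rfl⟩ := hA a1
      obtain ⟨c', j, rfl⟩ := hA a2
      rw [cr_swap_left]
      exact nc_all hρ hq hcr hne hx hv hu hy a1 a2 m3.1 m1.2
    · obtain ⟨c, i, rfl⟩ := hA a1
      obtain ⟨c', j, rfl⟩ := hA a2
      rw [cr_swap_left, cr_swap_right]
      exact nc_all hρ hq hcr hne hx hy hu hv a1 a2 m2.2 m4.1
  rw [hodd] at hzero
  exact absurd hzero (by decide)

end pos

section assignment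

variable (ls : List Lit) (σ : ℕ → Bool)

/-- truth value of the literal of an occurrence -/
def tv (o : ℕ) : Bool := σ (lit ls o).1 == (lit ls o).2

/-- position of the element of an occurrence -/
def rP (o : ℕ) : ℤ :=
  if tv ls σ o then 2 * ls.length + 4 * o + 4 else -(2 * ls.length + 4 * o + 4)

/-- position of the first auxiliary element -/
def rV (i : ℕ) : ℤ :=
  if tv ls σ (3 * i) then
    (if tv ls σ (3 * i + 1) then 2 * ls.length + 12 * i + 5 else 2 * i + 2)
  else
    (if tv ls σ (3 * i + 1) then 2 * i + 2 else -(2 * ls.length + 12 * i + 5))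

/-- position of the second auxiliary element -/
def rW (i : ℕ) : ℤ :=
  if tv ls σ (3 * i + 2) then 2 * ls.length + 12 * i + 9 else 2 * i + 1

/-- The order of the elements for an assignment. -/
def rho (e : ℕ) : ℤ :=
  if e = 0 then -(10 * ls.length + 10)
  else if e = 1 then 0
  else if e = 2 then -1
  else if e < 3 + ls.length then rP ls σ (e - 3)
  else if (e - (3 + ls.length)) % 2 = 0 then rV ls σ ((e - (3 + ls.length)) / 2)
  else rW ls σ ((e - (3 + ls.length)) / 2)

lemma rho_zero : rho ls σ 0 = -(10 * ls.length + 10) := rfl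

lemma rho_one : rho ls σ 1 = 0 := rfl

lemma rho_two : rho ls σ 2 = -1 := rfl

lemma rho_eP {o : ℕ} (ho : o < ls.length) : rho ls σ (eP o) = rP ls σ o := by
  unfold rho eP
  rw [if_neg (by omega), if_neg (by omega), if_neg (by omega), if_pos (by omega)]
  congr 1
  omega

lemma rho_eV (i : ℕ) : rho ls σ (eV ls.length i) = rV ls σ i := by
  unfold rho eV
  rw [if_neg (by omega), if_neg (by omega), if_neg (by omega), if_neg (by omega),
    if_pos (by omega)]
  congr 1
  omega

lemma rho_eW (i : ℕ) : rho ls σ (eW ls.length i) = rW ls σ i := by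
  unfold rho eW
  rw [if_neg (by omega), if_neg (by omega), if_neg (by omega), if_neg (by omega),
    if_neg (by omega)]
  congr 1
  omega

lemma elem_cases {e : ℕ} (he : e < nE ls) : e = 0 ∨ e = 1 ∨ e = 2 ∨
    (∃ o < ls.length, e = eP o) ∨ (∃ i < ls.length / 3, e = eV ls.length i) ∨
    (∃ i < ls.length / 3, e = eW ls.length i) := by
  unfold nE at he
  by_cases h0 : e = 0
  · exact Or.inl h0
  by_cases h1 : e = 1
  · exact Or.inr (Or.inl h1)
  by_cases h2 : e = 2
  · exact Or.inr (Or.inr (Or.inl h2))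
  by_cases h3 : e < 3 + ls.length
  · exact Or.inr (Or.inr (Or.inr (Or.inl ⟨e - 3, by omega, by unfold eP; omega⟩)))
  by_cases h4 : (e - (3 + ls.length)) % 2 = 0
  · exact Or.inr (Or.inr (Or.inr (Or.inr (Or.inl
      ⟨(e - (3 + ls.length)) / 2, by omega, by unfold eV; omega⟩))))
  · exact Or.inr (Or.inr (Or.inr (Or.inr (Or.inr
      ⟨(e - (3 + ls.length)) / 2, by omega, by unfold eW; omega⟩))))

lemma rP_cases (o : ℕ) : (tv ls σ o = true ∧ rP ls σ o = 2 * ls.length + 4 * o + 4) ∨
    (tv ls σ o = false ∧ rP ls σ o = -(2 * ls.length + 4 * o + 4)) := by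
  unfold rP
  rcases h : tv ls σ o with _ | _ <;> simp

lemma rV_cases (i : ℕ) :
    (tv ls σ (3 * i) = true ∧ tv ls σ (3 * i + 1) = true ∧
      rV ls σ i = 2 * ls.length + 12 * i + 5) ∨
    (tv ls σ (3 * i) = false ∧ tv ls σ (3 * i + 1) = false ∧
      rV ls σ i = -(2 * ls.length + 12 * i + 5)) ∨
    (tv ls σ (3 * i) = true ∧ tv ls σ (3 * i + 1) = false ∧ rV ls σ i = 2 * i + 2) ∨
    (tv ls σ (3 * i) = false ∧ tv ls σ (3 * i + 1) = true ∧ rV ls σ i = 2 * i + 2) := by
  unfold rV
  rcases h : tv ls σ (3 * i) with _ | _ <;> rcases h' : tv ls σ (3 * i + 1) with _ | _ <;> simp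

lemma rW_cases (i : ℕ) :
    (tv ls σ (3 * i + 2) = true ∧ rW ls σ i = 2 * ls.length + 12 * i + 9) ∨
    (tv ls σ (3 * i + 2) = false ∧ rW ls σ i = 2 * i + 1) := by
  unfold rW
  rcases h : tv ls σ (3 * i + 2) with _ | _ <;> simp

lemma rho_inj : ∀ i < nE ls, ∀ j < nE ls, rho ls σ i = rho ls σ j → i = j := by
  intro e he e' he' h
  rcases elem_cases ls he with rfl | rfl | rfl | ⟨o, ho, rfl⟩ | ⟨i, hi, rfl⟩ | ⟨i, hi, rfl⟩ <;>
    rcases elem_cases ls he' with rfl | rfl | rfl | ⟨o', ho', rfl⟩ | ⟨i', hi', rfl⟩ | ⟨i', hi', rfl⟩ <;>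
    (try simp only [rho_zero, rho_one, rho_two, rho_eV, rho_eW] at h) <;>
    (try rw [rho_eP ls σ ho] at h) <;> (try rw [rho_eP ls σ ho'] at h) <;>
    (try have k1 := rP_cases ls σ o) <;> (try have k2 := rP_cases ls σ o') <;>
    (try have k3 := rV_cases ls σ i) <;> (try have k4 := rV_cases ls σ i') <;>
    (try have k5 := rW_cases ls σ i) <;> (try have k6 := rW_cases ls σ i') <;>
    (try unfold eP) <;> (try unfold eV) <;> (try unfold eW) <;> omega

lemma btw_hold {ρ : ℕ → ℤ} {x y z : ℕ} (h1 : ρ 0 < ρ x) (h2 : ρ 0 < ρ y) (h3 : ρ 0 < ρ z)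
    (h : (ρ x < ρ y ∧ ρ y < ρ z) ∨ (ρ z < ρ y ∧ ρ y < ρ x)) :
    ∀ c ∈ btw x y z, cr ρ c.1 c.2.1 c.2.2.1 c.2.2.2 = 0 := by
  intro c hc
  simp only [btw, List.mem_cons, List.not_mem_nil, or_false] at hc
  rcases hc with rfl | rfl
  · refine crA ?_ ?_ <;> simp only <;> omega
  · refine crA ?_ ?_ <;> simp only <;> omega

theorem rho_cons (hσ : SatBy ls σ) :
    ∀ c ∈ cons ls, cr (rho ls σ) c.1 c.2.1 c.2.2.1 c.2.2.2 = 0 := by
  intro c hc
  rw [mem_cons] at hc
  rcases hc with ⟨i, hi, hc⟩ | ⟨o, ho, o', ho', hc⟩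
  · have hs : tv ls σ (3 * i) = true ∨ tv ls σ (3 * i + 1) = true ∨ tv ls σ (3 * i + 2) = true := by
      unfold tv
      simp only [beq_iff_eq]
      exact hσ i hi
    have k1 := rP_cases ls σ (3 * i)
    have k2 := rP_cases ls σ (3 * i + 1)
    have k3 := rP_cases ls σ (3 * i + 2)
    have k4 := rV_cases ls σ i
    have k5 := rW_cases ls σ i
    have e0 := rho_zero ls σ
    have e1 := rho_one ls σ
    have e2 := rho_two ls σ
    have e3 := rho_eP ls σ (o := 3 * i) (by omega)
    have e4 := rho_eP ls σ (o := 3 * i + 1) (by omega)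
    have e5 := rho_eP ls σ (o := 3 * i + 2) (by omega)
    have e6 := rho_eV ls σ i
    have e7 := rho_eW ls σ i
    simp only [consC, List.mem_append] at hc
    generalize tv ls σ (3 * i) = t1 at *
    generalize tv ls σ (3 * i + 1) = t2 at *
    generalize tv ls σ (3 * i + 2) = t3 at *
    rcases hc with hc | hc | hc
    · refine btw_hold ?_ ?_ ?_ ?_ c hc <;> cases t1 <;> cases t2 <;> cases t3 <;>
        simp only [reduceCtorEq, false_and, true_and, and_false, or_false, false_or, and_true] at * <;> omega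
    · refine btw_hold ?_ ?_ ?_ ?_ c hc <;> cases t1 <;> cases t2 <;> cases t3 <;>
        simp only [reduceCtorEq, false_and, true_and, and_false, or_false, false_or, and_true] at * <;> omega
    · refine btw_hold ?_ ?_ ?_ ?_ c hc <;> cases t1 <;> cases t2 <;> cases t3 <;>
        simp only [reduceCtorEq, false_and, true_and, and_false, or_false, false_or, and_true] at * <;> omega
  · rw [mem_consL] at hc
    obtain ⟨⟨h1, h2, h3⟩, hc⟩ := hc
    have ht : tv ls σ o = !(tv ls σ o') := by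
      unfold tv
      rw [h1, h2, h3]
      cases σ (lit ls o).1 <;> rfl
    have k1 := rP_cases ls σ o
    have k2 := rP_cases ls σ o'
    have e0 := rho_zero ls σ
    have e1 := rho_one ls σ
    have e3 := rho_eP ls σ ho
    have e4 := rho_eP ls σ ho'
    rw [ht] at k1
    generalize tv ls σ o' = t at *
    refine btw_hold ?_ ?_ ?_ ?_ c hc <;> cases t <;>
      simp only [reduceCtorEq, false_and, true_and, and_false, or_false, false_or, and_true,
        Bool.not_true, Bool.not_false] at * <;> omega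

end assignment

/-- **Correctness of the abstract reduction.** -/
theorem order_iff_sat (ls : List Lit) :
    (∃ pos : Vx → ℤ, (∀ u v, Valid (nE ls) (cons ls) u → Valid (nE ls) (cons ls) v →
      pos u = pos v → u = v) ∧ Good (nE ls) (cons ls) pos) ↔ ∃ σ, SatBy ls σ := by
  constructor
  · rintro ⟨pos, hinj, hg⟩
    refine sat_of_order (P := fun i => pos (.a 0 i)) ?_ ?_
    · intro i hi j hj h
      have := hinj (.a 0 i) (.a 0 j) ⟨Nat.zero_le _, hi⟩ ⟨Nat.zero_le _, hj⟩ h
      simp only [Vx.a.injEq, true_and] at this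
      exact this
    · intro c hc
      exact cons_hold hg hinj (conOK_cons ls) hc
  · rintro ⟨σ, hσ⟩
    exact ⟨posV (rho ls σ) (cons ls),
      fun u v hu hv h => posV_inj (rho_inj ls σ) (conOK_cons ls) hu hv h,
      good_posV (rho_inj ls σ) (conOK_cons ls) (rho_cons ls σ hσ)⟩

end Pool.Agent.H78.OS
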