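import Pool.Agent.H78.OSNP
import Pool.Agent.H78.OuterC
import Pool.Agent.H79.GDBridge

/-!
# NP-completeness
-/

set_option autoImplicit false
set_option linter.unusedVariables false

namespace Pool.Agent.H78.OS

open TMLib Polynomial N487b59b3 N68a2faeb N793a5b8e
open Pool.Agent.H78.GD (lit SatBy)
open Pool.Agent.H79.GD (flat length_flat satBy_flat)

/-- number of copies of the elements -/
def bs (n M : ℕ) : ℕ := (M + 1) * n

/-- number of vertices -/
def nT (n M : ℕ) : ℕ := bs n M + 2 * n + 2 * M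

/-- the condition for a vertex of a constraint at the level `d + 1` with the elements `x`, `y` -/
def lev (c i d x y : ℕ) : Prop := c < d + 1 ∨ (c = d + 1 ∧ (i = x ∨ i = y))

instance (c i d x y : ℕ) : Decidable (lev c i d x y) := by
  unfold lev; infer_instance

/-- the vertices `b` -/
def ABb (q : List (ℕ × ℕ × ℕ × ℕ)) (c i d : ℕ) : Prop :=
  lev c i d (q.getD d (0, 0, 0, 0)).1 (q.getD d (0, 0, 0, 0)).2.1

instance (q : List (ℕ × ℕ × ℕ × ℕ)) (c i d : ℕ) : Decidable (ABb q c i d) := by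
  unfold ABb; infer_instance

/-- the vertices `r` -/
def ABr (q : List (ℕ × ℕ × ℕ × ℕ)) (c i d : ℕ) : Prop :=
  lev c i d (q.getD d (0, 0, 0, 0)).2.2.1 (q.getD d (0, 0, 0, 0)).2.2.2

instance (q : List (ℕ × ℕ × ℕ × ℕ)) (c i d : ℕ) : Decidable (ABr q c i d) := by
  unfold ABr; infer_instance

/-- the vertices `t` -/
def Q1 (s n i v : ℕ) : Prop := (s ≤ v ∧ v < s + n) ∧ i = v - s

/-- the vertices `w` -/
def Q2 (s n c i v : ℕ) : Prop := (s + n ≤ v ∧ v < s + 2 * n) ∧ (c = 0 ∧ ¬ i = v - (s + n))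

/-- the vertices `b` -/
def Q3 (s M : ℕ) (q : List (ℕ × ℕ × ℕ × ℕ)) (c i v : ℕ) : Prop :=
  (s ≤ v ∧ v < s + M) ∧ ABb q c i (v - s)

/-- the vertices `r` -/
def Q4 (s : ℕ) (q : List (ℕ × ℕ × ℕ × ℕ)) (c i v : ℕ) : Prop :=
  s ≤ v ∧ ABr q c i (v - s)

instance (s n i v : ℕ) : Decidable (Q1 s n i v) := by unfold Q1; infer_instance
instance (s n c i v : ℕ) : Decidable (Q2 s n c i v) := by unfold Q2; infer_instance
instance (s M : ℕ) (q : List (ℕ × ℕ × ℕ × ℕ)) (c i v : ℕ) : Decidable (Q3 s M q c i v) := by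
  unfold Q3; infer_instance
instance (s : ℕ) (q : List (ℕ × ℕ × ℕ × ℕ)) (c i v : ℕ) : Decidable (Q4 s q c i v) := by
  unfold Q4; infer_instance

/-- Adjacency from the `A`-side to the `B`-side for the numbered vertices. -/
def ABn (n M : ℕ) (q : List (ℕ × ℕ × ℕ × ℕ)) (u v : ℕ) : Prop :=
  u < bs n M ∧ (Q1 (bs n M) n (u % n) v ∨ (Q2 (bs n M) n (u / n) (u % n) v ∨
    (Q3 (bs n M + 2 * n) M q (u / n) (u % n) v ∨ Q4 (bs n M + 2 * n + M) q (u / n) (u % n) v)))

instance (n M : ℕ) (q : List (ℕ × ℕ × ℕ × ℕ)) (u v : ℕ) : Decidable (ABn n M q u v) := by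
  unfold ABn; infer_instance

/-- The adjacency lists of the constructed graph. -/
def adjL (ls : List (ℕ × Bool)) : List (List ℕ) :=
  (List.range (nT (nE ls) (cons ls).length)).map fun u =>
    (List.range (nT (nE ls) (cons ls).length)).filter fun v =>
      decide (ABn (nE ls) (cons ls).length (cons ls) u v)

section ptime

variable {α : Type} [Enc α]

@[fun_prop] lemma ptime_btw {x y z : α → ℕ} (hx : PTime x) (hy : PTime y) (hz : PTime z) :
    PTime (fun a => btw (x a) (y a) (z a)) := by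
  unfold btw; fun_prop

@[fun_prop] lemma ptime_eP {o : α → ℕ} (ho : PTime o) : PTime (fun a => eP (o a)) := by
  unfold eP; fun_prop

@[fun_prop] lemma ptime_eV {T i : α → ℕ} (hT : PTime T) (hi : PTime i) :
    PTime (fun a => eV (T a) (i a)) := by
  unfold eV; fun_prop

@[fun_prop] lemma ptime_eW {T i : α → ℕ} (hT : PTime T) (hi : PTime i) :
    PTime (fun a => eW (T a) (i a)) := by
  unfold eW; fun_prop

@[fun_prop] lemma ptime_nE {ls : α → List (ℕ × Bool)} (hl : PTime ls) :
    PTime (fun a => nE (ls a)) := by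
  unfold nE; fun_prop

@[fun_prop] lemma ptime_consC {T i : α → ℕ} (hT : PTime T) (hi : PTime i) :
    PTime (fun a => consC (T a) (i a)) := by
  unfold consC; fun_prop

@[fun_prop] lemma ptime_consL {ls : α → List (ℕ × Bool)} {o o' : α → ℕ} (hl : PTime ls)
    (ho : PTime o) (ho' : PTime o') : PTime (fun a => consL (ls a) (o a) (o' a)) := by
  unfold consL; fun_prop

@[fun_prop] lemma ptime_cons' {ls : α → List (ℕ × Bool)} (hl : PTime ls) :
    PTime (fun a => cons (ls a)) := by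
  unfold cons; fun_prop

@[fun_prop] lemma ptime_bs {n M : α → ℕ} (hn : PTime n) (hM : PTime M) :
    PTime (fun a => bs (n a) (M a)) := by
  unfold bs; fun_prop

@[fun_prop] lemma ptime_nT {n M : α → ℕ} (hn : PTime n) (hM : PTime M) :
    PTime (fun a => nT (n a) (M a)) := by
  unfold nT; fun_prop

@[fun_prop] lemma ptime_lev {c i d x y : α → ℕ} (hc : PTime c) (hi : PTime i) (hd : PTime d)
    (hx : PTime x) (hy : PTime y) : PTime (fun a => decide (lev (c a) (i a) (d a) (x a) (y a))) := by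
  unfold lev; fun_prop

@[fun_prop] lemma ptime_ABb {c i d : α → ℕ} {q : α → List (ℕ × ℕ × ℕ × ℕ)} (hq : PTime q)
    (hc : PTime c) (hi : PTime i) (hd : PTime d) :
    PTime (fun a => decide (ABb (q a) (c a) (i a) (d a))) := by
  unfold ABb; fun_prop

@[fun_prop] lemma ptime_ABr {c i d : α → ℕ} {q : α → List (ℕ × ℕ × ℕ × ℕ)} (hq : PTime q)
    (hc : PTime c) (hi : PTime i) (hd : PTime d) :
    PTime (fun a => decide (ABr (q a) (c a) (i a) (d a))) := by
  unfold ABr; fun_prop

@[fun_prop] lemma ptime_Q1 {s n i v : α → ℕ} (hs : PTime s) (hn : PTime n) (hi : PTime i)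
    (hv : PTime v) : PTime (fun a => decide (Q1 (s a) (n a) (i a) (v a))) := by
  unfold Q1; fun_prop

@[fun_prop] lemma ptime_Q2 {s n c i v : α → ℕ} (hs : PTime s) (hn : PTime n) (hc : PTime c)
    (hi : PTime i) (hv : PTime v) :
    PTime (fun a => decide (Q2 (s a) (n a) (c a) (i a) (v a))) := by
  unfold Q2; fun_prop

@[fun_prop] lemma ptime_Q3 {s M c i v : α → ℕ} {q : α → List (ℕ × ℕ × ℕ × ℕ)} (hs : PTime s)
    (hM : PTime M) (hq : PTime q) (hc : PTime c) (hi : PTime i) (hv : PTime v) :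
    PTime (fun a => decide (Q3 (s a) (M a) (q a) (c a) (i a) (v a))) := by
  unfold Q3; fun_prop

@[fun_prop] lemma ptime_Q4 {s c i v : α → ℕ} {q : α → List (ℕ × ℕ × ℕ × ℕ)} (hs : PTime s)
    (hq : PTime q) (hc : PTime c) (hi : PTime i) (hv : PTime v) :
    PTime (fun a => decide (Q4 (s a) (q a) (c a) (i a) (v a))) := by
  unfold Q4; fun_prop

@[fun_prop] lemma ptime_ABn {n M u v : α → ℕ} {q : α → List (ℕ × ℕ × ℕ × ℕ)} (hn : PTime n)
    (hM : PTime M) (hq : PTime q) (hu : PTime u) (hv : PTime v) :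
    PTime (fun a => decide (ABn (n a) (M a) (q a) (u a) (v a))) := by
  have hb : PTime (fun a => bs (n a) (M a)) := ptime_bs hn hM
  have hd : PTime (fun a => u a / n a) := PTime.div hu hn
  have hm : PTime (fun a => u a % n a) := PTime.mod hu hn
  have h1 : PTime (fun a => bs (n a) (M a) + 2 * n a) := by fun_prop
  have h2 : PTime (fun a => bs (n a) (M a) + 2 * n a + M a) := by fun_prop
  unfold ABn
  exact PTime.decide_and (PTime.lt hu hb) (PTime.decide_or (ptime_Q1 hb hn hm hv)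
    (PTime.decide_or (ptime_Q2 hb hn hd hm hv) (PTime.decide_or (ptime_Q3 h1 hM hq hd hm hv)
      (ptime_Q4 h2 hq hd hm hv))))

@[fun_prop] lemma ptime_adjL {ls : α → List (ℕ × Bool)} (hl : PTime ls) :
    PTime (fun a => adjL (ls a)) := by
  unfold adjL; fun_prop

end ptime

end Pool.Agent.H78.OS
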