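import Mathlib

/-!
# Cyclic orderings of bipartite graphs without alternating edges: the abstract reduction
-/

set_option autoImplicit false

namespace Pool.Agent.H78.OS

/-- Vertices of the constructed bipartite graph: `a c i` is the copy of the element `i` at the
level `c`; `t i`, `w i` belong to the element `i`; `b d`, `r d` belong to the constraint `d`. -/
inductive Vx : Type
  | a (c i : ℕ) : Vx
  | t (i : ℕ) : Vx
  | w (i : ℕ) : Vx
  | b (d : ℕ) : Vx
  | r (d : ℕ) : Vx
  deriving DecidableEq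

/-- A constraint `(x, y, z, w)`: the chords `xy` and `zw` do not cross. -/
abbrev Con := ℕ × ℕ × ℕ × ℕ

/-- Valid vertices. -/
def Valid (n : ℕ) (q : List Con) : Vx → Prop
  | .a c i => c ≤ q.length ∧ i < n
  | .t i => i < n
  | .w i => i < n
  | .b d => d < q.length
  | .r d => d < q.length

/-- Adjacency from the `A`-side to the `B`-side. -/
def AB (q : List Con) : Vx → Vx → Prop
  | .a _ i, .t j => i = j
  | .a c i, .w j => c = 0 ∧ i ≠ j
  | .a c i, .b d => c < d + 1 ∨ (c = d + 1 ∧ (i = (q.getD d default).1 ∨ i = (q.getD d default).2.1))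
  | .a c i, .r d => c < d + 1 ∨
      (c = d + 1 ∧ (i = (q.getD d default).2.2.1 ∨ i = (q.getD d default).2.2.2))
  | _, _ => False

/-- Adjacency. -/
def Adj (q : List Con) (u v : Vx) : Prop := AB q u v ∨ AB q v u

/-- no alternating-edge obstruction for the positions `pos` -/
def Good (n : ℕ) (q : List Con) (pos : Vx → ℤ) : Prop :=
  ∀ u v x y : Vx, Valid n q u → Valid n q v → Valid n q x → Valid n q y →
    pos u < pos v → pos v < pos x → pos x < pos y →
    ¬ (Adj q u x ∧ Adj q v y ∧ ¬ Adj q u v ∧ ¬ Adj q v x ∧ ¬ Adj q x y ∧ ¬ Adj q y u)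

/-- order indicator -/
def s {α : Type} (pos : α → ℤ) (u v : α) : ZMod 2 := if pos u < pos v then 1 else 0

/-- parity of the number of crossings of the chords `uv` and `xy` -/
def cr {α : Type} (pos : α → ℤ) (u v x y : α) : ZMod 2 :=
  s pos u x + s pos u y + s pos v x + s pos v y

section cr

variable {α : Type} {pos : α → ℤ}

lemma two_zmod : (2 : ZMod 2) = 0 := rfl

lemma cr_add_left (u v w x y : α) : cr pos u v x y + cr pos v w x y = cr pos u w x y := by
  unfold cr
  linear_combination (s pos v x + s pos v y) * two_zmod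

lemma cr_add_right (u v x y z : α) : cr pos u v x y + cr pos u v y z = cr pos u v x z := by
  unfold cr
  linear_combination (s pos u y + s pos v y) * two_zmod

lemma cr_swap_left (u v x y : α) : cr pos u v x y = cr pos v u x y := by
  unfold cr
  ring

lemma cr_swap_right (u v x y : α) : cr pos u v x y = cr pos u v y x := by
  unfold cr
  ring

lemma s_antisymm {u v : α} (h : pos u ≠ pos v) : s pos u v = 1 + s pos v u := by
  unfold s
  rcases lt_or_gt_of_ne h with h | h
  · rw [if_pos h, if_neg (by omega)]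
    rfl
  · rw [if_neg (by omega), if_pos h]
    rfl

lemma cr_comm {u v x y : α} (h1 : pos u ≠ pos x) (h2 : pos u ≠ pos y) (h3 : pos v ≠ pos x)
    (h4 : pos v ≠ pos y) : cr pos u v x y = cr pos x y u v := by
  unfold cr
  rw [s_antisymm h1, s_antisymm h2, s_antisymm h3, s_antisymm h4]
  linear_combination 2 * two_zmod

/-- Exactly one of the three pairings of four points crosses. -/
lemma cr_three {u v x y : α} (h4 : pos v ≠ pos x) (h5 : pos v ≠ pos y) (h6 : pos x ≠ pos y) :
    cr pos u v x y + cr pos u x v y + cr pos u y v x = 1 := by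
  unfold cr
  rw [s_antisymm h4, s_antisymm h5, s_antisymm h6]
  linear_combination (s pos u x + s pos u y + s pos u v + s pos x v + s pos y v + s pos y x + 1)
    * two_zmod

end cr

section forward

variable {n : ℕ} {q : List Con} {pos : Vx → ℤ}

lemma nocross (hg : Good n q pos) (hinj : ∀ u v, Valid n q u → Valid n q v → pos u = pos v → u = v)
    {u v x y : Vx} (hu : Valid n q u) (hv : Valid n q v) (hx : Valid n q x) (hy : Valid n q y)
    (h1 : Adj q u v) (h2 : Adj q x y) (h3 : ¬ Adj q u x) (h4 : ¬ Adj q u y) (h5 : ¬ Adj q v x)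
    (h6 : ¬ Adj q v y) (d1 : u ≠ x) (d2 : u ≠ y) (d3 : v ≠ x) (d4 : v ≠ y) :
    cr pos u v x y = 0 := by
  have sy : ∀ {a b : Vx}, Adj q a b → Adj q b a := fun h => h.symm
  have ns : ∀ {a b : Vx}, ¬ Adj q a b → ¬ Adj q b a := fun h h' => h (sy h')
  have e1 : pos u ≠ pos x := fun h => d1 (hinj _ _ hu hx h)
  have e2 : pos u ≠ pos y := fun h => d2 (hinj _ _ hu hy h)
  have e3 : pos v ≠ pos x := fun h => d3 (hinj _ _ hv hx h)
  have e4 : pos v ≠ pos y := fun h => d4 (hinj _ _ hv hy h)
  unfold cr s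
  by_cases c1 : pos u < pos x <;> by_cases c2 : pos u < pos y <;>
    by_cases c3 : pos v < pos x <;> by_cases c4 : pos v < pos y
  · simp only [c1, c2, c3, c4, if_true]; rfl
  · exact absurd ⟨h1, sy h2, h4, ns h6, h5, ns h3⟩
      (hg u y v x hu hy hv hx (by omega) (by omega) (by omega))
  · exact absurd ⟨h1, h2, h3, ns h5, h6, ns h4⟩
      (hg u x v y hu hx hv hy (by omega) (by omega) (by omega))
  · simp only [c1, c2, c3, c4, if_true, if_false]; rfl
  · exact absurd ⟨sy h1, sy h2, h6, ns h4, h3, ns h5⟩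
      (hg v y u x hv hy hu hx (by omega) (by omega) (by omega))
  · simp only [c1, c2, c3, c4, if_true, if_false]; rfl
  · omega
  · exact absurd ⟨sy h2, h1, ns h4, h3, ns h5, h6⟩
      (hg y u x v hy hu hx hv (by omega) (by omega) (by omega))
  · exact absurd ⟨sy h1, h2, h5, ns h3, h4, ns h6⟩
      (hg v x u y hv hx hu hy (by omega) (by omega) (by omega))
  · omega
  · simp only [c1, c2, c3, c4, if_true, if_false]; rfl
  · exact absurd ⟨h2, h1, ns h3, h4, ns h6, h5⟩
      (hg x u y v hx hu hy hv (by omega) (by omega) (by omega))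
  · simp only [c1, c2, c3, c4, if_true, if_false]; rfl
  · exact absurd ⟨sy h2, sy h1, ns h6, h5, ns h3, h4⟩
      (hg y v x u hy hv hx hu (by omega) (by omega) (by omega))
  · exact absurd ⟨h2, sy h1, ns h5, h6, ns h4, h3⟩
      (hg x v y u hx hv hy hu (by omega) (by omega) (by omega))
  · simp only [c1, c2, c3, c4, if_false]; rfl

/-- all the constraints are between distinct elements below `n` -/
def ConOK (n : ℕ) (q : List Con) : Prop :=
  ∀ c ∈ q, c.1 < n ∧ c.2.1 < n ∧ c.2.2.1 < n ∧ c.2.2.2 < n ∧ c.1 ≠ c.2.1 ∧ c.1 ≠ c.2.2.1 ∧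
    c.1 ≠ c.2.2.2 ∧ c.2.1 ≠ c.2.2.1 ∧ c.2.1 ≠ c.2.2.2 ∧ c.2.2.1 ≠ c.2.2.2

lemma cr_tw (hg : Good n q pos)
    (hinj : ∀ u v, Valid n q u → Valid n q v → pos u = pos v → u = v) {c i j : ℕ}
    (hc : c ≤ q.length) (hi : i < n) (hj : j < n) (hij : i ≠ j) :
    cr pos (.t i) (.a c i) (.w i) (.a 0 j) = 0 := by
  apply nocross hg hinj
  · exact hi
  · exact ⟨hc, hi⟩
  · exact hi
  · exact ⟨Nat.zero_le _, hj⟩
  · exact Or.inr rfl
  · exact Or.inr ⟨rfl, hij.symm⟩
  · rintro (h | h) <;> exact h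
  · rintro (h | h)
    · exact h
    · exact hij h.symm
  · rintro (h | h)
    · exact h.2 rfl
    · exact h
  · rintro (h | h) <;> exact h
  · simp
  · simp
  · simp
  · simp only [ne_eq, Vx.a.injEq, not_and]
    intro _
    exact hij

lemma cr_tt (hg : Good n q pos)
    (hinj : ∀ u v, Valid n q u → Valid n q v → pos u = pos v → u = v) {c c' i j : ℕ}
    (hc : c ≤ q.length) (hc' : c' ≤ q.length) (hi : i < n) (hj : j < n) (hij : i ≠ j) :
    cr pos (.t i) (.a c i) (.t j) (.a c' j) = 0 := by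
  apply nocross hg hinj
  · exact hi
  · exact ⟨hc, hi⟩
  · exact hj
  · exact ⟨hc', hj⟩
  · exact Or.inr rfl
  · exact Or.inr rfl
  · rintro (h | h) <;> exact h
  · rintro (h | h)
    · exact h
    · exact hij h.symm
  · rintro (h | h)
    · exact hij h
    · exact h
  · rintro (h | h) <;> exact h
  · simp only [ne_eq, Vx.t.injEq]
    exact hij
  · simp
  · simp
  · simp only [ne_eq, Vx.a.injEq, not_and]
    intro _
    exact hij

lemma cr_A (hg : Good n q pos)
    (hinj : ∀ u v, Valid n q u → Valid n q v → pos u = pos v → u = v) {c i j l : ℕ}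
    (hc : c ≤ q.length) (hi : i < n) (hj : j < n) (hl : l < n) (hij : i ≠ j) (hil : i ≠ l) :
    cr pos (.a 0 i) (.a c i) (.a 0 j) (.a 0 l) = 0 := by
  have h1 := cr_tw hg hinj hc hi hj hij
  have h2 := cr_tw hg hinj hc hi hl hil
  have h3 := cr_tw hg hinj (Nat.zero_le _) hi hj hij
  have h4 := cr_tw hg hinj (Nat.zero_le _) hi hl hil
  unfold cr at *
  linear_combination h1 + h2 + h3 + h4 - (2 * s pos (.t i) (.w i) + s pos (.t i) (.a 0 j) +
    s pos (.t i) (.a 0 l) + s pos (.a c i) (.w i) + s pos (.a 0 i) (.w i)) * two_zmod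

lemma cr_B (hg : Good n q pos)
    (hinj : ∀ u v, Valid n q u → Valid n q v → pos u = pos v → u = v) {c c' i j : ℕ}
    (hc : c ≤ q.length) (hc' : c' ≤ q.length) (hi : i < n) (hj : j < n) (hij : i ≠ j) :
    cr pos (.a 0 i) (.a c i) (.a 0 j) (.a c' j) = 0 := by
  have h1 := cr_tt hg hinj hc hc' hi hj hij
  have h2 := cr_tt hg hinj (Nat.zero_le _) hc' hi hj hij
  have h3 := cr_tt hg hinj hc (Nat.zero_le _) hi hj hij
  have h4 := cr_tt hg hinj (Nat.zero_le q.length) (Nat.zero_le q.length) hi hj hij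
  unfold cr at *
  linear_combination h1 + h2 + h3 + h4 - (2 * s pos (.t i) (.t j) + s pos (.t i) (.a 0 j) +
    s pos (.t i) (.a c' j) + s pos (.a c i) (.t j) + s pos (.a 0 i) (.t j)) * two_zmod

/-- The constraints hold for the order of the level `0` copies. -/
theorem cons_hold (hg : Good n q pos)
    (hinj : ∀ u v, Valid n q u → Valid n q v → pos u = pos v → u = v) (hq : ConOK n q) {c : Con}
    (hcq : c ∈ q) :
    cr (fun i => pos (.a 0 i)) c.1 c.2.1 c.2.2.1 c.2.2.2 = 0 := by
  obtain ⟨d, hd, hdc⟩ := List.getElem_of_mem hcq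
  have hdc' : q.getD d default = c := by
    rw [List.getD_eq_getElem _ _ hd, hdc]
  obtain ⟨x, y, z, w⟩ := c
  obtain ⟨hx, hy, hz, hw, nxy, nxz, nxw, nyz, nyw, nzw⟩ := hq _ hcq
  simp only at hx hy hz hw nxy nxz nxw nyz nyw nzw
  have key : ∀ i j, (i = x ∨ i = y) → (j = z ∨ j = w) →
      cr pos (.b d) (.a (d + 1) i) (.r d) (.a (d + 1) j) = 0 := by
    intro i j hi hj
    have hin : i < n := by rcases hi with rfl | rfl <;> assumption
    have hjn : j < n := by rcases hj with rfl | rfl <;> assumption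
    have hij1 : j ≠ x ∧ j ≠ y := by rcases hj with rfl | rfl <;> constructor <;> omega
    have hij2 : i ≠ z ∧ i ≠ w := by rcases hi with rfl | rfl <;> constructor <;> omega
    apply nocross hg hinj
    · exact hd
    · exact ⟨hd, hin⟩
    · exact hd
    · exact ⟨hd, hjn⟩
    · right
      refine Or.inr ⟨rfl, ?_⟩
      rw [hdc']
      exact hi
    · right
      refine Or.inr ⟨rfl, ?_⟩
      rw [hdc']
      exact hj
    · rintro (h | h) <;> exact h
    · rintro (h | h)
      · exact h
      · simp only [AB, hdc'] at h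
        omega
    · rintro (h | h)
      · simp only [AB, hdc'] at h
        omega
      · exact h
    · rintro (h | h) <;> exact h
    · simp
    · simp
    · simp
    · simp only [ne_eq, Vx.a.injEq, not_and]
      intro _ h
      rcases hi with rfl | rfl <;> rcases hj with rfl | rfl <;> omega
  have hd1 : d + 1 ≤ q.length := hd
  have k1 := key x z (Or.inl rfl) (Or.inl rfl)
  have k2 := key x w (Or.inl rfl) (Or.inr rfl)
  have k3 := key y z (Or.inr rfl) (Or.inl rfl)
  have k4 := key y w (Or.inr rfl) (Or.inr rfl)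
  have m1 : cr pos (.a (d + 1) x) (.a (d + 1) y) (.a (d + 1) z) (.a (d + 1) w) = 0 := by
    unfold cr at *
    linear_combination k1 + k2 + k3 + k4 - (2 * s pos (.b d) (.r d) + s pos (.b d) (.a (d + 1) z) +
      s pos (.b d) (.a (d + 1) w) + s pos (.a (d + 1) x) (.r d) + s pos (.a (d + 1) y) (.r d))
      * two_zmod
  have ne : ∀ {c c' i j : ℕ}, c ≤ q.length → c' ≤ q.length → i < n → j < n → i ≠ j →
      pos (.a c i) ≠ pos (.a c' j) := by
    intro c c' i j hc hc' hi hj hij h
    have := hinj (.a c i) (.a c' j) ⟨hc, hi⟩ ⟨hc', hj⟩ h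
    simp only [Vx.a.injEq] at this
    exact hij this.2
  have z0 : 0 ≤ q.length := Nat.zero_le _
  have A1 := cr_A hg hinj hd1 hx hz hw nxz nxw
  have A2 := cr_A hg hinj hd1 hy hz hw nyz nyw
  have A3 := cr_A hg hinj hd1 hz hx hy nxz.symm nyz.symm
  have A4 := cr_A hg hinj hd1 hw hx hy nxw.symm nyw.symm
  have B1 := cr_B hg hinj hd1 hd1 hx hz nxz
  have B2 := cr_B hg hinj hd1 hd1 hx hw nxw
  have B3 := cr_B hg hinj hd1 hd1 hy hz nyz
  have B4 := cr_B hg hinj hd1 hd1 hy hw nyw
  rw [cr_comm (ne z0 z0 hz hx nxz.symm) (ne z0 z0 hz hy nyz.symm) (ne hd1 z0 hz hx nxz.symm)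
    (ne hd1 z0 hz hy nyz.symm)] at A3
  rw [cr_comm (ne z0 z0 hw hx nxw.symm) (ne z0 z0 hw hy nyw.symm) (ne hd1 z0 hw hx nxw.symm)
    (ne hd1 z0 hw hy nyw.symm)] at A4
  show cr pos (.a 0 x) (.a 0 y) (.a 0 z) (.a 0 w) = 0
  unfold cr at *
  linear_combination (norm := (ring_nf; reduce_mod_char)) m1 + A1 + A2 + A3 + A4 + B1 + B2 + B3 + B4

end forward

end Pool.Agent.H78.OS
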