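import Pool.Agent.H78.OuterA
import Pool.Agent.H78.GDk

/-!
# Cyclic orderings of bipartite graphs without alternating edges: the constraints of a formula
-/

set_option autoImplicit false
set_option linter.unusedVariables false
set_option linter.unusedSimpArgs false

namespace Pool.Agent.H78.OS

open Pool.Agent.H78.GD (Lit lit SatBy)

lemma order5 {α : Type} {pos : α → ℤ} {a b x y v : α} (h1 : cr pos a b x y = 0)
    (h2 : cr pos a b x v = 1) (d1 : pos a ≠ pos b) (d2 : pos a ≠ pos x) (d3 : pos a ≠ pos y)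
    (d4 : pos a ≠ pos v) (d5 : pos b ≠ pos x) (d6 : pos b ≠ pos y) (d7 : pos b ≠ pos v)
    (d8 : pos x ≠ pos y) (d9 : pos x ≠ pos v) (d10 : pos y ≠ pos v) : cr pos a v x y = 0 := by
  unfold cr s at *
  generalize pos a = A at *
  generalize pos b = B at *
  generalize pos x = X at *
  generalize pos y = Y at *
  generalize pos v = V at *
  have e11 : (1 : ZMod 2) + 1 = 0 := rfl
  by_cases c1 : A < X <;> by_cases c2 : A < Y <;> by_cases c3 : B < X <;> by_cases c4 : B < Y <;>
    simp only [c1, c2, c3, c4, if_true, if_false, e11, zero_add, add_zero] at h1 h2 ⊢ <;>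
    first
    | exact absurd h1 (by decide)
    | (by_cases c5 : A < V <;> by_cases c6 : B < V <;>
        simp only [c5, c6, if_true, if_false, e11, zero_add, add_zero] at h2 <;>
        first
        | exact absurd h2 (by decide)
        | (by_cases c7 : V < X <;> by_cases c8 : V < Y <;>
            simp only [c7, c8, if_true, if_false, e11, zero_add, add_zero] <;>
            first
            | rfl
            | (exfalso; omega)))

/-- `y` is between `x` and `z`, seen from the element `0` -/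
def btw (x y z : ℕ) : List Con := [(0, x, y, z), (0, z, x, y)]

/-- element of an occurrence -/
def eP (o : ℕ) : ℕ := 3 + o

/-- first auxiliary element of a clause -/
def eV (T i : ℕ) : ℕ := 3 + T + 2 * i

/-- second auxiliary element of a clause -/
def eW (T i : ℕ) : ℕ := 3 + T + 2 * i + 1

/-- number of elements -/
def nE (ls : List Lit) : ℕ := 3 + ls.length + 2 * (ls.length / 3)

/-- constraints of a clause -/
def consC (T i : ℕ) : List Con :=
  btw (eP (3 * i)) (eV T i) (eP (3 * i + 1)) ++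
    (btw (eV T i) (eW T i) (eP (3 * i + 2)) ++ btw (eW T i) 1 2)

/-- constraints of a pair of occurrences -/
def consL (ls : List Lit) (o o' : ℕ) : List Con :=
  if (lit ls o).2 && lit ls o' == ((lit ls o).1, false) then btw (eP o) 1 (eP o') else []

/-- The constraints of a formula. -/
def cons (ls : List Lit) : List Con :=
  (List.range (ls.length / 3)).flatMap (consC ls.length) ++
    (List.range ls.length).flatMap fun o => (List.range ls.length).flatMap (consL ls o)

lemma mem_cons {ls : List Lit} {c : Con} : c ∈ cons ls ↔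
    (∃ i < ls.length / 3, c ∈ consC ls.length i) ∨
      (∃ o < ls.length, ∃ o' < ls.length, c ∈ consL ls o o') := by
  simp [cons]

lemma mem_consL {ls : List Lit} {o o' : ℕ} {c : Con} : c ∈ consL ls o o' ↔
    ((lit ls o).2 = true ∧ (lit ls o').1 = (lit ls o).1 ∧ (lit ls o').2 = false) ∧
      c ∈ btw (eP o) 1 (eP o') := by
  unfold consL
  split_ifs with h
  · simp only [Bool.and_eq_true, beq_iff_eq] at h
    have h1 : (lit ls o).2 = true ∧ (lit ls o').1 = (lit ls o).1 ∧ (lit ls o').2 = false :=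
      ⟨h.1, by rw [h.2], by rw [h.2]⟩
    exact ⟨fun h2 => ⟨h1, h2⟩, fun h2 => h2.2⟩
  · constructor
    · intro h2
      simp at h2
    · rintro ⟨⟨h1, h2, h3⟩, -⟩
      exfalso
      apply h
      simp only [Bool.and_eq_true, beq_iff_eq]
      exact ⟨h1, Prod.ext h2 h3⟩

lemma conOK_btw {n x y z : ℕ} (hx : x < n) (hy : y < n) (hz : z < n) (h0x : 0 ≠ x) (h0y : 0 ≠ y)
    (h0z : 0 ≠ z) (hxy : x ≠ y) (hxz : x ≠ z) (hyz : y ≠ z) : ConOK n (btw x y z) := by
  intro c hc
  simp only [btw, List.mem_cons, List.not_mem_nil, or_false] at hc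
  rcases hc with rfl | rfl <;> simp only <;> omega

theorem conOK_cons (ls : List Lit) : ConOK (nE ls) (cons ls) := by
  intro c hc
  rw [mem_cons] at hc
  rcases hc with ⟨i, hi, hc⟩ | ⟨o, ho, o', ho', hc⟩
  · simp only [consC, List.mem_append] at hc
    rcases hc with hc | hc | hc
    · refine conOK_btw ?_ ?_ ?_ ?_ ?_ ?_ ?_ ?_ ?_ c hc <;> (try unfold eP) <;> (try unfold eV) <;>
        (try unfold eW) <;> (try unfold nE) <;> omega
    · refine conOK_btw ?_ ?_ ?_ ?_ ?_ ?_ ?_ ?_ ?_ c hc <;> (try unfold eP) <;> (try unfold eV) <;>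
        (try unfold eW) <;> (try unfold nE) <;> omega
    · refine conOK_btw ?_ ?_ ?_ ?_ ?_ ?_ ?_ ?_ ?_ c hc <;> (try unfold eP) <;> (try unfold eV) <;>
        (try unfold eW) <;> (try unfold nE) <;> omega
  · rw [mem_consL] at hc
    obtain ⟨⟨h1, h2, h3⟩, hc⟩ := hc
    have hne : o ≠ o' := by
      rintro rfl
      rw [h1] at h3
      exact absurd h3 (by decide)
    refine conOK_btw ?_ ?_ ?_ ?_ ?_ ?_ ?_ ?_ ?_ c hc <;> (try unfold eP) <;> (try unfold nE) <;>
      omega

section forward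

variable {ls : List Lit} {P : ℕ → ℤ}

/-- the side of the chord `01` opposite to the element `2` -/
def tr (P : ℕ → ℤ) (e : ℕ) : ZMod 2 := cr P 0 1 2 e

lemma cr01 (e e' : ℕ) : cr P 0 1 e e' = tr P e + tr P e' := by
  unfold tr
  rw [cr_swap_right 0 1 2 e]
  exact (cr_add_right 0 1 e 2 e').symm

lemma zmod_cases (a : ZMod 2) : a = 0 ∨ a = 1 := by
  fin_cases a
  · exact Or.inl rfl
  · exact Or.inr rfl

/-- betweenness of the element `1` -/
lemma btw_one {n x z : ℕ} (hinj : ∀ i < n, ∀ j < n, P i = P j → i = j)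
    (hc : ∀ c ∈ btw x 1 z, cr P c.1 c.2.1 c.2.2.1 c.2.2.2 = 0) (h1n : 1 < n) (hx : x < n)
    (hz : z < n) (h1x : 1 ≠ x) (h1z : 1 ≠ z) (hxz : x ≠ z) :
    tr P x + tr P z = 1 := by
  rw [← cr01]
  have h1 := hc (0, x, 1, z) (by simp [btw])
  have h2 := hc (0, z, x, 1) (by simp [btw])
  simp only at h1 h2
  have h3 := cr_three (pos := P) (u := 0) (v := 1) (x := x) (y := z)
    (fun h => h1x (hinj _ h1n _ hx h)) (fun h => h1z (hinj _ h1n _ hz h))
    (fun h => hxz (hinj _ hx _ hz h))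
  rw [h1, cr_swap_right 0 z 1 x, h2] at h3
  simpa using h3

lemma btw_side {n x v y : ℕ} (hinj : ∀ i < n, ∀ j < n, P i = P j → i = j)
    (hc : ∀ c ∈ btw x v y, cr P c.1 c.2.1 c.2.2.1 c.2.2.2 = 0) (h1n : 1 < n) (hx : x < n)
    (hv : v < n) (hy : y < n) (h0x : 0 ≠ x) (h0v : 0 ≠ v) (h0y : 0 ≠ y) (h1x : 1 ≠ x)
    (h1v : 1 ≠ v) (h1y : 1 ≠ y) (hxv : x ≠ v) (hxy : x ≠ y) (hvy : v ≠ y)
    (tx : tr P x = 0) (ty : tr P y = 0) : tr P v = 0 := by
  rcases zmod_cases (tr P v) with h | h
  · exact h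
  exfalso
  have h1 := hc (0, x, v, y) (by simp [btw])
  have h2 := hc (0, y, x, v) (by simp [btw])
  simp only at h1 h2
  have ne : ∀ {i j : ℕ}, i < n → j < n → i ≠ j → P i ≠ P j := fun hi hj hij h =>
    hij (hinj _ hi _ hj h)
  have h3 := cr_three (pos := P) (u := 0) (v := v) (x := x) (y := y)
    (ne hv hx hxv.symm) (ne hv hy hvy) (ne hx hy hxy)
  rw [h1, cr_swap_right 0 y v x, h2] at h3
  have h4 : cr P 0 1 x y = 0 := by
    rw [cr01, tx, ty]
    rfl
  have h5 : cr P 0 1 x v = 1 := by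
    rw [cr01, tx, h]
    rfl
  have h0n : 0 < n := by omega
  have h6 := order5 h4 h5 (ne h0n h1n (by omega)) (ne h0n hx h0x) (ne h0n hy h0y) (ne h0n hv h0v)
    (ne h1n hx h1x) (ne h1n hy h1y) (ne h1n hv h1v) (ne hx hy hxy) (ne hx hv hxv)
    (ne hy hv hvy.symm)
  rw [h6] at h3
  simp at h3

theorem sat_of_order (hinj : ∀ i < nE ls, ∀ j < nE ls, P i = P j → i = j)
    (hc : ∀ c ∈ cons ls, cr P c.1 c.2.1 c.2.2.1 c.2.2.2 = 0) : ∃ σ, SatBy ls σ := by
  classical
  have h1n : 1 < nE ls := by unfold nE; omega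
  refine ⟨fun x => decide (∃ o < ls.length, lit ls o = (x, true) ∧ tr P (eP o) = 1), ?_⟩
  have hpair : ∀ o < ls.length, ∀ o' < ls.length, (lit ls o).2 = true →
      (lit ls o').1 = (lit ls o).1 → (lit ls o').2 = false → tr P (eP o) + tr P (eP o') = 1 := by
    intro o ho o' ho' h1 h2 h3
    have hne : o ≠ o' := by
      rintro rfl
      rw [h1] at h3
      exact absurd h3 (by decide)
    refine btw_one hinj (fun c hc' => hc c (mem_cons.mpr (Or.inr ⟨o, ho, o', ho',
      mem_consL.mpr ⟨⟨h1, h2, h3⟩, hc'⟩⟩))) h1n ?_ ?_ ?_ ?_ ?_ <;> (try unfold eP) <;>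
      (try unfold nE) <;> omega
  have key : ∀ o < ls.length, tr P (eP o) = 1 →
      decide (∃ o' < ls.length, lit ls o' = ((lit ls o).1, true) ∧ tr P (eP o') = 1) =
        (lit ls o).2 := by
    intro o ho h
    rcases hs : (lit ls o).2 with _ | _
    · rw [decide_eq_false_iff_not]
      rintro ⟨o', ho', h1, h2⟩
      have h3 := hpair o' ho' o ho (by rw [h1]) (by rw [h1]) hs
      rw [h, h2] at h3
      exact absurd h3 (by decide)
    · rw [decide_eq_true_iff]
      exact ⟨o, ho, Prod.ext rfl hs, h⟩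
  intro i hi
  by_contra hcon
  push Not at hcon
  obtain ⟨n1, n2, n3⟩ := hcon
  have t1 : tr P (eP (3 * i)) = 0 := by
    rcases zmod_cases (tr P (eP (3 * i))) with h | h
    · exact h
    · exact absurd (key _ (by omega) h) n1
  have t2 : tr P (eP (3 * i + 1)) = 0 := by
    rcases zmod_cases (tr P (eP (3 * i + 1))) with h | h
    · exact h
    · exact absurd (key _ (by omega) h) n2
  have t3 : tr P (eP (3 * i + 2)) = 0 := by
    rcases zmod_cases (tr P (eP (3 * i + 2))) with h | h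
    · exact h
    · exact absurd (key _ (by omega) h) n3
  have c1 : ∀ c ∈ btw (eP (3 * i)) (eV ls.length i) (eP (3 * i + 1)),
      cr P c.1 c.2.1 c.2.2.1 c.2.2.2 = 0 := fun c h =>
    hc c (mem_cons.mpr (Or.inl ⟨i, hi, List.mem_append_left _ h⟩))
  have c2 : ∀ c ∈ btw (eV ls.length i) (eW ls.length i) (eP (3 * i + 2)),
      cr P c.1 c.2.1 c.2.2.1 c.2.2.2 = 0 := fun c h =>
    hc c (mem_cons.mpr (Or.inl ⟨i, hi, List.mem_append_right _ (List.mem_append_left _ h)⟩))
  have c3 : ∀ c ∈ btw (eW ls.length i) 1 2,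
      cr P c.1 c.2.1 c.2.2.1 c.2.2.2 = 0 := fun c h =>
    hc c (mem_cons.mpr (Or.inl ⟨i, hi, List.mem_append_right _ (List.mem_append_right _ h)⟩))
  have tv : tr P (eV ls.length i) = 0 := by
    refine btw_side hinj c1 h1n ?_ ?_ ?_ ?_ ?_ ?_ ?_ ?_ ?_ ?_ ?_ ?_ t1 t2 <;>
      simp only [eP, eV, eW, nE] <;> omega
  have tw : tr P (eW ls.length i) = 0 := by
    refine btw_side hinj c2 h1n ?_ ?_ ?_ ?_ ?_ ?_ ?_ ?_ ?_ ?_ ?_ ?_ tv t3 <;>
      simp only [eP, eV, eW, nE] <;> omega
  have h4 : tr P (eW ls.length i) + tr P 2 = 1 := by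
    refine btw_one hinj c3 h1n ?_ ?_ ?_ ?_ ?_ <;>
      (try unfold eW) <;> (try unfold nE) <;> omega
  have h5 : tr P 2 = 0 := by
    unfold tr cr
    linear_combination (s P 0 2 + s P 1 2) * two_zmod
  rw [tw, h5] at h4
  exact absurd h4 (by decide)

end forward

end Pool.Agent.H78.OS
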